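import Pool.Agent.NTS.FishBase

/-!
NTW for EVERY step number: the law of the end point of the limits (project TAIL, helper83).

* `LowCQ`, `EndX`: the literals (no concentration near any point; the bound for every point);
* **`noatom_of`**: the end point of every weak limit has no atom;
* **`density_of`**: the end point of every weak limit has a bounded density; `endX_saw`: the bound for the walks.
-/

set_option autoImplicit false

namespace HexObs

namespace NTW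

open Finset TS SDN

open scoped ENNReal

/-- few walks end near any point, every n -/
def LowCQ (m : ℕ → ℝ) : Prop := ∀ e : ℝ, 0 < e → ∃ (κ : ℝ) (k0 : ℕ), 0 < κ ∧ ∀ k n : ℕ, k0 ≤ k → m k ≤ n →
  n < m (k + 1) → ∀ x : Pt, gf {t | t ∈ SawN n ∧ ∀ dir : Bool,
    |((lvl dir (vx oo up t n) - lvl dir x : ℤ) : ℝ)| ≤ κ * 2 ^ k} ≤ ENNReal.ofReal e * nuX m k

/-- the bound for the walks that end at one point, every n -/
def EndX (m : ℕ → ℝ) : Prop := ∃ (C : ℝ) (k0 : ℕ), 0 < C ∧ ∀ k n : ℕ, k0 ≤ k → m k ≤ n → n < m (k + 1) →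
  ∀ x : Pt, gf {t | t ∈ SawN n ∧ vx oo up t n = x} ≤ ENNReal.ofReal (C / 4 ^ k) * nuX m k

end NTW

end HexObs

namespace NTSF.Mod

open NTSF

open Finset MeasureTheory Filter Topology

open HexObs hiding pos

open HexObs.SDN HexObs.NTW HexObs.TS

open NTF (sw JJ open_le cont_eval)

open Pool.Agent.NTS.Res

open scoped ENNReal Classical

lemma om_inv_mul (z : ℂ) : om * (om⁻¹ * z) = z := mul_inv_cancel_left₀ om_ne z

/-- the rotations of a ball event -/
lemma rot_ball {n : ℕ} (t : List Bool) (z : ℂ) (r : ℝ) :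
    (‖pos (rot (sw n t)) n - z‖ ≤ r ↔ ‖pos (sw n t) n - om⁻¹ * z‖ ≤ r) ∧
    (‖pos (rot (rot (sw n t))) n - z‖ ≤ r ↔ ‖pos (sw n t) n - om⁻¹ * (om⁻¹ * z)‖ ≤ r) := by
  have key : ∀ (s : Fin n → Fin 3) (z : ℂ), ‖pos (rot s) n - z‖ = ‖pos s n - om⁻¹ * z‖ := by
    intro s z
    rw [pos_rot]
    have h1 : om * pos s n - z = om * (pos s n - om⁻¹ * z) := by
      rw [mul_sub, om_inv_mul]
    rw [h1, norm_mul, om_norm, one_mul]
  constructor
  · rw [key]
  · rw [key, key]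

/-- few walks end near any point -/
theorem near_saw {m : ℕ → ℝ} {R : ℕ → ℝ} {κ : ℕ → ℕ} {c0 C1 cd Cu cs Cs : ℝ} {N : ℕ}
    (hB : Base m R κ c0 C1 cd Cu cs Cs N) (hL : LowCQ m) {ε : ℝ} (hε : 0 < ε) : ∃ (q : ℝ) (n0 : ℕ), 0 < q ∧
      ∀ n : ℕ, n0 ≤ n → ∀ z : ℂ,
        (((saw n).filter fun s => ‖pos s n - z‖ ≤ q * size n).card : ℝ) ≤ ε * ((saw n).card : ℝ) := by
  have hc0 := hB.pc0
  have hCu := hB.pCu
  obtain ⟨p, k0, hp, h1⟩ := hL (ε / 3 / c0) (by positivity)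
  obtain ⟨n1, hn1⟩ := hB.top k0
  obtain ⟨j, hj⟩ := pow_unbounded_of_one_lt (8 / p) (show (1 : ℝ) < 2 by norm_num)
  obtain ⟨n2, hn2⟩ := hB.top j
  refine ⟨p / 4 / Cu, N + n1 + n2, by positivity, fun n hn z => ?_⟩
  have b0 : N ≤ n := by omega
  have hn0 : 0 < n := by
    have := hB.N1
    omega
  have hR : R n = 2 ^ κ n := hB.R2 n
  have hsz := hB.sup n b0
  -- the words
  have key : ∀ w : ℂ, ∃ B : Set (List Bool), gf B ≤ ENNReal.ofReal (ε / 3) * gf (SawN n) ∧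
      ∀ t ∈ SawN n, ‖pos (sw n t) n - w‖ ≤ p / 4 / Cu * size n → t ∈ B := by
    intro w
    obtain ⟨x, hx⟩ := near_pt w
    refine ⟨{t | t ∈ SawN n ∧ ∀ dir : Bool, |((lvl dir (vx oo up t n) - lvl dir x : ℤ) : ℝ)| ≤ p * 2 ^ κ n}, ?_, ?_⟩
    · refine (h1 (κ n) n (hn1 n (by omega)) (hB.sc n b0).1 (hB.sc n b0).2 x).trans ?_
      calc ENNReal.ofReal (ε / 3 / c0) * nuX m (κ n) ≤
          ENNReal.ofReal (ε / 3 / c0) * (ENNReal.ofReal c0 * gf (SawN n)) := mul_le_mul_right (hB.lo n b0) _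
        _ = _ := by
            rw [← mul_assoc, ← ENNReal.ofReal_mul (by positivity), div_mul_cancel₀ _ hc0.ne']
    · intro t ht h2
      refine ⟨ht, fun dir => ?_⟩
      rw [pos_sw n t n le_rfl] at h2
      have h3 : ‖JJ (vx oo up t n - x)‖ ≤ p / 4 / Cu * size n + 2 := by
        rw [NTF.JJ_sub]
        have h4 : JJ (vx oo up t n) - JJ x = (JJ (vx oo up t n) - w) - (JJ x - w) := by ring
        rw [h4]
        exact (norm_sub_le _ _).trans (add_le_add h2 hx)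
      have h5 := lvl_le_norm dir (vx oo up t n - x)
      rw [NTF.lvl_sub] at h5
      refine h5.trans ?_
      have h6 : p / 4 / Cu * size n ≤ p / 4 * 2 ^ κ n := by
        rw [← hR]
        calc p / 4 / Cu * size n ≤ p / 4 / Cu * (Cu * R n) := mul_le_mul_of_nonneg_left hsz (by positivity)
          _ = _ := by field_simp
      have h7 : (2 : ℝ) ^ j ≤ 2 ^ κ n := pow_le_pow_right₀ (by norm_num) (hn2 n (by omega))
      have h8 : 8 ≤ p * 2 ^ κ n := by
        rw [div_lt_iff₀ hp] at hj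
        nlinarith
      linarith
  obtain ⟨B0, g0, f0⟩ := key z
  obtain ⟨B1, g1, f1⟩ := key (om⁻¹ * z)
  obtain ⟨B2, g2, f2⟩ := key (om⁻¹ * (om⁻¹ * z))
  have h := prop_le3 hn0 (fun s => ‖pos s n - z‖ ≤ p / 4 / Cu * size n) (c := ε / 3) (by positivity)
    f0 (fun t ht h => f1 t ht ((rot_ball t z _).1.1 h)) (fun t ht h => f2 t ht ((rot_ball t z _).2.1 h)) g0 g1 g2
  rwa [show 3 * (ε / 3) = ε by ring] at h

/-- **the end point of every weak limit has no atom** -/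
theorem noatom_of {m : ℕ → ℝ} (hlo : ∃ c : ℝ, 0 < c ∧ ∀ k : ℕ, c * (2 : ℝ) ^ (4 / 3 * (k : ℝ)) ≤ m k)
    (hup : ∃ C : ℝ, ∀ k : ℕ, m k ≤ C * (2 : ℝ) ^ (4 / 3 * (k : ℝ))) (hF : FactsX m) (hL : LowCQ m)
    {φ : ℕ → ℕ} (hφ : Tendsto φ atTop atTop) {ν : Measure C(unitInterval, ℂ)} (hν : IsProbabilityMeasure ν)
    (hlim : LawTo φ ν) (z : ℂ) : ν {γ : C(unitInterval, ℂ) | γ 1 = z} = 0 := by
  obtain ⟨R, κ, c0, C1, cd, Cu, cs, Cs, N, hB⟩ := base_of hlo hup hF
  have hlim2 := (lawTo_iff ⟨ν, hν⟩).1 hlim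
  refine le_antisymm (ENNReal.le_of_forall_pos_le_add ?_) zero_le
  intro ε hε _
  rw [zero_add]
  obtain ⟨q, n0, hq, h3⟩ := near_saw hB hL (ε := ε) (by exact_mod_cast hε)
  have hU : IsOpen {γ : C(unitInterval, ℂ) | ‖γ 1 - z‖ < q} :=
    isOpen_lt ((cont_eval 1).sub continuous_const).norm continuous_const
  have h4 : ν {γ : C(unitInterval, ℂ) | ‖γ 1 - z‖ < q} ≤ ENNReal.ofReal ε := by
    refine open_le hlim2 hU ?_
    filter_upwards [hφ.eventually_ge_atTop n0, hφ.eventually_ge_atTop 1] with k hk hk1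
    refine law_le (by positivity) (le_trans ?_ (h3 _ hk (z * (size (φ k) : ℂ))))
    have hsub : ((saw (φ k)).filter fun s => curve s ∈ {γ : C(unitInterval, ℂ) | ‖γ 1 - z‖ < q}) ⊆
        (saw (φ k)).filter fun s => ‖pos s (φ k) - z * (size (φ k) : ℂ)‖ ≤ q * size (φ k) := by
      intro s hs
      rw [Finset.mem_filter] at hs ⊢
      refine ⟨hs.1, ?_⟩
      have h5 : ‖curve s 1 - z‖ < q := hs.2
      have hs0 := size_pos hk1
      have hs1 : (size (φ k) : ℂ) ≠ 0 := by exact_mod_cast hs0.ne'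
      have h6 : pos s (φ k) - z * (size (φ k) : ℂ) = (curve s 1 - z) * (size (φ k) : ℂ) := by
        rw [curve_one, sub_mul, div_mul_cancel₀ _ hs1]
      rw [h6, norm_mul, Complex.norm_of_nonneg hs0.le]
      exact mul_le_mul_of_nonneg_right h5.le hs0.le
    exact_mod_cast Finset.card_le_card hsub
  rw [ENNReal.ofReal_coe_nnreal] at h4
  refine (measure_mono ?_).trans h4
  intro γ hγ
  have h5 : γ 1 = z := hγ
  show ‖γ 1 - z‖ < q
  rw [h5, sub_self, norm_zero]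
  exact hq

/-! ### The bound for every point -/

/-- the number of the points of the triangular lattice in a ball -/
lemma card_ball (x : Pt) {r : ℝ} (hr : 1 ≤ r) : ∃ S : Finset Pt, (S.card : ℝ) ≤ 49 * r ^ 2 ∧
    ∀ v : Pt, (∀ dir : Bool, |((lvl dir v - lvl dir x : ℤ) : ℝ)| ≤ r) → v ∈ S := by
  obtain ⟨j, hj⟩ : ∃ j : ℕ, j = Nat.ceil r := ⟨_, rfl⟩
  have hjr : r ≤ j := by
    rw [hj]
    exact Nat.le_ceil r
  have hjr2 : (j : ℝ) ≤ r + 1 := by
    rw [hj]
    exact (Nat.ceil_lt_add_one (by linarith)).le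
  refine ⟨(Finset.Icc (x.1 - (j : ℤ)) (x.1 + j)) ×ˢ (Finset.Icc (x.2 - (j : ℤ)) (x.2 + j)), ?_, ?_⟩
  · rw [Finset.card_product, Int.card_Icc, Int.card_Icc]
    have e1 : (x.1 + (j : ℤ) + 1 - (x.1 - j)).toNat = 2 * j + 1 := by omega
    have e2 : (x.2 + (j : ℤ) + 1 - (x.2 - j)).toNat = 2 * j + 1 := by omega
    rw [e1, e2]
    push_cast
    nlinarith
  · intro v hv
    have h1 := hv false
    have h2 := hv true
    rw [← NTF.lvl_sub] at h1 h2
    simp only [lvl, hd, ip, up, Bool.false_eq_true, if_false, if_true] at h1 h2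
    have h1' : |(((v - x).1 + 2 * (v - x).2 : ℤ) : ℝ)| ≤ j := by
      refine le_trans (le_of_eq ?_) (h1.trans hjr)
      congr 2
      ring
    have h2' : |((2 * (v - x).1 + (v - x).2 : ℤ) : ℝ)| ≤ j := by
      refine le_trans (le_of_eq ?_) (h2.trans hjr)
      rw [← abs_neg, ← Int.cast_neg]
      congr 2
      ring
    have h1z : |(v - x).1 + 2 * (v - x).2| ≤ (j : ℤ) := by exact_mod_cast h1'
    have h2z : |2 * (v - x).1 + (v - x).2| ≤ (j : ℤ) := by exact_mod_cast h2'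
    rw [abs_le] at h1z h2z
    have e3 : (v - x).1 = v.1 - x.1 := rfl
    have e4 : (v - x).2 = v.2 - x.2 := rfl
    rw [e3, e4] at h1z h2z
    rw [Finset.mem_product, Finset.mem_Icc, Finset.mem_Icc]
    constructor <;> constructor <;> omega

lemma gf_biUnion_le (S : Finset Pt) (F : Pt → Set (List Bool)) : gf (⋃ y ∈ S, F y) ≤ ∑ y ∈ S, gf (F y) := by
  induction S using Finset.induction_on with
  | empty =>
    have : gf (∅ : Set (List Bool)) = 0 := by
      unfold gf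
      simp
    simp [this]
  | insert a S ha ih =>
    rw [Finset.sum_insert ha, Finset.set_biUnion_insert]
    exact (gf_union_le _ _).trans (add_le_add le_rfl ih)

/-- balls, from the points -/
lemma ball_of_end {m : ℕ → ℝ} {C : ℝ} {k0 : ℕ} (hC : 0 < C) (h : ∀ k n : ℕ, k0 ≤ k → m k ≤ n → n < m (k + 1) →
    ∀ x : Pt, gf {t | t ∈ SawN n ∧ vx oo up t n = x} ≤ ENNReal.ofReal (C / 4 ^ k) * nuX m k) {k n : ℕ} (hk : k0 ≤ k)
    (h1 : m k ≤ n) (h2 : (n : ℝ) < m (k + 1)) (x : Pt) {r : ℝ} (hr : 1 ≤ r) :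
    gf {t | t ∈ SawN n ∧ ∀ dir : Bool, |((lvl dir (vx oo up t n) - lvl dir x : ℤ) : ℝ)| ≤ r} ≤
      ENNReal.ofReal (49 * C * (r ^ 2 / 4 ^ k)) * nuX m k := by
  obtain ⟨S, hS, hmem⟩ := card_ball x hr
  have h3 : gf {t | t ∈ SawN n ∧ ∀ dir : Bool, |((lvl dir (vx oo up t n) - lvl dir x : ℤ) : ℝ)| ≤ r} ≤
      ∑ y ∈ S, gf {t | t ∈ SawN n ∧ vx oo up t n = y} := by
    refine le_trans (gf_mono (Q := ⋃ y ∈ S, {t | t ∈ SawN n ∧ vx oo up t n = y}) ?_) ?_
    · rintro t ⟨ht, h4⟩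
      rw [Set.mem_iUnion₂]
      exact ⟨vx oo up t n, hmem _ h4, ht, rfl⟩
    · exact gf_biUnion_le _ _
  refine h3.trans ((Finset.sum_le_sum fun y _ => h k n hk h1 h2 y).trans ?_)
  rw [Finset.sum_const, nsmul_eq_mul, ← mul_assoc]
  refine mul_le_mul_left ?_ _
  rw [← ENNReal.ofReal_natCast, ← ENNReal.ofReal_mul (by positivity)]
  refine ENNReal.ofReal_le_ofReal ?_
  calc (S.card : ℝ) * (C / 4 ^ k) ≤ 49 * r ^ 2 * (C / 4 ^ k) := mul_le_mul_of_nonneg_right hS (by positivity)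
    _ = _ := by ring

theorem lowCQ_of_endX {m : ℕ → ℝ} (h : EndX m) : LowCQ m := by
  intro e he
  obtain ⟨C, k0, hC, h1⟩ := h
  -- the fraction
  obtain ⟨p, hp⟩ : ∃ p : ℝ, p = min 1 (e / (49 * C)) := ⟨_, rfl⟩
  have hp0 : 0 < p := by
    rw [hp]
    exact lt_min one_pos (by positivity)
  have hp1 : p ≤ 1 := by
    rw [hp]
    exact min_le_left _ _
  have hp2 : 49 * C * p ≤ e := by
    have h2 : p ≤ e / (49 * C) := by
      rw [hp]
      exact min_le_right _ _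
    rw [le_div_iff₀ (by positivity)] at h2
    linarith
  obtain ⟨j, hj⟩ := pow_unbounded_of_one_lt (1 / p) (show (1 : ℝ) < 2 by norm_num)
  refine ⟨p, max k0 j, hp0, fun k n hk a1 a2 x => ?_⟩
  have h2 : 1 ≤ p * 2 ^ k := by
    rw [div_lt_iff₀ hp0] at hj
    have h3 : (2 : ℝ) ^ j ≤ 2 ^ k := pow_le_pow_right₀ (by norm_num) (le_of_max_le_right hk)
    nlinarith
  refine (ball_of_end hC h1 (le_of_max_le_left hk) a1 a2 x h2).trans ?_
  refine mul_le_mul_left (ENNReal.ofReal_le_ofReal ?_) _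
  have h4 : (p * 2 ^ k) ^ 2 / 4 ^ k = p ^ 2 := by
    rw [mul_pow, ← pow_mul, mul_comm k 2, pow_mul]
    norm_num
  rw [h4]
  calc 49 * C * p ^ 2 = (49 * C * p) * p := by ring
    _ ≤ e * 1 := mul_le_mul hp2 hp1 hp0.le he.le
    _ = e := mul_one e

/-- the walks that end in a ball, from the points -/
theorem ball_saw {m : ℕ → ℝ} {R : ℕ → ℝ} {κ : ℕ → ℕ} {c0 C1 cd Cu cs Cs : ℝ} {N : ℕ}
    (hB : Base m R κ c0 C1 cd Cu cs Cs N) (hE : EndX m) : ∃ D : ℝ, 0 < D ∧ ∀ r : ℝ, 0 < r → ∃ n0 : ℕ,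
      ∀ n : ℕ, n0 ≤ n → ∀ z : ℂ,
        (((saw n).filter fun s => ‖pos s n - z‖ ≤ r * size n).card : ℝ) ≤ D * r ^ 2 * ((saw n).card : ℝ) := by
  have hc0 := hB.pc0
  have hCu := hB.pCu
  have hcd := hB.pcd
  obtain ⟨C, k0, hC, h1⟩ := hE
  obtain ⟨n1, hn1⟩ := hB.top k0
  obtain ⟨D, hD⟩ : ∃ D : ℝ, D = 49 * C * (4 * Cu) ^ 2 * c0 := ⟨_, rfl⟩
  have hD0 : 0 < D := by
    rw [hD]
    positivity
  refine ⟨3 * D, by positivity, fun r hr => ?_⟩
  obtain ⟨j, hj⟩ := pow_unbounded_of_one_lt (2 / (r * cd)) (show (1 : ℝ) < 2 by norm_num)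
  obtain ⟨n2, hn2⟩ := hB.top j
  refine ⟨N + n1 + n2, fun n hn z => ?_⟩
  have b0 : N ≤ n := by omega
  have hn0 : 0 < n := by
    have := hB.N1
    omega
  have hR : R n = 2 ^ κ n := hB.R2 n
  have hRpos : 0 < R n := by
    rw [hR]
    positivity
  have hsz := hB.sup n b0
  -- the ball is large
  have h2 : 2 ≤ r * size n := by
    have h7 : (2 : ℝ) ^ j ≤ 2 ^ κ n := pow_le_pow_right₀ (by norm_num) (hn2 n (by omega))
    have h8 := hB.slo n b0
    rw [div_lt_iff₀ (by positivity)] at hj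
    calc (2 : ℝ) ≤ 2 ^ j * (r * cd) := hj.le
      _ ≤ 2 ^ κ n * (r * cd) := mul_le_mul_of_nonneg_right h7 (by positivity)
      _ = r * (cd * R n) := by
          rw [hR]
          ring
      _ ≤ _ := mul_le_mul_of_nonneg_left h8 hr.le
  -- the words
  have key : ∀ w : ℂ, ∃ B : Set (List Bool), gf B ≤ ENNReal.ofReal (D * r ^ 2) * gf (SawN n) ∧
      ∀ t ∈ SawN n, ‖pos (sw n t) n - w‖ ≤ r * size n → t ∈ B := by
    intro w
    obtain ⟨x, hx⟩ := near_pt w
    refine ⟨{t | t ∈ SawN n ∧ ∀ dir : Bool,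
      |((lvl dir (vx oo up t n) - lvl dir x : ℤ) : ℝ)| ≤ 4 * (r * size n)}, ?_, ?_⟩
    · refine (ball_of_end hC h1 (hn1 n (by omega)) (hB.sc n b0).1 (hB.sc n b0).2 x (by linarith)).trans ?_
      calc ENNReal.ofReal (49 * C * ((4 * (r * size n)) ^ 2 / 4 ^ κ n)) * nuX m (κ n)
          ≤ ENNReal.ofReal (49 * C * ((4 * (r * size n)) ^ 2 / 4 ^ κ n)) *
            (ENNReal.ofReal c0 * gf (SawN n)) := mul_le_mul_right (hB.lo n b0) _
        _ ≤ ENNReal.ofReal (D * r ^ 2) * gf (SawN n) := by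
            rw [← mul_assoc, ← ENNReal.ofReal_mul (by positivity)]
            refine mul_le_mul_left (ENNReal.ofReal_le_ofReal ?_) _
            have h3 : (4 * (r * size n)) ^ 2 / 4 ^ κ n ≤ (4 * Cu) ^ 2 * r ^ 2 := by
              rw [div_le_iff₀ (by positivity)]
              have h4 : (4 : ℝ) ^ κ n = R n ^ 2 := by
                rw [hR, ← pow_mul, mul_comm, pow_mul]
                norm_num
              rw [h4]
              have h5 : (4 * (r * size n)) ^ 2 ≤ (4 * (r * (Cu * R n))) ^ 2 := by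
                refine pow_le_pow_left₀ (by positivity) ?_ 2
                have := mul_le_mul_of_nonneg_left hsz hr.le
                linarith
              refine h5.trans (le_of_eq ?_)
              ring
            calc 49 * C * ((4 * (r * size n)) ^ 2 / 4 ^ κ n) * c0
                ≤ 49 * C * ((4 * Cu) ^ 2 * r ^ 2) * c0 :=
                  mul_le_mul_of_nonneg_right (mul_le_mul_of_nonneg_left h3 (by positivity)) hc0.le
              _ = D * r ^ 2 := by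
                  rw [hD]
                  ring
    · intro t ht h4
      refine ⟨ht, fun dir => ?_⟩
      rw [pos_sw n t n le_rfl] at h4
      have h3 : ‖JJ (vx oo up t n - x)‖ ≤ r * size n + 2 := by
        rw [NTF.JJ_sub]
        have h5 : JJ (vx oo up t n) - JJ x = (JJ (vx oo up t n) - w) - (JJ x - w) := by ring
        rw [h5]
        exact (norm_sub_le _ _).trans (add_le_add h4 hx)
      have h5 := lvl_le_norm dir (vx oo up t n - x)
      rw [NTF.lvl_sub] at h5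
      linarith
  obtain ⟨B0, g0, f0⟩ := key z
  obtain ⟨B1, g1, f1⟩ := key (om⁻¹ * z)
  obtain ⟨B2, g2, f2⟩ := key (om⁻¹ * (om⁻¹ * z))
  have h := prop_le3 hn0 (fun s => ‖pos s n - z‖ ≤ r * size n) (c := D * r ^ 2) (by positivity)
    f0 (fun t ht h => f1 t ht ((rot_ball t z _).1.1 h)) (fun t ht h => f2 t ht ((rot_ball t z _).2.1 h)) g0 g1 g2
  refine h.trans (le_of_eq ?_)
  ring

/-- **the end point of every weak limit has a bounded density** -/
theorem density_of {m : ℕ → ℝ} (hlo : ∃ c : ℝ, 0 < c ∧ ∀ k : ℕ, c * (2 : ℝ) ^ (4 / 3 * (k : ℝ)) ≤ m k)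
    (hup : ∃ C : ℝ, ∀ k : ℕ, m k ≤ C * (2 : ℝ) ^ (4 / 3 * (k : ℝ))) (hF : FactsX m) (hE : EndX m) :
    ∃ D : ℝ, 0 < D ∧ ∀ (φ : ℕ → ℕ) (ν : Measure C(unitInterval, ℂ)), Tendsto φ atTop atTop →
      IsProbabilityMeasure ν → LawTo φ ν → ∀ (z : ℂ) (r : ℝ), 0 < r →
        ν {γ : C(unitInterval, ℂ) | ‖γ 1 - z‖ ≤ r} ≤ ENNReal.ofReal (D * r ^ 2) := by
  obtain ⟨R, κ, c0, C1, cd, Cu, cs, Cs, N, hB⟩ := base_of hlo hup hF
  obtain ⟨D, hD, h3⟩ := ball_saw hB hE
  refine ⟨4 * D, by positivity, fun φ ν hφ hν hlim z r hr => ?_⟩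
  have hlim2 := (lawTo_iff ⟨ν, hν⟩).1 hlim
  obtain ⟨n0, h3⟩ := h3 (2 * r) (by positivity)
  have hU : IsOpen {γ : C(unitInterval, ℂ) | ‖γ 1 - z‖ < 2 * r} :=
    isOpen_lt ((cont_eval 1).sub continuous_const).norm continuous_const
  have h4 : ν {γ : C(unitInterval, ℂ) | ‖γ 1 - z‖ < 2 * r} ≤ ENNReal.ofReal (D * (2 * r) ^ 2) := by
    refine open_le hlim2 hU ?_
    filter_upwards [hφ.eventually_ge_atTop n0, hφ.eventually_ge_atTop 1] with k hk hk1
    refine law_le (by positivity) (le_trans ?_ (h3 _ hk (z * (size (φ k) : ℂ))))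
    have hsub : ((saw (φ k)).filter fun s => curve s ∈ {γ : C(unitInterval, ℂ) | ‖γ 1 - z‖ < 2 * r}) ⊆
        (saw (φ k)).filter fun s => ‖pos s (φ k) - z * (size (φ k) : ℂ)‖ ≤ 2 * r * size (φ k) := by
      intro s hs
      rw [Finset.mem_filter] at hs ⊢
      refine ⟨hs.1, ?_⟩
      have h5 : ‖curve s 1 - z‖ < 2 * r := hs.2
      have hs0 := size_pos hk1
      have hs1 : (size (φ k) : ℂ) ≠ 0 := by exact_mod_cast hs0.ne'
      have h6 : pos s (φ k) - z * (size (φ k) : ℂ) = (curve s 1 - z) * (size (φ k) : ℂ) := by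
        rw [curve_one, sub_mul, div_mul_cancel₀ _ hs1]
      rw [h6, norm_mul, Complex.norm_of_nonneg hs0.le]
      exact mul_le_mul_of_nonneg_right h5.le hs0.le
    exact_mod_cast Finset.card_le_card hsub
  refine (measure_mono ?_).trans (h4.trans (le_of_eq ?_))
  · intro γ hγ
    have h5 : ‖γ 1 - z‖ ≤ r := hγ
    show ‖γ 1 - z‖ < 2 * r
    linarith
  · congr 1
    ring

end NTSF.Mod
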