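import Pool.Agent.NTS.Base
import Pool.Agent.NT.LimN

/-!
NTW (natural time for all self-avoiding walks): the laws of the curves, tightness, limits.
-/

set_option autoImplicit false

namespace NTSF

open Finset MeasureTheory Filter Topology

open NTF (tight_of_modulus finite_modulus Md norm_comb open_le cont_eval tr tr_cont tr_nonneg tr_le tr_ge trB second_of)

open Pool.Agent.NTS.Res

open scoped ENNReal Classical

/-! ### The curve -/

lemma curve_eq {n : ℕ} (s : Fin n → Fin 3) : curve s = Tight.poly (fun k => pos s k / size n) n := by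
  ext u
  show ∑ k ∈ range n, ((max 0 (min 1 ((u : ℝ) * n - k)) : ℝ) : ℂ) * ((pos s (k + 1) - pos s k) / size n) =
    pos s 0 / size n + ∑ k ∈ range n, ((max 0 (min 1 ((u : ℝ) * n - k)) : ℝ) : ℂ) *
      (pos s (k + 1) / size n - pos s k / size n)
  rw [pos_zero, zero_div, zero_add]
  apply sum_congr rfl
  intro k _
  rw [sub_div]

lemma curve_zero {n : ℕ} (s : Fin n → Fin 3) : curve s 0 = 0 := by
  rw [curve_eq, Tight.poly_zero, pos_zero, zero_div]

lemma curve_one {n : ℕ} (s : Fin n → Fin 3) : curve s 1 = pos s n / size n := by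
  rw [curve_eq, Tight.poly_one]

/-- a point of the curve lies between two consecutive points of the walk -/
lemma curve_apply {n : ℕ} (hn : 1 ≤ n) (s : Fin n → Fin 3) (u : unitInterval) : ∃ (i : ℕ) (a : ℝ), i < n ∧ 0 ≤ a ∧ a ≤ 1 ∧
    (i : ℝ) ≤ u * n ∧ (u : ℝ) * n ≤ i + 1 ∧
    curve s u = (((1 - a : ℝ) : ℂ) * pos s i + (a : ℂ) * pos s (i + 1)) / size n := by
  obtain ⟨i, hi, h1, h2⟩ := Tight.th2_idx hn u
  refine ⟨i, u * n - i, hi, by linarith, by linarith, h1, h2, ?_⟩
  rw [curve_eq, Tight.poly_apply hi h1 h2]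
  push_cast
  ring

/-- the modulus of continuity of the curve -/
lemma curve_mod {n : ℕ} (hn : 1 ≤ n) {s : Fin n → Fin 3} {ρ r : ℝ} (hr : 0 ≤ r) (hρ : 4 ≤ ρ * n)
    (h : ∀ i j : ℕ, i ≤ j → j ≤ n → (j : ℝ) - i ≤ ρ * n → ‖pos s j - pos s i‖ ≤ r * size n) :
    Md (ρ / 2) r (curve s) := by
  have hn0 : (0 : ℝ) < n := by exact_mod_cast hn
  have hsym : ∀ i j : ℕ, i ≤ n → j ≤ n → |(j : ℝ) - i| ≤ ρ * n → ‖pos s j - pos s i‖ ≤ r * size n := by
    intro i j hi hj hij
    rcases le_total i j with h1 | h1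
    · exact h i j h1 hj ((le_abs_self _).trans hij)
    · rw [norm_sub_rev]
      refine h j i h1 hi ?_
      rw [abs_sub_comm] at hij
      exact (le_abs_self _).trans hij
  intro u v huv
  rw [Subtype.dist_eq, Real.dist_eq] at huv
  obtain ⟨i, a, hi, a0, a1, i1, i2, e1⟩ := curve_apply hn s u
  obtain ⟨j, b, hj, b0, b1, j1, j2, e2⟩ := curve_apply hn s v
  have huv' : |(u : ℝ) * n - v * n| ≤ ρ / 2 * n := by
    rw [← sub_mul, abs_mul, abs_of_pos hn0]
    exact mul_le_mul_of_nonneg_right huv hn0.le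
  rw [abs_le] at huv'
  have key : ∀ i' j' : ℕ, (i' = i ∨ i' = i + 1) → (j' = j ∨ j' = j + 1) → ‖pos s i' - pos s j'‖ ≤ r * size n := by
    intro i' j' hi' hj'
    have c1 : (i : ℝ) ≤ i' ∧ (i' : ℝ) ≤ i + 1 := by
      rcases hi' with rfl | rfl
      · constructor <;> linarith
      · push_cast
        constructor <;> linarith
    have c2 : (j : ℝ) ≤ j' ∧ (j' : ℝ) ≤ j + 1 := by
      rcases hj' with rfl | rfl
      · constructor <;> linarith
      · push_cast
        constructor <;> linarith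
    apply hsym j' i' (by omega) (by omega)
    rw [abs_le]
    constructor <;> linarith [c1.1, c1.2, c2.1, c2.2, huv'.1, huv'.2]
  rw [dist_eq_norm, e1, e2]
  have e3 : (((1 - a : ℝ) : ℂ) * pos s i + (a : ℂ) * pos s (i + 1)) / size n -
      (((1 - b : ℝ) : ℂ) * pos s j + (b : ℂ) * pos s (j + 1)) / size n =
      (((1 - a : ℝ) : ℂ) * (((1 - b : ℝ) : ℂ) * (pos s i - pos s j) + (b : ℂ) * (pos s i - pos s (j + 1))) +
        (a : ℂ) * (((1 - b : ℝ) : ℂ) * (pos s (i + 1) - pos s j) + (b : ℂ) * (pos s (i + 1) - pos s (j + 1)))) /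
        size n := by
    push_cast
    ring
  rw [e3, norm_div]
  have h1 := norm_comb a0 a1 (norm_comb b0 b1 (key i j (Or.inl rfl) (Or.inl rfl)) (key i (j + 1) (Or.inl rfl) (Or.inr rfl)))
    (norm_comb b0 b1 (key (i + 1) j (Or.inr rfl) (Or.inl rfl)) (key (i + 1) (j + 1) (Or.inr rfl) (Or.inr rfl)))
  rw [Complex.norm_of_nonneg (size_nonneg n)]
  exact div_le_of_le_mul₀ (size_nonneg n) hr h1

/-! ### The law -/

section

variable {n : ℕ}

lemma law_apply (E : Set C(unitInterval, ℂ)) : law n E =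
    ((saw n).card : ℝ≥0∞)⁻¹ * (((saw n).filter fun s => curve s ∈ E).card : ℝ≥0∞) := by
  unfold law
  rw [Measure.finsetSum_apply]
  have h : ∀ s ∈ saw n, (((saw n).card : ℝ≥0∞)⁻¹ • Measure.dirac (curve s)) E =
      ((saw n).card : ℝ≥0∞)⁻¹ * (if curve s ∈ E then 1 else 0) := by
    intro s _
    rw [Measure.smul_apply, Measure.dirac_apply, smul_eq_mul, Set.indicator_apply, Pi.one_apply]
  rw [sum_congr rfl h, ← mul_sum]
  congr 1
  rw [card_filter]
  push_cast
  rfl

lemma law_le {E : Set C(unitInterval, ℂ)} {c : ℝ} (hc : 0 ≤ c)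
    (h : (((saw n).filter fun s => curve s ∈ E).card : ℝ) ≤ c * ((saw n).card : ℝ)) :
    law n E ≤ ENNReal.ofReal c := by
  rw [law_apply]
  have h0 : ((saw n).card : ℝ≥0∞) ≠ 0 := by
    have := (saw_nonempty n).card_pos
    exact_mod_cast this.ne'
  have ht : ((saw n).card : ℝ≥0∞) ≠ ⊤ := ENNReal.natCast_ne_top _
  have h1 : (((saw n).filter fun s => curve s ∈ E).card : ℝ≥0∞) ≤ ENNReal.ofReal c * ((saw n).card : ℝ≥0∞) := by
    rw [← ENNReal.ofReal_natCast, ← ENNReal.ofReal_natCast, ← ENNReal.ofReal_mul hc]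
    exact ENNReal.ofReal_le_ofReal h
  calc ((saw n).card : ℝ≥0∞)⁻¹ * (((saw n).filter fun s => curve s ∈ E).card : ℝ≥0∞) ≤
      ((saw n).card : ℝ≥0∞)⁻¹ * (ENNReal.ofReal c * ((saw n).card : ℝ≥0∞)) := by gcongr
    _ = ENNReal.ofReal c * (((saw n).card : ℝ≥0∞)⁻¹ * ((saw n).card : ℝ≥0∞)) := by ring
    _ = ENNReal.ofReal c := by rw [ENNReal.inv_mul_cancel h0 ht, mul_one]

theorem law_prob (n : ℕ) : IsProbabilityMeasure (law n) := by
  constructor
  rw [law_apply]
  have h0 : ((saw n).card : ℝ≥0∞) ≠ 0 := by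
    have := (saw_nonempty n).card_pos
    exact_mod_cast this.ne'
  simp only [Set.mem_univ, Finset.filter_true]
  exact ENNReal.inv_mul_cancel h0 (ENNReal.natCast_ne_top _)

lemma law_zero {E : Set C(unitInterval, ℂ)} (h : ∀ s ∈ saw n, curve s ∉ E) : law n E = 0 := by
  rw [law_apply, Finset.filter_false_of_mem h, card_empty, Nat.cast_zero, mul_zero]

lemma integral_law (f : C(unitInterval, ℂ) → ℝ) : ∫ γ, f γ ∂(law n) =
    (∑ s ∈ saw n, f (curve s)) / ((saw n).card : ℝ) := by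
  unfold law
  rw [integral_finsetSum_measure]
  · rw [sum_div]
    apply sum_congr rfl
    intro s _
    rw [integral_smul_measure, integral_dirac, ENNReal.toReal_inv, ENNReal.toReal_natCast, smul_eq_mul]
    ring
  · intro s hs
    have h0 : ((saw n).card : ℝ≥0∞) ≠ 0 := by
      have := Finset.card_pos.2 ⟨s, hs⟩
      exact_mod_cast this.ne'
    refine Integrable.smul_measure ?_ (ENNReal.inv_ne_top.2 h0)
    exact integrable_dirac (by simp)

lemma tr_law_le (hn : 1 ≤ n) (M : ℝ) : ∫ γ, tr M γ ∂(law n) ≤ 1 := by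
  have hs := size_pos hn
  have hc := saw_card_pos n
  rw [integral_law, div_le_one hc]
  have h1 := size_sq n
  calc ∑ s ∈ saw n, tr M (curve s) ≤ ∑ s ∈ saw n, ‖pos s n‖ ^ 2 / size n ^ 2 := by
        apply sum_le_sum
        intro s _
        refine (tr_le _ _).trans (le_of_eq ?_)
        rw [curve_one, norm_div, Complex.norm_of_nonneg hs.le, div_pow]
    _ = (size n ^ 2 * ((saw n).card : ℝ)) / size n ^ 2 := by rw [← sum_div, h1]
    _ = _ := by field_simp

lemma tr_law_ge (hn : 1 ≤ n) {M : ℝ} (hM : 0 < M) {C : ℝ}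
    (h4 : ∑ s ∈ saw n, ‖pos s n‖ ^ 4 ≤ C * size n ^ 4 * ((saw n).card : ℝ)) :
    1 - C / M ≤ ∫ γ, tr M γ ∂(law n) := by
  have hs := size_pos hn
  have hc := saw_card_pos n
  rw [integral_law, le_div_iff₀ hc]
  have h1 := size_sq n
  have h2 : ∑ s ∈ saw n, (‖pos s n‖ ^ 2 / size n ^ 2 - ‖pos s n‖ ^ 4 / size n ^ 4 / M) ≤
      ∑ s ∈ saw n, tr M (curve s) := by
    apply sum_le_sum
    intro s _
    refine le_trans (le_of_eq ?_) (tr_ge hM _)
    rw [curve_one, norm_div, Complex.norm_of_nonneg hs.le, div_pow, div_pow]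
  refine le_trans ?_ h2
  rw [sum_sub_distrib, ← sum_div, ← h1, ← sum_div, ← sum_div]
  have h5 : (size n ^ 2 * ((saw n).card : ℝ)) / size n ^ 2 = ((saw n).card : ℝ) := by field_simp
  have h6 : (∑ s ∈ saw n, ‖pos s n‖ ^ 4) / size n ^ 4 ≤ C * ((saw n).card : ℝ) := by
    rw [div_le_iff₀ (by positivity)]
    linarith
  have h7 : (∑ s ∈ saw n, ‖pos s n‖ ^ 4) / size n ^ 4 / M ≤ C * ((saw n).card : ℝ) / M :=
    div_le_div_of_nonneg_right h6 hM.le
  rw [h5]
  have h8 : (1 - C / M) * ((saw n).card : ℝ) = ((saw n).card : ℝ) - C * ((saw n).card : ℝ) / M := by ring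
  linarith

end

/-! ### Tightness -/

theorem tight {A : Set ℕ} (hA : Facts A) : IsTightMeasureSet {μ | ∃ n ∈ A, μ = law n} := by
  apply tight_of_modulus
  · rintro _ ⟨n, hn, rfl⟩
    exact law_zero fun s _ h => h (curve_zero s)
  · intro ε r hε hr
    obtain ⟨ρ, n0, hρ, h1⟩ := hA.mod ε r hε hr
    obtain ⟨N, hN⟩ : ∃ N : ℕ, N = max n0 ⌈4 / ρ⌉₊ := ⟨_, rfl⟩
    have hF : (⋃ n ∈ Finset.range N, (curve '' (saw n : Set (Fin n → Fin 3)))).Finite :=
      Set.Finite.biUnion (Finset.finite_toSet _) fun n _ => (Finset.finite_toSet _).image _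
    obtain ⟨δ, hδ, h2⟩ := finite_modulus hF hr
    refine ⟨min δ (ρ / 2), lt_min hδ (by positivity), ?_⟩
    rintro _ ⟨n, hn, rfl⟩
    rcases lt_or_ge n N with h3 | h3
    · rw [law_zero]
      · exact zero_le
      · intro s hs h4
        apply h4
        intro u v huv
        refine h2 (curve s) ?_ u v (huv.trans (min_le_left _ _))
        rw [Set.mem_iUnion₂]
        exact ⟨n, Finset.mem_range.2 h3, s, hs, rfl⟩
    · rw [hN] at h3
      have hn1 := hA.one n hn
      have h4 : 4 ≤ ρ * n := by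
        have h5 : 4 / ρ ≤ n := (Nat.le_ceil _).trans (by exact_mod_cast (le_max_right _ _).trans h3)
        rw [div_le_iff₀ hρ] at h5
        linarith
      refine law_le hε.le (le_trans ?_ (h1 n hn ((le_max_left _ _).trans h3)))
      have hsub : ((saw n).filter fun s => curve s ∈ {f : C(unitInterval, ℂ) | ¬ Md (min δ (ρ / 2)) r f}) ⊆
          (saw n).filter fun s => ∃ i j : ℕ, i ≤ j ∧ j ≤ n ∧ (j : ℝ) - i ≤ ρ * n ∧
            r * size n < ‖pos s j - pos s i‖ := by
        intro s hs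
        rw [Finset.mem_filter] at hs ⊢
        refine ⟨hs.1, ?_⟩
        by_contra hcon
        push Not at hcon
        apply hs.2
        intro u v huv
        exact curve_mod hn1 hr.le h4 (fun i j a b c => hcon i j a b c) u v (huv.trans (min_le_right _ _))
      exact_mod_cast Finset.card_le_card hsub

/-! ### Limits -/

/-- the law as a probability measure -/
noncomputable def PM (n : ℕ) : ProbabilityMeasure C(unitInterval, ℂ) := ⟨law n, law_prob n⟩

lemma lawTo_iff {φ : ℕ → ℕ} (ν : ProbabilityMeasure C(unitInterval, ℂ)) :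
    LawTo φ (ν : Measure C(unitInterval, ℂ)) ↔ Tendsto (fun k => PM (φ k)) atTop (𝓝 ν) := by
  rw [ProbabilityMeasure.tendsto_iff_forall_integral_tendsto]
  exact Iff.rfl

section

variable {A : Set ℕ} (hA : Facts A)

include hA

theorem subseq {φ : ℕ → ℕ} (hφA : ∀ k, φ k ∈ A) : ∃ ψ : ℕ → ℕ, StrictMono ψ ∧
    ∃ ν : Measure C(unitInterval, ℂ), IsProbabilityMeasure ν ∧ LawTo (fun k => φ (ψ k)) ν := by
  have ht : IsTightMeasureSet {((ρ : ProbabilityMeasure C(unitInterval, ℂ)) : Measure C(unitInterval, ℂ)) |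
      ρ ∈ Set.range fun k => PM (φ k)} := by
    refine (tight hA).subset ?_
    rintro _ ⟨ρ, ⟨k, rfl⟩, rfl⟩
    exact ⟨φ k, hφA k, rfl⟩
  have hc := isCompact_closure_of_isTightMeasureSet ht
  obtain ⟨ν, -, ψ, hψ, hlim⟩ := hc.tendsto_subseq (x := fun k => PM (φ k))
    (fun k => subset_closure ⟨k, rfl⟩)
  exact ⟨ψ, hψ, ν, inferInstance, (lawTo_iff ν).2 hlim⟩

theorem limit_props {φ : ℕ → ℕ} (hφ : Tendsto φ atTop atTop) (hφA : ∀ k, φ k ∈ A)
    {ν : Measure C(unitInterval, ℂ)} (hν : IsProbabilityMeasure ν) (hlim : LawTo φ ν) :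
    (∀ᵐ γ : C(unitInterval, ℂ) ∂ν, γ 0 = 0 ∧ γ 1 ≠ 0) ∧
      ∫ γ : C(unitInterval, ℂ), ‖γ 1‖ ^ 2 ∂ν = 1 := by
  have hlim2 := (lawTo_iff ⟨ν, hν⟩).1 hlim
  have hge : ∀ n0 : ℕ, ∀ᶠ k in atTop, n0 ≤ φ k := fun n0 => hφ.eventually_ge_atTop n0
  constructor
  · have c1 : IsClosed {γ : C(unitInterval, ℂ) | γ 0 = 0} := isClosed_eq (cont_eval 0) continuous_const
    have h1 : ν {γ : C(unitInterval, ℂ) | γ 0 = 0}ᶜ ≤ 0 := by
      refine open_le hlim2 c1.isOpen_compl (Eventually.of_forall fun k => le_of_eq ?_)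
      exact law_zero fun s hs h => h (curve_zero s)
    have h2 : ν {γ : C(unitInterval, ℂ) | ¬ γ 1 ≠ 0} = 0 := by
      refine le_antisymm (ENNReal.le_of_forall_pos_le_add ?_) zero_le
      intro ε hε _
      rw [zero_add]
      obtain ⟨κ, n0, hκ, h3⟩ := hA.low ε (by exact_mod_cast hε)
      have hU : IsOpen {γ : C(unitInterval, ℂ) | ‖γ 1‖ < κ} :=
        isOpen_lt (cont_eval 1).norm continuous_const
      have h4 : ν {γ : C(unitInterval, ℂ) | ‖γ 1‖ < κ} ≤ ENNReal.ofReal ε := by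
        refine open_le hlim2 hU ?_
        filter_upwards [hge n0] with k hk
        have hn1 := hA.one _ (hφA k)
        refine law_le (by positivity) (le_trans ?_ (h3 _ (hφA k) hk))
        have hsub : ((saw (φ k)).filter fun s => curve s ∈ {γ : C(unitInterval, ℂ) | ‖γ 1‖ < κ}) ⊆
            (saw (φ k)).filter fun s => ‖pos s (φ k)‖ ≤ κ * size (φ k) := by
          intro s hs
          rw [Finset.mem_filter] at hs ⊢
          refine ⟨hs.1, ?_⟩
          have h5 : ‖curve s 1‖ < κ := hs.2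
          rw [curve_one, norm_div, Complex.norm_of_nonneg (size_nonneg _), div_lt_iff₀ (size_pos hn1)] at h5
          exact h5.le
        exact_mod_cast Finset.card_le_card hsub
      rw [ENNReal.ofReal_coe_nnreal] at h4
      refine (measure_mono ?_).trans h4
      intro γ hγ
      have h5 : γ 1 = 0 := not_not.1 hγ
      show ‖γ 1‖ < κ
      rw [h5, norm_zero]
      exact hκ
    have h3 : ∀ᵐ γ : C(unitInterval, ℂ) ∂ν, γ 0 = 0 := le_antisymm h1 zero_le
    have h4 : ∀ᵐ γ : C(unitInterval, ℂ) ∂ν, γ 1 ≠ 0 := h2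
    filter_upwards [h3, h4] with γ a b
    exact ⟨a, b⟩
  · obtain ⟨C, n0, hC, h4⟩ := hA.four
    apply second_of (C := C)
    intro M hM
    have h1 : Tendsto (fun k => ∫ γ, tr M γ ∂(law (φ k))) atTop (𝓝 (∫ γ, tr M γ ∂ν)) := hlim (trB M hM.le)
    constructor
    · refine ge_of_tendsto h1 ?_
      filter_upwards [hge n0] with k hk
      exact tr_law_ge (hA.one _ (hφA k)) hM (h4 _ (hφA k) hk)
    · exact le_of_tendsto h1 (Eventually.of_forall fun k => tr_law_le (hA.one _ (hφA k)) M)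

end

end NTSF
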