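import Pool.Agent.NTS.CoreDefs
import Pool.Agent.NTS.Law
import Pool.Agent.NTA.TailDefs

/-!
NTW for EVERY step number: the literal statements. The sequence m k is the mean length of the bridges of the scale k; the
scale of n is the k with m k ≤ n < m (k + 1).
-/

set_option autoImplicit false

namespace HexObs

namespace NTW

open Finset TS SDN

open scoped ENNReal

/-- the order of the critical weight of the walks with n letters, n of the scale k -/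
noncomputable def nuX (m : ℕ → ℝ) (k : ℕ) : ℝ≥0∞ := ENNReal.ofReal (Ub k / m k) * NTA.Xb k ^ 2

/-- the facts about the walks with exactly n letters, every n -/
structure FactsX (m : ℕ → ℝ) : Prop where
  /-- many walks end far away -/
  big : ∃ (c κ : ℝ) (k0 : ℕ), 0 < c ∧ 0 < κ ∧ ∀ k n : ℕ, k0 ≤ k → m k ≤ n → n < m (k + 1) →
    ENNReal.ofReal c * nuX m k ≤ gf {t | t ∈ SawN n ∧ ∃ dir : Bool, κ * 2 ^ k ≤ |((lvl dir (vx oo up t n) : ℤ) : ℝ)|}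
  /-- all the walks -/
  all : ∃ (C : ℝ) (k0 : ℕ), 0 < C ∧ ∀ k n : ℕ, k0 ≤ k → m k ≤ n → n < m (k + 1) →
    gf (SawN n) ≤ ENNReal.ofReal C * nuX m k
  /-- the tail of the end point -/
  tail : ∃ (K : ℝ) (k0 : ℕ), 0 < K ∧ ∀ k n i : ℕ, k0 ≤ k → m k ≤ n → n < m (k + 1) →
    gf {t | t ∈ SawN n ∧ ∃ dir : Bool, (2 : ℝ) ^ i * 2 ^ k ≤ |((lvl dir (vx oo up t n) : ℤ) : ℝ)|} ≤
      ENNReal.ofReal (K / 32 ^ i) * nuX m k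
  /-- the modulus of continuity -/
  modu : ∀ r e : ℝ, 0 < r → 0 < e → ∃ (ρ : ℝ) (k0 : ℕ), 0 < ρ ∧ ∀ k n : ℕ, k0 ≤ k → m k ≤ n → n < m (k + 1) →
    gf {t | t ∈ SawN n ∧ ∃ (dir : Bool) (i j : ℕ), i ≤ j ∧ j ≤ n ∧ (j : ℝ) - i ≤ ρ * m k ∧
      r * 2 ^ k ≤ |((lvl dir (vx oo up t j) - lvl dir (vx oo up t i) : ℤ) : ℝ)|} ≤ ENNReal.ofReal e * nuX m k

/-- the Hoelder modulus of the exponent a, every n -/
def HoldX (m : ℕ → ℝ) (a : ℝ) : Prop := ∀ e : ℝ, 0 < e → ∃ (M : ℝ) (k0 : ℕ), 0 < M ∧ ∀ k n : ℕ, k0 ≤ k → m k ≤ n →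
  n < m (k + 1) → gf {t | t ∈ SawN n ∧ ∃ (dir : Bool) (i j : ℕ), i < j ∧ j ≤ n ∧
    M * 2 ^ k * (((j : ℝ) - i) / n) ^ a ≤ |((lvl dir (vx oo up t j) - lvl dir (vx oo up t i) : ℤ) : ℝ)|} ≤
    ENNReal.ofReal e * nuX m k

/-- few walks end near the origin, every n -/
def LowX (m : ℕ → ℝ) : Prop := ∀ e : ℝ, 0 < e → ∃ (κ : ℝ) (k0 : ℕ), 0 < κ ∧ ∀ k n : ℕ, k0 ≤ k → m k ≤ n →
  n < m (k + 1) → gf {t | t ∈ SawN n ∧ ∀ dir : Bool, |((lvl dir (vx oo up t n) : ℤ) : ℝ)| ≤ κ * 2 ^ k} ≤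
    ENNReal.ofReal e * nuX m k

end NTW

end HexObs

namespace NTSF

open MeasureTheory Filter Topology

open Pool.Agent.NTS.Res

open scoped ENNReal

/-- **the conclusion for EVERY step number** (b : the limits do not end at the origin) -/
def ConclE (b : Prop) : Prop :=
  ∃ c C : ℝ, 0 < c ∧ (∀ n : ℕ, 1 ≤ n → c * (n : ℝ) ^ (3 / 4 : ℝ) ≤ size n ∧ size n ≤ C * (n : ℝ) ^ (3 / 4 : ℝ)) ∧
  (∀ n : ℕ, IsProbabilityMeasure (law n)) ∧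
  (∀ a : NNReal, 0 < a → (a : ℝ) < 3 / 4 → ∀ ε : ℝ, 0 < ε → ∃ M : NNReal, ∀ n : ℕ, 1 ≤ n →
    law n {γ : C(unitInterval, ℂ) | ¬ HolderWith M a γ} ≤ ENNReal.ofReal ε) ∧
  IsTightMeasureSet {μ | ∃ n : ℕ, 1 ≤ n ∧ μ = law n} ∧
  (∀ φ : ℕ → ℕ, StrictMono φ → ∃ ψ : ℕ → ℕ, StrictMono ψ ∧ ∃ ν : Measure C(unitInterval, ℂ),
    IsProbabilityMeasure ν ∧ LawTo (fun k => φ (ψ k)) ν) ∧
  ∀ (φ : ℕ → ℕ) (ν : Measure C(unitInterval, ℂ)), Tendsto φ atTop atTop → IsProbabilityMeasure ν → LawTo φ ν →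
    (∀ᵐ γ : C(unitInterval, ℂ) ∂ν, γ 0 = 0 ∧ (b → γ 1 ≠ 0) ∧
      ∀ a : NNReal, (a : ℝ) < 3 / 4 → ∃ M : NNReal, HolderWith M a γ) ∧
    ∫ γ : C(unitInterval, ℂ), ‖γ 1‖ ^ 2 ∂ν = 1

end NTSF
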