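import Pool.Agent.NTS.CWDefs
import Pool.Agent.NT.Pick

/-!
NTW (natural time for all self-avoiding walks): the choice of the lengths.  A k = the lengths n at most l k for which the
uniform n-step walks avoid all bad events.
-/

set_option autoImplicit false

namespace HexObs

namespace NTW

open Finset SDN

open NTm.PickA (gf_emp gf_iUd gf_len_sum tsum_half)

open NTm (Dense)

open scoped ENNReal

namespace PickS

lemma SawN_SAL {N n : ℕ} {t : List Bool} (h1 : t ∈ SAL N) (h2 : t.length = n) : t ∈ SawN n := ⟨h2, h1.1⟩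

lemma SAL_SawN {N n : ℕ} {t : List Bool} (hn : n ≤ N) (h : t ∈ SawN n) : t ∈ SAL N := ⟨h.2, by
  rw [h.1]
  exact hn⟩

lemma gf_SawN_ne {t : List Bool} (ht : t ∈ SA) : gf (SawN t.length) ≠ 0 := by
  have h1 : wE t ≤ gf (SawN t.length) := by
    unfold gf
    exact ENNReal.le_tsum (f := fun s : SawN t.length => wE s) ⟨t, rfl, ht⟩
  exact ne_of_gt (lt_of_lt_of_le (wE_pos t) h1)

lemma SawN_finite (n : ℕ) : (SawN n).Finite := (List.finite_length_eq Bool n).subset fun _ ht => ht.1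

lemma SAL_finite (N : ℕ) : (SAL N).Finite := (List.finite_length_le Bool N).subset fun _ ht => ht.2

lemma gf_SAL_ne_top (N : ℕ) : gf (SAL N) ≠ ⊤ := by
  unfold gf
  have := (SAL_finite N).fintype
  rw [tsum_fintype]
  rw [ENNReal.sum_ne_top]
  intro t _
  unfold wE
  exact ENNReal.ofReal_ne_top

lemma nil_SAL (N : ℕ) : ([] : List Bool) ∈ SAL N := by
  refine ⟨⟨fun _ _ _ => Set.mem_univ _, ?_⟩, Nat.zero_le _⟩
  intro i k h1 h2
  simp at h2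
  omega

lemma one_le_SAL (N : ℕ) : 1 ≤ gf (SAL N) := by
  have h1 : wE [] ≤ gf (SAL N) := by
    unfold gf
    exact ENNReal.le_tsum (f := fun s : SAL N => wE s) ⟨[], nil_SAL N⟩
  refine le_trans (le_of_eq ?_) h1
  unfold wE
  simp

/-- **Markov over the lengths**: the lengths at which some event is too likely have a small weight -/
lemma bad_mass {E : ℕ → Set (List Bool)} {c w : ℕ → ℝ≥0∞} {N : ℕ} (hc : ∀ q, c q ≠ 0)
    (hc' : ∀ q, c q ≠ ⊤)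
    (h : ∀ q, gf {t | t ∈ SAL N ∧ t ∈ E q} ≤ c q * w q) :
    gf {t | t ∈ SAL N ∧
      ∃ q, c q * gf (SawN t.length) < gf {s | s ∈ SawN t.length ∧ s ∈ E q}} ≤ ∑' q, w q := by
  have key : ∀ q, gf {t | t ∈ SAL N ∧
      c q * gf (SawN t.length) < gf {s | s ∈ SawN t.length ∧ s ∈ E q}} ≤ w q := by
    intro q
    have h1 : gf {t | t ∈ SAL N ∧
        c q * gf (SawN t.length) < gf {s | s ∈ SawN t.length ∧ s ∈ E q}} ≤
        (c q)⁻¹ * gf {t | t ∈ SAL N ∧ t ∈ E q} := by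
      rw [gf_len_sum, gf_len_sum {t | t ∈ SAL N ∧ t ∈ E q}, ← ENNReal.tsum_mul_left]
      refine ENNReal.tsum_le_tsum fun n => ?_
      by_cases hn : n ≤ N ∧ c q * gf (SawN n) < gf {s | s ∈ SawN n ∧ s ∈ E q}
      · have e1 : gf {t | t ∈ {t | t ∈ SAL N ∧
            c q * gf (SawN t.length) < gf {s | s ∈ SawN t.length ∧ s ∈ E q}} ∧ t.length = n} ≤
            gf (SawN n) := gf_mono fun t ht => SawN_SAL ht.1.1 ht.2
        have e2 : gf {s | s ∈ SawN n ∧ s ∈ E q} ≤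
            gf {t | t ∈ {t | t ∈ SAL N ∧ t ∈ E q} ∧ t.length = n} :=
          gf_mono fun t ht => ⟨⟨SAL_SawN hn.1 ht.1, ht.2⟩, ht.1.1⟩
        calc _ ≤ gf (SawN n) := e1
          _ = (c q)⁻¹ * (c q * gf (SawN n)) := by
              rw [← mul_assoc, ENNReal.inv_mul_cancel (hc q) (hc' q), one_mul]
          _ ≤ (c q)⁻¹ * gf {s | s ∈ SawN n ∧ s ∈ E q} := mul_le_mul_right hn.2.le _
          _ ≤ _ := mul_le_mul_right e2 _
      · have e1 : {t | t ∈ {t | t ∈ SAL N ∧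
            c q * gf (SawN t.length) < gf {s | s ∈ SawN t.length ∧ s ∈ E q}} ∧ t.length = n} =
            (∅ : Set (List Bool)) := by
          rw [Set.eq_empty_iff_forall_notMem]
          rintro t ⟨⟨h2, h3⟩, h4⟩
          rw [h4] at h3
          refine hn ⟨?_, h3⟩
          rw [← h4]
          exact h2.2
        rw [e1, gf_emp]
        exact zero_le
    refine h1.trans ?_
    calc _ ≤ (c q)⁻¹ * (c q * w q) := mul_le_mul_right (h q) _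
      _ = w q := by rw [← mul_assoc, ENNReal.inv_mul_cancel (hc q) (hc' q), one_mul]
  have hsub : {t | t ∈ SAL N ∧
      ∃ q, c q * gf (SawN t.length) < gf {s | s ∈ SawN t.length ∧ s ∈ E q}} ⊆
      ⋃ q, {t | t ∈ SAL N ∧ c q * gf (SawN t.length) < gf {s | s ∈ SawN t.length ∧ s ∈ E q}} := by
    rintro t ⟨h1, q, h3⟩
    exact Set.mem_iUnion.2 ⟨q, h1, h3⟩
  refine (gf_mono hsub).trans ?_
  refine le_trans ?_ (ENNReal.tsum_le_tsum key)
  unfold gf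
  exact ENNReal.tsum_iUnion_le_tsum wE _

end PickS

open PickS

/-- the event modu -/
def EMs (r ρ : ℝ) (L lL : ℕ) : Set (List Bool) :=
  {t | ∃ (dir : Bool) (i j : ℕ), i ≤ j ∧ j ≤ t.length ∧ (j : ℝ) - i ≤ ρ * lL ∧
    r * 2 ^ L ≤ |((lvl dir (vx oo up t j) - lvl dir (vx oo up t i) : ℤ) : ℝ)|}

/-- the event low -/
def ELs (κ : ℝ) (L : ℕ) : Set (List Bool) :=
  {t | ∀ dir : Bool, |((lvl dir (vx oo up t t.length) : ℤ) : ℝ)| ≤ κ * 2 ^ L}

/-- the event tail -/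
def ETs (i L : ℕ) : Set (List Bool) :=
  {t | ∃ dir : Bool, (2 : ℝ) ^ i * 2 ^ L ≤ |((lvl dir (vx oo up t t.length) : ℤ) : ℝ)|}

/-- the lengths which avoid the bad events -/
def APs (ρ0 : ℝ) (l : ℕ → ℕ) (E : ℕ → ℕ → Set (List Bool)) (c : ℕ → ℝ≥0∞) (c' : ℕ → ℝ≥0∞) (k : ℕ) :
    Set ℕ :=
  {n | ρ0 * (l k : ℝ) < n ∧ n ≤ l k ∧
    (∀ q, gf {s | s ∈ SawN n ∧ s ∈ E q k} ≤ c q * gf (SawN n)) ∧
    ∀ i, gf {s | s ∈ SawN n ∧ s ∈ ETs i k} ≤ c' i * gf (SawN n)}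

/-- the scales of G from L1 on -/
def Cut (G : Set ℕ) (L1 : ℕ) : Set ℕ := {k | k ∈ G ∧ L1 ≤ k}

/-- **The choice of the lengths**, with one more family of bad events X. -/
theorem pickS_gen {ε : ℝ} (h0 : 0 < ε) {l : ℕ → ℕ} {G : Set ℕ}
    (hup : ∀ e : ℝ, 0 < e → ∃ C : ℝ, 0 < C ∧ ∀ k : ℕ, (l k : ℝ) ≤ C * (2 : ℝ) ^ ((4 / 3 + e) * k))
    (hlow : ∀ e : ℝ, 0 < e → ∃ k0 : ℕ, ∀ k : ℕ, k0 ≤ k → (2 : ℝ) ^ ((4 / 3 - e) * k) ≤ l k)
    (hF : FactsS l G) (X : ℕ → ℕ → Set (List Bool))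
    (hX : ∀ q, ∃ L0 : ℕ, ∀ L ∈ G, L0 ≤ L →
      gf {t | t ∈ SAL (l L) ∧ t ∈ X q L} ≤ ENNReal.ofReal (ε / 96 * (1 / 4) ^ q) * gf (SAL (l L))) :
    ∃ (L1 : ℕ) (A : ℕ → Set ℕ), CoreW (Cut G L1) A ∧ (∀ k ∈ Cut G L1, ∀ n ∈ A k, n ≤ l k) ∧
      (∀ k ∈ Cut G L1, gf {t | t ∈ SAL (l k) ∧ t.length ∉ A k} ≤ ENNReal.ofReal ε * gf (SAL (l k))) ∧
      (∃ ρ0 : ℝ, 0 < ρ0 ∧ ∀ k ∈ Cut G L1, ∀ n ∈ A k, ρ0 * (l k : ℝ) < n) ∧
      ∀ q, ∃ k0 : ℕ, ∀ k ∈ Cut G L1, k0 ≤ k → ∀ n ∈ A k,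
        gf {t | t ∈ SawN n ∧ t ∈ X q k} ≤ ENNReal.ofReal ((1 / 2) ^ q) * gf (SawN n) := by
  have hq0 : ∀ q : ℕ, 0 < ε / 96 * (1 / 4) ^ q := fun q => by positivity
  choose ρ Lm hρ hm using fun q : ℕ => hF.modu ((1 / 2) ^ q) (ε / 96 * (1 / 4) ^ q) (by positivity)
    (hq0 q)
  choose κ Lh hκ hh using fun q : ℕ => hF.low (ε / 96 * (1 / 4) ^ q) (hq0 q)
  choose Lx hx using hX
  obtain ⟨ρ0, Lf, hρ0, hf⟩ := hF.few (ε / 8) (by positivity)
  obtain ⟨K, Lt, hK, ht⟩ := hF.tail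
  -- the weight of all walks
  obtain ⟨U, hU⟩ : ∃ U : ℕ → ℝ, ∀ L, gf (SAL (l L)) = ENNReal.ofReal (U L) ∧ 0 < U L := by
    refine ⟨fun L => (gf (SAL (l L))).toReal, fun L => ⟨(ENNReal.ofReal_toReal (gf_SAL_ne_top _)).symm, ?_⟩⟩
    exact ENNReal.toReal_pos (ne_of_gt (lt_of_lt_of_le one_pos (one_le_SAL _))) (gf_SAL_ne_top _)
  -- the events
  set Lq : ℕ → ℕ := fun q => max (Lm q) (max (Lh q) (Lx q)) with hLq
  set E : ℕ → ℕ → Set (List Bool) := fun q L =>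
    {t | Lq q ≤ L ∧ (t ∈ EMs ((1 / 2) ^ q) (ρ q) L (l L) ∨ t ∈ ELs (κ q) L ∨ t ∈ X q L)} with hE
  set c : ℕ → ℝ≥0∞ := fun q => ENNReal.ofReal ((1 / 2) ^ q) with hc
  set K' : ℝ := 32 * K / ε with hK'
  have hK'0 : 0 < K' := by positivity
  set c' : ℕ → ℝ≥0∞ := fun i => ENNReal.ofReal (K' / 32 ^ i) with hc'
  set A : ℕ → Set ℕ := fun k => APs ρ0 l E c c' k with hA
  set L1 : ℕ := max Lf Lt with hL1
  have hEmass : ∀ L ∈ G, ∀ q, gf {t | t ∈ SAL (l L) ∧ t ∈ E q L} ≤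
      c q * ENNReal.ofReal ((1 / 2) ^ q * (ε / 32 * U L)) := by
    intro L hL q
    obtain ⟨hU1, hU0⟩ := hU L
    by_cases hq : Lq q ≤ L
    · have a1 := hm q L hL (le_trans (le_max_left _ _) hq)
      have a2 := hh q L hL (le_trans ((le_max_left _ _).trans (le_max_right _ _)) hq)
      have a3 := hx q L hL (le_trans ((le_max_right _ _).trans (le_max_right _ _)) hq)
      have hsub : {t | t ∈ SAL (l L) ∧ t ∈ E q L} ⊆
          {t | t ∈ SAL (l L) ∧ ∃ (dir : Bool) (i j : ℕ), i ≤ j ∧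
            j ≤ t.length ∧ (j : ℝ) - i ≤ ρ q * l L ∧
            (1 / 2) ^ q * 2 ^ L ≤ |((lvl dir (vx oo up t j) - lvl dir (vx oo up t i) : ℤ) : ℝ)|} ∪
          ({t | t ∈ SAL (l L) ∧ ∀ dir : Bool, |((lvl dir (vx oo up t t.length) : ℤ) : ℝ)| ≤ κ q * 2 ^ L} ∪
          {t | t ∈ SAL (l L) ∧ t ∈ X q L}) := by
        rintro t ⟨t1, -, t3⟩
        rcases t3 with t3 | t3 | t3
        · exact Or.inl ⟨t1, t3⟩
        · exact Or.inr (Or.inl ⟨t1, t3⟩)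
        · exact Or.inr (Or.inr ⟨t1, t3⟩)
      refine (gf_mono hsub).trans ((gf_union_le _ _).trans
        ((add_le_add a1 ((gf_union_le _ _).trans (add_le_add a2 a3))).trans (le_of_eq ?_)))
      rw [hU1, hc, ← ENNReal.ofReal_mul (by positivity), ← ENNReal.ofReal_mul (by positivity),
        ← ENNReal.ofReal_add (by positivity)
        (by positivity), ← ENNReal.ofReal_add (by positivity) (by positivity)]
      congr 1
      rw [show (1 / 4 : ℝ) = 1 / 2 * (1 / 2) by norm_num, mul_pow]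
      ring
    · have e1 : {t | t ∈ SAL (l L) ∧ t ∈ E q L} = (∅ : Set (List Bool)) := by
        rw [Set.eq_empty_iff_forall_notMem]
        exact fun t h => hq h.2.1
      rw [e1, gf_emp]
      exact zero_le
  have hTmass : ∀ L ∈ G, Lt ≤ L → ∀ i, gf {t | t ∈ SAL (l L) ∧ t ∈ ETs i L} ≤
      c' i * ENNReal.ofReal ((1 / 2) ^ i * (ε / 32 * U L)) := by
    intro L hLG hL i
    obtain ⟨hU1, hU0⟩ := hU L
    refine (ht L hLG hL i).trans ?_
    rw [hU1, hc', ← ENNReal.ofReal_mul (by positivity), ← ENNReal.ofReal_mul (by positivity)]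
    refine ENNReal.ofReal_le_ofReal ?_
    have e1 : K' / 32 ^ i * ((1 / 2) ^ i * (ε / 32 * U L)) = K / 64 ^ i * U L := by
      rw [hK', show (64 : ℝ) = 32 * 2 by norm_num, mul_pow, one_div, inv_pow]
      field_simp
    rw [e1]
    have e2 : (64 : ℝ) ^ i ≤ 2 ^ (12 * i) := by
      rw [pow_mul]
      exact pow_le_pow_left₀ (by norm_num) (by norm_num) i
    gcongr
  refine ⟨L1, A, ⟨?_, ?_, ?_, ?_, ?_⟩, fun k _ n hn => hn.2.1, ?_,
    ⟨ρ0, hρ0, fun k _ n hn => hn.1⟩, fun q => ⟨Lq q, fun k _ hk n hn => ?_⟩⟩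
  · -- pos
    rintro k ⟨hk, hk1⟩ n hn
    have h1 : (0 : ℝ) < n := lt_of_le_of_lt (by positivity) hn.1
    exact_mod_cast h1
  · -- exps
    intro η hη
    obtain ⟨C, hC, hup⟩ := hup (η / 2) (by positivity)
    obtain ⟨k1, hlow⟩ := hlow (η / 2) (by positivity)
    obtain ⟨k2, hk2⟩ : ∃ k2 : ℕ, C + ρ0⁻¹ ≤ (2 : ℝ) ^ (η / 2 * (k2 : ℝ)) := by
      have h1 : 1 < (2 : ℝ) ^ (η / 2) := Real.one_lt_rpow (by norm_num) (by positivity)
      obtain ⟨j, hj⟩ := pow_unbounded_of_one_lt (C + ρ0⁻¹) h1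
      refine ⟨j, hj.le.trans (le_of_eq ?_)⟩
      rw [← Real.rpow_natCast, ← Real.rpow_mul (by norm_num)]
    refine ⟨max k1 k2, ?_⟩
    rintro k ⟨hk, hk1⟩ hk3 n hn
    have g1 : (2 : ℝ) ^ (η / 2 * (k2 : ℝ)) ≤ (2 : ℝ) ^ (η / 2 * (k : ℝ)) := by
      refine Real.rpow_le_rpow_of_exponent_le (by norm_num) ?_
      have : (k2 : ℝ) ≤ k := by exact_mod_cast (le_max_right _ _).trans hk3
      gcongr
    have g2 := hlow k ((le_max_left _ _).trans hk3)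
    have g3 := hup k
    have hρi : 0 < ρ0⁻¹ := by positivity
    constructor
    · have g4 : ρ0⁻¹ ≤ (2 : ℝ) ^ (η / 2 * (k : ℝ)) := by linarith
      have g5 : 1 ≤ ρ0 * (2 : ℝ) ^ (η / 2 * (k : ℝ)) := by
        calc (1 : ℝ) = ρ0 * ρ0⁻¹ := by field_simp
          _ ≤ _ := by gcongr
      calc (2 : ℝ) ^ ((4 / 3 - η) * k) ≤ (2 : ℝ) ^ ((4 / 3 - η) * k) *
            (ρ0 * (2 : ℝ) ^ (η / 2 * (k : ℝ))) := le_mul_of_one_le_right (by positivity) g5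
        _ = ρ0 * (2 : ℝ) ^ ((4 / 3 - η / 2) * k) := by
            rw [show (4 / 3 - η / 2) * (k : ℝ) = (4 / 3 - η) * k + η / 2 * k by ring,
              Real.rpow_add (by norm_num)]
            ring
        _ ≤ ρ0 * l k := by gcongr
        _ ≤ n := hn.1.le
    · have g4 : C ≤ (2 : ℝ) ^ (η / 2 * (k : ℝ)) := by linarith
      calc (n : ℝ) ≤ l k := by exact_mod_cast hn.2.1
        _ ≤ C * (2 : ℝ) ^ ((4 / 3 + η / 2) * k) := g3
        _ ≤ (2 : ℝ) ^ (η / 2 * (k : ℝ)) * (2 : ℝ) ^ ((4 / 3 + η / 2) * k) := by gcongr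
        _ = (2 : ℝ) ^ ((4 / 3 + η) * k) := by
            rw [← Real.rpow_add (by norm_num)]
            congr 1
            ring
  · -- modu
    intro r e hr he
    obtain ⟨q, hq⟩ := exists_pow_lt_of_lt_one (lt_min hr he) (show (1 / 2 : ℝ) < 1 by norm_num)
    refine ⟨ρ q, Lq q, hρ q, ?_⟩
    rintro k ⟨hk, hk1⟩ hk2 n hn
    have h1 := hn.2.2.1 q
    refine (gf_mono ?_).trans (h1.trans (mul_le_mul_left (ENNReal.ofReal_le_ofReal
      (hq.le.trans (min_le_right _ _))) _))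
    rintro t ⟨t1, dir, i, j, t2, t3, t4, t5⟩
    refine ⟨t1, hk2, Or.inl ⟨dir, i, j, t2, by rw [t1.1]; exact t3, t4.trans ?_, le_trans ?_ t5⟩⟩
    · have h2 : (n : ℝ) ≤ l k := by exact_mod_cast hn.2.1
      have h3 := hρ q
      gcongr
    · have h3 : (1 / 2 : ℝ) ^ q ≤ r := hq.le.trans (min_le_left _ _)
      gcongr
  · -- low
    intro e he
    obtain ⟨q, hq⟩ := exists_pow_lt_of_lt_one he (show (1 / 2 : ℝ) < 1 by norm_num)
    refine ⟨κ q, Lq q, hκ q, ?_⟩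
    rintro k ⟨hk, hk1⟩ hk2 n hn
    have h1 := hn.2.2.1 q
    refine (gf_mono ?_).trans (h1.trans (mul_le_mul_left (ENNReal.ofReal_le_ofReal hq.le) _))
    rintro t ⟨t1, t2⟩
    refine ⟨t1, hk2, Or.inr (Or.inl ?_)⟩
    show ∀ dir : Bool, |((lvl dir (vx oo up t t.length) : ℤ) : ℝ)| ≤ κ q * 2 ^ k
    rw [t1.1]
    exact t2
  · -- tail
    refine ⟨K', hK'0, ?_⟩
    rintro k ⟨hk, hk1⟩ n hn i
    refine (gf_mono ?_).trans (hn.2.2.2 i)
    rintro t ⟨t1, dir, t2⟩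
    refine ⟨t1, dir, ?_⟩
    rw [t1.1]
    exact t2
  · -- typ
    rintro k ⟨hk, hk1⟩
    obtain ⟨hU1, hU0⟩ := hU k
    rw [hU1, ← ENNReal.ofReal_mul h0.le]
    have h2 : gf {t | t ∈ SAL (l k) ∧ t.length ∉ A k} ≤ gf {t | t ∈ SAL (l k) ∧ (t.length : ℝ) ≤ ρ0 * l k} +
        (gf {t | t ∈ SAL (l k) ∧
          ∃ q, c q * gf (SawN t.length) < gf {s | s ∈ SawN t.length ∧ s ∈ E q k}} +
        gf {t | t ∈ SAL (l k) ∧
          ∃ i, c' i * gf (SawN t.length) < gf {s | s ∈ SawN t.length ∧ s ∈ ETs i k}}) := by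
      refine le_trans (gf_mono ?_) ((gf_union_le _ _).trans (add_le_add le_rfl (gf_union_le _ _)))
      rintro t ⟨t1, t3⟩
      by_cases b1 : (t.length : ℝ) ≤ ρ0 * l k
      · exact Or.inl ⟨t1, b1⟩
      refine Or.inr ?_
      by_contra hcon
      refine t3 ⟨not_le.1 b1, t1.2, ?_, ?_⟩
      · intro q
        by_contra hq
        exact hcon (Or.inl ⟨t1, q, not_le.1 hq⟩)
      · intro i
        by_contra hi
        exact hcon (Or.inr ⟨t1, i, not_le.1 hi⟩)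
    have h3 := bad_mass (E := fun q => E q k) (c := c) (N := l k)
      (w := fun q => ENNReal.ofReal ((1 / 2) ^ q * (ε / 32 * U k)))
      (fun q => (ENNReal.ofReal_pos.2 (by positivity)).ne') (fun q => ENNReal.ofReal_ne_top)
      (hEmass k hk)
    have h4 := bad_mass (E := fun i => ETs i k) (c := c') (N := l k)
      (w := fun i => ENNReal.ofReal ((1 / 2) ^ i * (ε / 32 * U k)))
      (fun q => (ENNReal.ofReal_pos.2 (by positivity)).ne') (fun q => ENNReal.ofReal_ne_top)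
      (hTmass k hk ((le_max_right _ _).trans hk1))
    rw [tsum_half _ (by positivity)] at h3 h4
    have h6 := hf k hk ((le_max_left _ _).trans hk1)
    rw [hU1, ← ENNReal.ofReal_mul (by positivity)] at h6
    refine (h2.trans (add_le_add h6 (add_le_add h3 h4))).trans ?_
    rw [← ENNReal.ofReal_add (by positivity) (by positivity), ← ENNReal.ofReal_add (by positivity)
      (by positivity)]
    refine ENNReal.ofReal_le_ofReal ?_
    have : 0 < ε * U k := by positivity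
    nlinarith
  · -- X
    refine (gf_mono ?_).trans (hn.2.2.1 q)
    rintro t ⟨t1, t2⟩
    exact ⟨t1, hk, Or.inr (Or.inr t2)⟩

/-- **The choice of the lengths, Hoelder form.** -/
theorem pickS {ε a : ℝ} (h0 : 0 < ε) (ha : 0 < a) {l : ℕ → ℕ} {G : Set ℕ}
    (hup : ∀ e : ℝ, 0 < e → ∃ C : ℝ, 0 < C ∧ ∀ k : ℕ, (l k : ℝ) ≤ C * (2 : ℝ) ^ ((4 / 3 + e) * k))
    (hlow : ∀ e : ℝ, 0 < e → ∃ k0 : ℕ, ∀ k : ℕ, k0 ≤ k → (2 : ℝ) ^ ((4 / 3 - e) * k) ≤ l k)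
    (hF : FactsS l G) (hH : FactSH a l G) :
    ∃ (L1 : ℕ) (A : ℕ → Set ℕ), CoreW (Cut G L1) A ∧ HCoreW a (Cut G L1) A ∧ (∀ k ∈ Cut G L1, ∀ n ∈ A k, n ≤ l k) ∧
      (∀ k ∈ Cut G L1, gf {t | t ∈ SAL (l k) ∧ t.length ∉ A k} ≤ ENNReal.ofReal ε * gf (SAL (l k))) ∧
      ∃ ρ0 : ℝ, 0 < ρ0 ∧ ∀ k ∈ Cut G L1, ∀ n ∈ A k, ρ0 * (l k : ℝ) < n := by
  choose M Lx hM hx using fun q : ℕ => hH (ε / 96 * (1 / 4) ^ q) (by positivity)
  obtain ⟨L1, A, h2, h3, h5, h6, h4⟩ := pickS_gen h0 hup hlow hF (fun q L =>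
    {t | ∃ (dir : Bool) (i j : ℕ), i < j ∧ j ≤ t.length ∧ M q * 2 ^ L * (((j : ℝ) - i) / l L) ^ a ≤
      |((lvl dir (vx oo up t j) - lvl dir (vx oo up t i) : ℤ) : ℝ)|})
    fun q => ⟨Lx q, fun L hL hLx => hx q L hL hLx⟩
  refine ⟨L1, A, h2, fun e he => ?_, h3, h5, h6⟩
  obtain ⟨q, hq⟩ := exists_pow_lt_of_lt_one he (show (1 / 2 : ℝ) < 1 by norm_num)
  obtain ⟨k0, hk0⟩ := h4 q
  refine ⟨M q, k0, hM q, fun k hk hkk n hn => ?_⟩
  refine (gf_mono ?_).trans ((hk0 k hk hkk n hn).trans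
    (mul_le_mul_left (ENNReal.ofReal_le_ofReal hq.le) _))
  rintro t ⟨t1, dir, i, j, t2, t3, t4⟩
  refine ⟨t1, dir, i, j, t2, by rw [t1.1]; exact t3, le_trans ?_ t4⟩
  have hn1 := h2.pos k hk n hn
  have hn2 := h3 k hk n hn
  have e1 : (0 : ℝ) ≤ (j : ℝ) - i := by
    have : (i : ℝ) ≤ j := by exact_mod_cast t2.le
    linarith
  have e2 : (0 : ℝ) < n := by exact_mod_cast hn1
  have e3 : (n : ℝ) ≤ l k := by exact_mod_cast hn2
  have hMq := hM q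
  gcongr

end NTW

end HexObs
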