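import Pool.Agent.NTS.CoreW
import Pool.Agent.NTS.PickW
import Pool.Agent.NT.PartsG

/-!
NTW (natural time for all self-avoiding walks): the lengths are dense in the logarithmic scale.
-/

set_option autoImplicit false

namespace NTSF

open Finset

open HexObs.NTm HexObs.NTW

open NTF (AU dense_exists)

open scoped Classical

/-- there are scales of G in every window [x, (1 + δ) x] for δ > d -/
def Meets (d : ℝ) (G : Set ℕ) : Prop := ∀ δ : ℝ, d < δ → ∃ x0 : ℕ, ∀ x : ℕ, x0 ≤ x → ∃ k ∈ G, x ≤ k ∧ (k : ℝ) ≤ (1 + δ) * x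

/-- the lower density of the scales of G is at least 1 - e -/
def LowD (e : ℝ) (G : Set ℕ) : Prop := ∀ η : ℝ, 0 < η → ∃ x0 : ℕ, ∀ x : ℕ, x0 ≤ x →
  (1 - e - η) * x ≤ (((Finset.range x).filter fun k => k ∈ G).card : ℝ)

lemma LowD.mono {e e' : ℝ} {G : Set ℕ} (h : LowD e G) (he : e ≤ e') : LowD e' G := by
  intro η hη
  obtain ⟨x0, hx0⟩ := h η hη
  refine ⟨x0, fun x hx => le_trans ?_ (hx0 x hx)⟩
  have : (0 : ℝ) ≤ x := Nat.cast_nonneg x
  nlinarith

lemma LowD.cut {e : ℝ} {G : Set ℕ} (h : LowD e G) (L1 : ℕ) : LowD e (Cut G L1) := by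
  intro η hη
  obtain ⟨x0, hx0⟩ := h (η / 2) (by positivity)
  refine ⟨max x0 ⌈2 * L1 / η⌉₊, fun x hx => ?_⟩
  have h1 := hx0 x (le_of_max_le_left hx)
  have h2 : 2 * L1 / η ≤ x := (Nat.le_ceil _).trans (by exact_mod_cast le_of_max_le_right hx)
  rw [div_le_iff₀ hη] at h2
  have h3 : ((Finset.range x).filter fun k => k ∈ G).card ≤
      ((Finset.range x).filter fun k => k ∈ Cut G L1).card + L1 := by
    calc ((Finset.range x).filter fun k => k ∈ G).card ≤
        (((Finset.range x).filter fun k => k ∈ Cut G L1) ∪ Finset.range L1).card := by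
          apply Finset.card_le_card
          intro k hk
          rw [Finset.mem_filter] at hk
          rw [Finset.mem_union, Finset.mem_filter]
          rcases Nat.lt_or_ge k L1 with h4 | h4
          · exact Or.inr (Finset.mem_range.2 h4)
          · exact Or.inl ⟨hk.1, hk.2, h4⟩
      _ ≤ _ := by
          refine (Finset.card_union_le _ _).trans ?_
          rw [Finset.card_range]
  have h5 : (((Finset.range x).filter fun k => k ∈ G).card : ℝ) ≤
      (((Finset.range x).filter fun k => k ∈ Cut G L1).card : ℝ) + L1 := by exact_mod_cast h3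
  nlinarith

lemma meets_of_dense {e : ℝ} {G : Set ℕ} (hD : Dense e G) (he : e < 1) : Meets 0 G := fun _ hδ => dense_exists hD he hδ

lemma meets_of_lowD {e : ℝ} {G : Set ℕ} (hD : LowD e G) (he : e < 1) (he0 : 0 ≤ e) : Meets (e / (1 - e)) G := by
  intro δ hδ
  have h1e : 0 < 1 - e := by linarith
  have hδ0 : 0 < δ := lt_of_le_of_lt (by positivity) hδ
  rw [div_lt_iff₀ h1e] at hδ
  -- 1 < (1 - e) (1 + δ)
  have h1 : 1 < (1 - e) * (1 + δ) := by nlinarith
  obtain ⟨η, hη⟩ : ∃ η : ℝ, η = ((1 - e) * (1 + δ) - 1) / (2 * (1 + δ)) := ⟨_, rfl⟩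
  have hη0 : 0 < η := by
    rw [hη]
    have : 0 < (1 - e) * (1 + δ) - 1 := by linarith
    positivity
  have hη1 : (1 - e - η) * (1 + δ) = 1 + ((1 - e) * (1 + δ) - 1) / 2 := by
    rw [hη]
    field_simp
    ring
  obtain ⟨x0, hx0⟩ := hD η hη0
  refine ⟨max x0 1, fun x hx => ?_⟩
  have hx1 : (1 : ℝ) ≤ x := by exact_mod_cast le_of_max_le_right hx
  obtain ⟨y, hy⟩ : ∃ y : ℕ, y = ⌊(1 + δ) * (x : ℝ)⌋₊ + 1 := ⟨_, rfl⟩
  have hy1 : (1 + δ) * (x : ℝ) ≤ y := by
    rw [hy]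
    push_cast
    exact (Nat.lt_floor_add_one _).le
  have hxy : x ≤ y := by
    have : (x : ℝ) ≤ y := by nlinarith
    exact_mod_cast this
  have h2 := hx0 y ((le_of_max_le_left hx).trans hxy)
  have h3 : (x : ℝ) < (((Finset.range y).filter fun k => k ∈ G).card : ℝ) := by
    refine lt_of_lt_of_le ?_ h2
    have h4 : 0 < 1 - e - η := by
      by_contra hcon
      push Not at hcon
      have : (1 - e - η) * (1 + δ) ≤ 0 := mul_nonpos_of_nonpos_of_nonneg hcon (by linarith)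
      linarith
    calc (x : ℝ) < (1 - e - η) * (1 + δ) * x := by
          rw [hη1]
          nlinarith
      _ = (1 - e - η) * ((1 + δ) * x) := by ring
      _ ≤ _ := mul_le_mul_of_nonneg_left hy1 h4.le
  by_contra hcon
  push Not at hcon
  have h5 : ((Finset.range y).filter fun k => k ∈ G) ⊆ Finset.range x := by
    intro k hk
    rw [Finset.mem_filter, Finset.mem_range] at hk
    rw [Finset.mem_range]
    by_contra h6
    have h7 := hcon k hk.2 (by omega)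
    have h8 : k ≤ ⌊(1 + δ) * (x : ℝ)⌋₊ := by omega
    have h9 : (k : ℝ) ≤ (1 + δ) * x := (Nat.le_floor_iff (by positivity)).1 h8
    linarith
  have h6 := Finset.card_le_card h5
  rw [Finset.card_range] at h6
  have h7 : (((Finset.range y).filter fun k => k ∈ G).card : ℝ) ≤ x := by exact_mod_cast h6
  linarith

theorem lengths_meet {d : ℝ} {G : Set ℕ} {A : ℕ → Set ℕ} (hd : 0 ≤ d) (hM : Meets d G) (hC : CoreW G A)
    (hne : ∀ k ∈ G, ∃ n, n ∈ A k) (k2 : ℕ) :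
    ∀ δ : ℝ, d < δ → ∃ x₀ : ℝ, ∀ x : ℝ, x₀ ≤ x → ∃ n ∈ AU G A k2, x ≤ n ∧ (n : ℝ) ≤ x ^ (1 + δ) := by
  intro δ hδ
  obtain ⟨d1, hd1⟩ : ∃ d1 : ℝ, d1 = d + (δ - d) / 3 := ⟨_, rfl⟩
  obtain ⟨d2, hd2⟩ : ∃ d2 : ℝ, d2 = d + 2 * (δ - d) / 3 := ⟨_, rfl⟩
  have hdd1 : d < d1 := by
    rw [hd1]
    linarith
  have hd12 : d1 < d2 := by
    rw [hd1, hd2]
    linarith
  have hd2δ : d2 < δ := by
    rw [hd2]
    linarith
  have hd10 : 0 < d1 := by linarith
  obtain ⟨η, hη⟩ : ∃ η : ℝ, η = 4 / 3 * (d2 - d1) / (2 + d1 + d2) := ⟨_, rfl⟩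
  have hη0 : 0 < η := by
    rw [hη]
    have : 0 < d2 - d1 := by linarith
    have : 0 < 2 + d1 + d2 := by linarith
    positivity
  have hη1 : η < 4 / 3 := by
    rw [hη, div_lt_iff₀ (by linarith)]
    nlinarith
  have hηe : (4 / 3 + η) * (1 + d1) = (1 + d2) * (4 / 3 - η) := by
    have h1 : η * (2 + d1 + d2) = 4 / 3 * (d2 - d1) := by
      rw [hη]
      have : 2 + d1 + d2 ≠ 0 := by linarith
      field_simp
    linarith
  obtain ⟨k0, hk0⟩ := hC.exps η hη0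
  obtain ⟨y0, hy0⟩ := hM d1 hdd1
  obtain ⟨B, hB⟩ : ∃ B : ℝ, B = (4 / 3 + η) * (1 + d1) / (δ - d2) := ⟨_, rfl⟩
  have hB0 : 0 < B := by
    rw [hB]
    have : 0 < δ - d2 := by linarith
    positivity
  refine ⟨2 ^ (B + 4 * (y0 + k0 + k2)), fun x hx => ?_⟩
  have h2 : (1 : ℝ) < 2 := by norm_num
  have hx1 : (1 : ℝ) ≤ x := le_trans (Real.one_le_rpow (by norm_num) (by positivity)) hx
  obtain ⟨L, hL⟩ : ∃ L : ℝ, L = Real.logb 2 x := ⟨_, rfl⟩
  have hxL : (2 : ℝ) ^ L = x := by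
    rw [hL]
    exact Real.rpow_logb (by norm_num) (by norm_num) (by linarith)
  have hLx : B + 4 * (y0 + k0 + k2) ≤ L := by
    rw [← hxL] at hx
    exact (Real.rpow_le_rpow_left_iff h2).1 hx
  have hL1 : B ≤ L := by
    have : (0 : ℝ) ≤ 4 * (y0 + k0 + k2) := by positivity
    linarith
  have hL0 : 0 < L := lt_of_lt_of_le hB0 hL1
  have hLy : 4 * ((y0 : ℝ) + k0 + k2) ≤ L := by linarith
  have hden : 0 < 4 / 3 - η := by linarith
  obtain ⟨y, hy⟩ : ∃ y : ℕ, y = ⌈L / (4 / 3 - η)⌉₊ := ⟨_, rfl⟩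
  have hy1 : L / (4 / 3 - η) ≤ y := by
    rw [hy]
    exact Nat.le_ceil _
  have hy2 : (y : ℝ) ≤ L / (4 / 3 - η) + 1 := by
    rw [hy]
    exact (Nat.ceil_lt_add_one (by positivity)).le
  have hy3 : L ≤ (4 / 3 - η) * y := by
    rw [div_le_iff₀ hden] at hy1
    linarith
  have hy4 : (y0 : ℝ) + k0 + k2 ≤ y := by
    have : (4 / 3 - η) * y ≤ (4 / 3) * y := by
      apply mul_le_mul_of_nonneg_right _ (Nat.cast_nonneg y)
      linarith
    linarith
  have hy5 : y0 + k0 + k2 ≤ y := by exact_mod_cast hy4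
  obtain ⟨k, hk, hyk, hky⟩ := hy0 y (by omega)
  obtain ⟨n, hn⟩ := hne k hk
  obtain ⟨h3, h4⟩ := hk0 k hk (by omega) n hn
  refine ⟨n, ⟨k, hk, by omega, hn⟩, ?_, ?_⟩
  · rw [← hxL]
    refine (Real.rpow_le_rpow_of_exponent_le h2.le ?_).trans h3
    refine hy3.trans (mul_le_mul_of_nonneg_left ?_ hden.le)
    exact_mod_cast hyk
  · refine h4.trans ?_
    rw [← hxL, ← Real.rpow_mul (by norm_num)]
    apply Real.rpow_le_rpow_of_exponent_le h2.le
    have h5 : (4 / 3 + η) * (k : ℝ) ≤ (4 / 3 + η) * ((1 + d1) * (L / (4 / 3 - η) + 1)) := by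
      apply mul_le_mul_of_nonneg_left _ (by positivity)
      exact hky.trans (mul_le_mul_of_nonneg_left hy2 (by positivity))
    have h6 : (4 / 3 + η) * ((1 + d1) * (L / (4 / 3 - η) + 1)) = (1 + d2) * L + (4 / 3 + η) * (1 + d1) := by
      have e1 : (4 / 3 + η) * ((1 + d1) * (L / (4 / 3 - η) + 1)) =
          (4 / 3 + η) * (1 + d1) * (L / (4 / 3 - η)) + (4 / 3 + η) * (1 + d1) := by ring
      rw [e1, hηe]
      have e2 : (1 + d2) * (4 / 3 - η) * (L / (4 / 3 - η)) = (1 + d2) * L := by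
        rw [mul_assoc, mul_div_cancel₀ _ hden.ne']
      rw [e2]
    have h7 : (4 / 3 + η) * (1 + d1) ≤ (δ - d2) * L := by
      have h8 : 0 < δ - d2 := by linarith
      rw [hB, div_le_iff₀ h8] at hL1
      linarith
    rw [h6] at h5
    nlinarith

end NTSF
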