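import Pool.Agent.NTS.DirDefs

/-!
NTW (natural time for all self-avoiding walks): from the direction false to both directions.
-/

set_option autoImplicit false

namespace HexObs

namespace NTW

open Finset SDN

open scoped ENNReal

lemma lev_lvl (t : List Bool) (i : ℕ) : lev t i = lvl false (vx oo up t i) := rfl

lemma gf_or_le (S : Set (List Bool)) (P : Bool → List Bool → Prop) :
    gf {t | t ∈ S ∧ ∃ dir : Bool, P dir t} ≤ gf {t | t ∈ S ∧ P false t} + gf {t | t ∈ S ∧ P true t} := by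
  refine (gf_mono ?_).trans (gf_union_le _ _)
  rintro t ⟨h1, dir, h2⟩
  cases dir
  · exact Or.inl ⟨h1, h2⟩
  · exact Or.inr ⟨h1, h2⟩

/-- the displacement of the walk behind the first horizontal part -/
lemma disp_red {q : ℕ} {t : List Bool} {sg : ℤ} (hq : q ≤ t.length) (hsg : sg = 1 ∨ sg = -1)
    (h1 : ∀ i, i ≤ q → |lvl true (vx oo up t i) - lvl true (vx oo up t q)| ≤ 2)
    (h2 : ∀ i, q + i ≤ t.length →
      lvl true (vx oo up t (q + i)) - lvl true (vx oo up t q) = sg * lvl false (vx oo up (t.drop q) i))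
    {i j : ℕ} (hij : i ≤ j) (hj : j ≤ t.length) :
    ∃ i' j' : ℕ, i' ≤ j' ∧ j' ≤ (t.drop q).length ∧ j' - i' ≤ j - i ∧
      |lvl true (vx oo up t j) - lvl true (vx oo up t i)| ≤ |lev (t.drop q) j' - lev (t.drop q) i'| + 4 := by
  have key : ∀ k, k ≤ t.length → |(lvl true (vx oo up t k) - lvl true (vx oo up t q)) -
      sg * lev (t.drop q) (k - q)| ≤ 2 := by
    intro k hk
    rcases Nat.lt_or_ge k q with h | h
    · have h3 := h1 k h.le
      have h4 : k - q = 0 := by omega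
      rw [h4, lev_zero, mul_zero, sub_zero]
      exact h3
    · have h3 := h2 (k - q) (by omega)
      have h4 : q + (k - q) = k := by omega
      rw [h4] at h3
      rw [h3, lev_lvl, sub_self, abs_zero]
      norm_num
  refine ⟨i - q, j - q, by omega, ?_, by omega, ?_⟩
  · rw [List.length_drop]
    omega
  · have a1 := key i (hij.trans hj)
    have a2 := key j hj
    have a3 : |sg * lev (t.drop q) (j - q) - sg * lev (t.drop q) (i - q)| =
        |lev (t.drop q) (j - q) - lev (t.drop q) (i - q)| := by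
      rw [← mul_sub, abs_mul]
      rcases hsg with rfl | rfl
      · rw [abs_one, one_mul]
      · rw [abs_neg, abs_one, one_mul]
    rw [← a3]
    rw [abs_le] at a1 a2
    have b1 := neg_abs_le (sg * lev (t.drop q) (j - q) - sg * lev (t.drop q) (i - q))
    have b2 := le_abs_self (sg * lev (t.drop q) (j - q) - sg * lev (t.drop q) (i - q))
    rw [abs_le]
    constructor <;> linarith [a1.1, a1.2, a2.1, a2.2]

lemma lvl_zero (t : List Bool) : lvl true (vx oo up t 0) = 0 := by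
  show lvl true oo = 0
  decide

/-- the end of the walk behind the first horizontal part -/
lemma end_red {q : ℕ} {t : List Bool} {sg : ℤ} (hq : q ≤ t.length) (hsg : sg = 1 ∨ sg = -1)
    (h1 : ∀ i, i ≤ q → |lvl true (vx oo up t i) - lvl true (vx oo up t q)| ≤ 2)
    (h2 : ∀ i, q + i ≤ t.length →
      lvl true (vx oo up t (q + i)) - lvl true (vx oo up t q) = sg * lvl false (vx oo up (t.drop q) i)) :
    |lvl true (vx oo up t t.length)| ≤ |lev (t.drop q) (t.drop q).length| + 2 := by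
  have a1 := h1 0 (Nat.zero_le q)
  have a2 := h2 (t.length - q) (by omega)
  have e1 : q + (t.length - q) = t.length := by omega
  rw [e1] at a2
  rw [lvl_zero, zero_sub, abs_neg] at a1
  have e2 : (t.drop q).length = t.length - q := List.length_drop
  rw [e2]
  have a3 : |sg * lvl false (vx oo up (t.drop q) (t.length - q))| = |lev (t.drop q) (t.length - q)| := by
    rw [abs_mul, lev_lvl]
    rcases hsg with rfl | rfl
    · rw [abs_one, one_mul]
    · rw [abs_neg, abs_one, one_mul]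
  rw [← a3, ← a2]
  have b1 := abs_sub_abs_le_abs_sub (lvl true (vx oo up t t.length)) (lvl true (vx oo up t q))
  linarith

theorem factsS_of (hR : DirRed) {l : ℕ → ℕ} {G : Set ℕ} (hF : FactsF l G) : FactsS l G := by
  obtain ⟨K, hK, hred⟩ := hR
  refine ⟨?_, hF.few, ?_, ?_⟩
  · intro r ε hr hε
    obtain ⟨ρ, L0, hρ, h1⟩ := hF.modu (r / 2) (ε / (1 + K)) (by positivity) (by positivity)
    obtain ⟨L1, hL1⟩ : ∃ L1 : ℕ, 8 / r ≤ (2 : ℝ) ^ L1 := by
      obtain ⟨L1, h⟩ := pow_unbounded_of_one_lt (8 / r) (one_lt_two (α := ℝ))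
      exact ⟨L1, h.le⟩
    refine ⟨ρ, max L0 L1, hρ, fun L hL hLL => ?_⟩
    have h2 := h1 L hL (le_of_max_le_left hLL)
    have h3 : 8 ≤ r * 2 ^ L := by
      have h4 : (2 : ℝ) ^ L1 ≤ 2 ^ L := pow_le_pow_right₀ (by norm_num) (le_of_max_le_right hLL)
      rw [div_le_iff₀ hr] at hL1
      nlinarith
    obtain ⟨F, hFdef⟩ : ∃ F : Set (List Bool), F = {t | ∃ i j : ℕ, i ≤ j ∧ j ≤ t.length ∧ (j : ℝ) - i ≤ ρ * l L ∧
      r / 2 * 2 ^ L ≤ |((lev t j - lev t i : ℤ) : ℝ)|} := ⟨_, rfl⟩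
    have h5 : gf {t | t ∈ SAL (l L) ∧ t ∈ F} ≤ ENNReal.ofReal (ε / (1 + K)) * gf (SAL (l L)) := by
      rw [hFdef]
      exact h2
    refine (gf_or_le (SAL (l L)) fun dir t => ∃ i j : ℕ, i ≤ j ∧ j ≤ t.length ∧ (j : ℝ) - i ≤ ρ * l L ∧
      r * 2 ^ L ≤ |((lvl dir (vx oo up t j) - lvl dir (vx oo up t i) : ℤ) : ℝ)|).trans ?_
    have h6 : gf {t | t ∈ SAL (l L) ∧ ∃ i j : ℕ, i ≤ j ∧ j ≤ t.length ∧ (j : ℝ) - i ≤ ρ * l L ∧
        r * 2 ^ L ≤ |((lvl false (vx oo up t j) - lvl false (vx oo up t i) : ℤ) : ℝ)|} ≤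
        gf {t | t ∈ SAL (l L) ∧ t ∈ F} := by
      refine gf_mono ?_
      rintro t ⟨t1, i, j, a, b, c, d⟩
      refine ⟨t1, ?_⟩
      rw [hFdef]
      refine ⟨i, j, a, b, c, le_trans ?_ d⟩
      have : 0 < r * 2 ^ L := by positivity
      linarith
    have h7 : gf {t | t ∈ SAL (l L) ∧ ∃ i j : ℕ, i ≤ j ∧ j ≤ t.length ∧ (j : ℝ) - i ≤ ρ * l L ∧
        r * 2 ^ L ≤ |((lvl true (vx oo up t j) - lvl true (vx oo up t i) : ℤ) : ℝ)|} ≤
        ENNReal.ofReal K * gf {t | t ∈ SAL (l L) ∧ t ∈ F} := by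
      refine hred (l L) {t | ∃ i j : ℕ, i ≤ j ∧ j ≤ t.length ∧ (j : ℝ) - i ≤ ρ * l L ∧
        r * 2 ^ L ≤ |((lvl true (vx oo up t j) - lvl true (vx oo up t i) : ℤ) : ℝ)|} F ?_
      rintro q t sg - hq hsg g1 g2 ⟨i, j, a, b, c, d⟩
      obtain ⟨i', j', a', b', c', d'⟩ := disp_red hq hsg g1 g2 a b
      rw [hFdef]
      refine ⟨i', j', a', b', ?_, ?_⟩
      · have e1 : ((j' - i' : ℕ) : ℝ) ≤ ((j - i : ℕ) : ℝ) := by exact_mod_cast c'
        rw [Nat.cast_sub a', Nat.cast_sub a] at e1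
        linarith
      · have e1 : |((lvl true (vx oo up t j) - lvl true (vx oo up t i) : ℤ) : ℝ)| ≤
            |((lev (t.drop q) j' - lev (t.drop q) i' : ℤ) : ℝ)| + 4 := by
          rw [← Int.cast_abs, ← Int.cast_abs]
          exact_mod_cast d'
        linarith
    refine (add_le_add (h6.trans h5) (h7.trans (mul_le_mul_right h5 _))).trans (le_of_eq ?_)
    rw [← mul_assoc, ← add_mul, ← ENNReal.ofReal_mul (by positivity), ← ENNReal.ofReal_add (by positivity) (by positivity)]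
    congr 2
    field_simp
  · intro ε hε
    obtain ⟨κ, L0, hκ, h1⟩ := hF.low ε hε
    refine ⟨κ, L0, hκ, fun L hL hLL => (gf_mono ?_).trans (h1 L hL hLL)⟩
    rintro t ⟨t1, t2⟩
    exact ⟨t1, t2 false⟩
  · obtain ⟨Kt, L0, hKt, h1⟩ := hF.tail
    refine ⟨Kt + K * (4096 * Kt) + K, max L0 2, by positivity, fun L hL hLL i => ?_⟩
    have h2 := h1 L hL (le_of_max_le_left hLL)
    have hL2 : (4 : ℝ) ≤ 2 ^ L := by
      calc (4 : ℝ) = 2 ^ 2 := by norm_num
        _ ≤ 2 ^ L := pow_le_pow_right₀ (by norm_num) (le_of_max_le_right hLL)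
    refine (gf_or_le (SAL (l L)) fun dir t => (2 : ℝ) ^ i * 2 ^ L ≤ |((lvl dir (vx oo up t t.length) : ℤ) : ℝ)|).trans ?_
    have h3 : gf {t | t ∈ SAL (l L) ∧ (2 : ℝ) ^ i * 2 ^ L ≤ |((lvl false (vx oo up t t.length) : ℤ) : ℝ)|} ≤
        ENNReal.ofReal (Kt / 2 ^ (12 * i)) * gf (SAL (l L)) := h2 i
    have h4 : gf {t | t ∈ SAL (l L) ∧ (2 : ℝ) ^ i * 2 ^ L ≤ |((lvl true (vx oo up t t.length) : ℤ) : ℝ)|} ≤
        ENNReal.ofReal ((K * (4096 * Kt) + K) / 2 ^ (12 * i)) * gf (SAL (l L)) := by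
      rcases Nat.eq_zero_or_pos i with rfl | hi
      · rw [mul_zero, pow_zero, div_one]
        have h5 : gf {t | t ∈ SAL (l L) ∧ (2 : ℝ) ^ 0 * 2 ^ L ≤ |((lvl true (vx oo up t t.length) : ℤ) : ℝ)|} ≤
            1 * gf (SAL (l L)) := by
          rw [one_mul]
          exact gf_mono fun t ht => ht.1
        refine h5.trans (mul_le_mul_left ?_ _)
        rw [← ENNReal.ofReal_one]
        apply ENNReal.ofReal_le_ofReal
        have : 0 < K * (4096 * Kt) := by positivity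
        linarith
      · obtain ⟨m, rfl⟩ : ∃ m, i = m + 1 := ⟨i - 1, by omega⟩
        have h5 := hred (l L) {t | (2 : ℝ) ^ (m + 1) * 2 ^ L ≤ |((lvl true (vx oo up t t.length) : ℤ) : ℝ)|}
          {t | (2 : ℝ) ^ m * 2 ^ L ≤ |((lev t t.length : ℤ) : ℝ)|} (by
          rintro q t sg - hq hsg g1 g2 d
          have d1 : (2 : ℝ) ^ (m + 1) * 2 ^ L ≤ |((lvl true (vx oo up t t.length) : ℤ) : ℝ)| := d
          have d2 := end_red hq hsg g1 g2
          have d3 : |((lvl true (vx oo up t t.length) : ℤ) : ℝ)| ≤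
              |((lev (t.drop q) (t.drop q).length : ℤ) : ℝ)| + 2 := by
            rw [← Int.cast_abs, ← Int.cast_abs]
            exact_mod_cast d2
          show (2 : ℝ) ^ m * 2 ^ L ≤ |((lev (t.drop q) (t.drop q).length : ℤ) : ℝ)|
          have e1 : (1 : ℝ) ≤ 2 ^ m := one_le_pow₀ (by norm_num)
          have e2 : (2 : ℝ) ^ (m + 1) * 2 ^ L = 2 * (2 ^ m * 2 ^ L) := by ring
          have e3 : (4 : ℝ) ≤ 2 ^ m * 2 ^ L := by nlinarith
          linarith)
        refine h5.trans ((mul_le_mul_right (h2 m) _).trans ?_)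
        rw [← mul_assoc, ← ENNReal.ofReal_mul (by positivity)]
        refine mul_le_mul_left (ENNReal.ofReal_le_ofReal ?_) _
        have e1 : (2 : ℝ) ^ (12 * (m + 1)) = 4096 * 2 ^ (12 * m) := by
          rw [mul_add, pow_add]
          norm_num
          ring
        rw [e1]
        have e2 : K * (Kt / 2 ^ (12 * m)) = K * (4096 * Kt) / (4096 * 2 ^ (12 * m)) := by
          field_simp
        rw [e2]
        apply div_le_div_of_nonneg_right _ (by positivity)
        linarith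
    refine (add_le_add h3 h4).trans (le_of_eq ?_)
    rw [← add_mul, ← ENNReal.ofReal_add (by positivity) (by positivity)]
    congr 2
    ring

theorem factSH_of (hR : DirRed) {l : ℕ → ℕ} {G : Set ℕ} (hl1 : ∀ L, 1 ≤ l L)
    (hup : ∀ e : ℝ, 0 < e → ∃ C : ℝ, 0 < C ∧ ∀ k : ℕ, (l k : ℝ) ≤ C * (2 : ℝ) ^ ((4 / 3 + e) * k)) {a : ℝ} (ha : 0 < a)
    (ha1 : a < 3 / 4) (hF : FactFH a l G) : FactSH a l G := by
  obtain ⟨K, hK, hred⟩ := hR
  intro e he
  obtain ⟨M, L0, hM, h1⟩ := hF (e / (1 + K)) (by positivity)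
  -- one step is large
  obtain ⟨L1, hL1⟩ : ∃ L1 : ℕ, ∀ L, L1 ≤ L → ∀ d : ℝ, 1 ≤ d → 8 ≤ 2 * M * 2 ^ L * (d / l L) ^ a := by
    obtain ⟨e1, he1⟩ : ∃ e1 : ℝ, e1 = (1 - 4 / 3 * a) / (2 * a) := ⟨_, rfl⟩
    have he10 : 0 < e1 := by
      rw [he1]
      have : 0 < 1 - 4 / 3 * a := by linarith
      positivity
    obtain ⟨C, hC, hup1⟩ := hup e1 he10
    obtain ⟨c, hc⟩ : ∃ c : ℝ, c = 1 - (4 / 3 + e1) * a := ⟨_, rfl⟩
    have hc0 : 0 < c := by
      have e2 : e1 * a = (1 - 4 / 3 * a) / 2 := by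
        rw [he1]
        field_simp
      rw [hc]
      have : (4 / 3 + e1) * a = 4 / 3 * a + e1 * a := by ring
      rw [this, e2]
      linarith
    have h2 : 1 < (2 : ℝ) ^ c := Real.one_lt_rpow (by norm_num) hc0
    obtain ⟨L1, hL1⟩ := pow_unbounded_of_one_lt (4 * C ^ a / M) h2
    refine ⟨L1, fun L hL d hd => ?_⟩
    have hlL : (0 : ℝ) < l L := by exact_mod_cast hl1 L
    have h3 : (4 * C ^ a / M) ≤ (2 : ℝ) ^ (c * L) := by
      refine hL1.le.trans ?_
      rw [← Real.rpow_natCast, ← Real.rpow_mul (by norm_num)]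
      apply Real.rpow_le_rpow_of_exponent_le (by norm_num)
      exact mul_le_mul_of_nonneg_left (by exact_mod_cast hL) hc0.le
    have h4 : (1 / (C * (2 : ℝ) ^ ((4 / 3 + e1) * L))) ^ a ≤ (d / l L) ^ a := by
      apply Real.rpow_le_rpow (by positivity) _ ha.le
      calc 1 / (C * (2 : ℝ) ^ ((4 / 3 + e1) * L)) ≤ 1 / (l L) := one_div_le_one_div_of_le hlL (hup1 L)
        _ ≤ d / l L := div_le_div_of_nonneg_right hd hlL.le
    have h5 : (2 : ℝ) ^ L * (1 / (C * (2 : ℝ) ^ ((4 / 3 + e1) * L))) ^ a = (2 : ℝ) ^ (c * L) / C ^ a := by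
      rw [Real.div_rpow (by norm_num) (by positivity), Real.one_rpow, Real.mul_rpow hC.le (by positivity),
        ← Real.rpow_mul (by norm_num), ← Real.rpow_natCast]
      have h6 : (2 : ℝ) ^ (c * (L : ℝ)) * (2 : ℝ) ^ ((4 / 3 + e1) * L * a) = (2 : ℝ) ^ (L : ℝ) := by
        rw [← Real.rpow_add (by norm_num), hc]
        congr 1
        ring
      rw [← h6]
      have h7 : (2 : ℝ) ^ ((4 / 3 + e1) * (L : ℝ) * a) ≠ 0 := by positivity
      have h8 : C ^ a ≠ 0 := by positivity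
      field_simp
    have hCa : 0 < C ^ a := by positivity
    have h6 : 4 / M ≤ (2 : ℝ) ^ (c * L) / C ^ a := by
      rw [le_div_iff₀ hCa]
      calc 4 / M * C ^ a = 4 * C ^ a / M := by ring
        _ ≤ _ := h3
    have h7 : 8 = 2 * M * (4 / M) := by
      field_simp
      norm_num
    calc (8 : ℝ) = 2 * M * (4 / M) := h7
      _ ≤ 2 * M * (2 ^ L * (1 / (C * (2 : ℝ) ^ ((4 / 3 + e1) * L))) ^ a) := by
          rw [h5]
          exact mul_le_mul_of_nonneg_left h6 (by positivity)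
      _ = 2 * M * 2 ^ L * (1 / (C * (2 : ℝ) ^ ((4 / 3 + e1) * L))) ^ a := by ring
      _ ≤ _ := mul_le_mul_of_nonneg_left h4 (by positivity)
  refine ⟨2 * M, max L0 L1, by positivity, fun L hL hLL => ?_⟩
  have h2 := h1 L hL (le_of_max_le_left hLL)
  have h3 := hL1 L (le_of_max_le_right hLL)
  have hlL : (0 : ℝ) < l L := by exact_mod_cast hl1 L
  obtain ⟨F, hFdef⟩ : ∃ F : Set (List Bool), F = {t | ∃ i j : ℕ, i < j ∧ j ≤ t.length ∧
      M * 2 ^ L * (((j : ℝ) - i) / l L) ^ a ≤ |((lev t j - lev t i : ℤ) : ℝ)|} := ⟨_, rfl⟩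
  have h5 : gf {t | t ∈ SAL (l L) ∧ t ∈ F} ≤ ENNReal.ofReal (e / (1 + K)) * gf (SAL (l L)) := by
    rw [hFdef]
    exact h2
  refine (gf_or_le (SAL (l L)) fun dir t => ∃ i j : ℕ, i < j ∧ j ≤ t.length ∧
    2 * M * 2 ^ L * (((j : ℝ) - i) / l L) ^ a ≤
      |((lvl dir (vx oo up t j) - lvl dir (vx oo up t i) : ℤ) : ℝ)|).trans ?_
  have hpos : ∀ i j : ℕ, i < j → (0 : ℝ) ≤ (((j : ℝ) - i) / l L) ^ a := by
    intro i j hij
    have : (i : ℝ) ≤ j := by exact_mod_cast hij.le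
    have h6 : (0 : ℝ) ≤ ((j : ℝ) - i) / l L := div_nonneg (by linarith) hlL.le
    positivity
  have h6 : gf {t | t ∈ SAL (l L) ∧ ∃ i j : ℕ, i < j ∧ j ≤ t.length ∧
      2 * M * 2 ^ L * (((j : ℝ) - i) / l L) ^ a ≤
        |((lvl false (vx oo up t j) - lvl false (vx oo up t i) : ℤ) : ℝ)|} ≤ gf {t | t ∈ SAL (l L) ∧ t ∈ F} := by
    refine gf_mono ?_
    rintro t ⟨t1, i, j, b, c, d⟩
    refine ⟨t1, ?_⟩
    rw [hFdef]
    refine ⟨i, j, b, c, le_trans ?_ d⟩
    have := hpos i j b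
    have h7 : 0 ≤ M * 2 ^ L * (((j : ℝ) - i) / l L) ^ a := by positivity
    linarith
  have h7 : gf {t | t ∈ SAL (l L) ∧ ∃ i j : ℕ, i < j ∧ j ≤ t.length ∧
      2 * M * 2 ^ L * (((j : ℝ) - i) / l L) ^ a ≤
        |((lvl true (vx oo up t j) - lvl true (vx oo up t i) : ℤ) : ℝ)|} ≤
      ENNReal.ofReal K * gf {t | t ∈ SAL (l L) ∧ t ∈ F} := by
    refine hred (l L) {t | ∃ i j : ℕ, i < j ∧ j ≤ t.length ∧
      2 * M * 2 ^ L * (((j : ℝ) - i) / l L) ^ a ≤
        |((lvl true (vx oo up t j) - lvl true (vx oo up t i) : ℤ) : ℝ)|} F ?_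
    rintro q t sg - hq hsg g1 g2 ⟨i, j, b, c, d⟩
    obtain ⟨i', j', a', b', c', d'⟩ := disp_red hq hsg g1 g2 b.le c
    have e1 : |((lvl true (vx oo up t j) - lvl true (vx oo up t i) : ℤ) : ℝ)| ≤
        |((lev (t.drop q) j' - lev (t.drop q) i' : ℤ) : ℝ)| + 4 := by
      rw [← Int.cast_abs, ← Int.cast_abs]
      exact_mod_cast d'
    have hij : (1 : ℝ) ≤ (j : ℝ) - i := by
      have : ((i + 1 : ℕ) : ℝ) ≤ j := by exact_mod_cast b
      push_cast at this
      linarith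
    have e2 := h3 ((j : ℝ) - i) hij
    have hij' : i' < j' := by
      rcases Nat.lt_or_ge i' j' with h | h
      · exact h
      · have : j' = i' := le_antisymm h a'
        rw [this, sub_self, Int.cast_zero, abs_zero] at e1
        linarith
    rw [hFdef]
    refine ⟨i', j', hij', b', ?_⟩
    have e3 : ((j' - i' : ℕ) : ℝ) ≤ ((j - i : ℕ) : ℝ) := by exact_mod_cast c'
    rw [Nat.cast_sub a', Nat.cast_sub b.le] at e3
    have e4 : (((j' : ℝ) - i') / l L) ^ a ≤ (((j : ℝ) - i) / l L) ^ a := by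
      apply Real.rpow_le_rpow _ _ ha.le
      · have : (i' : ℝ) ≤ j' := by exact_mod_cast a'
        exact div_nonneg (by linarith) hlL.le
      · exact div_le_div_of_nonneg_right e3 hlL.le
    have e5 : M * 2 ^ L * (((j' : ℝ) - i') / l L) ^ a ≤ M * 2 ^ L * (((j : ℝ) - i) / l L) ^ a :=
      mul_le_mul_of_nonneg_left e4 (by positivity)
    linarith
  refine (add_le_add (h6.trans h5) (h7.trans (mul_le_mul_right h5 _))).trans (le_of_eq ?_)
  rw [← mul_assoc, ← add_mul, ← ENNReal.ofReal_mul (by positivity), ← ENNReal.ofReal_add (by positivity) (by positivity)]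
  congr 2
  field_simp

end NTW

end HexObs
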