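import Pool.Agent.NTS.ExDefs

/-!
# NTS/ResultOut: the conclusion for EVERY step number written out (helper83)

* `NTSF.conclE_true`, `NTSF.conclE_false` : `ConclE b` in the words of the result file.
-/

set_option autoImplicit false

open MeasureTheory Filter Topology ENNReal
open scoped Classical

namespace NTSF

open Pool.Agent.NTS.Res

theorem conclE_true (h : ConclE True) :
    (∃ c C : ℝ, 0 < c ∧ ∀ n : ℕ, 1 ≤ n →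
      c * (n : ℝ) ^ (3 / 4 : ℝ) ≤ size n ∧ size n ≤ C * (n : ℝ) ^ (3 / 4 : ℝ)) ∧
    (∀ n : ℕ, IsProbabilityMeasure (law n)) ∧
    (∀ a : NNReal, 0 < a → (a : ℝ) < 3 / 4 → ∀ ε : ℝ, 0 < ε → ∃ M : NNReal, ∀ n : ℕ, 1 ≤ n →
      law n {γ : C(unitInterval, ℂ) | ¬ HolderWith M a γ} ≤ ENNReal.ofReal ε) ∧
    IsTightMeasureSet {μ | ∃ n : ℕ, 1 ≤ n ∧ μ = law n} ∧
    (∀ φ : ℕ → ℕ, StrictMono φ → ∃ ψ : ℕ → ℕ, StrictMono ψ ∧ ∃ ν : Measure C(unitInterval, ℂ),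
      IsProbabilityMeasure ν ∧ LawTo (fun k => φ (ψ k)) ν) ∧
    ∀ (φ : ℕ → ℕ) (ν : Measure C(unitInterval, ℂ)), Tendsto φ atTop atTop → IsProbabilityMeasure ν → LawTo φ ν →
      (∀ᵐ γ : C(unitInterval, ℂ) ∂ν, γ 0 = 0 ∧ γ 1 ≠ 0 ∧
        ∀ a : NNReal, (a : ℝ) < 3 / 4 → ∃ M : NNReal, HolderWith M a γ) ∧
      ∫ γ : C(unitInterval, ℂ), ‖γ 1‖ ^ 2 ∂ν = 1 := by
  obtain ⟨c, C, hc, h1, h2, h3, h4, h5, h6⟩ := h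
  refine ⟨⟨c, C, hc, h1⟩, h2, h3, h4, h5, fun φ ν hφ hν hl => ?_⟩
  obtain ⟨h7, h8⟩ := h6 φ ν hφ hν hl
  refine ⟨?_, h8⟩
  filter_upwards [h7] with γ h9
  exact ⟨h9.1, h9.2.1 trivial, h9.2.2⟩

theorem conclE_false (h : ConclE False) :
    (∃ c C : ℝ, 0 < c ∧ ∀ n : ℕ, 1 ≤ n →
      c * (n : ℝ) ^ (3 / 4 : ℝ) ≤ size n ∧ size n ≤ C * (n : ℝ) ^ (3 / 4 : ℝ)) ∧
    (∀ n : ℕ, IsProbabilityMeasure (law n)) ∧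
    (∀ a : NNReal, 0 < a → (a : ℝ) < 3 / 4 → ∀ ε : ℝ, 0 < ε → ∃ M : NNReal, ∀ n : ℕ, 1 ≤ n →
      law n {γ : C(unitInterval, ℂ) | ¬ HolderWith M a γ} ≤ ENNReal.ofReal ε) ∧
    IsTightMeasureSet {μ | ∃ n : ℕ, 1 ≤ n ∧ μ = law n} ∧
    (∀ φ : ℕ → ℕ, StrictMono φ → ∃ ψ : ℕ → ℕ, StrictMono ψ ∧ ∃ ν : Measure C(unitInterval, ℂ),
      IsProbabilityMeasure ν ∧ LawTo (fun k => φ (ψ k)) ν) ∧
    ∀ (φ : ℕ → ℕ) (ν : Measure C(unitInterval, ℂ)), Tendsto φ atTop atTop → IsProbabilityMeasure ν → LawTo φ ν →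
      (∀ᵐ γ : C(unitInterval, ℂ) ∂ν, γ 0 = 0 ∧
        ∀ a : NNReal, (a : ℝ) < 3 / 4 → ∃ M : NNReal, HolderWith M a γ) ∧
      ∫ γ : C(unitInterval, ℂ), ‖γ 1‖ ^ 2 ∂ν = 1 := by
  obtain ⟨c, C, hc, h1, h2, h3, h4, h5, h6⟩ := h
  refine ⟨⟨c, C, hc, h1⟩, h2, h3, h4, h5, fun φ ν hφ hν hl => ?_⟩
  obtain ⟨h7, h8⟩ := h6 φ ν hφ hν hl
  refine ⟨?_, h8⟩
  filter_upwards [h7] with γ h9
  exact ⟨h9.1, h9.2.2⟩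

end NTSF
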