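import Pool.Agent.NTS.ResultX
import Pool.Agent.EN.LowMod

/-!
NTW for EVERY step number: the lower modulus of the weak limits. For every exponent a > 3 / 4 almost every curve has a
constant c > 0 such that every arc [u, v] contains a point at distance at least c (v - u) ^ a of the point u.
-/

set_option autoImplicit false

namespace NTSF

open Finset MeasureTheory Filter Topology

open HexObs hiding pos curve

open HexObs.TS HexObs.SDN HexObs.NTW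

open Pool.Agent.NTS.Res

open NTF (sw JJ open_le)

open scoped ENNReal Classical

/-- the lower modulus of the walks, exponent a -/
def LowA (a : ℝ) : Prop := ∀ ε : ℝ, 0 < ε → ∃ c : ℝ, 0 < c ∧ ∀ h : ℝ, 0 < h → ∃ n0 : ℕ, ∀ n : ℕ, n0 ≤ n →
  (((saw n).filter fun s => ∃ i j : ℕ, i < j ∧ j ≤ n ∧ h * n ≤ (j : ℝ) - i ∧ ∀ x : ℕ, i ≤ x → x ≤ j →
    ‖Pool.Agent.NTS.Res.pos s x - Pool.Agent.NTS.Res.pos s i‖ ≤ c * size n * (((j : ℝ) - i) / n) ^ a).card : ℝ) ≤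
    ε * ((saw n).card : ℝ)

/-- from the words to the walks -/
theorem lowA_of {m : ℕ → ℝ} {R : ℕ → ℝ} {κ : ℕ → ℕ} (hS : ScaleX m R κ) {c0 : ℝ} {n0 : ℕ} (hc0 : 0 < c0)
    (hnu : ∀ n : ℕ, n0 ≤ n → nuX m (κ n) ≤ ENNReal.ofReal c0 * gf (SawN n)) {Cu : ℝ} {nu : ℕ} (hCu : 0 < Cu)
    (hup : ∀ n : ℕ, nu ≤ n → size n ≤ Cu * R n) {a : ℝ} (hL : HexObs.EN.LowModX m a) : LowA a := by
  intro ε hε
  obtain ⟨c, hc, h1⟩ := hL (ε / c0) (by positivity)
  refine ⟨c / (2 * Cu), by positivity, fun h hh => ?_⟩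
  obtain ⟨k0, h1⟩ := h1 h hh
  obtain ⟨n2, h2⟩ := event_le hS hnu (k0 := k0) (e := ε / c0) (by positivity)
    (E := fun n => {t | t ∈ SawN n ∧ ∃ i j : ℕ, i < j ∧ j ≤ n ∧ h * n ≤ (j : ℝ) - i ∧ ∀ (dir : Bool) (x : ℕ), i ≤ x →
      x ≤ j → |((lvl dir (vx oo up t x) - lvl dir (vx oo up t i) : ℤ) : ℝ)| ≤
        c * R n * (((j : ℝ) - i) / n) ^ a}) (by
      intro k n hk a1 a2 hkn
      have h3 := h1 k n hk a1 a2
      rw [hS.R2 n, hkn]
      exact h3)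
  refine ⟨max (max n2 nu) 1, fun n hn => ?_⟩
  have b0 : n2 ≤ n := (le_max_left _ _).trans (le_of_max_le_left hn)
  have b1 : nu ≤ n := (le_max_right _ _).trans (le_of_max_le_left hn)
  have b2 : 1 ≤ n := le_of_max_le_right hn
  have h3 := h2 n b0
  rw [div_mul_cancel₀ _ hc0.ne'] at h3
  refine prop_le b2 _ (fun s => by simp only [norm_rot]) hε.le ?_ h3
  rintro t ht ⟨i, j, hij, hj, hh', hx⟩
  refine ⟨ht, i, j, hij, hj, hh', fun dir x hix hxj => ?_⟩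
  have h4 := hx x hix hxj
  rw [pos_sw n t x (hxj.trans hj), pos_sw n t i (hij.le.trans hj), ← NTF.JJ_sub] at h4
  have h5 := lvl_le_norm dir (vx oo up t x - vx oo up t i)
  rw [NTF.lvl_sub] at h5
  have hij' : (0 : ℝ) ≤ (j : ℝ) - i := by
    have : (i : ℝ) ≤ j := by exact_mod_cast hij.le
    linarith
  have h6 : (0 : ℝ) ≤ (((j : ℝ) - i) / n) ^ a := by positivity
  calc |((lvl dir (vx oo up t x) - lvl dir (vx oo up t i) : ℤ) : ℝ)| ≤ 2 * ‖JJ (vx oo up t x - vx oo up t i)‖ := h5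
    _ ≤ 2 * (c / (2 * Cu) * (Cu * R n) * (((j : ℝ) - i) / n) ^ a) := by
      refine mul_le_mul_of_nonneg_left (h4.trans ?_) (by norm_num)
      refine mul_le_mul_of_nonneg_right ?_ h6
      exact mul_le_mul_of_nonneg_left (hup n b1) (by positivity)
    _ = _ := by field_simp

/-- some arc of length at least h stays near its start -/
def Slow (a c h : ℝ) : Set C(unitInterval, ℂ) := {γ | ∃ u v : unitInterval, (u : ℝ) + h ≤ v ∧
  ∀ t : unitInterval, u ≤ t → t ≤ v → ‖γ t - γ u‖ < c * ((v : ℝ) - u) ^ a}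

lemma open_slow (a c h : ℝ) (hh : 0 < h) : IsOpen (Slow a c h) := by
  rw [Metric.isOpen_iff]
  rintro γ ⟨u, v, huv, hγ⟩
  have huv' : u ≤ v := by
    have : (u : ℝ) ≤ v := by linarith
    exact_mod_cast this
  obtain ⟨t0, ht0, hmax⟩ := (isCompact_Icc (a := u) (b := v)).exists_isMaxOn ⟨u, le_rfl, huv'⟩
    (f := fun t => ‖γ t - γ u‖) ((γ.continuous.sub continuous_const).norm.continuousOn)
  obtain ⟨B, hB⟩ : ∃ B : ℝ, B = c * ((v : ℝ) - u) ^ a := ⟨_, rfl⟩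
  have h1 : ‖γ t0 - γ u‖ < B := by
    rw [hB]
    exact hγ t0 ht0.1 ht0.2
  refine ⟨(B - ‖γ t0 - γ u‖) / 3, by linarith, fun g hg => ⟨u, v, huv, fun t hut htv => ?_⟩⟩
  rw [Metric.mem_ball] at hg
  have h2 : ‖γ t - γ u‖ ≤ ‖γ t0 - γ u‖ := hmax (⟨hut, htv⟩ : t ∈ Set.Icc u v)
  have h3 : ∀ w : unitInterval, ‖g w - γ w‖ < (B - ‖γ t0 - γ u‖) / 3 := fun w => by
    rw [← dist_eq_norm]
    exact (ContinuousMap.dist_apply_le_dist w).trans_lt hg
  rw [← hB]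
  have h4 : ‖g t - g u‖ ≤ ‖g t - γ t‖ + ‖γ t - γ u‖ + ‖g u - γ u‖ := by
    have : g t - g u = (g t - γ t) + (γ t - γ u) - (g u - γ u) := by ring
    rw [this]
    exact (norm_sub_le _ _).trans (add_le_add (norm_add_le _ _) le_rfl)
  linarith [h3 t, h3 u]

lemma curve_grid {n : ℕ} (hn : 1 ≤ n) (s : Fin n → Fin 3) {x : ℕ} (hx : x ≤ n) (t : unitInterval)
    (ht : (t : ℝ) = (x : ℝ) / n) : curve s t = Pool.Agent.NTS.Res.pos s x / size n := by
  have hn0 : (0 : ℝ) < n := by exact_mod_cast hn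
  have h1 : (t : ℝ) * n = x := by
    rw [ht]
    field_simp
  rcases Nat.lt_or_ge x n with h | h
  · rw [curve_eq, Tight.poly_apply h (le_of_eq h1.symm) (by linarith), h1]
    simp
  · have hxn : x = n := le_antisymm hx h
    have h2 : t = 1 := by
      ext
      rw [ht, hxn]
      simp [hn0.ne']
    rw [h2, curve_one, hxn]

lemma law_slow {a : ℝ} (ha : 0 < a) (hL : LowA a) {ε : ℝ} (hε : 0 < ε) : ∃ c : ℝ, 0 < c ∧ ∀ h : ℝ, 0 < h → ∃ n0 : ℕ,
    ∀ n : ℕ, n0 ≤ n → law n (Slow a c h) ≤ ENNReal.ofReal ε := by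
  obtain ⟨c, hc, h1⟩ := hL ε hε
  refine ⟨c / 2 ^ (a + 1), by positivity, fun h hh => ?_⟩
  obtain ⟨n0, h1⟩ := h1 (h / 2) (by positivity)
  refine ⟨max n0 (⌈4 / h⌉₊ + 1), fun n hn => law_le hε.le (le_trans ?_ (h1 n (le_of_max_le_left hn)))⟩
  have hn1 : 1 ≤ n := by
    have := le_of_max_le_right hn
    omega
  have hn0 : (0 : ℝ) < n := by exact_mod_cast hn1
  have hnh : 4 ≤ h * n := by
    have h2 : 4 / h ≤ n := (Nat.le_ceil _).trans (by
      have : ⌈4 / h⌉₊ ≤ n := by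
        have := le_of_max_le_right hn
        omega
      exact_mod_cast this)
    rw [div_le_iff₀ hh] at h2
    linarith
  have hsub : ((saw n).filter fun s => curve s ∈ Slow a (c / 2 ^ (a + 1)) h) ⊆
      (saw n).filter fun s => ∃ i j : ℕ, i < j ∧ j ≤ n ∧ h / 2 * n ≤ (j : ℝ) - i ∧ ∀ x : ℕ, i ≤ x → x ≤ j →
        ‖Pool.Agent.NTS.Res.pos s x - Pool.Agent.NTS.Res.pos s i‖ ≤ c * size n * (((j : ℝ) - i) / n) ^ a := by
    intro s hs
    rw [Finset.mem_filter] at hs ⊢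
    obtain ⟨hs1, u, v, huv, hγ⟩ := hs
    refine ⟨hs1, ⌈(u : ℝ) * n⌉₊, ⌊(v : ℝ) * n⌋₊, ?_⟩
    have hu0 : (0 : ℝ) ≤ u := u.2.1
    have hv1 : (v : ℝ) ≤ 1 := v.2.2
    have hv0 : (0 : ℝ) ≤ v := v.2.1
    have e1 : (u : ℝ) * n ≤ (⌈(u : ℝ) * n⌉₊ : ℝ) := Nat.le_ceil _
    have e2 : (⌈(u : ℝ) * n⌉₊ : ℝ) < u * n + 1 := Nat.ceil_lt_add_one (by positivity)
    have e3 : (⌊(v : ℝ) * n⌋₊ : ℝ) ≤ v * n := Nat.floor_le (by positivity)
    have e4 : (v : ℝ) * n < (⌊(v : ℝ) * n⌋₊ : ℝ) + 1 := Nat.lt_floor_add_one _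
    obtain ⟨i, hi⟩ : ∃ i : ℕ, i = ⌈(u : ℝ) * n⌉₊ := ⟨_, rfl⟩
    obtain ⟨j, hj⟩ : ∃ j : ℕ, j = ⌊(v : ℝ) * n⌋₊ := ⟨_, rfl⟩
    rw [← hi, ← hj]
    rw [← hi] at e1 e2
    rw [← hj] at e3 e4
    have hlen : ((v : ℝ) - u) * n / 2 ≤ (j : ℝ) - i := by nlinarith
    have hpos : 0 < (v : ℝ) - u := by linarith
    have hjn : j ≤ n := by
      have : (j : ℝ) ≤ n := e3.trans (by nlinarith)
      exact_mod_cast this
    have hij : i < j := by
      have : (i : ℝ) < j := by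
        have : 0 < ((v : ℝ) - u) * n / 2 := by positivity
        linarith
      exact_mod_cast this
    refine ⟨hij, hjn, ?_, fun x hix hxj => ?_⟩
    · refine le_trans ?_ hlen
      have : h * n ≤ ((v : ℝ) - u) * n := mul_le_mul_of_nonneg_right (by linarith) hn0.le
      linarith
    · have hxR : (i : ℝ) ≤ x := by exact_mod_cast hix
      have hxR' : (x : ℝ) ≤ j := by exact_mod_cast hxj
      have hmem : ∀ y : ℕ, (i : ℝ) ≤ y → (y : ℝ) ≤ j → (u : ℝ) ≤ (y : ℝ) / n ∧ (y : ℝ) / n ≤ v := by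
        intro y h2 h3
        rw [le_div_iff₀ hn0, div_le_iff₀ hn0]
        constructor <;> linarith
      have hm1 := hmem x hxR hxR'
      have hm2 := hmem i le_rfl (hxR.trans hxR')
      have hsz : 0 < size n := size_pos hn1
      obtain ⟨tx, htx⟩ : ∃ t : unitInterval, (t : ℝ) = (x : ℝ) / n := ⟨⟨(x : ℝ) / n, by linarith, by linarith⟩, rfl⟩
      obtain ⟨ti, hti⟩ : ∃ t : unitInterval, (t : ℝ) = (i : ℝ) / n := ⟨⟨(i : ℝ) / n, by linarith, by linarith⟩, rfl⟩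
      have g1 := hγ tx (by
        have : (u : ℝ) ≤ tx := by rw [htx]; exact hm1.1
        exact_mod_cast this) (by
        have : (tx : ℝ) ≤ v := by rw [htx]; exact hm1.2
        exact_mod_cast this)
      have g2 := hγ ti (by
        have : (u : ℝ) ≤ ti := by rw [hti]; exact hm2.1
        exact_mod_cast this) (by
        have : (ti : ℝ) ≤ v := by rw [hti]; exact hm2.2
        exact_mod_cast this)
      have g3 : ‖curve s tx - curve s ti‖ ≤ 2 * (c / 2 ^ (a + 1) * ((v : ℝ) - u) ^ a) := by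
        have : curve s tx - curve s ti = (curve s tx - curve s u) - (curve s ti - curve s u) := by ring
        rw [this]
        refine (norm_sub_le _ _).trans ?_
        linarith
      rw [curve_grid hn1 s (hxj.trans hjn) tx htx, curve_grid hn1 s (hij.le.trans hjn) ti hti, ← sub_div, norm_div,
        Complex.norm_of_nonneg (size_nonneg _), div_le_iff₀ hsz] at g3
      refine g3.trans ?_
      have g4 : ((v : ℝ) - u) ^ a ≤ 2 ^ a * (((j : ℝ) - i) / n) ^ a := by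
        have hji : 0 ≤ ((j : ℝ) - i) / n := by
          have : (i : ℝ) ≤ j := by exact_mod_cast hij.le
          exact div_nonneg (by linarith) hn0.le
        rw [← Real.mul_rpow (by norm_num) hji]
        refine Real.rpow_le_rpow hpos.le ?_ ha.le
        rw [← mul_div_assoc, le_div_iff₀ hn0]
        linarith
      have g5 : (2 : ℝ) ^ (a + 1) = 2 ^ a * 2 := by
        rw [Real.rpow_add (by norm_num), Real.rpow_one]
      have g6 : (0 : ℝ) < 2 ^ a := by positivity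
      calc 2 * (c / 2 ^ (a + 1) * ((v : ℝ) - u) ^ a) * size n
          ≤ 2 * (c / 2 ^ (a + 1) * (2 ^ a * (((j : ℝ) - i) / n) ^ a)) * size n := by gcongr
        _ = c * size n * (((j : ℝ) - i) / n) ^ a := by
          rw [g5]
          field_simp
  exact_mod_cast Finset.card_le_card hsub

/-- **the lower modulus of the limits, one exponent** -/
theorem limit_low {a : ℝ} (ha : 0 < a) (hL : LowA a) {φ : ℕ → ℕ} (hφ : Tendsto φ atTop atTop)
    {ν : Measure C(unitInterval, ℂ)} (hν : IsProbabilityMeasure ν) (hlim : LawTo φ ν) :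
    ∀ᵐ γ : C(unitInterval, ℂ) ∂ν, ∃ c : ℝ, 0 < c ∧ ∀ u v : unitInterval, u ≤ v → ∃ t : unitInterval, u ≤ t ∧ t ≤ v ∧
      c * ((v : ℝ) - u) ^ a ≤ ‖γ t - γ u‖ := by
  have hlim2 := (lawTo_iff ⟨ν, hν⟩).1 hlim
  rw [ae_iff]
  refine le_antisymm (ENNReal.le_of_forall_pos_le_add ?_) zero_le
  intro ε hε _
  rw [zero_add]
  obtain ⟨c, hc, h1⟩ := law_slow ha hL (ε := ε) (by exact_mod_cast hε)
  have h2 : ∀ q : ℕ, ν (Slow a c (1 / ((q : ℝ) + 1))) ≤ ENNReal.ofReal ε := by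
    intro q
    obtain ⟨n0, h3⟩ := h1 (1 / ((q : ℝ) + 1)) (by positivity)
    refine open_le hlim2 (open_slow a c _ (by positivity)) ?_
    filter_upwards [hφ.eventually_ge_atTop n0] with k hk
    exact h3 _ hk
  have hmono : Monotone fun q : ℕ => Slow a c (1 / ((q : ℝ) + 1)) := by
    rintro p q hpq γ ⟨u, v, huv, hγ⟩
    refine ⟨u, v, le_trans ?_ huv, hγ⟩
    have h3 : (p : ℝ) ≤ q := by exact_mod_cast hpq
    have h4 : 1 / ((q : ℝ) + 1) ≤ 1 / ((p : ℝ) + 1) := one_div_le_one_div_of_le (by positivity) (by linarith)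
    linarith
  have h3 : ν (⋃ q : ℕ, Slow a c (1 / ((q : ℝ) + 1))) ≤ ENNReal.ofReal ε := by
    rw [hmono.measure_iUnion]
    exact iSup_le h2
  rw [ENNReal.ofReal_coe_nnreal] at h3
  refine (measure_mono ?_).trans h3
  intro γ hγ
  have h4 : ¬ ∃ c : ℝ, 0 < c ∧ ∀ u v : unitInterval, u ≤ v → ∃ t : unitInterval, u ≤ t ∧ t ≤ v ∧
      c * ((v : ℝ) - u) ^ a ≤ ‖γ t - γ u‖ := hγ
  push Not at h4
  obtain ⟨u, v, huv, h5⟩ := h4 c hc
  have huv' : (u : ℝ) < v := by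
    rcases eq_or_lt_of_le (show (u : ℝ) ≤ v from huv) with h6 | h6
    · exfalso
      have h7 := h5 u le_rfl huv
      rw [sub_self (γ u), norm_zero, h6, sub_self, Real.zero_rpow ha.ne', mul_zero] at h7
      exact lt_irrefl _ h7
    · exact h6
  obtain ⟨q, hq⟩ := exists_nat_one_div_lt (sub_pos.2 huv')
  rw [Set.mem_iUnion]
  exact ⟨q, u, v, by linarith, fun t hut htv => h5 t hut htv⟩

/-- **the lower modulus of the limits, all the exponents above 3 / 4** -/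
theorem limit_lowAll (hL : ∀ a : ℝ, 3 / 4 < a → LowA a) {φ : ℕ → ℕ} (hφ : Tendsto φ atTop atTop)
    {ν : Measure C(unitInterval, ℂ)} (hν : IsProbabilityMeasure ν) (hlim : LawTo φ ν) :
    ∀ᵐ γ : C(unitInterval, ℂ) ∂ν, ∀ a : ℝ, 3 / 4 < a → ∃ c : ℝ, 0 < c ∧ ∀ u v : unitInterval, u ≤ v →
      ∃ t : unitInterval, u ≤ t ∧ t ≤ v ∧ c * ((v : ℝ) - u) ^ a ≤ ‖γ t - γ u‖ := by
  have h1 : ∀ᵐ γ : C(unitInterval, ℂ) ∂ν, ∀ q : ℕ, ∃ c : ℝ, 0 < c ∧ ∀ u v : unitInterval, u ≤ v →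
      ∃ t : unitInterval, u ≤ t ∧ t ≤ v ∧ c * ((v : ℝ) - u) ^ (3 / 4 + 1 / ((q : ℝ) + 1)) ≤ ‖γ t - γ u‖ := by
    rw [ae_all_iff]
    intro q
    have hq : (0 : ℝ) < 1 / ((q : ℝ) + 1) := by positivity
    exact limit_low (by linarith) (hL _ (by linarith)) hφ hν hlim
  filter_upwards [h1] with γ hγ a ha
  obtain ⟨q, hq⟩ := exists_nat_one_div_lt (sub_pos.2 ha)
  obtain ⟨c, hc, h2⟩ := hγ q
  refine ⟨c, hc, fun u v huv => ?_⟩
  obtain ⟨t, hut, htv, h3⟩ := h2 u v huv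
  refine ⟨t, hut, htv, le_trans ?_ h3⟩
  refine mul_le_mul_of_nonneg_left ?_ hc.le
  have h4 : (0 : ℝ) ≤ (v : ℝ) - u := sub_nonneg.2 huv
  have h5 : (v : ℝ) - u ≤ 1 := by
    have := v.2.2
    have := u.2.1
    linarith
  have hq0 : (0 : ℝ) < 1 / ((q : ℝ) + 1) := by positivity
  rcases eq_or_lt_of_le h4 with h6 | h6
  · rw [← h6, Real.zero_rpow (by linarith), Real.zero_rpow (by linarith)]
  · exact Real.rpow_le_rpow_of_exponent_ge h6 h5 (by linarith)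

/-- **the lower modulus for the full sequence of step numbers**, from the facts about the words -/
theorem low_ex {m : ℕ → ℝ} (hlo : ∃ c : ℝ, 0 < c ∧ ∀ k : ℕ, c * (2 : ℝ) ^ (4 / 3 * (k : ℝ)) ≤ m k)
    (hup : ∃ C : ℝ, ∀ k : ℕ, m k ≤ C * (2 : ℝ) ^ (4 / 3 * (k : ℝ))) (hF : FactsX m)
    (hL : ∀ a : ℝ, 3 / 4 < a → HexObs.EN.LowModX m a) {φ : ℕ → ℕ} (hφ : Tendsto φ atTop atTop)
    {ν : Measure C(unitInterval, ℂ)} (hν : IsProbabilityMeasure ν) (hlim : LawTo φ ν) :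
    ∀ᵐ γ : C(unitInterval, ℂ) ∂ν, ∀ a : ℝ, 3 / 4 < a → ∃ c : ℝ, 0 < c ∧ ∀ u v : unitInterval, u ≤ v →
      ∃ t : unitInterval, u ≤ t ∧ t ≤ v ∧ c * ((v : ℝ) - u) ^ a ≤ ‖γ t - γ u‖ := by
  obtain ⟨R, κ, hS⟩ := scaleX_exists hlo hup
  have hpos : ∀ k : ℕ, (0 : ℝ) < (2 : ℝ) ^ (4 / 3 * (k : ℝ)) := fun k => Real.rpow_pos_of_pos (by norm_num) _
  have hd : ∃ C : ℝ, 1 ≤ C ∧ ∀ k, m (k + 1) ≤ C * m k := by
    obtain ⟨c, hc, h⟩ := hlo
    obtain ⟨C, h'⟩ := hup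
    have hm : ∀ k, 0 < m k := fun k => lt_of_lt_of_le (mul_pos hc (hpos k)) (h k)
    have hC : 0 < C := by
      have h1 := (h 0).trans (h' 0)
      have h2 := hpos 0
      by_contra hcon
      push Not at hcon
      nlinarith
    refine ⟨max 1 (C * (2 : ℝ) ^ (4 / 3 : ℝ) / c), le_max_left _ _, fun k => ?_⟩
    have h1 : (2 : ℝ) ^ (4 / 3 * ((k + 1 : ℕ) : ℝ)) = (2 : ℝ) ^ (4 / 3 : ℝ) * (2 : ℝ) ^ (4 / 3 * (k : ℝ)) := by
      rw [← Real.rpow_add (by norm_num)]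
      congr 1
      push_cast
      ring
    calc m (k + 1) ≤ C * (2 : ℝ) ^ (4 / 3 * ((k + 1 : ℕ) : ℝ)) := h' (k + 1)
      _ = C * (2 : ℝ) ^ (4 / 3 : ℝ) / c * (c * (2 : ℝ) ^ (4 / 3 * (k : ℝ))) := by
          rw [h1]
          field_simp
      _ ≤ C * (2 : ℝ) ^ (4 / 3 : ℝ) / c * m k := mul_le_mul_of_nonneg_left (h k) (by positivity)
      _ ≤ _ := mul_le_mul_of_nonneg_right (le_max_right _ _) (hm k).le
  have hR1 : ∀ n, 1 ≤ R n := fun n => by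
    rw [hS.R2]
    exact one_le_pow₀ (by norm_num)
  obtain ⟨-, -, Cu, nu, hCu, hupR⟩ := factsQ_of hR1 (normX_of hS hF hd)
  obtain ⟨c0, n0, hc0, hnu⟩ := nuX_le hS hF
  exact limit_lowAll (fun a ha => lowA_of hS hc0 hnu hCu hupR (hL a ha)) hφ hν hlim

end NTSF
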