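import Pool.Agent.NTS.Law
import Pool.Agent.NT.LawH

/-!
NTW (natural time for all self-avoiding walks): Hoelder continuity, for the laws and in the limit.
-/

set_option autoImplicit false

namespace NTSF

open Finset MeasureTheory Filter Topology

open NTF (Hd Hd.mono Hd_iff holder_anti closed_holder open_le)

open Pool.Agent.NTS.Res

open scoped ENNReal Classical

/-- the Hoelder modulus of one order of the walks -/
def HoldA (a : ℝ) (A : Set ℕ) : Prop := ∀ ε : ℝ, 0 < ε → ∃ (M : ℝ) (n0 : ℕ), 0 < M ∧ ∀ n ∈ A, n0 ≤ n →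
  (((saw n).filter fun s => ∃ i j : ℕ, i < j ∧ j ≤ n ∧
    M * size n * (((j : ℝ) - i) / n) ^ a < ‖pos s j - pos s i‖).card : ℝ) ≤ ε * ((saw n).card : ℝ)

/-- the polygonal curve through Hoelder points -/
lemma curve_hold {n : ℕ} (hn : 1 ≤ n) {s : Fin n → Fin 3} {M a : ℝ} (hM : 0 ≤ M) (ha : 0 < a) (ha1 : a ≤ 1)
    (h : ∀ i j : ℕ, i < j → j ≤ n → ‖pos s j - pos s i‖ ≤ M * size n * (((j : ℝ) - i) / n) ^ a) :
    Hd (3 * M) a (curve s) := by
  have hn0 : (0 : ℝ) < n := by exact_mod_cast hn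
  -- the points
  obtain ⟨z, hz⟩ : ∃ z : ℕ → ℂ, z = fun k => pos s k / size n := ⟨_, rfl⟩
  have hzd : ∀ i j : ℕ, i < j → j ≤ n → ‖z j - z i‖ ≤ M * (((j : ℝ) - i) / n) ^ a := by
    intro i j hij hj
    rw [hz]
    simp only
    rw [← sub_div, norm_div, Complex.norm_of_nonneg (size_nonneg n)]
    have h1 : (0 : ℝ) ≤ (j : ℝ) - i := by
      have : (i : ℝ) ≤ j := by exact_mod_cast hij.le
      linarith
    refine div_le_of_le_mul₀ (size_nonneg n) (by positivity) ((h i j hij hj).trans (le_of_eq ?_))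
    ring
  -- one edge
  have hedge : ∀ i, i < n → ∀ x : ℝ, 0 ≤ x → x ≤ 1 → ‖((x : ℝ) : ℂ) * (z (i + 1) - z i)‖ ≤ M * (x / n) ^ a := by
    intro i hi x hx0 hx1
    rw [norm_mul, Complex.norm_of_nonneg hx0]
    have h1 := hzd i (i + 1) (Nat.lt_succ_self i) hi
    have e : (((i + 1 : ℕ) : ℝ) - i) = 1 := by
      push_cast
      ring
    rw [e] at h1
    have h2 : x ≤ x ^ a := by
      rcases hx0.lt_or_eq with h3 | h3
      · calc x = x ^ (1 : ℝ) := (Real.rpow_one x).symm
          _ ≤ x ^ a := Real.rpow_le_rpow_of_exponent_ge h3 hx1 ha1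
      · rw [← h3, Real.zero_rpow ha.ne']
    calc x * ‖z (i + 1) - z i‖ ≤ x ^ a * (M * (1 / n) ^ a) := mul_le_mul h2 h1 (norm_nonneg _) (by positivity)
      _ = M * (x / n) ^ a := by
          rw [show x / n = x * (1 / n) by ring, Real.mul_rpow hx0 (by positivity)]
          ring
  have key : ∀ u v : unitInterval, (u : ℝ) ≤ v → ‖curve s v - curve s u‖ ≤ 3 * M * ((v : ℝ) - u) ^ a := by
    intro u v huv
    obtain ⟨i, hi, i1, i2⟩ := Tight.th2_idx hn u
    obtain ⟨j, hj, j1, j2⟩ := Tight.th2_idx hn v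
    have f1 := Tight.poly_apply (z := z) hi i1 i2
    have f2 := Tight.poly_apply (z := z) hj j1 j2
    rw [hz, ← curve_eq, ← hz] at f1 f2
    have huvn : (u : ℝ) * n ≤ v * n := mul_le_mul_of_nonneg_right huv hn0.le
    have hd0 : 0 ≤ (v : ℝ) - u := by linarith
    rcases lt_trichotomy i j with hij | hij | hij
    · have hij' : ((i + 1 : ℕ) : ℝ) ≤ j := by exact_mod_cast hij
      push_cast at hij'
      -- three pieces
      have g1 : ‖curve s v - z j‖ ≤ M * ((v : ℝ) - u) ^ a := by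
        rw [f2, add_sub_cancel_left]
        refine (hedge j hj _ (by linarith) (by linarith)).trans (mul_le_mul_of_nonneg_left ?_ hM)
        refine Real.rpow_le_rpow (div_nonneg (by linarith) hn0.le) ?_ ha.le
        rw [div_le_iff₀ hn0]
        linarith
      have g2 : ‖z (i + 1) - curve s u‖ ≤ M * ((v : ℝ) - u) ^ a := by
        have e3 : z (i + 1) - curve s u = ((1 - ((u : ℝ) * n - i) : ℝ) : ℂ) * (z (i + 1) - z i) := by
          rw [f1]
          push_cast
          ring
        rw [e3]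
        refine (hedge i hi _ (by linarith) (by linarith)).trans (mul_le_mul_of_nonneg_left ?_ hM)
        refine Real.rpow_le_rpow (div_nonneg (by linarith) hn0.le) ?_ ha.le
        rw [div_le_iff₀ hn0]
        linarith
      have g3 : ‖z j - z (i + 1)‖ ≤ M * ((v : ℝ) - u) ^ a := by
        rcases Nat.lt_or_ge (i + 1) j with h5 | h5
        · refine (hzd (i + 1) j h5 hj.le).trans (mul_le_mul_of_nonneg_left ?_ hM)
          push_cast
          refine Real.rpow_le_rpow (div_nonneg (by linarith) hn0.le) ?_ ha.le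
          rw [div_le_iff₀ hn0]
          linarith
        · have : j = i + 1 := by omega
          rw [this, sub_self, norm_zero]
          positivity
      have e4 : curve s v - curve s u = (curve s v - z j) + (z j - z (i + 1)) + (z (i + 1) - curve s u) := by ring
      rw [e4]
      refine (norm_add₃_le).trans ?_
      linarith
    · have e3 : curve s v - curve s u = (((v : ℝ) * n - u * n : ℝ) : ℂ) * (z (i + 1) - z i) := by
        rw [f1, f2, hij]
        push_cast
        ring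
      rw [e3]
      refine (hedge i hi _ (by linarith) (by rw [hij] at i1; linarith)).trans ?_
      have e4 : ((v : ℝ) * n - u * n) / n = v - u := by field_simp
      rw [e4]
      have : 0 ≤ ((v : ℝ) - u) ^ a := by positivity
      nlinarith
    · -- then u n = v n
      have hij' : ((j + 1 : ℕ) : ℝ) ≤ i := by exact_mod_cast hij
      push_cast at hij'
      have h5 : (u : ℝ) * n = v * n := by linarith
      have h6 : (u : ℝ) = v := mul_right_cancel₀ hn0.ne' h5
      have h7 : u = v := Subtype.ext h6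
      rw [h7, sub_self, sub_self, norm_zero, Real.zero_rpow ha.ne', mul_zero]
  intro u v
  rw [Subtype.dist_eq, Real.dist_eq]
  rcases le_total (u : ℝ) v with h1 | h1
  · rw [dist_comm, dist_eq_norm, abs_sub_comm, abs_of_nonneg (by linarith)]
    exact key u v h1
  · rw [dist_eq_norm, abs_of_nonneg (by linarith)]
    exact key v u h1

/-- every polygonal curve is Hoelder -/
lemma exists_hold {n : ℕ} (hn : 1 ≤ n) (s : Fin n → Fin 3) {a : ℝ} (ha : 0 < a) (ha1 : a ≤ 1) :
    ∃ M : ℝ, 0 ≤ M ∧ Hd M a (curve s) := by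
  have hn0 : (0 : ℝ) < n := by exact_mod_cast hn
  have hs := size_pos hn
  obtain ⟨B, hB⟩ : ∃ B : ℝ, B = ∑ p ∈ range (n + 1) ×ˢ range (n + 1), ‖pos s p.2 - pos s p.1‖ := ⟨_, rfl⟩
  have hB0 : 0 ≤ B := by
    rw [hB]
    exact sum_nonneg fun _ _ => norm_nonneg _
  refine ⟨3 * (B * (n : ℝ) ^ a / size n), by positivity, curve_hold hn (by positivity) ha ha1 ?_⟩
  intro i j hij hj
  have h1 : ‖pos s j - pos s i‖ ≤ B := by
    rw [hB]
    exact single_le_sum (f := fun p : ℕ × ℕ => ‖pos s p.2 - pos s p.1‖) (fun _ _ => norm_nonneg _)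
      (show (i, j) ∈ range (n + 1) ×ˢ range (n + 1) by
        rw [Finset.mem_product, Finset.mem_range, Finset.mem_range]
        exact ⟨by omega, by omega⟩)
  have h2 : (1 : ℝ) ≤ (j : ℝ) - i := by
    have : ((i + 1 : ℕ) : ℝ) ≤ j := by exact_mod_cast hij
    push_cast at this
    linarith
  have h3 : (1 / n : ℝ) ^ a ≤ (((j : ℝ) - i) / n) ^ a :=
    Real.rpow_le_rpow (by positivity) (div_le_div_of_nonneg_right h2 hn0.le) ha.le
  have h4 : (n : ℝ) ^ a * (1 / n : ℝ) ^ a = 1 := by
    rw [← Real.mul_rpow hn0.le (by positivity), mul_one_div_cancel hn0.ne', Real.one_rpow]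
  calc ‖pos s j - pos s i‖ ≤ B := h1
    _ = B * ((n : ℝ) ^ a * (1 / n : ℝ) ^ a) := by rw [h4, mul_one]
    _ = B * (n : ℝ) ^ a / size n * size n * (1 / n : ℝ) ^ a := by field_simp
    _ ≤ _ := mul_le_mul_of_nonneg_left h3 (by positivity)

/-- **uniform Hoelder bounds for the laws** -/
theorem law_holder {A : Set ℕ} (hA : Facts A) {a : NNReal} (hH : HoldA a A) (ha : 0 < a) (ha1 : (a : ℝ) ≤ 1) {ε : ℝ}
    (hε : 0 < ε) : ∃ M : NNReal, ∀ n ∈ A, law n {γ : C(unitInterval, ℂ) | ¬ HolderWith M a γ} ≤ ENNReal.ofReal ε := by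
  have ha' : (0 : ℝ) < a := ha
  obtain ⟨M, n0, hM, h1⟩ := hH ε hε
  -- the small n
  have h2 : ∀ n : ℕ, ∃ Mn : ℝ, 0 ≤ Mn ∧ (n ∈ A → ∀ s ∈ saw n, Hd Mn a (curve s)) := by
    intro n
    by_cases hn : n ∈ A
    · have hn1 := hA.one n hn
      choose f hf0 hf using fun s : Fin n → Fin 3 => exists_hold hn1 s ha' ha1
      refine ⟨∑ s ∈ saw n, f s, sum_nonneg fun s _ => hf0 s, fun _ s hs => (hf s).mono ?_⟩
      exact single_le_sum (f := f) (fun s _ => hf0 s) hs
    · exact ⟨0, le_rfl, fun h => absurd h hn⟩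
  choose g hg0 hg using h2
  obtain ⟨B, hB⟩ : ∃ B : ℝ, B = ∑ n ∈ range n0, g n := ⟨_, rfl⟩
  have hB0 : 0 ≤ B := by
    rw [hB]
    exact sum_nonneg fun _ _ => hg0 _
  refine ⟨(3 * M + B).toNNReal, fun n hn => ?_⟩
  have hc : (((3 * M + B).toNNReal : NNReal) : ℝ) = 3 * M + B := Real.coe_toNNReal _ (by positivity)
  have hn1 := hA.one n hn
  rcases lt_or_ge n n0 with h3 | h3
  · rw [law_zero]
    · exact zero_le
    · intro s hs h4
      apply h4
      rw [Hd_iff, hc]
      refine (hg n hn s hs).mono ?_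
      have : g n ≤ B := by
        rw [hB]
        exact single_le_sum (f := g) (fun n _ => hg0 n) (Finset.mem_range.2 h3)
      linarith
  · refine law_le hε.le (le_trans ?_ (h1 n hn h3))
    have hsub : ((saw n).filter fun s => curve s ∈ {γ : C(unitInterval, ℂ) | ¬ HolderWith (3 * M + B).toNNReal a γ}) ⊆
        (saw n).filter fun s => ∃ i j : ℕ, i < j ∧ j ≤ n ∧
          M * size n * (((j : ℝ) - i) / n) ^ (a : ℝ) < ‖pos s j - pos s i‖ := by
      intro s hs
      rw [Finset.mem_filter] at hs ⊢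
      refine ⟨hs.1, ?_⟩
      by_contra hcon
      push Not at hcon
      apply hs.2
      rw [Hd_iff, hc]
      exact (curve_hold hn1 hM.le ha' ha1 hcon).mono (by linarith)
    exact_mod_cast Finset.card_le_card hsub

/-- **Hoelder continuity of the limits** -/
theorem limit_holder {A : Set ℕ} (hA : Facts A) {a : NNReal} (hH : HoldA a A) (ha : 0 < a) (ha1 : (a : ℝ) ≤ 1) {φ : ℕ → ℕ}
    (hφA : ∀ k, φ k ∈ A) {ν : Measure C(unitInterval, ℂ)} (hν : IsProbabilityMeasure ν) (hlim : LawTo φ ν) :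
    ∀ᵐ γ : C(unitInterval, ℂ) ∂ν, ∃ M : NNReal, HolderWith M a γ := by
  have hlim2 := (lawTo_iff ⟨ν, hν⟩).1 hlim
  rw [ae_iff]
  refine le_antisymm (ENNReal.le_of_forall_pos_le_add ?_) zero_le
  intro ε hε _
  obtain ⟨M, hM⟩ := law_holder hA hH ha ha1 (ε := ε) (by exact_mod_cast hε)
  have h1 : ν {f : C(unitInterval, ℂ) | HolderWith M a f}ᶜ ≤ ENNReal.ofReal ε :=
    open_le hlim2 (closed_holder M a).isOpen_compl (Eventually.of_forall fun k => hM (φ k) (hφA k))
  rw [zero_add]
  rw [ENNReal.ofReal_coe_nnreal] at h1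
  refine (measure_mono ?_).trans h1
  intro f hf hfM
  exact hf ⟨M, hfM⟩

end NTSF
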