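import Pool.Agent.NTS.Dict
import Pool.Agent.NTS.LawH
import Pool.Agent.NT.SeqDefsH

/-!
NTW (natural time for all self-avoiding walks): from the words with n letters to the walks with n steps.
-/

set_option autoImplicit false

namespace NTSF

open Finset

open HexObs hiding pos

open HexObs.SDN

open Pool.Agent.NTS.Res

open NTF (sw JJ)

open scoped ENNReal Classical

lemma lvl_le_norm (dir : Bool) (v : Pt) : |((lvl dir v : ℤ) : ℝ)| ≤ 2 * ‖JJ v‖ := by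
  have h1 : ((lvl dir v : ℤ) : ℝ) ^ 2 ≤ 4 * ‖JJ v‖ ^ 2 := by
    rw [NTF.JJ_norm]
    have : lvl dir v ^ 2 ≤ 4 * nrm v := by
      cases dir
      · simp only [lvl, hd, ip, nrm, up, Bool.false_eq_true, if_false]
        nlinarith [sq_nonneg v.1, sq_nonneg v.2, sq_nonneg (v.1 + v.2)]
      · simp only [lvl, hd, ip, nrm, if_true]
        nlinarith [sq_nonneg v.1, sq_nonneg v.2, sq_nonneg (v.1 + v.2)]
    exact_mod_cast this
  apply abs_le_of_sq_le_sq _ (by positivity)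
  rw [mul_pow]
  norm_num
  exact h1

/-- **from the words to the walks** -/
theorem facts_core {A : Set ℕ} {R : ℕ → ℝ} (hone : ∀ n ∈ A, 1 ≤ n) (hR1 : ∀ n ∈ A, 1 ≤ R n)
    (hRe : ∀ ε : ℝ, 0 < ε → ∃ n0 : ℕ, ∀ n ∈ A, n0 ≤ n → (n : ℝ) ^ (3 / 4 - ε) ≤ R n ∧ R n ≤ (n : ℝ) ^ (3 / 4 + ε))
    (hmod : ∀ ε r : ℝ, 0 < ε → 0 < r → ∃ (ρ : ℝ) (n0 : ℕ), 0 < ρ ∧ ∀ n ∈ A, n0 ≤ n →
      gf {t | t ∈ SawN n ∧ ∃ (dir : Bool) (i j : ℕ), i ≤ j ∧ j ≤ n ∧ (j : ℝ) - i ≤ ρ * n ∧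
        r * R n ≤ |((lvl dir (vx oo up t j) - lvl dir (vx oo up t i) : ℤ) : ℝ)|} ≤ ENNReal.ofReal ε * gf (SawN n))
    (hlow : ∀ ε : ℝ, 0 < ε → ∃ (κ : ℝ) (n0 : ℕ), 0 < κ ∧ ∀ n ∈ A, n0 ≤ n →
      gf {t | t ∈ SawN n ∧ ∀ dir : Bool, |((lvl dir (vx oo up t n) : ℤ) : ℝ)| ≤ κ * R n} ≤
        ENNReal.ofReal ε * gf (SawN n)) {K : ℝ} (hK : 0 < K)
    (htail : ∀ n ∈ A, ∀ i : ℕ,
      gf {t | t ∈ SawN n ∧ ∃ dir : Bool, (2 : ℝ) ^ i * R n ≤ |((lvl dir (vx oo up t n) : ℤ) : ℝ)|} ≤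
        ENNReal.ofReal (K / 32 ^ i) * gf (SawN n)) : Facts A ∧
    (∀ ε : ℝ, 0 < ε → ∃ n₀ : ℕ, ∀ n ∈ A, n₀ ≤ n → (n : ℝ) ^ (3 / 4 - ε) ≤ size n ∧ size n ≤ (n : ℝ) ^ (3 / 4 + ε)) ∧
    (∃ (c : ℝ) (n1 : ℕ), 0 < c ∧ ∀ n ∈ A, n1 ≤ n → c * R n ≤ size n) ∧
    ∃ C : ℝ, 0 < C ∧ ∀ n ∈ A, size n ≤ C * R n := by
  have hR : ∀ n ∈ A, 0 < R n := fun n hn => zero_lt_one.trans_le (hR1 n hn)
  -- the tail
  have htail' : ∀ n ∈ A, ∀ i : ℕ, (((saw n).filter fun s => 2 ^ i * R n ≤ ‖pos s n‖).card : ℝ) ≤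
      K / 32 ^ i * ((saw n).card : ℝ) := by
    intro n hn i
    have hRn := hR n hn
    refine prop_le (hone n hn) _ (fun s => by rw [norm_rot']) (by positivity) ?_ (htail n hn i)
    intro t ht h1
    rw [pos_sw n t n le_rfl] at h1
    exact ⟨ht, NTF.exists_dir (by positivity) h1⟩
  have hfour : ∀ n ∈ A, ∑ s ∈ saw n, ‖pos s n‖ ^ 4 ≤ (1 + 32 * K) * R n ^ 4 * ((saw n).card : ℝ) :=
    fun n hn => four_of (hR n hn) hK.le (htail' n hn)
  have hup : ∀ n ∈ A, size n ≤ (2 + 32 * K) * R n := fun n hn => by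
    have := size_le (hR n hn) (K := 1 + 32 * K) (by positivity) (hfour n hn)
    linarith
  -- ends close to the origin
  have hlow' : ∀ ε : ℝ, 0 < ε → ∃ (κ : ℝ) (n0 : ℕ), 0 < κ ∧ ∀ n ∈ A, n0 ≤ n →
      (((saw n).filter fun s => ‖pos s n‖ ≤ κ * R n).card : ℝ) ≤ ε * ((saw n).card : ℝ) := by
    intro ε hε
    obtain ⟨κ, n0, hκ, h1⟩ := hlow ε hε
    refine ⟨κ / 2, n0, by positivity, fun n hn hn0 => ?_⟩
    refine prop_le (hone n hn) _ (fun s => by rw [norm_rot']) hε.le ?_ (h1 n hn hn0)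
    intro t ht h2
    rw [pos_sw n t n le_rfl] at h2
    refine ⟨ht, fun dir => (lvl_le_norm dir _).trans ?_⟩
    linarith
  obtain ⟨κ, n1, hκ, hκ1⟩ := hlow' (1 / 2) (by norm_num)
  have hdown : ∀ n ∈ A, n1 ≤ n → κ / 2 * R n ≤ size n := fun n hn hn1 =>
    size_ge (hR n hn) hκ (hκ1 n hn hn1)
  refine ⟨⟨hone, ?_, ?_, ?_⟩, ?_, ⟨κ / 2, n1, by positivity, hdown⟩, 2 + 32 * K, by positivity, hup⟩
  · intro ε r hε hr
    obtain ⟨ρ, n0, hρ, h1⟩ := hmod ε (r * (κ / 2)) hε (by positivity)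
    refine ⟨ρ, max n0 n1, hρ, fun n hn hn0 => ?_⟩
    refine prop_le (hone n hn) _ (fun s => by simp only [norm_rot]) hε.le ?_ (h1 n hn (le_of_max_le_left hn0))
    rintro t ht ⟨i, j, hij, hj, hji, h2⟩
    rw [pos_sw n t j hj, pos_sw n t i (hij.trans hj), ← NTF.JJ_sub] at h2
    have h3 := hdown n hn (le_of_max_le_right hn0)
    have h4 : r * (κ / 2) * R n ≤ ‖JJ (vx oo up t j - vx oo up t i)‖ := by
      refine le_trans ?_ h2.le
      rw [mul_assoc]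
      exact mul_le_mul_of_nonneg_left h3 hr.le
    have hRn := hR n hn
    obtain ⟨dir, h5⟩ := NTF.exists_dir (by positivity) h4
    rw [NTF.lvl_sub] at h5
    exact ⟨ht, dir, i, j, hij, hj, hji, h5⟩
  · intro ε hε
    obtain ⟨κ', n0, hκ', h1⟩ := hlow' ε hε
    refine ⟨κ' / (2 + 32 * K), n0, by positivity, fun n hn hn0 => ?_⟩
    refine le_trans ?_ (h1 n hn hn0)
    have hsub : ((saw n).filter fun s => ‖pos s n‖ ≤ κ' / (2 + 32 * K) * size n) ⊆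
        (saw n).filter fun s => ‖pos s n‖ ≤ κ' * R n := by
      intro s hs
      rw [Finset.mem_filter] at hs ⊢
      refine ⟨hs.1, hs.2.trans ?_⟩
      have h3 := hup n hn
      calc κ' / (2 + 32 * K) * size n ≤ κ' / (2 + 32 * K) * ((2 + 32 * K) * R n) :=
            mul_le_mul_of_nonneg_left h3 (by positivity)
        _ = κ' * R n := by field_simp
    exact_mod_cast Finset.card_le_card hsub
  · refine ⟨(1 + 32 * K) * (2 / κ) ^ 4, n1, by positivity, fun n hn hn1 => ?_⟩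
    refine (hfour n hn).trans ?_
    apply mul_le_mul_of_nonneg_right _ (Nat.cast_nonneg _)
    rw [mul_assoc]
    apply mul_le_mul_of_nonneg_left _ (by positivity)
    rw [← mul_pow]
    apply pow_le_pow_left₀ (hR n hn).le
    have h3 := hdown n hn hn1
    calc R n = 2 / κ * (κ / 2 * R n) := by field_simp
      _ ≤ _ := mul_le_mul_of_nonneg_left h3 (by positivity)
  · intro ε hε
    obtain ⟨n2, h2⟩ := hRe (ε / 2) (by positivity)
    have hlim : Filter.Tendsto (fun n : ℕ => (n : ℝ) ^ (ε / 2)) Filter.atTop Filter.atTop :=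
      (tendsto_rpow_atTop (by positivity)).comp tendsto_natCast_atTop_atTop
    obtain ⟨n3, h3⟩ := Filter.eventually_atTop.1 (hlim.eventually_ge_atTop (max (2 + 32 * K) (2 / κ)))
    refine ⟨max (max n1 n2) (max n3 1), fun n hn hn0 => ?_⟩
    have a1 : n1 ≤ n := (le_max_left _ _).trans ((le_max_left _ _).trans hn0)
    have a2 : n2 ≤ n := (le_max_right _ _).trans ((le_max_left _ _).trans hn0)
    have a3 : n3 ≤ n := (le_max_left _ _).trans ((le_max_right _ _).trans hn0)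
    have a4 : 1 ≤ n := (le_max_right _ _).trans ((le_max_right _ _).trans hn0)
    have hn' : (0 : ℝ) < n := by exact_mod_cast a4
    have b := h3 n a3
    have b1 : 2 + 32 * K ≤ (n : ℝ) ^ (ε / 2) := (le_max_left _ _).trans b
    have b2 : 2 / κ ≤ (n : ℝ) ^ (ε / 2) := (le_max_right _ _).trans b
    obtain ⟨c1, c2⟩ := h2 n hn a2
    constructor
    · have h4 := hdown n hn a1
      have h5 : (n : ℝ) ^ (3 / 4 - ε) * (n : ℝ) ^ (ε / 2) = (n : ℝ) ^ (3 / 4 - ε / 2) := by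
        rw [← Real.rpow_add hn']
        congr 1
        ring
      have h6 : (n : ℝ) ^ (3 / 4 - ε) * (2 / κ) ≤ R n := by
        refine le_trans ?_ c1
        rw [← h5]
        exact mul_le_mul_of_nonneg_left b2 (by positivity)
      calc (n : ℝ) ^ (3 / 4 - ε) = κ / 2 * ((n : ℝ) ^ (3 / 4 - ε) * (2 / κ)) := by field_simp
        _ ≤ κ / 2 * R n := mul_le_mul_of_nonneg_left h6 (by positivity)
        _ ≤ _ := h4
    · have h4 := hup n hn
      have h5 : (n : ℝ) ^ (ε / 2) * (n : ℝ) ^ (3 / 4 + ε / 2) = (n : ℝ) ^ (3 / 4 + ε) := by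
        rw [← Real.rpow_add hn']
        congr 1
        ring
      rw [← h5]
      refine h4.trans (mul_le_mul b1 c2 (hR n hn).le (by positivity))

/-- the Hoelder modulus, from the words to the walks -/
theorem hold_core {A : Set ℕ} {R : ℕ → ℝ} (hone : ∀ n ∈ A, 1 ≤ n) (hR1 : ∀ n ∈ A, 1 ≤ R n) {c : ℝ} {n1 : ℕ} (hc : 0 < c)
    (hdown : ∀ n ∈ A, n1 ≤ n → c * R n ≤ size n) {a : ℝ}
    (hH : ∀ ε : ℝ, 0 < ε → ∃ (M : ℝ) (n0 : ℕ), 0 < M ∧ ∀ n ∈ A, n0 ≤ n →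
      gf {t | t ∈ SawN n ∧ ∃ (dir : Bool) (i j : ℕ), i < j ∧ j ≤ n ∧
        M * R n * (((j : ℝ) - i) / n) ^ a ≤ |((lvl dir (vx oo up t j) - lvl dir (vx oo up t i) : ℤ) : ℝ)|} ≤
        ENNReal.ofReal ε * gf (SawN n)) : HoldA a A := by
  intro ε hε
  obtain ⟨M, n0, hM, h4⟩ := hH ε hε
  refine ⟨M / c, max n0 n1, by positivity, fun n hn hnn => ?_⟩
  refine prop_le (hone n hn) _ (fun s => by simp only [norm_rot]) hε.le ?_ (h4 n hn (le_of_max_le_left hnn))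
  rintro t ht ⟨i, j, hij, hj, h5⟩
  rw [pos_sw n t j hj, pos_sw n t i (hij.le.trans hj), ← NTF.JJ_sub] at h5
  have h6 := hdown n hn (le_of_max_le_right hnn)
  have hRn : 0 < R n := zero_lt_one.trans_le (hR1 n hn)
  have hij' : (0 : ℝ) ≤ (j : ℝ) - i := by
    have : (i : ℝ) ≤ j := by exact_mod_cast hij.le
    linarith
  have h7 : (0 : ℝ) ≤ (((j : ℝ) - i) / n) ^ a := by positivity
  have h8 : M * R n * (((j : ℝ) - i) / n) ^ a ≤ ‖JJ (vx oo up t j - vx oo up t i)‖ := by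
    refine le_trans ?_ h5.le
    apply mul_le_mul_of_nonneg_right _ h7
    calc M * R n = M / c * (c * R n) := by field_simp
      _ ≤ M / c * size n := mul_le_mul_of_nonneg_left h6 (by positivity)
  obtain ⟨dir, h9⟩ := NTF.exists_dir (by positivity) h8
  rw [NTF.lvl_sub] at h9
  exact ⟨ht, dir, i, j, hij, hj, h9⟩

end NTSF
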