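import Pool.Agent.NT.DenseS

/-!
NTW: the density of the scales with a growth at most of the exponent c, for a sequence that grows at least by a constant
times 2 ^ (s j) in j scales; neighbours of such scales.
-/

set_option autoImplicit false

namespace NTSF

open Finset

open HexObs.NTm (GCK Dense dense_abs)

open scoped Classical

/-- running infimum: a function with increments at least s j - B lies above a function with steps at least s -/
lemma inc_reg {f : ℕ → ℝ} {s B : ℝ} (h : ∀ L j : ℕ, f L + s * j - B ≤ f (L + j)) :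
    ∃ g : ℕ → ℝ, (∀ L, g L + s ≤ g (L + 1)) ∧ ∀ L, f L - B ≤ g L ∧ g L ≤ f L := by
  have hb : ∀ L, BddBelow (Set.range fun j : ℕ => f (L + j) - s * ((L + j : ℕ) : ℝ)) := by
    intro L
    refine ⟨f L - s * L - B, ?_⟩
    rintro _ ⟨j, rfl⟩
    have := h L j
    simp only
    push_cast
    linarith
  refine ⟨fun L => s * L + ⨅ j : ℕ, (f (L + j) - s * ((L + j : ℕ) : ℝ)), fun L => ?_, fun L => ⟨?_, ?_⟩⟩
  · have h1 : (⨅ j : ℕ, (f (L + j) - s * ((L + j : ℕ) : ℝ))) ≤ ⨅ j : ℕ, (f (L + 1 + j) - s * ((L + 1 + j : ℕ) : ℝ)) := by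
      refine le_ciInf fun j => ?_
      have h2 := ciInf_le (hb L) (1 + j)
      rw [← add_assoc] at h2
      exact h2
    push_cast at h1 ⊢
    linarith
  · have h1 : f L - s * L - B ≤ ⨅ j : ℕ, (f (L + j) - s * ((L + j : ℕ) : ℝ)) := by
      refine le_ciInf fun j => ?_
      have := h L j
      push_cast
      linarith
    linarith
  · have h1 := ciInf_le (hb L) 0
    rw [add_zero] at h1
    linarith

/-- the density of the scales with the growth exponent at most c -/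
theorem dense_GCKs {l : ℕ → ℕ} (hone : ∀ k, 1 ≤ l k)
    (hup : ∀ e : ℝ, 0 < e → ∃ C : ℝ, 0 < C ∧ ∀ k : ℕ, (l k : ℝ) ≤ C * (2 : ℝ) ^ ((4 / 3 + e) * k))
    (hlow : ∀ e : ℝ, 0 < e → ∃ k0 : ℕ, ∀ k : ℕ, k0 ≤ k → (2 : ℝ) ^ ((4 / 3 - e) * k) ≤ l k) {s : ℝ}
    (hgrow : ∃ b : ℝ, 0 < b ∧ ∀ k j : ℕ, b * (2 : ℝ) ^ (s * (j : ℝ)) * l k ≤ l (k + j)) {c e : ℝ}
    (hs : s < c) (hc : 4 / 3 < c) (he : 0 < e) :
    ∃ K : ℝ, 1 ≤ K ∧ Dense (1 - (c - 4 / 3) / (c - s) + e) (GCK K c l) := by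
  obtain ⟨b, hb, hgrow⟩ := hgrow
  have hc0 : (0 : ℝ) < c := by linarith
  have hl1 : ∀ k, (1 : ℝ) ≤ l k := fun k => by exact_mod_cast hone k
  have hl0 : ∀ k, (0 : ℝ) < l k := fun k => lt_of_lt_of_le one_pos (hl1 k)
  obtain ⟨B, hB⟩ : ∃ B : ℝ, B = |Real.logb 2 b| := ⟨_, rfl⟩
  have hB0 : 0 ≤ B := by
    rw [hB]
    exact abs_nonneg _
  have hinc : ∀ L j : ℕ, Real.logb 2 (l L) + s * j - B ≤ Real.logb 2 (l (L + j)) := by
    intro L j
    have h1 := Real.logb_le_logb_of_le (b := 2) (by norm_num) (mul_pos (mul_pos hb (by positivity)) (hl0 _)) (hgrow L j)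
    rw [Real.logb_mul (by positivity) (hl0 _).ne', Real.logb_mul hb.ne' (by positivity),
      Real.logb_rpow (by norm_num) (by norm_num)] at h1
    have h3 : -B ≤ Real.logb 2 b := by
      rw [hB]
      exact neg_abs_le _
    linarith
  obtain ⟨g, hg1, hg2⟩ := inc_reg (f := fun L => Real.logb 2 (l L)) hinc
  obtain ⟨K, hK⟩ : ∃ K : ℝ, K = (2 : ℝ) ^ B := ⟨_, rfl⟩
  have hK1 : 1 ≤ K := by
    rw [hK]
    exact Real.one_le_rpow (by norm_num) hB0
  refine ⟨K, hK1, ?_⟩
  have hgood : ∀ L, (∀ j, j ≤ L → g L - c * L ≤ g (L - j) - c * ((L - j : ℕ) : ℝ)) → L ∈ GCK K c l := by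
    intro L hL j hj
    have h3 := hL j hj
    rw [Nat.cast_sub hj] at h3
    have h4 : Real.logb 2 (l L) ≤ Real.logb 2 (K * (2 : ℝ) ^ (c * (j : ℝ)) * l (L - j)) := by
      rw [Real.logb_mul (by positivity) (hl0 _).ne', Real.logb_mul (by positivity) (by positivity),
        Real.logb_rpow (by norm_num) (by norm_num), hK, Real.logb_rpow (by norm_num) (by norm_num)]
      have h5 := (hg2 L).1
      have h6 := (hg2 (L - j)).2
      linarith
    exact (Real.logb_le_logb (by norm_num) (hl0 L) (mul_pos (by positivity) (hl0 _))).1 h4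
  intro δ hδ
  obtain ⟨x0, hx0⟩ := dense_abs (f := g) (s := s) (c := c) (e := e) hs hc hg1
    (by
      intro r hr
      obtain ⟨C, hC, hup⟩ := hup r hr
      refine ⟨Real.logb 2 C, fun L => ?_⟩
      have h1 := Real.logb_le_logb_of_le (b := 2) (by norm_num) (hl0 L) (hup L)
      rw [Real.logb_mul hC.ne' (by positivity), Real.logb_rpow (by norm_num) (by norm_num)] at h1
      have h2 := (hg2 L).2
      linarith)
    (by
      intro r hr hr1
      obtain ⟨k1, hlow⟩ := hlow r hr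
      refine ⟨4 / 3 * k1 + B, fun L => ?_⟩
      have hLR : (0 : ℝ) ≤ L := Nat.cast_nonneg _
      have hk1 : (0 : ℝ) ≤ k1 := Nat.cast_nonneg _
      have h2 := (hg2 L).1
      rcases le_or_gt k1 L with h3 | h3
      · have h1 := Real.logb_le_logb_of_le (b := 2) (by norm_num) (by positivity) (hlow L h3)
        rw [Real.logb_rpow (by norm_num) (by norm_num)] at h1
        linarith
      · have h4 : (L : ℝ) ≤ k1 := by exact_mod_cast h3.le
        have h5 : 0 ≤ Real.logb 2 (l L) := Real.logb_nonneg (by norm_num) (hl1 L)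
        nlinarith) he hδ
  refine ⟨x0, fun x hx => ?_⟩
  refine le_trans (le_of_eq ?_) ((hx0 x hx).trans ?_)
  · ring
  · refine Nat.cast_le.2 (Finset.card_le_card fun k hk => ?_)
    have h3 := Finset.mem_filter.1 hk
    exact Finset.mem_filter.2 ⟨Finset.Ioc_subset_Icc_self h3.1, hgood k h3.2⟩

/-- the scales near a scale of GCK -/
lemma GCK_near {l : ℕ → ℕ} (hmono : Monotone l) (hone : ∀ k, 1 ≤ l k) {Cl : ℝ} (hCl : 1 ≤ Cl)
    (hup1 : ∀ k, (l (k + 1) : ℝ) ≤ Cl * l k) {K c : ℝ} (hK : 1 ≤ K) (hc : 0 < c) {q k k' : ℕ} (hk : k ∈ GCK K c l)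
    (h1 : k ≤ k' + q) (h2 : k' ≤ k + q) : k' ∈ GCK (K * (Cl ^ (2 * q) * (2 : ℝ) ^ (c * (2 * q : ℕ)))) c l := by
  have hl0 : ∀ k, (0 : ℝ) < l k := fun k => by exact_mod_cast hone k
  have hupj : ∀ k j : ℕ, (l (k + j) : ℝ) ≤ Cl ^ j * l k := by
    intro k j
    induction j with
    | zero => simp
    | succ j ih =>
      calc (l (k + (j + 1)) : ℝ) ≤ Cl * l (k + j) := hup1 (k + j)
        _ ≤ Cl * (Cl ^ j * l k) := mul_le_mul_of_nonneg_left ih (by linarith)
        _ = _ := by ring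
  intro j hj
  -- compare with the scale k
  have hCq : (1 : ℝ) ≤ Cl ^ (2 * q) := one_le_pow₀ hCl
  have h2q : (1 : ℝ) ≤ (2 : ℝ) ^ (c * (2 * q : ℕ)) := Real.one_le_rpow (by norm_num) (by positivity)
  have h2j : (1 : ℝ) ≤ (2 : ℝ) ^ (c * (j : ℝ)) := Real.one_le_rpow (by norm_num) (by positivity)
  -- the scale k' is at most k + q, and l k' ≤ Cl ^ q * l (min k k')
  have a1 : (l k' : ℝ) ≤ Cl ^ q * l (min k k') := by
    rcases le_total k k' with h3 | h3
    · rw [min_eq_left h3]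
      obtain ⟨i, rfl⟩ := Nat.exists_eq_add_of_le h3
      refine (hupj k i).trans (mul_le_mul_of_nonneg_right (pow_le_pow_right₀ hCl (by omega)) (hl0 k).le)
    · rw [min_eq_right h3]
      exact le_mul_of_one_le_left (hl0 _).le (one_le_pow₀ hCl)
  have a2 : (l (min k k') : ℝ) ≤ l k := by exact_mod_cast hmono (min_le_left _ _)
  -- the target scale
  obtain ⟨m, hm⟩ : ∃ m, m = k' - j := ⟨_, rfl⟩
  rw [← hm]
  rcases le_total k m with h3 | h3
  · -- the target is above k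
    have b1 : (l k : ℝ) ≤ l m := by exact_mod_cast hmono h3
    calc (l k' : ℝ) ≤ Cl ^ q * l m := a1.trans (mul_le_mul_of_nonneg_left (a2.trans b1) (by positivity))
      _ ≤ Cl ^ (2 * q) * l m := mul_le_mul_of_nonneg_right (pow_le_pow_right₀ hCl (by omega)) (hl0 m).le
      _ = 1 * (Cl ^ (2 * q) * 1) * 1 * l m := by ring
      _ ≤ K * (Cl ^ (2 * q) * (2 : ℝ) ^ (c * (2 * q : ℕ))) * (2 : ℝ) ^ (c * (j : ℝ)) * l m := by
          have := (hl0 m).le
          gcongr
  · -- the target is below k: use the scale k with i = k - m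
    have b1 := hk (k - m) (Nat.sub_le _ _)
    rw [Nat.sub_sub_self h3] at b1
    have b2 : ((k - m : ℕ) : ℝ) ≤ ((2 * q : ℕ) : ℝ) + j := by
      have : k - m ≤ 2 * q + j := by omega
      exact_mod_cast this
    have b3 : (2 : ℝ) ^ (c * ((k - m : ℕ) : ℝ)) ≤ (2 : ℝ) ^ (c * (2 * q : ℕ)) * (2 : ℝ) ^ (c * (j : ℝ)) := by
      rw [← Real.rpow_add (by norm_num)]
      refine Real.rpow_le_rpow_of_exponent_le (by norm_num) ?_
      have := mul_le_mul_of_nonneg_left b2 hc.le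
      linarith
    have hCq1 : Cl ^ q ≤ Cl ^ (2 * q) := pow_le_pow_right₀ hCl (by omega)
    calc (l k' : ℝ) ≤ Cl ^ q * l k := a1.trans (mul_le_mul_of_nonneg_left a2 (by positivity))
      _ ≤ Cl ^ (2 * q) * (K * (2 : ℝ) ^ (c * ((k - m : ℕ) : ℝ)) * l m) := by
          have := (hl0 k).le
          gcongr
      _ ≤ Cl ^ (2 * q) * (K * ((2 : ℝ) ^ (c * (2 * q : ℕ)) * (2 : ℝ) ^ (c * (j : ℝ))) * l m) := by
          have := (hl0 m).le
          gcongr
      _ = _ := by ring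

end NTSF
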