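import Pool.Agent.NTS.PickW

/-!
NTW (natural time for all self-avoiding walks): the choice of the lengths with a sequence of Hoelder facts, each of them
on its own set of scales.
-/

set_option autoImplicit false

namespace HexObs

namespace NTW

open Finset SDN

open NTm.PickA (gf_emp)

open scoped ENNReal

/-- **The choice of the lengths, a sequence of Hoelder facts.** -/
theorem pickS_fam {ε : ℝ} (h0 : 0 < ε) {α : ℕ → ℝ} (hα : ∀ i, 0 < α i) {l : ℕ → ℕ} {G : Set ℕ} {H : ℕ → Set ℕ}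
    (hup : ∀ e : ℝ, 0 < e → ∃ C : ℝ, 0 < C ∧ ∀ k : ℕ, (l k : ℝ) ≤ C * (2 : ℝ) ^ ((4 / 3 + e) * k))
    (hlow : ∀ e : ℝ, 0 < e → ∃ k0 : ℕ, ∀ k : ℕ, k0 ≤ k → (2 : ℝ) ^ ((4 / 3 - e) * k) ≤ l k)
    (hF : FactsS l G) (hH : ∀ i, FactSH (α i) l (H i)) :
    ∃ (L1 : ℕ) (A : ℕ → Set ℕ), CoreW (Cut G L1) A ∧ (∀ i, HCoreW (α i) (Cut (G ∩ H i) L1) A) ∧
      (∀ k ∈ Cut G L1, ∀ n ∈ A k, n ≤ l k) ∧
      (∀ k ∈ Cut G L1, gf {t | t ∈ SAL (l k) ∧ t.length ∉ A k} ≤ ENNReal.ofReal ε * gf (SAL (l k))) ∧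
      ∃ ρ0 : ℝ, 0 < ρ0 ∧ ∀ k ∈ Cut G L1, ∀ n ∈ A k, ρ0 * (l k : ℝ) < n := by
  choose M Lx hM hx using fun q : ℕ => hH (Nat.unpair q).1 (ε / 96 * (1 / 4) ^ q) (by positivity)
  obtain ⟨L1, A, h2, h3, h5, h6, h4⟩ := pickS_gen h0 hup hlow hF (fun q L =>
    {t | L ∈ H (Nat.unpair q).1 ∧ ∃ (dir : Bool) (i j : ℕ), i < j ∧ j ≤ t.length ∧
      M q * 2 ^ L * (((j : ℝ) - i) / l L) ^ α (Nat.unpair q).1 ≤
      |((lvl dir (vx oo up t j) - lvl dir (vx oo up t i) : ℤ) : ℝ)|})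
    (fun q => ⟨Lx q, fun L hL hLx => by
      by_cases hLH : L ∈ H (Nat.unpair q).1
      · refine (gf_mono ?_).trans (hx q L hLH hLx)
        rintro t ⟨t1, -, t2⟩
        exact ⟨t1, t2⟩
      · have e1 : {t | t ∈ SAL (l L) ∧ t ∈ {t : List Bool | L ∈ H (Nat.unpair q).1 ∧ ∃ (dir : Bool) (i j : ℕ), i < j ∧
            j ≤ t.length ∧ M q * 2 ^ L * (((j : ℝ) - i) / l L) ^ α (Nat.unpair q).1 ≤
            |((lvl dir (vx oo up t j) - lvl dir (vx oo up t i) : ℤ) : ℝ)|}} = (∅ : Set (List Bool)) := by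
          rw [Set.eq_empty_iff_forall_notMem]
          rintro t ⟨-, t1, -⟩
          exact hLH t1
        rw [e1, gf_emp]
        exact zero_le⟩)
  refine ⟨L1, A, h2, fun i e he => ?_, h3, h5, h6⟩
  obtain ⟨q, hq⟩ := exists_pow_lt_of_lt_one he (show (1 / 2 : ℝ) < 1 by norm_num)
  obtain ⟨m, hm⟩ : ∃ m, m = Nat.pair i q := ⟨_, rfl⟩
  have hm1 : (Nat.unpair m).1 = i := by rw [hm, Nat.unpair_pair]
  have hqm : q ≤ m := by
    rw [hm]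
    exact Nat.right_le_pair i q
  have hm2 : (1 / 2 : ℝ) ^ m ≤ e := (pow_le_pow_of_le_one (by norm_num) (by norm_num) hqm).trans hq.le
  obtain ⟨k0, hk0⟩ := h4 m
  refine ⟨M m, k0, hM m, fun k hk hkk n hn => ?_⟩
  have hkG : k ∈ Cut G L1 := ⟨hk.1.1, hk.2⟩
  refine (gf_mono ?_).trans ((hk0 k hkG hkk n hn).trans
    (mul_le_mul_left (ENNReal.ofReal_le_ofReal hm2) _))
  rintro t ⟨t1, dir, i', j, t2, t3, t4⟩
  refine ⟨t1, by rw [hm1]; exact hk.1.2, dir, i', j, t2, by rw [t1.1]; exact t3, le_trans ?_ t4⟩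
  rw [hm1]
  have hn1 := h2.pos k hkG n hn
  have hn2 := h3 k hkG n hn
  have e1 : (0 : ℝ) ≤ (j : ℝ) - i' := by
    have : (i' : ℝ) ≤ j := by exact_mod_cast t2.le
    linarith
  have e2 : (0 : ℝ) < n := by exact_mod_cast hn1
  have e3 : (n : ℝ) ≤ l k := by exact_mod_cast hn2
  have hMq := hM m
  have hai := hα i
  gcongr

end NTW

end HexObs
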