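import Pool.Agent.NTS.Fin
import Pool.Agent.NTS.PickF
import Pool.Agent.NTS.GrowS

/-!
NTW at every scale: the final theorem, from the facts about the walks with at most l L steps (critical weights) at every
scale L, a doubling sequence l that grows at least like 2 ^ (5 j / 4) in j scales, and the doubling of the mass.
-/

set_option autoImplicit false

namespace NTSF

open Finset MeasureTheory Filter Topology

open HexObs hiding pos

open HexObs.SDN HexObs.NTm HexObs.NTW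

open Pool.Agent.NTS.Res

open NTF (AU)

open scoped ENNReal Classical

/-! ### 1. Restriction of the scales -/

lemma coreW_mono {G G' : Set ℕ} {A : ℕ → Set ℕ} (h : G' ⊆ G) (hC : CoreW G A) : CoreW G' A where
  pos k hk := hC.pos k (h hk)
  exps η hη := by
    obtain ⟨k0, h0⟩ := hC.exps η hη
    exact ⟨k0, fun k hk => h0 k (h hk)⟩
  modu r e hr he := by
    obtain ⟨ρ, k0, hρ, h0⟩ := hC.modu r e hr he
    exact ⟨ρ, k0, hρ, fun k hk => h0 k (h hk)⟩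
  low e he := by
    obtain ⟨κ, k0, hκ, h0⟩ := hC.low e he
    exact ⟨κ, k0, hκ, fun k hk => h0 k (h hk)⟩
  tail := by
    obtain ⟨K, hK, h0⟩ := hC.tail
    exact ⟨K, hK, fun k hk => h0 k (h hk)⟩

lemma GCK_mono {K K' c : ℝ} {l : ℕ → ℕ} (h : K ≤ K') : GCK K c l ⊆ GCK K' c l := by
  intro L hL j hj
  refine (hL j hj).trans ?_
  have h1 : (0 : ℝ) ≤ l (L - j) := Nat.cast_nonneg _
  gcongr

/-- the indices of the Hoelder facts -/
def Ix : Type := {p : ℚ × ℚ × ℕ // 0 < p.1 ∧ 4 / 3 < p.2.1 ∧ p.1 * p.2.1 < 1 ∧ 1 ≤ p.2.2}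

instance : Nonempty Ix := ⟨⟨(1 / 2, 3 / 2, 1), by norm_num, by norm_num, by norm_num, by norm_num⟩⟩

instance : Countable Ix := Subtype.countable

lemma holder_mono {a a' : NNReal} (h : a ≤ a') {M : NNReal} {γ : C(unitInterval, ℂ)} (hγ : HolderWith M a' γ) :
    HolderWith M a γ := by
  intro x y
  refine (hγ x y).trans ?_
  have h1 : edist x y ≤ 1 := by
    rw [edist_dist, ← ENNReal.ofReal_one]
    refine ENNReal.ofReal_le_ofReal ?_
    rw [Subtype.dist_eq, Real.dist_eq, abs_le]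
    have h2 := x.2
    have h3 := y.2
    constructor <;> linarith [h2.1, h2.2, h3.1, h3.2]
  have h2 : edist x y ^ (a' : ℝ) ≤ edist x y ^ (a : ℝ) :=
    ENNReal.rpow_le_rpow_of_exponent_ge h1 (by exact_mod_cast h)
  exact mul_le_mul_right h2 _

/-! ### 2. The conclusion -/

/-- the lengths near the scales of H -/
def NearS (H : Set ℕ) : Set ℕ := {n | ∃ k ∈ H, (2 : ℝ) ^ k ≤ size n ∧ size n ≤ 2 ^ (k + 1)}

/-- the conclusion at every scale -/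
def ConclAll (a₀ : NNReal) (ε : ℝ) : Prop :=
  ∃ (A : Set ℕ) (C b : ℝ) (N₀ : ℕ), 1 ≤ C ∧ 0 < b ∧
    (∀ N : ℕ, N₀ ≤ N → weight N {n | ¬ (n ∈ A ∧ (N : ℝ) ≤ C * n)} ≤ ε * weight N Set.univ) ∧
    (∀ m ∈ A, ∀ n ∈ A, m ≤ n → ((n : ℝ) / m) ^ b * size m ≤ C * size n ∧
      size n ≤ C * ((n : ℝ) / m) ^ (4 / 5 : ℝ) * size m) ∧
    (∀ n : ℕ, IsProbabilityMeasure (law n)) ∧
    (∀ ε' : ℝ, 0 < ε' → ∃ n₀ : ℕ, ∀ n ∈ A, n₀ ≤ n →
      (n : ℝ) ^ (3 / 4 - ε') ≤ size n ∧ size n ≤ (n : ℝ) ^ (3 / 4 + ε')) ∧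
    (∀ ε' : ℝ, 0 < ε' → ∃ M : NNReal, ∀ n ∈ A,
      law n {γ : C(unitInterval, ℂ) | ¬ HolderWith M a₀ γ} ≤ ENNReal.ofReal ε') ∧
    IsTightMeasureSet {μ | ∃ n ∈ A, μ = law n} ∧
    (∀ φ : ℕ → ℕ, StrictMono φ → (∀ k, φ k ∈ A) → ∃ ψ : ℕ → ℕ, StrictMono ψ ∧ ∃ ν : Measure C(unitInterval, ℂ),
      IsProbabilityMeasure ν ∧ LawTo (fun k => φ (ψ k)) ν) ∧
    (∀ (φ : ℕ → ℕ) (ν : Measure C(unitInterval, ℂ)), Tendsto φ atTop atTop → (∀ k, φ k ∈ A) →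
      IsProbabilityMeasure ν → LawTo φ ν →
      (∀ᵐ γ : C(unitInterval, ℂ) ∂ν, γ 0 = 0 ∧ γ 1 ≠ 0 ∧ ∃ M : NNReal, HolderWith M a₀ γ) ∧
      ∫ γ : C(unitInterval, ℂ), ‖γ 1‖ ^ 2 ∂ν = 1) ∧
    ∀ (a : NNReal) (r : ℝ), 0 < a → (a : ℝ) / (12 - 15 * a) < r → (a : ℝ) < 3 / 4 → r < 1 → ∃ H : Set ℕ,
      (∀ δ : ℝ, 0 < δ → ∃ x₀ : ℕ, ∀ x : ℕ, x₀ ≤ x → (1 - r) * (δ * x) ≤
        (((Finset.Icc x ⌊(1 + δ) * (x : ℝ)⌋₊).filter fun k => k ∈ H).card : ℝ)) ∧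
      (∀ ε' : ℝ, 0 < ε' → ∃ M : NNReal, ∀ n ∈ A, n ∈ NearS H →
        law n {γ : C(unitInterval, ℂ) | ¬ HolderWith M a γ} ≤ ENNReal.ofReal ε') ∧
      ∀ (φ : ℕ → ℕ) (ν : Measure C(unitInterval, ℂ)), Tendsto φ atTop atTop → (∀ k, φ k ∈ A ∧ φ k ∈ NearS H) →
        IsProbabilityMeasure ν → LawTo φ ν → ∀ᵐ γ : C(unitInterval, ℂ) ∂ν, ∃ M : NNReal, HolderWith M a γ

/-! ### 3. The mass -/

/-- doubling of the public weight -/
lemma weight_dbl {l : ℕ → ℕ} {Cg : ℝ} (hCg : 1 ≤ Cg) {k : ℕ}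
    (h : gf (SAL (l (k + 1))) ≤ ENNReal.ofReal Cg * gf (SAL (l k))) :
    weight (l (k + 1)) Set.univ ≤ 3 / 2 * Cg * weight (l k) Set.univ := by
  have h1 := weight_le (l (k + 1)) Set.univ
  have e : {t | t ∈ SAL (l (k + 1)) ∧ t.length ∈ Set.univ} = SAL (l (k + 1)) := by
    ext t
    exact ⟨fun h => h.1, fun h => ⟨h, Set.mem_univ _⟩⟩
  rw [e] at h1
  have h2 := h1.trans (h.trans (mul_le_mul_right (le_weight (l k)) _))
  have h3 := weight_nonneg (l k) Set.univ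
  rw [← ENNReal.ofReal_mul (by linarith), ENNReal.ofReal_le_ofReal_iff (by positivity)] at h2
  linarith

lemma weight_mono_N {N N' : ℕ} (h : N ≤ N') (B : Set ℕ) : weight N B ≤ weight N' B := by
  rw [weight_eq_ww, weight_eq_ww]
  refine sum_le_sum_of_subset_of_nonneg (Finset.range_mono (by omega)) fun n _ _ => ?_
  have := ww_pos n
  split_ifs
  · exact this.le
  · exact le_rfl

/-- the scale of N -/
lemma scale_of {l : ℕ → ℕ} (hlow : ∀ e : ℝ, 0 < e → ∃ k0 : ℕ, ∀ k : ℕ, k0 ≤ k → (2 : ℝ) ^ ((4 / 3 - e) * k) ≤ l k)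
    {k3 N : ℕ} (hN : l k3 ≤ N) : ∃ k, k3 ≤ k ∧ l k ≤ N ∧ N < l (k + 1) := by
  have hun : ∃ k, k3 ≤ k ∧ N < l k := by
    obtain ⟨k0, hk0⟩ := hlow (1 / 3) (by norm_num)
    obtain ⟨m, hm⟩ := pow_unbounded_of_one_lt (N : ℝ) (show (1 : ℝ) < 2 by norm_num)
    refine ⟨max (max k0 k3) m, (le_max_right _ _).trans (le_max_left _ _), ?_⟩
    have h1 := hk0 (max (max k0 k3) m) ((le_max_left _ _).trans (le_max_left _ _))
    have h2 : (2 : ℝ) ^ m ≤ (2 : ℝ) ^ ((4 / 3 - 1 / 3 : ℝ) * ((max (max k0 k3) m : ℕ) : ℝ)) := by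
      rw [← Real.rpow_natCast]
      refine Real.rpow_le_rpow_of_exponent_le (by norm_num) ?_
      have : (m : ℝ) ≤ ((max (max k0 k3) m : ℕ) : ℝ) := by exact_mod_cast le_max_right _ _
      linarith
    exact_mod_cast hm.trans_le (h2.trans h1)
  obtain ⟨hk1, hk2⟩ := Nat.find_spec hun
  have hne : Nat.find hun ≠ k3 := by
    intro h
    rw [h] at hk2
    omega
  obtain ⟨k, hk⟩ : ∃ k, Nat.find hun = k + 1 := ⟨Nat.find hun - 1, by omega⟩
  refine ⟨k, by omega, ?_, hk ▸ hk2⟩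
  by_contra hcon
  push Not at hcon
  exact Nat.find_min hun (by omega : k < Nat.find hun) ⟨by omega, hcon⟩

/-! ### 4. The sizes -/

/-- comparison of the sizes of two lengths -/
lemma size_cmp {l : ℕ → ℕ} (hone : ∀ k, 1 ≤ l k) (hmono : Monotone l) {c Cs ρ0 b1 Cl : ℝ} (hc : 0 < c) (hCs : 0 < Cs)
    (hρ : 0 < ρ0) (hb1 : 0 < b1) (hCl : 2 ≤ Cl) (hup1 : ∀ k, (l (k + 1) : ℝ) ≤ Cl * l k)
    (hlo : ∀ k j : ℕ, b1 * (2 : ℝ) ^ (5 / 4 * (j : ℝ)) * l k ≤ l (k + j)) : ∃ C : ℝ, 1 ≤ C ∧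
    ∀ (k k' m n : ℕ) (sm sn : ℝ), 1 ≤ m → m ≤ n → ρ0 * l k < m → m ≤ l k → ρ0 * l k' < n → n ≤ l k' →
      c * 2 ^ k ≤ sm → sm ≤ Cs * 2 ^ k → c * 2 ^ k' ≤ sn → sn ≤ Cs * 2 ^ k' →
      ((n : ℝ) / m) ^ (1 / Real.logb 2 Cl) * sm ≤ C * sn ∧ sn ≤ C * ((n : ℝ) / m) ^ (4 / 5 : ℝ) * sm := by
  have hl0 : ∀ k, (0 : ℝ) < l k := fun k => by exact_mod_cast hone k
  have hlog : 1 ≤ Real.logb 2 Cl := by
    rw [Real.le_logb_iff_rpow_le (by norm_num) (by linarith), Real.rpow_one]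
    exact hCl
  have hlog0 : 0 < Real.logb 2 Cl := by linarith
  obtain ⟨b, hb⟩ : ∃ b : ℝ, b = 1 / Real.logb 2 Cl := ⟨_, rfl⟩
  have hb0 : 0 < b := by
    rw [hb]
    positivity
  have hClb : Cl ^ b = 2 := by
    rw [hb]
    calc Cl ^ (1 / Real.logb 2 Cl) = ((2 : ℝ) ^ Real.logb 2 Cl) ^ (1 / Real.logb 2 Cl) := by
          rw [Real.rpow_logb (by norm_num) (by norm_num) (by linarith)]
      _ = 2 := by
          rw [← Real.rpow_mul (by norm_num), mul_one_div_cancel hlog0.ne', Real.rpow_one]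
  rw [← hb]
  obtain ⟨R, hR⟩ : ∃ R : ℝ, R = (1 / (ρ0 * b1)) ^ (4 / 5 : ℝ) := ⟨_, rfl⟩
  obtain ⟨S, hS⟩ : ∃ S : ℝ, S = (1 / ρ0) ^ b := ⟨_, rfl⟩
  have hR0 : 0 < R := by
    rw [hR]
    positivity
  have hS0 : 0 < S := by
    rw [hS]
    positivity
  obtain ⟨T, hT⟩ : ∃ T : ℝ, T = max 1 R * max 1 S := ⟨_, rfl⟩
  have m1 : (1 : ℝ) ≤ max 1 R := le_max_left _ _
  have m2 : (1 : ℝ) ≤ max 1 S := le_max_left _ _
  have m3 : R ≤ max 1 R := le_max_right _ _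
  have m4 : S ≤ max 1 S := le_max_right _ _
  have hT1 : 1 ≤ T := by
    rw [hT]
    nlinarith
  -- the power 4 / 5 of 2 ^ (5 j / 4)
  have h54 : ∀ j : ℕ, ((2 : ℝ) ^ (5 / 4 * (j : ℝ))) ^ (4 / 5 : ℝ) = 2 ^ j := by
    intro j
    rw [← Real.rpow_mul (by norm_num), ← Real.rpow_natCast]
    congr 1
    ring
  refine ⟨max 1 (Cs / c * T), le_max_left _ _, fun k k' m n sm sn hm hmn a1 a2 a3 a4 s1 s2 s3 s4 => ?_⟩
  have hm0 : (0 : ℝ) < m := by exact_mod_cast hm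
  have hmnR : (m : ℝ) ≤ n := by exact_mod_cast hmn
  have a2' : (m : ℝ) ≤ l k := by exact_mod_cast a2
  have a4' : (n : ℝ) ≤ l k' := by exact_mod_cast a4
  obtain ⟨x, hx⟩ : ∃ x : ℝ, x = (n : ℝ) / m := ⟨_, rfl⟩
  rw [← hx]
  have hx1 : 1 ≤ x := by
    rw [hx, le_div_iff₀ hm0]
    linarith
  have hxn : (n : ℝ) = x * m := by
    rw [hx]
    field_simp
  have hx45 : 1 ≤ x ^ (4 / 5 : ℝ) := Real.one_le_rpow hx1 (by norm_num)
  have hxb0 : 0 < x ^ b := by positivity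
  have h2k : (0 : ℝ) < 2 ^ k := by positivity
  have h2k' : (0 : ℝ) < 2 ^ k' := by positivity
  have hU : (2 : ℝ) ^ k' ≤ T * (x ^ (4 / 5 : ℝ) * 2 ^ k) := by
    have hTR : max 1 R ≤ T := by
      rw [hT]
      nlinarith
    rcases le_total k k' with h | h
    · obtain ⟨j, rfl⟩ := Nat.exists_eq_add_of_le h
      have e1 : (2 : ℝ) ^ (5 / 4 * (j : ℝ)) ≤ x * (1 / (ρ0 * b1)) := by
        have e2 := hlo k j
        have e3 : b1 * (2 : ℝ) ^ (5 / 4 * (j : ℝ)) * m ≤ x * m / ρ0 := by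
          have e4 : (l (k + j) : ℝ) ≤ x * m / ρ0 := by
            rw [le_div_iff₀ hρ, ← hxn]
            linarith
          refine le_trans ?_ (e2.trans e4)
          have : (0 : ℝ) ≤ b1 * (2 : ℝ) ^ (5 / 4 * (j : ℝ)) := by positivity
          exact mul_le_mul_of_nonneg_left a2' this
        rw [le_div_iff₀ hρ] at e3
        rw [mul_one_div, le_div_iff₀ (by positivity)]
        have e5 : (2 : ℝ) ^ (5 / 4 * (j : ℝ)) * (ρ0 * b1) * m ≤ x * m := by linarith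
        exact le_of_mul_le_mul_right e5 hm0
      have e6 : (2 : ℝ) ^ j ≤ x ^ (4 / 5 : ℝ) * R := by
        rw [← h54 j, hR, ← Real.mul_rpow (by linarith) (by positivity)]
        exact Real.rpow_le_rpow (by positivity) e1 (by norm_num)
      calc (2 : ℝ) ^ (k + j) = 2 ^ k * 2 ^ j := pow_add _ _ _
        _ ≤ 2 ^ k * (x ^ (4 / 5 : ℝ) * R) := mul_le_mul_of_nonneg_left e6 h2k.le
        _ = R * (x ^ (4 / 5 : ℝ) * 2 ^ k) := by ring
        _ ≤ T * (x ^ (4 / 5 : ℝ) * 2 ^ k) := mul_le_mul_of_nonneg_right (m3.trans hTR) (by positivity)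
    · calc (2 : ℝ) ^ k' ≤ 2 ^ k := pow_le_pow_right₀ (by norm_num) h
        _ = 1 * (1 * 2 ^ k) := by ring
        _ ≤ T * (x ^ (4 / 5 : ℝ) * 2 ^ k) := by gcongr
  have hL : x ^ b * 2 ^ k ≤ T * 2 ^ k' := by
    rcases le_total k k' with h | h
    · obtain ⟨j, rfl⟩ := Nat.exists_eq_add_of_le h
      have hupj : ∀ j : ℕ, (l (k + j) : ℝ) ≤ Cl ^ j * l k := by
        intro j
        induction j with
        | zero => simp
        | succ j ih =>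
          calc (l (k + (j + 1)) : ℝ) ≤ Cl * l (k + j) := hup1 (k + j)
            _ ≤ Cl * (Cl ^ j * l k) := mul_le_mul_of_nonneg_left (ih) (by linarith)
            _ = _ := by ring
      have e1 : x ≤ Cl ^ j * (1 / ρ0) := by
        have e2 := a4'.trans (hupj j)
        rw [hxn] at e2
        have e3 : (l k : ℝ) ≤ m / ρ0 := by
          rw [le_div_iff₀ hρ]
          linarith
        have e4 : x * m ≤ Cl ^ j * (1 / ρ0) * m := by
          calc x * m ≤ Cl ^ j * l k := e2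
            _ ≤ Cl ^ j * (m / ρ0) := mul_le_mul_of_nonneg_left e3 (by positivity)
            _ = _ := by ring
        exact le_of_mul_le_mul_right e4 hm0
      have e5 : x ^ b ≤ 2 ^ j * S := by
        calc x ^ b ≤ (Cl ^ j * (1 / ρ0)) ^ b := Real.rpow_le_rpow (by linarith) e1 hb0.le
          _ = (Cl ^ j) ^ b * (1 / ρ0) ^ b := Real.mul_rpow (by positivity) (by positivity)
          _ = 2 ^ j * S := by
              rw [hS]
              congr 1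
              rw [← Real.rpow_natCast, ← Real.rpow_mul (by linarith), mul_comm, Real.rpow_mul (by linarith), hClb,
                Real.rpow_natCast]
      calc x ^ b * 2 ^ k ≤ 2 ^ j * S * 2 ^ k := mul_le_mul_of_nonneg_right e5 h2k.le
        _ = S * 2 ^ (k + j) := by
            rw [pow_add]
            ring
        _ ≤ T * 2 ^ (k + j) := by
            refine mul_le_mul_of_nonneg_right ?_ (by positivity)
            rw [hT]
            nlinarith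
    · obtain ⟨j, rfl⟩ := Nat.exists_eq_add_of_le h
      have hle : (l k' : ℝ) ≤ l (k' + j) := by exact_mod_cast hmono (Nat.le_add_right _ _)
      have e1 : x ≤ 1 / ρ0 := by
        have e4 : x * m ≤ 1 / ρ0 * m := by
          rw [← hxn]
          calc (n : ℝ) ≤ l (k' + j) := a4'.trans hle
            _ ≤ m / ρ0 := by
                rw [le_div_iff₀ hρ]
                linarith
            _ = _ := by ring
        exact le_of_mul_le_mul_right e4 hm0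
      have e2 : x ^ b ≤ S := by
        rw [hS]
        exact Real.rpow_le_rpow (by linarith) e1 hb0.le
      have e3 : (2 : ℝ) ^ (5 / 4 * (j : ℝ)) ≤ 1 / (ρ0 * b1) := by
        have e4 := hlo k' j
        have e5 : (l (k' + j) : ℝ) * ρ0 ≤ l k' := by
          have : (m : ℝ) ≤ l k' := hmnR.trans a4'
          linarith
        rw [le_div_iff₀ (by positivity)]
        have e6 : (2 : ℝ) ^ (5 / 4 * (j : ℝ)) * (ρ0 * b1) * l k' ≤ 1 * l k' := by
          calc (2 : ℝ) ^ (5 / 4 * (j : ℝ)) * (ρ0 * b1) * l k' = (b1 * (2 : ℝ) ^ (5 / 4 * (j : ℝ)) * l k') * ρ0 := by ring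
            _ ≤ l (k' + j) * ρ0 := mul_le_mul_of_nonneg_right e4 hρ.le
            _ ≤ 1 * l k' := by linarith
        exact le_of_mul_le_mul_right e6 (hl0 k')
      have e7 : (2 : ℝ) ^ j ≤ R := by
        rw [← h54 j, hR]
        exact Real.rpow_le_rpow (by positivity) e3 (by norm_num)
      calc x ^ b * 2 ^ (k' + j) = x ^ b * 2 ^ j * 2 ^ k' := by
            rw [pow_add]
            ring
        _ ≤ (max 1 S * max 1 R) * 2 ^ k' := by
            refine mul_le_mul_of_nonneg_right ?_ h2k'.le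
            exact mul_le_mul (e2.trans m4) (e7.trans m3) (by positivity) (by linarith)
        _ = T * 2 ^ k' := by
            rw [hT]
            ring
  have hCsc : Cs / c * T ≤ max 1 (Cs / c * T) := le_max_right _ _
  have hsn0 : 0 < sn := lt_of_lt_of_le (by positivity) s3
  have hsm0 : 0 < sm := lt_of_lt_of_le (by positivity) s1
  constructor
  · calc x ^ b * sm ≤ x ^ b * (Cs * 2 ^ k) := mul_le_mul_of_nonneg_left s2 hxb0.le
      _ = Cs * (x ^ b * 2 ^ k) := by ring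
      _ ≤ Cs * (T * 2 ^ k') := mul_le_mul_of_nonneg_left hL hCs.le
      _ = Cs / c * T * (c * 2 ^ k') := by field_simp
      _ ≤ Cs / c * T * sn := mul_le_mul_of_nonneg_left s3 (by positivity)
      _ ≤ max 1 (Cs / c * T) * sn := mul_le_mul_of_nonneg_right hCsc hsn0.le
  · calc sn ≤ Cs * 2 ^ k' := s4
      _ ≤ Cs * (T * (x ^ (4 / 5 : ℝ) * 2 ^ k)) := mul_le_mul_of_nonneg_left hU hCs.le
      _ = Cs / c * T * (x ^ (4 / 5 : ℝ) * (c * 2 ^ k)) := by field_simp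
      _ ≤ Cs / c * T * (x ^ (4 / 5 : ℝ) * sm) := by gcongr
      _ ≤ max 1 (Cs / c * T) * (x ^ (4 / 5 : ℝ) * sm) := mul_le_mul_of_nonneg_right hCsc (by positivity)
      _ = _ := by ring

/-! ### 5. Every N -/

/-- from the scales to every N -/
lemma every_N {l : ℕ → ℕ} (hlow : ∀ e : ℝ, 0 < e → ∃ k0 : ℕ, ∀ k : ℕ, k0 ≤ k → (2 : ℝ) ^ ((4 / 3 - e) * k) ≤ l k)
    {Cm ε ρ0 : ℝ} (hCm : 1 ≤ Cm) (hε : 0 < ε) (hρ : 0 < ρ0) {k3 : ℕ} {A : ℕ → Set ℕ} {B : Set ℕ}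
    (hmass : ∀ k, k3 ≤ k → weight (l (k + 1)) Set.univ ≤ Cm * weight (l k) Set.univ)
    (hA : ∀ k, k3 ≤ k → weight (l k) {n | ¬ n ∈ A k} ≤ ε / Cm * weight (l k) Set.univ)
    (hB : ∀ k, k3 ≤ k → ∀ n ∈ A k, n ∈ B ∧ ρ0 * l k ≤ n) :
    ∀ N : ℕ, l k3 ≤ N → weight N {n | ¬ (n ∈ B ∧ (N : ℝ) ≤ ρ0⁻¹ * n)} ≤ ε * weight N Set.univ := by
  intro N hN
  obtain ⟨k, hk, h1, h2⟩ := scale_of hlow hN
  have hsub : {n | ¬ (n ∈ B ∧ (N : ℝ) ≤ ρ0⁻¹ * n)} ⊆ {n | ¬ n ∈ A (k + 1)} := by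
    intro n hn hnA
    obtain ⟨a1, a2⟩ := hB (k + 1) (by omega) n hnA
    refine hn ⟨a1, ?_⟩
    rw [inv_mul_eq_div, le_div_iff₀ hρ]
    have a3 : (N : ℝ) ≤ l (k + 1) := by exact_mod_cast h2.le
    nlinarith
  have hCm0 : 0 < Cm := by linarith
  calc weight N {n | ¬ (n ∈ B ∧ (N : ℝ) ≤ ρ0⁻¹ * n)} ≤ weight (l (k + 1)) {n | ¬ (n ∈ B ∧ (N : ℝ) ≤ ρ0⁻¹ * n)} :=
        weight_mono_N h2.le _
    _ ≤ weight (l (k + 1)) {n | ¬ n ∈ A (k + 1)} := weight_mono hsub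
    _ ≤ ε / Cm * weight (l (k + 1)) Set.univ := hA (k + 1) (by omega)
    _ ≤ ε / Cm * (Cm * weight (l k) Set.univ) := mul_le_mul_of_nonneg_left (hmass k hk) (by positivity)
    _ = ε * weight (l k) Set.univ := by field_simp
    _ ≤ ε * weight N Set.univ := mul_le_mul_of_nonneg_left (weight_mono_N h1 _) hε.le

/-! ### 6. The Hoelder exponents up to 3 / 4 -/

/-- the numbers: the density of the exponents -/
lemma num_dens {a r : ℝ} (ha : 0 < a) (har : a / (12 - 15 * a) < r) (ha1 : a < 3 / 4) (hr : r < 1) :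
    ∃ (c : ℚ) (a' : ℚ) (e : ℝ), 4 / 3 < c ∧ (5 / 4 : ℝ) < c ∧ 0 < a' ∧ a' * c < 1 ∧ a < a' ∧ 0 < e ∧
      1 - ((c : ℝ) - 4 / 3) / (c - 5 / 4) + e ≤ r := by
  have h1 : 0 < 12 - 15 * a := by linarith
  have h2 : 0 < a / (12 - 15 * a) := by positivity
  have hr0 : 0 < r := by linarith
  rw [div_lt_iff₀ h1] at har
  obtain ⟨c, hc1, hc2⟩ : ∃ c : ℚ, 5 / 4 + 1 / (12 * r) < (c : ℝ) ∧ (c : ℝ) < 1 / a := by
    apply exists_rat_btwn
    rw [lt_div_iff₀ ha]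
    have h3 : (5 / 4 + 1 / (12 * r)) * a = (15 * r * a + a) / (12 * r) := by
      field_simp
      ring
    rw [h3, div_lt_one (by positivity)]
    linarith
  have h4 : 1 / 12 < 1 / (12 * r) := by
    apply one_div_lt_one_div_of_lt (by positivity)
    linarith
  have hc54 : (5 / 4 : ℝ) < c := by
    have : 0 < 1 / (12 * r) := by positivity
    linarith
  have hc43 : (4 / 3 : ℝ) < c := by linarith
  have hc0 : (0 : ℝ) < c := by linarith
  obtain ⟨a', ha'1, ha'2⟩ : ∃ a' : ℚ, a < (a' : ℝ) ∧ (a' : ℝ) < 1 / c := by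
    apply exists_rat_btwn
    rw [lt_div_iff₀ hc0]
    rw [lt_div_iff₀ ha] at hc2
    linarith
  refine ⟨c, a', r - (1 - ((c : ℝ) - 4 / 3) / (c - 5 / 4)), ?_, hc54, ?_, ?_, ha'1, ?_, by linarith⟩
  · have : ((4 / 3 : ℚ) : ℝ) < (c : ℝ) := by
      push_cast
      exact hc43
    exact_mod_cast this
  · have : ((0 : ℚ) : ℝ) < (a' : ℝ) := by
      push_cast
      linarith
    exact_mod_cast this
  · rw [lt_div_iff₀ hc0] at ha'2
    exact_mod_cast ha'2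
  · have h5 : 0 < (c : ℝ) - 5 / 4 := by linarith
    have h6 : 1 - ((c : ℝ) - 4 / 3) / (c - 5 / 4) = (1 / 12) / (c - 5 / 4) := by
      rw [eq_div_iff h5.ne', sub_mul, div_mul_cancel₀ _ h5.ne']
      ring
    rw [h6, sub_pos, div_lt_iff₀ h5]
    have h7 : 1 / (12 * r) < c - 5 / 4 := by linarith
    rw [div_lt_iff₀ (by positivity)] at h7
    linarith

/-! ### 7. The theorem -/

/-- **the final theorem at every scale** -/
theorem result_all {l : ℕ → ℕ} (hone : ∀ k, 1 ≤ l k) (hmono : Monotone l)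
    (hup : ∀ e : ℝ, 0 < e → ∃ C : ℝ, 0 < C ∧ ∀ k : ℕ, (l k : ℝ) ≤ C * (2 : ℝ) ^ ((4 / 3 + e) * k))
    (hlow : ∀ e : ℝ, 0 < e → ∃ k0 : ℕ, ∀ k : ℕ, k0 ≤ k → (2 : ℝ) ^ ((4 / 3 - e) * k) ≤ l k)
    (hF : FactsS l Set.univ)
    (hH : ∀ a c K : ℝ, 0 < a → 4 / 3 < c → a * c < 1 → 1 ≤ K → FactSH a l (GCK K c l))
    (hup1 : ∃ C : ℝ, ∀ k, (l (k + 1) : ℝ) ≤ C * l k)
    (hlo : ∃ b : ℝ, 0 < b ∧ ∀ k j : ℕ, b * (2 : ℝ) ^ (5 / 4 * (j : ℝ)) * l k ≤ l (k + j))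
    (hmass : ∃ (C : ℝ) (L0 : ℕ), 1 ≤ C ∧ ∀ k, L0 ≤ k → gf (SAL (l (k + 1))) ≤ ENNReal.ofReal C * gf (SAL (l k))) :
    ∃ a₀ : NNReal, 0 < a₀ ∧ ∀ ε : ℝ, 0 < ε → ε < 1 → ConclAll a₀ ε := by
  obtain ⟨Cl0, hCl0⟩ := hup1
  obtain ⟨Cl, hCl⟩ : ∃ Cl : ℝ, Cl = max 2 Cl0 := ⟨_, rfl⟩
  have hCl2 : 2 ≤ Cl := by
    rw [hCl]
    exact le_max_left _ _
  have hl0 : ∀ k, (0 : ℝ) < l k := fun k => by exact_mod_cast hone k
  have hup1 : ∀ k, (l (k + 1) : ℝ) ≤ Cl * l k := fun k => (hCl0 k).trans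
    (mul_le_mul_of_nonneg_right (by rw [hCl]; exact le_max_right _ _) (hl0 k).le)
  obtain ⟨b1, hb1, hlo⟩ := hlo
  obtain ⟨Cg, Lm, hCg, hmass⟩ := hmass
  -- the exponent for all scales
  obtain ⟨c0, hc01, hc02⟩ : ∃ c0 : ℚ, max (Real.logb 2 Cl) (4 / 3) < (c0 : ℝ) ∧ (c0 : ℝ) < max (Real.logb 2 Cl) (4 / 3) + 1 :=
    exists_rat_btwn (by linarith)
  have hc0a : Real.logb 2 Cl < c0 := lt_of_le_of_lt (le_max_left _ _) hc01
  have hc0b : (4 / 3 : ℝ) < c0 := lt_of_le_of_lt (le_max_right _ _) hc01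
  have hc00 : (0 : ℝ) < c0 := by linarith
  obtain ⟨a0, ha01, ha02⟩ : ∃ a0 : ℚ, (0 : ℝ) < (a0 : ℝ) ∧ (a0 : ℝ) < 1 / c0 := exists_rat_btwn (by positivity)
  have hac0 : (a0 : ℝ) * c0 < 1 := by rwa [lt_div_iff₀ hc00] at ha02
  have ha0le : (a0 : ℝ) ≤ 1 := by nlinarith
  have huniv : GCK 1 c0 l = Set.univ := by
    ext L
    refine ⟨fun _ => Set.mem_univ _, fun _ j hj => ?_⟩
    have h1 : ∀ j : ℕ, j ≤ L → (l L : ℝ) ≤ Cl ^ j * l (L - j) := by
      intro j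
      induction j with
      | zero => intro _; simp
      | succ j ih =>
        intro hj
        have h2 := hup1 (L - (j + 1))
        rw [show L - (j + 1) + 1 = L - j by omega] at h2
        calc (l L : ℝ) ≤ Cl ^ j * l (L - j) := ih (by omega)
          _ ≤ Cl ^ j * (Cl * l (L - (j + 1))) := mul_le_mul_of_nonneg_left h2 (by positivity)
          _ = _ := by ring
    have h3 : Cl ^ j ≤ (2 : ℝ) ^ ((c0 : ℝ) * (j : ℝ)) := by
      calc Cl ^ j = ((2 : ℝ) ^ Real.logb 2 Cl) ^ j := by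
            rw [Real.rpow_logb (by norm_num) (by norm_num) (by linarith)]
        _ = (2 : ℝ) ^ (Real.logb 2 Cl * (j : ℝ)) := by rw [← Real.rpow_natCast, ← Real.rpow_mul (by norm_num)]
        _ ≤ _ := Real.rpow_le_rpow_of_exponent_le (by norm_num)
            (mul_le_mul_of_nonneg_right hc0a.le (Nat.cast_nonneg _))
    rw [one_mul]
    exact (h1 j hj).trans (mul_le_mul_of_nonneg_right h3 (hl0 _).le)
  refine ⟨⟨a0, ha01.le⟩, ha01, fun ε hε hε1 => ?_⟩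
  -- the choice of the lengths
  obtain ⟨f, hf⟩ := exists_surjective_nat Ix
  obtain ⟨Cm, hCm⟩ : ∃ Cm : ℝ, Cm = 3 / 2 * Cg := ⟨_, rfl⟩
  have hCm1 : 1 ≤ Cm := by
    rw [hCm]
    linarith
  have hCm0 : 0 < Cm := by linarith
  have hα : ∀ i, (0 : ℝ) < ((f i).1.1 : ℝ) := fun i => by exact_mod_cast (f i).2.1
  obtain ⟨L1, A, hC, hHC, hle, htyp, ρ0, hρ0, hρA⟩ := pickS_fam (ε := 2 / 3 * (ε / Cm)) (by positivity)
    (α := fun i => ((f i).1.1 : ℝ)) hα (H := fun i => GCK ((f i).1.2.2 : ℝ) ((f i).1.2.1 : ℝ) l) hup hlow hF (fun i => by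
      refine hH _ _ _ (hα i) ?_ ?_ ?_
      · have h1 := (f i).2.2.1
        have h2 : ((4 / 3 : ℚ) : ℝ) < ((f i).1.2.1 : ℝ) := by exact_mod_cast h1
        push_cast at h2
        exact h2
      · have h1 := (f i).2.2.2.1
        exact_mod_cast h1
      · exact_mod_cast (f i).2.2.2.2)
  have hinu : ∀ S : Set ℕ, (Set.univ : Set ℕ) ∩ S = S := fun S => Set.univ_inter S
  simp only [hinu] at hHC
  obtain ⟨k1, hk1⟩ := factsG_of hC
  obtain ⟨c, Cs, k0, hc, hCs, hsize⟩ := core_size hC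
  obtain ⟨k2, hk2⟩ : ∃ k2 : ℕ, k2 = max k1 k0 := ⟨_, rfl⟩
  obtain ⟨hA, hexp, hhold⟩ := hk1 k2 (hk2 ▸ le_max_left _ _)
  -- Hoelder at all scales
  have hHA : HoldA ((⟨a0, ha01.le⟩ : NNReal) : ℝ) (AU (Cut Set.univ L1) A k2) := by
    obtain ⟨i, hi⟩ := hf ⟨(a0, c0, 1), by exact_mod_cast ha01, by
      have : ((4 / 3 : ℚ) : ℝ) < (c0 : ℝ) := by
        push_cast
        exact hc0b
      exact_mod_cast this, by exact_mod_cast hac0, le_rfl⟩
    have h1 := hHC i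
    rw [hi] at h1
    simp only [Nat.cast_one] at h1
    rw [huniv] at h1
    exact hhold _ ha01 h1
  have hgood : ∀ k ∈ Cut Set.univ L1, weight (l k) {n | ¬ n ∈ A k} ≤ ε / Cm * weight (l k) Set.univ := fun k hk =>
    weight_typ (by positivity) (htyp k hk)
  -- the constants
  obtain ⟨Cz, hCz1, hCz⟩ := size_cmp hone hmono hc hCs hρ0 hb1 hCl2 hup1 hlo
  obtain ⟨k3, hk3⟩ : ∃ k3 : ℕ, k3 = max (max k2 L1) Lm := ⟨_, rfl⟩
  have hk32 : k2 ≤ k3 := by rw [hk3]; exact (le_max_left _ _).trans (le_max_left _ _)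
  have hk3L : L1 ≤ k3 := by rw [hk3]; exact (le_max_right _ _).trans (le_max_left _ _)
  have hk3m : Lm ≤ k3 := by rw [hk3]; exact le_max_right _ _
  have hlog : 1 ≤ Real.logb 2 Cl := by
    rw [Real.le_logb_iff_rpow_le (by norm_num) (by linarith), Real.rpow_one]
    exact hCl2
  have hk02 : k0 ≤ k2 := by rw [hk2]; exact le_max_right _ _
  refine ⟨AU (Cut Set.univ L1) A k2, max ρ0⁻¹ Cz, 1 / Real.logb 2 Cl, l k3, hCz1.trans (le_max_right _ _), by positivity,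
    ?_, ?_, law_prob, hexp, fun ε' hε' => law_holder hA hHA ha01 ha0le hε', tight hA,
    fun φ _ hφA => subseq hA hφA, fun φ ν hφ hφA hν hlim => ?_, ?_⟩
  · intro N hN
    have h1 := every_N hlow hCm1 hε hρ0 (k3 := k3) (A := A) (B := AU (Cut Set.univ L1) A k2)
      (fun k hk => by
        rw [hCm]
        exact weight_dbl hCg (hmass k (hk3m.trans hk)))
      (fun k hk => hgood k ⟨Set.mem_univ _, hk3L.trans hk⟩)
      (fun k hk n hn => ⟨⟨k, ⟨Set.mem_univ _, hk3L.trans hk⟩, hk32.trans hk, hn⟩,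
        (hρA k ⟨Set.mem_univ _, hk3L.trans hk⟩ n hn).le⟩) N hN
    refine le_trans (weight_mono ?_) h1
    intro n hn hcon
    apply hn
    refine ⟨hcon.1, hcon.2.trans ?_⟩
    have : (0 : ℝ) ≤ n := Nat.cast_nonneg _
    exact mul_le_mul_of_nonneg_right (le_max_left _ _) this
  · rintro m ⟨k, hk, hkk, hm⟩ n ⟨k', hk', hkk', hn⟩ hmn
    obtain ⟨s2, s1⟩ := hsize k hk m hm
    obtain ⟨s4, s3⟩ := hsize k' hk' n hn
    obtain ⟨r1, r2⟩ := hCz k k' m n (size m) (size n) (hC.pos k hk m hm) hmn (hρA k hk m hm) (hle k hk m hm)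
      (hρA k' hk' n hn) (hle k' hk' n hn) (s1 (hk02.trans hkk)) s2 (s3 (hk02.trans hkk')) s4
    have hsn : 0 ≤ size n := Real.sqrt_nonneg _
    have hsm : 0 ≤ size m := Real.sqrt_nonneg _
    refine ⟨r1.trans (mul_le_mul_of_nonneg_right (le_max_right _ _) hsn), r2.trans ?_⟩
    have : (0 : ℝ) ≤ ((n : ℝ) / m) ^ (4 / 5 : ℝ) := by positivity
    gcongr
    exact le_max_right _ _
  · obtain ⟨h1, h2⟩ := limit_props hA hφ hφA hν hlim
    refine ⟨?_, h2⟩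
    filter_upwards [h1, limit_holder hA hHA ha01 ha0le hφA hν hlim] with γ h3 h4
    exact ⟨h3.1, h3.2, h4⟩
  · -- the exponents up to 3 / 4
    intro a r ha har ha1 hr
    have ha' : (0 : ℝ) < a := ha
    obtain ⟨c1, a', e, hc1, hc1', ha'0, hac, haa, he, hre⟩ := num_dens ha' har ha1 hr
    have hc1R : (4 / 3 : ℝ) < c1 := by
      have : ((4 / 3 : ℚ) : ℝ) < (c1 : ℝ) := by exact_mod_cast hc1
      push_cast at this
      exact this
    have ha'R : (0 : ℝ) < (a' : ℝ) := by exact_mod_cast ha'0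
    have ha'le : (a' : ℝ) ≤ 1 := by
      have h1 : (a' : ℝ) * c1 < 1 := by exact_mod_cast hac
      nlinarith
    obtain ⟨K, hK, hD⟩ := dense_GCKs hone hup hlow ⟨b1, hb1, hlo⟩ hc1' hc1R he
    obtain ⟨q0, hq0⟩ : ∃ q0 : ℕ, max (2 / c) Cs ≤ (2 : ℝ) ^ q0 := by
      obtain ⟨m, hm⟩ := pow_unbounded_of_one_lt (max (2 / c) Cs) (show (1 : ℝ) < 2 by norm_num)
      exact ⟨m, hm.le⟩
    obtain ⟨K', hK'⟩ := exists_nat_ge (K * (Cl ^ (2 * q0) * (2 : ℝ) ^ ((c1 : ℝ) * (2 * q0 : ℕ))))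
    have hK'1 : 1 ≤ K' := by
      have h1 : (1 : ℝ) ≤ Cl ^ (2 * q0) := one_le_pow₀ (by linarith)
      have h2 : (1 : ℝ) ≤ (2 : ℝ) ^ ((c1 : ℝ) * (2 * q0 : ℕ)) := Real.one_le_rpow (by norm_num) (by positivity)
      have h3 : (1 : ℝ) ≤ K' := by
        calc (1 : ℝ) = 1 * (1 * 1) := by ring
          _ ≤ K * (Cl ^ (2 * q0) * (2 : ℝ) ^ ((c1 : ℝ) * (2 * q0 : ℕ))) := by gcongr
          _ ≤ K' := hK'
      exact_mod_cast h3
    obtain ⟨i, hi⟩ := hf ⟨(a', c1, K'), ha'0, hc1, hac, hK'1⟩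
    have hHCi := hHC i
    rw [hi] at hHCi
    simp only at hHCi
    have hCi : CoreW (Cut (GCK (K' : ℝ) (c1 : ℝ) l) L1) A :=
      coreW_mono (show Cut (GCK (K' : ℝ) (c1 : ℝ) l) L1 ⊆ Cut Set.univ L1 from fun k hk => ⟨Set.mem_univ k, hk.2⟩) hC
    obtain ⟨ki, hki⟩ := factsG_of hCi
    obtain ⟨hFi, -, hHi⟩ := hki (max k2 ki) (le_max_right _ _)
    have hHi' := hHi _ ha'R hHCi
    have hnear : ∀ n ∈ AU (Cut Set.univ L1) A k2,
        n ∈ NearS {k | k ∈ GCK K c1 l ∧ max k2 ki + L1 + q0 ≤ k} →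
        n ∈ AU (Cut (GCK (K' : ℝ) (c1 : ℝ) l) L1) A (max k2 ki) := by
      rintro n ⟨k', hk', hkk', hn⟩ ⟨k, ⟨hk1, hk2'⟩, s1, s2⟩
      obtain ⟨t1, t2⟩ := hsize k' hk' n hn
      have t2 := t2 (hk02.trans hkk')
      have h2c : 2 / c ≤ (2 : ℝ) ^ q0 := (le_max_left _ _).trans hq0
      have hCsq : Cs ≤ (2 : ℝ) ^ q0 := (le_max_right _ _).trans hq0
      have u1 : k ≤ k' + q0 := by
        have : (2 : ℝ) ^ k ≤ 2 ^ (k' + q0) := by
          calc (2 : ℝ) ^ k ≤ Cs * 2 ^ k' := s1.trans t1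
            _ ≤ 2 ^ q0 * 2 ^ k' := mul_le_mul_of_nonneg_right hCsq (by positivity)
            _ = _ := by rw [pow_add]; ring
        exact (pow_le_pow_iff_right₀ (by norm_num)).1 this
      have u2 : k' ≤ k + q0 := by
        have : (2 : ℝ) ^ k' ≤ 2 ^ (k + q0) := by
          rw [div_le_iff₀ hc] at h2c
          have h3 : c * (2 : ℝ) ^ k' ≤ c * 2 ^ (k + q0) := by
            calc c * (2 : ℝ) ^ k' ≤ 2 ^ (k + 1) := t2.trans s2
              _ = 2 * 2 ^ k := by rw [pow_succ]; ring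
              _ ≤ 2 ^ q0 * c * 2 ^ k := mul_le_mul_of_nonneg_right h2c (by positivity)
              _ = _ := by rw [pow_add]; ring
          exact le_of_mul_le_mul_left h3 hc
        exact (pow_le_pow_iff_right₀ (by norm_num)).1 this
      have hk'G : k' ∈ GCK (K' : ℝ) (c1 : ℝ) l :=
        GCK_mono hK' (GCK_near hmono hone (by linarith) hup1 hK (by linarith) hk1 u1 u2)
      exact ⟨k', ⟨hk'G, hk'.2⟩, by omega, hn⟩
    obtain ⟨H, hHd⟩ : ∃ H : Set ℕ, H = {k | k ∈ GCK K c1 l ∧ max k2 ki + L1 + q0 ≤ k} := ⟨_, rfl⟩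
    rw [← hHd] at hnear
    refine ⟨H, ?_, ?_, ?_⟩
    · intro δ hδ
      obtain ⟨x0, hx0⟩ := hD δ hδ
      refine ⟨max x0 (max k2 ki + L1 + q0), fun x hx => ?_⟩
      have h1 := hx0 x ((le_max_left _ _).trans hx)
      have h2 : (1 - r) * (δ * x) ≤ (1 - (1 - ((c1 : ℝ) - 4 / 3) / (c1 - 5 / 4) + e)) * (δ * x) := by
        refine mul_le_mul_of_nonneg_right (by linarith) (by positivity)
      refine h2.trans (h1.trans (Nat.cast_le.2 (Finset.card_le_card fun k hk => ?_)))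
      rw [Finset.mem_filter, Finset.mem_Icc] at hk
      rw [Finset.mem_filter, Finset.mem_Icc, hHd]
      exact ⟨hk.1, hk.2, (le_max_right _ _).trans (hx.trans hk.1.1)⟩
    · intro ε' hε'
      obtain ⟨M, hM⟩ := law_holder (a := (⟨a', ha'R.le⟩ : NNReal)) hFi hHi' ha'R ha'le hε'
      refine ⟨M, fun n hn hnn => le_trans (measure_mono ?_) (hM n (hnear n hn hnn))⟩
      intro γ hγ hcon
      exact hγ (holder_mono (by exact_mod_cast haa.le) hcon)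
    · intro φ ν _ hφA hν hlim
      filter_upwards [limit_holder (a := (⟨a', ha'R.le⟩ : NNReal)) hFi hHi' ha'R ha'le
        (fun k => hnear _ (hφA k).1 (hφA k).2) hν hlim] with γ h4
      obtain ⟨M, hM⟩ := h4
      exact ⟨M, holder_mono (by exact_mod_cast haa.le) hM⟩

end NTSF
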