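import Pool.Agent.NTS.LawH
import Pool.Agent.NTS.FinAll

/-!
NTW for every step number: the laws, without the lower bound of the end point.
-/

set_option autoImplicit false

namespace NTSF

open Finset MeasureTheory Filter Topology

open NTF (tight_of_modulus finite_modulus Md norm_comb open_le cont_eval tr tr_cont tr_nonneg tr_le tr_ge trB second_of
  Hd Hd.mono Hd_iff holder_anti closed_holder)

open Pool.Agent.NTS.Res

open scoped ENNReal Classical

/-- the facts about the walks, without the lower bound of the end point -/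
structure FactsQ : Prop where
  mod : ∀ ε r : ℝ, 0 < ε → 0 < r → ∃ (ρ : ℝ) (n0 : ℕ), 0 < ρ ∧ ∀ n : ℕ, n0 ≤ n →
    (((saw n).filter fun s => ∃ i j : ℕ, i ≤ j ∧ j ≤ n ∧ (j : ℝ) - i ≤ ρ * n ∧
      r * size n < ‖pos s j - pos s i‖).card : ℝ) ≤ ε * ((saw n).card : ℝ)
  four : ∃ (C : ℝ) (n0 : ℕ), 0 < C ∧ ∀ n : ℕ, n0 ≤ n →
    ∑ s ∈ saw n, ‖pos s n‖ ^ 4 ≤ C * size n ^ 4 * ((saw n).card : ℝ)

theorem tightQ (hA : FactsQ) : IsTightMeasureSet {μ | ∃ n : ℕ, 1 ≤ n ∧ μ = law n} := by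
  apply tight_of_modulus
  · rintro _ ⟨n, hn, rfl⟩
    exact law_zero fun s _ h => h (curve_zero s)
  · intro ε r hε hr
    obtain ⟨ρ, n0, hρ, h1⟩ := hA.mod ε r hε hr
    obtain ⟨N, hN⟩ : ∃ N : ℕ, N = max n0 ⌈4 / ρ⌉₊ := ⟨_, rfl⟩
    have hF : (⋃ n ∈ Finset.range N, (curve '' (saw n : Set (Fin n → Fin 3)))).Finite :=
      Set.Finite.biUnion (Finset.finite_toSet _) fun n _ => (Finset.finite_toSet _).image _
    obtain ⟨δ, hδ, h2⟩ := finite_modulus hF hr
    refine ⟨min δ (ρ / 2), lt_min hδ (by positivity), ?_⟩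
    rintro _ ⟨n, hn, rfl⟩
    rcases lt_or_ge n N with h3 | h3
    · rw [law_zero]
      · exact zero_le
      · intro s hs h4
        apply h4
        intro u v huv
        refine h2 (curve s) ?_ u v (huv.trans (min_le_left _ _))
        rw [Set.mem_iUnion₂]
        exact ⟨n, Finset.mem_range.2 h3, s, hs, rfl⟩
    · rw [hN] at h3
      have h4 : 4 ≤ ρ * n := by
        have h5 : 4 / ρ ≤ n := (Nat.le_ceil _).trans (by exact_mod_cast (le_max_right _ _).trans h3)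
        rw [div_le_iff₀ hρ] at h5
        linarith
      refine law_le hε.le (le_trans ?_ (h1 n ((le_max_left _ _).trans h3)))
      have hsub : ((saw n).filter fun s => curve s ∈ {f : C(unitInterval, ℂ) | ¬ Md (min δ (ρ / 2)) r f}) ⊆
          (saw n).filter fun s => ∃ i j : ℕ, i ≤ j ∧ j ≤ n ∧ (j : ℝ) - i ≤ ρ * n ∧
            r * size n < ‖pos s j - pos s i‖ := by
        intro s hs
        rw [Finset.mem_filter] at hs ⊢
        refine ⟨hs.1, ?_⟩
        by_contra hcon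
        push Not at hcon
        apply hs.2
        intro u v huv
        exact curve_mod hn hr.le h4 (fun i j a b c => hcon i j a b c) u v (huv.trans (min_le_right _ _))
      exact_mod_cast Finset.card_le_card hsub

theorem subseqQ (hA : FactsQ) {φ : ℕ → ℕ} (hφ1 : ∀ k, 1 ≤ φ k) : ∃ ψ : ℕ → ℕ, StrictMono ψ ∧
    ∃ ν : Measure C(unitInterval, ℂ), IsProbabilityMeasure ν ∧ LawTo (fun k => φ (ψ k)) ν := by
  have ht : IsTightMeasureSet {((ρ : ProbabilityMeasure C(unitInterval, ℂ)) : Measure C(unitInterval, ℂ)) |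
      ρ ∈ Set.range fun k => PM (φ k)} := by
    refine (tightQ hA).subset ?_
    rintro _ ⟨ρ, ⟨k, rfl⟩, rfl⟩
    exact ⟨φ k, hφ1 k, rfl⟩
  have hc := isCompact_closure_of_isTightMeasureSet ht
  obtain ⟨ν, -, ψ, hψ, hlim⟩ := hc.tendsto_subseq (x := fun k => PM (φ k))
    (fun k => subset_closure ⟨k, rfl⟩)
  exact ⟨ψ, hψ, ν, inferInstance, (lawTo_iff ν).2 hlim⟩

/-- convergence does not depend on the first terms -/
lemma lawTo_shift {φ : ℕ → ℕ} {ν : Measure C(unitInterval, ℂ)} (h : LawTo φ ν) (j : ℕ) :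
    LawTo (fun k => φ (k + j)) ν := fun f => (h f).comp (tendsto_add_atTop_nat j)

theorem limit_zeroQ {φ : ℕ → ℕ} {ν : Measure C(unitInterval, ℂ)} (hν : IsProbabilityMeasure ν) (hlim : LawTo φ ν) :
    ∀ᵐ γ : C(unitInterval, ℂ) ∂ν, γ 0 = 0 := by
  have hlim2 := (lawTo_iff ⟨ν, hν⟩).1 hlim
  have c1 : IsClosed {γ : C(unitInterval, ℂ) | γ 0 = 0} := isClosed_eq (cont_eval 0) continuous_const
  have h1 : ν {γ : C(unitInterval, ℂ) | γ 0 = 0}ᶜ ≤ 0 := by
    refine open_le hlim2 c1.isOpen_compl (Eventually.of_forall fun k => le_of_eq ?_)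
    exact law_zero fun s hs h => h (curve_zero s)
  exact le_antisymm h1 zero_le

theorem limit_neQ (hlow : ∀ ε : ℝ, 0 < ε → ∃ (κ : ℝ) (n0 : ℕ), 0 < κ ∧ ∀ n : ℕ, n0 ≤ n →
      (((saw n).filter fun s => ‖pos s n‖ ≤ κ * size n).card : ℝ) ≤ ε * ((saw n).card : ℝ))
    {φ : ℕ → ℕ} (hφ : Tendsto φ atTop atTop) {ν : Measure C(unitInterval, ℂ)} (hν : IsProbabilityMeasure ν)
    (hlim : LawTo φ ν) : ∀ᵐ γ : C(unitInterval, ℂ) ∂ν, γ 1 ≠ 0 := by
  have hlim2 := (lawTo_iff ⟨ν, hν⟩).1 hlim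
  have hge : ∀ n0 : ℕ, ∀ᶠ k in atTop, n0 ≤ φ k := fun n0 => hφ.eventually_ge_atTop n0
  have h2 : ν {γ : C(unitInterval, ℂ) | ¬ γ 1 ≠ 0} = 0 := by
    refine le_antisymm (ENNReal.le_of_forall_pos_le_add ?_) zero_le
    intro ε hε _
    rw [zero_add]
    obtain ⟨κ, n0, hκ, h3⟩ := hlow ε (by exact_mod_cast hε)
    have hU : IsOpen {γ : C(unitInterval, ℂ) | ‖γ 1‖ < κ} :=
      isOpen_lt (cont_eval 1).norm continuous_const
    have h4 : ν {γ : C(unitInterval, ℂ) | ‖γ 1‖ < κ} ≤ ENNReal.ofReal ε := by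
      refine open_le hlim2 hU ?_
      filter_upwards [hge n0, hge 1] with k hk hk1
      refine law_le (by positivity) (le_trans ?_ (h3 _ hk))
      have hsub : ((saw (φ k)).filter fun s => curve s ∈ {γ : C(unitInterval, ℂ) | ‖γ 1‖ < κ}) ⊆
          (saw (φ k)).filter fun s => ‖pos s (φ k)‖ ≤ κ * size (φ k) := by
        intro s hs
        rw [Finset.mem_filter] at hs ⊢
        refine ⟨hs.1, ?_⟩
        have h5 : ‖curve s 1‖ < κ := hs.2
        rw [curve_one, norm_div, Complex.norm_of_nonneg (size_nonneg _), div_lt_iff₀ (size_pos hk1)] at h5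
        exact h5.le
      exact_mod_cast Finset.card_le_card hsub
    rw [ENNReal.ofReal_coe_nnreal] at h4
    refine (measure_mono ?_).trans h4
    intro γ hγ
    have h5 : γ 1 = 0 := not_not.1 hγ
    show ‖γ 1‖ < κ
    rw [h5, norm_zero]
    exact hκ
  exact h2

theorem limit_secQ (hA : FactsQ) {φ : ℕ → ℕ} (hφ : Tendsto φ atTop atTop) {ν : Measure C(unitInterval, ℂ)}
    (hν : IsProbabilityMeasure ν) (hlim : LawTo φ ν) : ∫ γ : C(unitInterval, ℂ), ‖γ 1‖ ^ 2 ∂ν = 1 := by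
  have hge : ∀ n0 : ℕ, ∀ᶠ k in atTop, n0 ≤ φ k := fun n0 => hφ.eventually_ge_atTop n0
  obtain ⟨C, n0, hC, h4⟩ := hA.four
  apply second_of (C := C)
  intro M hM
  have h1 : Tendsto (fun k => ∫ γ, tr M γ ∂(law (φ k))) atTop (𝓝 (∫ γ, tr M γ ∂ν)) := hlim (trB M hM.le)
  constructor
  · refine ge_of_tendsto h1 ?_
    filter_upwards [hge n0, hge 1] with k hk hk1
    exact tr_law_ge hk1 hM (h4 _ hk)
  · refine le_of_tendsto h1 ?_
    filter_upwards [hge 1] with k hk1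
    exact tr_law_le hk1 M

/-- **uniform Hoelder bounds for the laws** -/
theorem law_holderQ {a : NNReal} (hH : HoldA a {n | 1 ≤ n}) (ha : 0 < a) (ha1 : (a : ℝ) ≤ 1) {ε : ℝ}
    (hε : 0 < ε) : ∃ M : NNReal, ∀ n : ℕ, 1 ≤ n →
      law n {γ : C(unitInterval, ℂ) | ¬ HolderWith M a γ} ≤ ENNReal.ofReal ε := by
  have ha' : (0 : ℝ) < a := ha
  obtain ⟨M, n0, hM, h1⟩ := hH ε hε
  -- the small n
  have h2 : ∀ n : ℕ, ∃ Mn : ℝ, 0 ≤ Mn ∧ (1 ≤ n → ∀ s ∈ saw n, Hd Mn a (curve s)) := by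
    intro n
    by_cases hn1 : 1 ≤ n
    · choose f hf0 hf using fun s : Fin n → Fin 3 => exists_hold hn1 s ha' ha1
      refine ⟨∑ s ∈ saw n, f s, sum_nonneg fun s _ => hf0 s, fun _ s hs => (hf s).mono ?_⟩
      exact single_le_sum (f := f) (fun s _ => hf0 s) hs
    · exact ⟨0, le_rfl, fun h => absurd h hn1⟩
  choose g hg0 hg using h2
  obtain ⟨B, hB⟩ : ∃ B : ℝ, B = ∑ n ∈ range n0, g n := ⟨_, rfl⟩
  have hB0 : 0 ≤ B := by
    rw [hB]
    exact sum_nonneg fun _ _ => hg0 _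
  refine ⟨(3 * M + B).toNNReal, fun n hn1 => ?_⟩
  have hc : (((3 * M + B).toNNReal : NNReal) : ℝ) = 3 * M + B := Real.coe_toNNReal _ (by positivity)
  rcases lt_or_ge n n0 with h3 | h3
  · rw [law_zero]
    · exact zero_le
    · intro s hs h4
      apply h4
      rw [Hd_iff, hc]
      refine (hg n hn1 s hs).mono ?_
      have : g n ≤ B := by
        rw [hB]
        exact single_le_sum (f := g) (fun n _ => hg0 n) (Finset.mem_range.2 h3)
      linarith
  · refine law_le hε.le (le_trans ?_ (h1 n hn1 h3))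
    have hsub : ((saw n).filter fun s => curve s ∈ {γ : C(unitInterval, ℂ) | ¬ HolderWith (3 * M + B).toNNReal a γ}) ⊆
        (saw n).filter fun s => ∃ i j : ℕ, i < j ∧ j ≤ n ∧
          M * size n * (((j : ℝ) - i) / n) ^ (a : ℝ) < ‖pos s j - pos s i‖ := by
      intro s hs
      rw [Finset.mem_filter] at hs ⊢
      refine ⟨hs.1, ?_⟩
      by_contra hcon
      push Not at hcon
      apply hs.2
      rw [Hd_iff, hc]
      exact (curve_hold hn1 hM.le ha' ha1 hcon).mono (by linarith)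
    exact_mod_cast Finset.card_le_card hsub

/-- **Hoelder continuity of the limits, one exponent** -/
theorem limit_holderQ {a : NNReal} (hH : HoldA a {n | 1 ≤ n}) (ha : 0 < a) (ha1 : (a : ℝ) ≤ 1)
    {φ : ℕ → ℕ} (hφ : Tendsto φ atTop atTop) {ν : Measure C(unitInterval, ℂ)} (hν : IsProbabilityMeasure ν)
    (hlim : LawTo φ ν) : ∀ᵐ γ : C(unitInterval, ℂ) ∂ν, ∃ M : NNReal, HolderWith M a γ := by
  have hlim2 := (lawTo_iff ⟨ν, hν⟩).1 hlim
  rw [ae_iff]
  refine le_antisymm (ENNReal.le_of_forall_pos_le_add ?_) zero_le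
  intro ε hε _
  obtain ⟨M, hM⟩ := law_holderQ hH ha ha1 (ε := ε) (by exact_mod_cast hε)
  have h1 : ν {f : C(unitInterval, ℂ) | HolderWith M a f}ᶜ ≤ ENNReal.ofReal ε := by
    refine open_le hlim2 (closed_holder M a).isOpen_compl ?_
    filter_upwards [hφ.eventually_ge_atTop 1] with k hk
    exact hM (φ k) hk
  rw [zero_add]
  rw [ENNReal.ofReal_coe_nnreal] at h1
  refine (measure_mono ?_).trans h1
  intro f hf hfM
  exact hf ⟨M, hfM⟩

/-- **Hoelder continuity of the limits, all the exponents below 3 / 4** -/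
theorem limit_allQ (hH : ∀ a : ℝ, 0 < a → a < 3 / 4 → HoldA a {n | 1 ≤ n})
    {φ : ℕ → ℕ} (hφ : Tendsto φ atTop atTop) {ν : Measure C(unitInterval, ℂ)} (hν : IsProbabilityMeasure ν)
    (hlim : LawTo φ ν) :
    ∀ᵐ γ : C(unitInterval, ℂ) ∂ν, ∀ a : NNReal, (a : ℝ) < 3 / 4 → ∃ M : NNReal, HolderWith M a γ := by
  -- a sequence of exponents
  obtain ⟨e, he⟩ : ∃ e : ℕ → NNReal, ∀ m, ((e m : NNReal) : ℝ) = 3 / 4 - 1 / ((m : ℝ) + 2) := by
    refine ⟨fun m => ⟨3 / 4 - 1 / ((m : ℝ) + 2), ?_⟩, fun m => rfl⟩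
    have h1 : (1 : ℝ) / (m + 2) ≤ 1 / 2 := one_div_le_one_div_of_le (by norm_num) (by
      have : (0 : ℝ) ≤ m := Nat.cast_nonneg m
      linarith)
    linarith
  have hseq : ∀ᵐ γ : C(unitInterval, ℂ) ∂ν, ∀ m : ℕ, ∃ M : NNReal, HolderWith M (e m) γ := by
    rw [ae_all_iff]
    intro m
    have h1 : (1 : ℝ) / (m + 2) ≤ 1 / 2 := one_div_le_one_div_of_le (by norm_num) (by
      have : (0 : ℝ) ≤ m := Nat.cast_nonneg m
      linarith)
    have h2 : (0 : ℝ) < 1 / (m + 2) := by positivity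
    have h3 : (0 : ℝ) < e m := by
      rw [he]
      linarith
    have h4 : (e m : ℝ) < 3 / 4 := by
      rw [he]
      linarith
    exact limit_holderQ (hH _ h3 h4) (by exact_mod_cast h3) (by linarith) hφ hν hlim
  filter_upwards [hseq] with γ h a ha
  obtain ⟨m, hm⟩ := exists_nat_gt (1 / (3 / 4 - (a : ℝ)))
  have h1 : 0 < 3 / 4 - (a : ℝ) := by linarith
  have h2 : (a : ℝ) ≤ e m := by
    rw [he]
    have h3 : 1 / ((m : ℝ) + 2) ≤ 3 / 4 - a := by
      rw [div_lt_iff₀ h1] at hm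
      rw [div_le_iff₀ (by positivity)]
      nlinarith
    linarith
  obtain ⟨M, hM⟩ := h m
  exact ⟨M, holder_mono (by exact_mod_cast h2) hM⟩

end NTSF
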