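import Pool.Agent.NTS.ExDefs
import Pool.Agent.NTS.LawX
import Pool.Agent.NTS.FactsW

/-!
NTW for EVERY step number: the theorem, from the facts about the words with n letters.
-/

set_option autoImplicit false

namespace NTSF

open Finset MeasureTheory Filter Topology

open HexObs hiding pos

open HexObs.TS HexObs.SDN HexObs.NTW

open Pool.Agent.NTS.Res

open NTF (sw JJ)

open scoped ENNReal Classical

/-- the scale of n and the normalisation -/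
structure ScaleX (m : ℕ → ℝ) (R : ℕ → ℝ) (κ : ℕ → ℕ) : Prop where
  sc : ∃ n1 : ℕ, ∀ n : ℕ, n1 ≤ n → m (κ n) ≤ n ∧ (n : ℝ) < m (κ n + 1)
  R2 : ∀ n, R n = 2 ^ κ n
  top : ∀ k : ℕ, ∃ n1 : ℕ, ∀ n : ℕ, n1 ≤ n → k ≤ κ n
  ord : ∃ (c C : ℝ) (n1 : ℕ), 0 < c ∧ 0 < C ∧ ∀ n : ℕ, n1 ≤ n → c * (n : ℝ) ^ (3 / 4 : ℝ) ≤ R n ∧
    R n ≤ C * (n : ℝ) ^ (3 / 4 : ℝ)

lemma scaleX_exists {m : ℕ → ℝ} (hlo : ∃ c : ℝ, 0 < c ∧ ∀ k : ℕ, c * (2 : ℝ) ^ (4 / 3 * (k : ℝ)) ≤ m k)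
    (hup : ∃ C : ℝ, ∀ k : ℕ, m k ≤ C * (2 : ℝ) ^ (4 / 3 * (k : ℝ))) : ∃ (R : ℕ → ℝ) (κ : ℕ → ℕ), ScaleX m R κ := by
  obtain ⟨c, hc, hlo⟩ := hlo
  obtain ⟨C, hup⟩ := hup
  have hpos : ∀ k : ℕ, (0 : ℝ) < (2 : ℝ) ^ (4 / 3 * (k : ℝ)) := fun k => Real.rpow_pos_of_pos (by norm_num) _
  have hC : 0 < C := by
    have h1 := (hlo 0).trans (hup 0)
    have h2 := hpos 0
    by_contra hcon
    push Not at hcon
    nlinarith
  -- m is unbounded
  have hunb : ∀ n : ℕ, ∃ k, (n : ℝ) < m k := by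
    intro n
    obtain ⟨k, hk⟩ := pow_unbounded_of_one_lt ((n : ℝ) / c) (show (1 : ℝ) < 2 by norm_num)
    refine ⟨k, lt_of_lt_of_le ?_ (hlo k)⟩
    rw [div_lt_iff₀ hc] at hk
    have h1 : (2 : ℝ) ^ k ≤ (2 : ℝ) ^ (4 / 3 * (k : ℝ)) := by
      rw [← Real.rpow_natCast]
      refine Real.rpow_le_rpow_of_exponent_le (by norm_num) ?_
      have : (0 : ℝ) ≤ k := Nat.cast_nonneg k
      linarith
    nlinarith
  -- the last scale with m k ≤ n
  have hfin : ∀ n : ℕ, ∃ K : ℕ, ∀ k, K ≤ k → (n : ℝ) < m k := by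
    intro n
    obtain ⟨k, hk⟩ := pow_unbounded_of_one_lt ((n : ℝ) / c) (show (1 : ℝ) < 2 by norm_num)
    refine ⟨k, fun j hj => lt_of_lt_of_le ?_ (hlo j)⟩
    rw [div_lt_iff₀ hc] at hk
    have h1 : (2 : ℝ) ^ k ≤ (2 : ℝ) ^ (4 / 3 * (j : ℝ)) := by
      rw [← Real.rpow_natCast]
      refine Real.rpow_le_rpow_of_exponent_le (by norm_num) ?_
      have h2 : (k : ℝ) ≤ j := by exact_mod_cast hj
      have : (0 : ℝ) ≤ j := Nat.cast_nonneg j
      linarith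
    nlinarith
  have hex : ∀ n : ℕ, ∃ k : ℕ, m 0 ≤ n → m k ≤ n ∧ (n : ℝ) < m (k + 1) := by
    intro n
    by_cases h0 : m 0 ≤ n
    · have hun : ∃ k, (n : ℝ) < m k := hunb n
      have h1 := Nat.find_spec hun
      have h2 : Nat.find hun ≠ 0 := by
        intro h
        rw [h] at h1
        linarith
      obtain ⟨k, hk⟩ : ∃ k, Nat.find hun = k + 1 := ⟨Nat.find hun - 1, by omega⟩
      refine ⟨k, fun _ => ⟨?_, hk ▸ h1⟩⟩
      by_contra hcon
      push Not at hcon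
      exact Nat.find_min hun (by omega : k < Nat.find hun) hcon
    · exact ⟨0, fun h => absurd h h0⟩
  choose κ hκ using hex
  obtain ⟨n0, hn0⟩ := exists_nat_ge (m 0)
  have hsc : ∀ n : ℕ, n0 ≤ n → m (κ n) ≤ n ∧ (n : ℝ) < m (κ n + 1) := fun n hn =>
    hκ n (hn0.trans (by exact_mod_cast hn))
  have h43 : ∀ k : ℕ, ((2 : ℝ) ^ (4 / 3 * (k : ℝ))) ^ (3 / 4 : ℝ) = 2 ^ k := by
    intro k
    rw [← Real.rpow_mul (by norm_num), ← Real.rpow_natCast]
    congr 1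
    ring
  refine ⟨fun n => 2 ^ κ n, κ, ⟨⟨n0, hsc⟩, fun n => rfl, fun k => ?_,
    ⟨(1 / C) ^ (3 / 4 : ℝ) / 2, (1 / c) ^ (3 / 4 : ℝ), n0, by positivity, by positivity, fun n hn => ?_⟩⟩⟩
  · -- the scale tends to infinity
    obtain ⟨N, hN⟩ := exists_nat_ge (∑ j ∈ range (k + 1), |m j|)
    refine ⟨max n0 (N + 1), fun n hn => ?_⟩
    by_contra hcon
    push Not at hcon
    have h1 := (hsc n (le_of_max_le_left hn)).2
    have h2 : m (κ n + 1) ≤ ∑ j ∈ range (k + 1), |m j| :=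
      (le_abs_self _).trans (single_le_sum (f := fun j => |m j|) (fun _ _ => abs_nonneg _)
        (Finset.mem_range.2 (by omega : κ n + 1 < k + 1)))
    have h3 : ((N + 1 : ℕ) : ℝ) ≤ n := by exact_mod_cast le_of_max_le_right hn
    push_cast at h3
    linarith
  · obtain ⟨h1, h2⟩ := hsc n hn
    have hn' : (0 : ℝ) ≤ n := Nat.cast_nonneg n
    constructor
    · have h3 : (1 / C) * (n : ℝ) ≤ (2 : ℝ) ^ (4 / 3 * ((κ n + 1 : ℕ) : ℝ)) := by
        rw [one_div_mul_eq_div, div_le_iff₀ hC]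
        have := hup (κ n + 1)
        linarith
      have h4 := Real.rpow_le_rpow (by positivity) h3 (show (0 : ℝ) ≤ 3 / 4 by norm_num)
      rw [h43, Real.mul_rpow (by positivity) hn', pow_succ] at h4
      show (1 / C) ^ (3 / 4 : ℝ) / 2 * (n : ℝ) ^ (3 / 4 : ℝ) ≤ 2 ^ κ n
      linarith
    · have h3 : (2 : ℝ) ^ (4 / 3 * (κ n : ℝ)) ≤ (1 / c) * (n : ℝ) := by
        rw [one_div_mul_eq_div, le_div_iff₀ hc]
        have := hlo (κ n)
        linarith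
      have h4 := Real.rpow_le_rpow (by positivity) h3 (show (0 : ℝ) ≤ 3 / 4 by norm_num)
      rw [h43, Real.mul_rpow (by positivity) hn'] at h4
      exact h4

/-- finitely many sizes -/
lemma size_all {c C : ℝ} {n1 : ℕ} (hc : 0 < c)
    (h : ∀ n : ℕ, n1 ≤ n → c * (n : ℝ) ^ (3 / 4 : ℝ) ≤ size n ∧ size n ≤ C * (n : ℝ) ^ (3 / 4 : ℝ)) :
    ∃ c' C' : ℝ, 0 < c' ∧ ∀ n : ℕ, 1 ≤ n → c' * (n : ℝ) ^ (3 / 4 : ℝ) ≤ size n ∧ size n ≤ C' * (n : ℝ) ^ (3 / 4 : ℝ) := by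
  have key : ∀ j : ℕ, ∃ c' C' : ℝ, 0 < c' ∧ ∀ n : ℕ, 1 ≤ n → n1 ≤ n + j →
      c' * (n : ℝ) ^ (3 / 4 : ℝ) ≤ size n ∧ size n ≤ C' * (n : ℝ) ^ (3 / 4 : ℝ) := by
    intro j
    induction j with
    | zero => exact ⟨c, C, hc, fun n _ hn => h n hn⟩
    | succ j ih =>
      obtain ⟨c', C', hc', ih⟩ := ih
      by_cases hj : j + 1 ≤ n1 ∧ 1 ≤ n1 - (j + 1)
      · obtain ⟨n2, hn2⟩ : ∃ n2, n2 = n1 - (j + 1) := ⟨_, rfl⟩
        have hn21 : 1 ≤ n2 := by omega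
        have hp : 0 < (n2 : ℝ) ^ (3 / 4 : ℝ) := by
          have : (0 : ℝ) < n2 := by exact_mod_cast hn21
          positivity
        have hs := size_pos hn21
        refine ⟨min c' (size n2 / (n2 : ℝ) ^ (3 / 4 : ℝ)), max C' (size n2 / (n2 : ℝ) ^ (3 / 4 : ℝ)),
          lt_min hc' (by positivity), fun n hn hnj => ?_⟩
        have hnp : 0 ≤ (n : ℝ) ^ (3 / 4 : ℝ) := by positivity
        rcases Nat.lt_or_ge (n + j) n1 with h1 | h1
        · have h2 : n = n2 := by omega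
          rw [h2]
          constructor
          · calc min c' (size n2 / (n2 : ℝ) ^ (3 / 4 : ℝ)) * (n2 : ℝ) ^ (3 / 4 : ℝ) ≤
                  size n2 / (n2 : ℝ) ^ (3 / 4 : ℝ) * (n2 : ℝ) ^ (3 / 4 : ℝ) :=
                  mul_le_mul_of_nonneg_right (min_le_right _ _) hp.le
              _ = size n2 := div_mul_cancel₀ _ hp.ne'
          · calc size n2 = size n2 / (n2 : ℝ) ^ (3 / 4 : ℝ) * (n2 : ℝ) ^ (3 / 4 : ℝ) := (div_mul_cancel₀ _ hp.ne').symm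
              _ ≤ _ := mul_le_mul_of_nonneg_right (le_max_right _ _) hp.le
        · obtain ⟨a1, a2⟩ := ih n hn h1
          exact ⟨(mul_le_mul_of_nonneg_right (min_le_left _ _) hnp).trans a1,
            a2.trans (mul_le_mul_of_nonneg_right (le_max_left _ _) hnp)⟩
      · exact ⟨c', C', hc', fun n hn hnj => ih n hn (by omega)⟩
  obtain ⟨c', C', hc', h1⟩ := key n1
  exact ⟨c', C', hc', fun n hn => h1 n hn (by omega)⟩

/-- the size from below, a fraction of the walks ends far away -/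
lemma size_geX {n : ℕ} {R κ p : ℝ} (hR : 0 < R) (hκ : 0 < κ) (hp : 0 < p)
    (h : (((saw n).filter fun s => ‖Pool.Agent.NTS.Res.pos s n‖ < κ * R).card : ℝ) ≤ (1 - p) * ((saw n).card : ℝ)) :
    Real.sqrt p * κ * R ≤ size n := by
  have hc := saw_card_pos n
  have h1 := size_sq n
  have h2 : ((saw n).card : ℝ) = (((saw n).filter fun s => ‖Pool.Agent.NTS.Res.pos s n‖ < κ * R).card : ℝ) +
      (((saw n).filter fun s => ¬ ‖Pool.Agent.NTS.Res.pos s n‖ < κ * R).card : ℝ) := by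
    have := Finset.card_filter_add_card_filter_not (s := saw n) (fun s => ‖Pool.Agent.NTS.Res.pos s n‖ < κ * R)
    exact_mod_cast this.symm
  have h3 : p * ((saw n).card : ℝ) ≤ (((saw n).filter fun s => ¬ ‖Pool.Agent.NTS.Res.pos s n‖ < κ * R).card : ℝ) := by
    linarith
  have h4 : (κ * R) ^ 2 * (((saw n).filter fun s => ¬ ‖Pool.Agent.NTS.Res.pos s n‖ < κ * R).card : ℝ) ≤
      ∑ s ∈ saw n, ‖Pool.Agent.NTS.Res.pos s n‖ ^ 2 := by
    calc (κ * R) ^ 2 * (((saw n).filter fun s => ¬ ‖Pool.Agent.NTS.Res.pos s n‖ < κ * R).card : ℝ) =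
        ∑ s ∈ (saw n).filter (fun s => ¬ ‖Pool.Agent.NTS.Res.pos s n‖ < κ * R), (κ * R) ^ 2 := by
          rw [sum_const, nsmul_eq_mul, mul_comm]
      _ ≤ ∑ s ∈ (saw n).filter (fun s => ¬ ‖Pool.Agent.NTS.Res.pos s n‖ < κ * R), ‖Pool.Agent.NTS.Res.pos s n‖ ^ 2 := by
          refine sum_le_sum fun s hs => ?_
          have := (Finset.mem_filter.1 hs).2
          push Not at this
          exact pow_le_pow_left₀ (by positivity) this 2
      _ ≤ _ := Finset.sum_le_sum_of_subset_of_nonneg (Finset.filter_subset _ _) fun _ _ _ => by positivity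
  rw [← h1] at h4
  have h5 : (κ * R) ^ 2 * (p * ((saw n).card : ℝ)) ≤ size n ^ 2 * ((saw n).card : ℝ) :=
    (mul_le_mul_of_nonneg_left h3 (by positivity)).trans h4
  have h6 : (Real.sqrt p * κ * R) ^ 2 ≤ size n ^ 2 := by
    have h7 : (Real.sqrt p * κ * R) ^ 2 = (κ * R) ^ 2 * p := by
      rw [mul_assoc, mul_pow, Real.sq_sqrt hp.le]
      ring
    rw [h7]
    refine le_of_mul_le_mul_right ?_ hc
    linarith
  exact (sq_le_sq₀ (by positivity) (size_nonneg n)).1 h6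

/-- the facts about the words, normalised by the number of the words -/
structure NormX (R : ℕ → ℝ) : Prop where
  big : ∃ (p κ : ℝ) (n0 : ℕ), 0 < p ∧ p ≤ 1 ∧ 0 < κ ∧ ∀ n : ℕ, n0 ≤ n →
    gf {t | t ∈ SawN n ∧ ∀ dir : Bool, |((lvl dir (vx oo up t n) : ℤ) : ℝ)| < κ * R n} ≤
      ENNReal.ofReal (1 - p) * gf (SawN n)
  tail : ∃ (K : ℝ) (n0 : ℕ), 0 < K ∧ ∀ n i : ℕ, n0 ≤ n →
    gf {t | t ∈ SawN n ∧ ∃ dir : Bool, (2 : ℝ) ^ i * R n ≤ |((lvl dir (vx oo up t n) : ℤ) : ℝ)|} ≤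
      ENNReal.ofReal (K / 32 ^ i) * gf (SawN n)
  modu : ∀ r e : ℝ, 0 < r → 0 < e → ∃ (ρ : ℝ) (n0 : ℕ), 0 < ρ ∧ ∀ n : ℕ, n0 ≤ n →
    gf {t | t ∈ SawN n ∧ ∃ (dir : Bool) (i j : ℕ), i ≤ j ∧ j ≤ n ∧ (j : ℝ) - i ≤ ρ * n ∧
      r * R n ≤ |((lvl dir (vx oo up t j) - lvl dir (vx oo up t i) : ℤ) : ℝ)|} ≤ ENNReal.ofReal e * gf (SawN n)

/-- the order of the number of the words -/
lemma nuX_le {m : ℕ → ℝ} {R : ℕ → ℝ} {κ : ℕ → ℕ} (hS : ScaleX m R κ) (hF : FactsX m) :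
    ∃ (c : ℝ) (n0 : ℕ), 0 < c ∧ ∀ n : ℕ, n0 ≤ n → nuX m (κ n) ≤ ENNReal.ofReal c * gf (SawN n) := by
  obtain ⟨c, κ1, k0, hc, -, h⟩ := hF.big
  obtain ⟨n1, h1⟩ := hS.sc
  obtain ⟨n2, h2⟩ := hS.top k0
  refine ⟨1 / c, max n1 n2, by positivity, fun n hn => ?_⟩
  obtain ⟨a1, a2⟩ := h1 n (le_of_max_le_left hn)
  have h3 := (h (κ n) n (h2 n (le_of_max_le_right hn)) a1 a2).trans (gf_mono fun t ht => ht.1)
  calc nuX m (κ n) = ENNReal.ofReal (1 / c) * (ENNReal.ofReal c * nuX m (κ n)) := by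
        rw [← mul_assoc, ← ENNReal.ofReal_mul (by positivity), one_div_mul_cancel hc.ne', ENNReal.ofReal_one, one_mul]
    _ ≤ _ := mul_le_mul_right h3 _

/-- from the scales to every n -/
lemma event_le {m : ℕ → ℝ} {R : ℕ → ℝ} {κ : ℕ → ℕ} (hS : ScaleX m R κ) {c : ℝ} {n0 k0 : ℕ}
    (hnu : ∀ n : ℕ, n0 ≤ n → nuX m (κ n) ≤ ENNReal.ofReal c * gf (SawN n)) {E : ℕ → Set (List Bool)} {e : ℝ} (he : 0 ≤ e)
    (h : ∀ k n : ℕ, k0 ≤ k → m k ≤ n → (n : ℝ) < m (k + 1) → κ n = k → gf (E n) ≤ ENNReal.ofReal e * nuX m k) :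
    ∃ n1 : ℕ, ∀ n : ℕ, n1 ≤ n → gf (E n) ≤ ENNReal.ofReal (e * c) * gf (SawN n) := by
  obtain ⟨n1, h1⟩ := hS.sc
  obtain ⟨n2, h2⟩ := hS.top k0
  refine ⟨max (max n0 n1) n2, fun n hn => ?_⟩
  have b0 : n0 ≤ n := (le_max_left _ _).trans (le_of_max_le_left hn)
  have b1 : n1 ≤ n := (le_max_right _ _).trans (le_of_max_le_left hn)
  obtain ⟨a1, a2⟩ := h1 n b1
  refine (h (κ n) n (h2 n (le_of_max_le_right hn)) a1 a2 rfl).trans ?_
  rw [ENNReal.ofReal_mul he, mul_assoc]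
  exact mul_le_mul_right (hnu n b0) _

theorem normX_of {m : ℕ → ℝ} {R : ℕ → ℝ} {κ : ℕ → ℕ} (hS : ScaleX m R κ) (hF : FactsX m)
    (hd : ∃ C : ℝ, 1 ≤ C ∧ ∀ k, m (k + 1) ≤ C * m k) : NormX R := by
  obtain ⟨c, n0, hc, hnu⟩ := nuX_le hS hF
  refine ⟨?_, ?_, ?_⟩
  · obtain ⟨c1, κ1, k1, hc1, hκ1, h1⟩ := hF.big
    obtain ⟨C1, k2, hC1, h2⟩ := hF.all
    obtain ⟨n1, hn1⟩ := hS.sc
    obtain ⟨n2, hn2⟩ := hS.top (max k1 k2)
    obtain ⟨p, hp⟩ : ∃ p : ℝ, p = min (c1 / C1) 1 := ⟨_, rfl⟩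
    have hp0 : 0 < p := by
      rw [hp]
      exact lt_min (by positivity) one_pos
    have hp1 : p ≤ 1 := by
      rw [hp]
      exact min_le_right _ _
    refine ⟨p, κ1, max n1 n2, hp0, hp1, hκ1, fun n hn => ?_⟩
    obtain ⟨a1, a2⟩ := hn1 n (le_of_max_le_left hn)
    have a3 := hn2 n (le_of_max_le_right hn)
    have b1 := h1 (κ n) n ((le_max_left _ _).trans a3) a1 a2
    have b2 := h2 (κ n) n ((le_max_right _ _).trans a3) a1 a2
    rw [← hS.R2 n] at b1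
    have b3 : ENNReal.ofReal p * gf (SawN n) ≤
        gf {t | t ∈ SawN n ∧ ∃ dir : Bool, κ1 * R n ≤ |((lvl dir (vx oo up t n) : ℤ) : ℝ)|} := by
      refine le_trans ?_ b1
      calc ENNReal.ofReal p * gf (SawN n) ≤ ENNReal.ofReal (c1 / C1) * (ENNReal.ofReal C1 * nuX m (κ n)) := by
            refine mul_le_mul' (ENNReal.ofReal_le_ofReal ?_) b2
            rw [hp]
            exact min_le_left _ _
        _ = _ := by
            rw [← mul_assoc, ← ENNReal.ofReal_mul (by positivity), div_mul_cancel₀ _ hC1.ne']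
    have b4 : gf {t | t ∈ SawN n ∧ ∀ dir : Bool, |((lvl dir (vx oo up t n) : ℤ) : ℝ)| < κ1 * R n} +
        gf {t | t ∈ SawN n ∧ ∃ dir : Bool, κ1 * R n ≤ |((lvl dir (vx oo up t n) : ℤ) : ℝ)|} = gf (SawN n) := by
      rw [← gf_union]
      · congr 1
        ext t
        constructor
        · rintro (h | h)
          · exact h.1
          · exact h.1
        · intro h
          by_cases h5 : ∃ dir : Bool, κ1 * R n ≤ |((lvl dir (vx oo up t n) : ℤ) : ℝ)|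
          · exact Or.inr ⟨h, h5⟩
          · push Not at h5
            exact Or.inl ⟨h, h5⟩
      · rw [Set.disjoint_left]
        rintro t ⟨-, h3⟩ ⟨-, dir, h4⟩
        exact absurd (h3 dir) (not_lt.2 h4)
    have b5 : gf {t | t ∈ SawN n ∧ ∀ dir : Bool, |((lvl dir (vx oo up t n) : ℤ) : ℝ)| < κ1 * R n} +
        ENNReal.ofReal p * gf (SawN n) ≤ ENNReal.ofReal (1 - p) * gf (SawN n) + ENNReal.ofReal p * gf (SawN n) := by
      rw [← add_mul, ← ENNReal.ofReal_add (by linarith) hp0.le, sub_add_cancel, ENNReal.ofReal_one, one_mul]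
      exact (add_le_add le_rfl b3).trans (le_of_eq b4)
    have hfin : gf (SawN n) ≠ ⊤ := by
      refine ne_top_of_le_ne_top (PickS.gf_SAL_ne_top n) (gf_mono fun t ht => PickS.SAL_SawN le_rfl ht)
    exact (ENNReal.add_le_add_iff_right (ENNReal.mul_ne_top ENNReal.ofReal_ne_top hfin)).1 b5
  · obtain ⟨K, k0, hK, h1⟩ := hF.tail
    have key : ∃ n1 : ℕ, ∀ n : ℕ, n1 ≤ n → ∀ i : ℕ,
        gf {t | t ∈ SawN n ∧ ∃ dir : Bool, (2 : ℝ) ^ i * R n ≤ |((lvl dir (vx oo up t n) : ℤ) : ℝ)|} ≤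
          ENNReal.ofReal (K / 32 ^ i * c) * gf (SawN n) := by
      obtain ⟨n1, hn1⟩ := hS.sc
      obtain ⟨n2, hn2⟩ := hS.top k0
      refine ⟨max (max n0 n1) n2, fun n hn i => ?_⟩
      have b0 : n0 ≤ n := (le_max_left _ _).trans (le_of_max_le_left hn)
      have b1 : n1 ≤ n := (le_max_right _ _).trans (le_of_max_le_left hn)
      obtain ⟨a1, a2⟩ := hn1 n b1
      have h2 := h1 (κ n) n i (hn2 n (le_of_max_le_right hn)) a1 a2
      rw [← hS.R2 n] at h2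
      refine h2.trans ?_
      rw [ENNReal.ofReal_mul (by positivity), mul_assoc]
      exact mul_le_mul_right (hnu n b0) _
    obtain ⟨n1, h2⟩ := key
    refine ⟨K * c, n1, by positivity, fun n i hn => ?_⟩
    have h3 := h2 n hn i
    rwa [div_mul_eq_mul_div] at h3
  · intro r e hr he
    obtain ⟨ρ, k0, hρ, h1⟩ := hF.modu r (e / c) hr (by positivity)
    obtain ⟨D, hD, hd⟩ := hd
    obtain ⟨n1, h2⟩ := event_le hS hnu (k0 := k0) (e := e / c) (by positivity)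
      (E := fun n => {t | t ∈ SawN n ∧ ∃ (dir : Bool) (i j : ℕ), i ≤ j ∧ j ≤ n ∧ (j : ℝ) - i ≤ ρ / D * n ∧
        r * R n ≤ |((lvl dir (vx oo up t j) - lvl dir (vx oo up t i) : ℤ) : ℝ)|}) (by
        intro k n hk a1 a2 hkn
        refine (gf_mono ?_).trans (h1 k n hk a1 a2)
        rintro t ⟨ht, dir, i, j, hij, hj, hji, h3⟩
        refine ⟨ht, dir, i, j, hij, hj, hji.trans ?_, ?_⟩
        · have h4 := hd k
          have h5 : (n : ℝ) ≤ D * m k := a2.le.trans h4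
          rw [div_mul_eq_mul_div, div_le_iff₀ (by linarith)]
          calc ρ * (n : ℝ) ≤ ρ * (D * m k) := mul_le_mul_of_nonneg_left h5 hρ.le
            _ = ρ * m k * D := by ring
        · rw [hS.R2 n, hkn] at h3
          exact h3)
    refine ⟨ρ / D, n1, by positivity, fun n hn => ?_⟩
    have h3 := h2 n hn
    rwa [div_mul_cancel₀ _ hc.ne'] at h3

/-- **the facts about the walks, every n** -/
theorem factsQ_of {R : ℕ → ℝ} (hR1 : ∀ n, 1 ≤ R n) (hN : NormX R) : FactsQ ∧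
    (∃ (c : ℝ) (n1 : ℕ), 0 < c ∧ ∀ n : ℕ, n1 ≤ n → c * R n ≤ size n) ∧
    ∃ (C : ℝ) (n1 : ℕ), 0 < C ∧ ∀ n : ℕ, n1 ≤ n → size n ≤ C * R n := by
  have hR : ∀ n, 0 < R n := fun n => zero_lt_one.trans_le (hR1 n)
  obtain ⟨K, nt, hK, htail⟩ := hN.tail
  obtain ⟨p, κ, nb, hp, hp1, hκ, hbig⟩ := hN.big
  -- the tail
  have htail' : ∀ n : ℕ, max nt 1 ≤ n → ∀ i : ℕ,
      (((saw n).filter fun s => 2 ^ i * R n ≤ ‖Pool.Agent.NTS.Res.pos s n‖).card : ℝ) ≤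
      K / 32 ^ i * ((saw n).card : ℝ) := by
    intro n hn i
    have hRn := hR n
    refine prop_le (le_of_max_le_right hn) _ (fun s => by rw [norm_rot']) (by positivity) ?_
      (htail n i (le_of_max_le_left hn))
    intro t ht h1
    rw [pos_sw n t n le_rfl] at h1
    exact ⟨ht, NTF.exists_dir (by positivity) h1⟩
  have hfour : ∀ n : ℕ, max nt 1 ≤ n →
      ∑ s ∈ saw n, ‖Pool.Agent.NTS.Res.pos s n‖ ^ 4 ≤ (1 + 32 * K) * R n ^ 4 * ((saw n).card : ℝ) :=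
    fun n hn => four_of (hR n) hK.le (htail' n hn)
  have hup : ∀ n : ℕ, max nt 1 ≤ n → size n ≤ (2 + 32 * K) * R n := fun n hn => by
    have := size_le (hR n) (K := 1 + 32 * K) (by positivity) (hfour n hn)
    linarith
  -- the size from below
  have hdown : ∀ n : ℕ, max nb 1 ≤ n → Real.sqrt p * (κ / 2) * R n ≤ size n := by
    intro n hn
    refine size_geX (hR n) (by positivity) hp ?_
    refine prop_le (le_of_max_le_right hn) _ (fun s => by rw [norm_rot']) (by linarith) ?_ (hbig n (le_of_max_le_left hn))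
    intro t ht h2
    rw [pos_sw n t n le_rfl] at h2
    refine ⟨ht, fun dir => (lvl_le_norm dir _).trans_lt ?_⟩
    linarith
  obtain ⟨cd, hcd⟩ : ∃ cd : ℝ, cd = Real.sqrt p * (κ / 2) := ⟨_, rfl⟩
  have hcd0 : 0 < cd := by
    rw [hcd]
    have := Real.sqrt_pos.2 hp
    positivity
  rw [← hcd] at hdown
  refine ⟨⟨?_, ?_⟩, ⟨cd, max nb 1, hcd0, hdown⟩, 2 + 32 * K, max nt 1, by positivity, hup⟩
  · intro ε r hε hr
    obtain ⟨ρ, n0, hρ, h1⟩ := hN.modu (r * cd) ε (by positivity) hε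
    refine ⟨ρ, max n0 (max nb 1), hρ, fun n hn0 => ?_⟩
    have hn1 : 1 ≤ n := (le_max_right nb 1).trans (le_of_max_le_right hn0)
    refine prop_le hn1 _ (fun s => by simp only [norm_rot]) hε.le ?_ (h1 n (le_of_max_le_left hn0))
    rintro t ht ⟨i, j, hij, hj, hji, h2⟩
    rw [pos_sw n t j hj, pos_sw n t i (hij.trans hj), ← NTF.JJ_sub] at h2
    have h3 := hdown n (le_of_max_le_right hn0)
    have h4 : r * cd * R n ≤ ‖JJ (vx oo up t j - vx oo up t i)‖ := by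
      refine le_trans ?_ h2.le
      rw [mul_assoc]
      exact mul_le_mul_of_nonneg_left h3 hr.le
    have hRn := hR n
    obtain ⟨dir, h5⟩ := NTF.exists_dir (by positivity) h4
    rw [NTF.lvl_sub] at h5
    exact ⟨ht, dir, i, j, hij, hj, hji, h5⟩
  · refine ⟨(1 + 32 * K) * (1 / cd) ^ 4, max (max nt 1) (max nb 1), by positivity, fun n hn => ?_⟩
    refine (hfour n (le_of_max_le_left hn)).trans ?_
    apply mul_le_mul_of_nonneg_right _ (Nat.cast_nonneg _)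
    rw [mul_assoc]
    apply mul_le_mul_of_nonneg_left _ (by positivity)
    rw [← mul_pow]
    apply pow_le_pow_left₀ (hR n).le
    have h3 := hdown n (le_of_max_le_right hn)
    calc R n = 1 / cd * (cd * R n) := by field_simp
      _ ≤ _ := mul_le_mul_of_nonneg_left h3 (by positivity)

/-- few walks near the origin, every n -/
theorem lowQ_of {R : ℕ → ℝ} {C : ℝ} {n1 : ℕ} (hC : 0 < C) (hup : ∀ n : ℕ, n1 ≤ n → size n ≤ C * R n)
    (hlow : ∀ e : ℝ, 0 < e → ∃ (κ : ℝ) (n0 : ℕ), 0 < κ ∧ ∀ n : ℕ, n0 ≤ n →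
      gf {t | t ∈ SawN n ∧ ∀ dir : Bool, |((lvl dir (vx oo up t n) : ℤ) : ℝ)| ≤ κ * R n} ≤
        ENNReal.ofReal e * gf (SawN n)) :
    ∀ ε : ℝ, 0 < ε → ∃ (κ : ℝ) (n0 : ℕ), 0 < κ ∧ ∀ n : ℕ, n0 ≤ n →
      (((saw n).filter fun s => ‖Pool.Agent.NTS.Res.pos s n‖ ≤ κ * size n).card : ℝ) ≤ ε * ((saw n).card : ℝ) := by
  intro ε hε
  obtain ⟨κ, n0, hκ, h1⟩ := hlow ε hε
  refine ⟨κ / 2 / C, max (max n0 n1) 1, by positivity, fun n hn => ?_⟩
  have b0 : n0 ≤ n := (le_max_left _ _).trans (le_of_max_le_left hn)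
  have b1 : n1 ≤ n := (le_max_right _ _).trans (le_of_max_le_left hn)
  refine prop_le (le_of_max_le_right hn) _ (fun s => by rw [norm_rot']) hε.le ?_ (h1 n b0)
  intro t ht h2
  rw [pos_sw n t n le_rfl] at h2
  refine ⟨ht, fun dir => (lvl_le_norm dir _).trans ?_⟩
  have h3 := hup n b1
  have h4 : κ / 2 / C * size n ≤ κ / 2 * R n := by
    calc κ / 2 / C * size n ≤ κ / 2 / C * (C * R n) := mul_le_mul_of_nonneg_left h3 (by positivity)
      _ = _ := by field_simp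
  linarith

/-- **the final theorem for EVERY step number** -/
theorem result_ex {m : ℕ → ℝ} (hlo : ∃ c : ℝ, 0 < c ∧ ∀ k : ℕ, c * (2 : ℝ) ^ (4 / 3 * (k : ℝ)) ≤ m k)
    (hup : ∃ C : ℝ, ∀ k : ℕ, m k ≤ C * (2 : ℝ) ^ (4 / 3 * (k : ℝ))) (hF : FactsX m)
    (hH : ∀ a : ℝ, 0 < a → a < 3 / 4 → HoldX m a) {b : Prop} (hL : b → LowX m) : ConclE b := by
  obtain ⟨R, κ, hS⟩ := scaleX_exists hlo hup
  have hpos : ∀ k : ℕ, (0 : ℝ) < (2 : ℝ) ^ (4 / 3 * (k : ℝ)) := fun k => Real.rpow_pos_of_pos (by norm_num) _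
  have hm : ∀ k, 0 < m k := fun k => by
    obtain ⟨c, hc, h⟩ := hlo
    exact lt_of_lt_of_le (mul_pos hc (hpos k)) (h k)
  have hd : ∃ C : ℝ, 1 ≤ C ∧ ∀ k, m (k + 1) ≤ C * m k := by
    obtain ⟨c, hc, h⟩ := hlo
    obtain ⟨C, h'⟩ := hup
    have hC : 0 < C := by
      have h1 := (h 0).trans (h' 0)
      have h2 := hpos 0
      by_contra hcon
      push Not at hcon
      nlinarith
    refine ⟨max 1 (C * (2 : ℝ) ^ (4 / 3 : ℝ) / c), le_max_left _ _, fun k => ?_⟩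
    have h1 : (2 : ℝ) ^ (4 / 3 * ((k + 1 : ℕ) : ℝ)) = (2 : ℝ) ^ (4 / 3 : ℝ) * (2 : ℝ) ^ (4 / 3 * (k : ℝ)) := by
      rw [← Real.rpow_add (by norm_num)]
      congr 1
      push_cast
      ring
    calc m (k + 1) ≤ C * (2 : ℝ) ^ (4 / 3 * ((k + 1 : ℕ) : ℝ)) := h' (k + 1)
      _ = C * (2 : ℝ) ^ (4 / 3 : ℝ) / c * (c * (2 : ℝ) ^ (4 / 3 * (k : ℝ))) := by
          rw [h1]
          field_simp
      _ ≤ C * (2 : ℝ) ^ (4 / 3 : ℝ) / c * m k := mul_le_mul_of_nonneg_left (h k) (by positivity)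
      _ ≤ _ := mul_le_mul_of_nonneg_right (le_max_right _ _) (hm k).le
  have hR1 : ∀ n, 1 ≤ R n := fun n => by
    rw [hS.R2]
    exact one_le_pow₀ (by norm_num)
  obtain ⟨hQ, ⟨cd, nd, hcd, hdown⟩, Cu, nu, hCu, hupR⟩ := factsQ_of hR1 (normX_of hS hF hd)
  obtain ⟨c0, n0, hc0, hnu⟩ := nuX_le hS hF
  have hHA : ∀ a : ℝ, 0 < a → a < 3 / 4 → HoldA a {n | 1 ≤ n} := by
    intro a ha ha1
    refine hold_core (A := {n | 1 ≤ n}) (R := R) (fun n hn => hn) (fun n _ => hR1 n) hcd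
      (fun n _ hn => hdown n hn) (n1 := nd) (fun e he => ?_)
    obtain ⟨M, k0, hM, h1⟩ := hH a ha ha1 (e / c0) (by positivity)
    obtain ⟨n2, h2⟩ := event_le hS hnu (k0 := k0) (e := e / c0) (by positivity)
      (E := fun n => {t | t ∈ SawN n ∧ ∃ (dir : Bool) (i j : ℕ), i < j ∧ j ≤ n ∧
        M * R n * (((j : ℝ) - i) / n) ^ a ≤ |((lvl dir (vx oo up t j) - lvl dir (vx oo up t i) : ℤ) : ℝ)|}) (by
        intro k n hk a1 a2 hkn
        have h3 := h1 k n hk a1 a2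
        rw [hS.R2 n, hkn]
        exact h3)
    refine ⟨M, n2, hM, fun n _ hn => ?_⟩
    have h3 := h2 n hn
    rwa [div_mul_cancel₀ _ hc0.ne'] at h3
  -- the size
  obtain ⟨cs, Cs, ns, hcs, hCs, hord⟩ := hS.ord
  obtain ⟨c', C', hc', hsz⟩ := size_all (c := cd * cs) (C := Cu * Cs) (n1 := max (max nd nu) ns) (by positivity)
    (fun n hn => by
      have b0 : nd ≤ n := (le_max_left _ _).trans (le_of_max_le_left hn)
      have b1 : nu ≤ n := (le_max_right _ _).trans (le_of_max_le_left hn)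
      obtain ⟨b2, b3⟩ := hord n (le_of_max_le_right hn)
      constructor
      · calc cd * cs * (n : ℝ) ^ (3 / 4 : ℝ) = cd * (cs * (n : ℝ) ^ (3 / 4 : ℝ)) := by ring
          _ ≤ cd * R n := mul_le_mul_of_nonneg_left b2 hcd.le
          _ ≤ size n := hdown n b0
      · calc size n ≤ Cu * R n := hupR n b1
          _ ≤ Cu * (Cs * (n : ℝ) ^ (3 / 4 : ℝ)) := mul_le_mul_of_nonneg_left b3 hCu.le
          _ = _ := by ring)
  refine ⟨c', C', hc', hsz, law_prob, fun a ha ha1 ε hε => law_holderQ (hHA a ha ha1) ha (by linarith) hε, tightQ hQ,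
    fun φ hφ => ?_, fun φ ν hφ hν hlim => ⟨?_, limit_secQ hQ hφ hν hlim⟩⟩
  · have h1 : ∀ k, 1 ≤ φ (k + 1) := fun k => by
      have := hφ.id_le (k + 1)
      have h2 : k + 1 ≤ φ (k + 1) := this
      omega
    obtain ⟨ψ, hψ, ν, hν, hlim⟩ := subseqQ hQ (φ := fun k => φ (k + 1)) h1
    exact ⟨fun k => ψ k + 1, fun i j hij => Nat.add_lt_add_right (hψ hij) 1, ν, hν, hlim⟩
  · have h1 := limit_zeroQ hν hlim
    have h2 := limit_allQ hHA hφ hν hlim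
    have h3 : ∀ᵐ γ : C(unitInterval, ℂ) ∂ν, b → γ 1 ≠ 0 := by
      by_cases hb : b
      · obtain hlow := hL hb
        have h4 := limit_neQ (lowQ_of hCu hupR (fun e he => by
          obtain ⟨κ', k0, hκ', h5⟩ := hlow (e / c0) (by positivity)
          obtain ⟨n2, h6⟩ := event_le hS hnu (k0 := k0) (e := e / c0) (by positivity)
            (E := fun n => {t | t ∈ SawN n ∧ ∀ dir : Bool, |((lvl dir (vx oo up t n) : ℤ) : ℝ)| ≤ κ' * R n}) (by
              intro k n hk a1 a2 hkn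
              have h7 := h5 k n hk a1 a2
              rw [hS.R2 n, hkn]
              exact h7)
          refine ⟨κ', n2, hκ', fun n hn => ?_⟩
          have h8 := h6 n hn
          rwa [div_mul_cancel₀ _ hc0.ne'] at h8)) hφ hν hlim
        filter_upwards [h4] with γ h9 _
        exact h9
      · exact Eventually.of_forall fun γ h => absurd h hb
    filter_upwards [h1, h2, h3] with γ a b c
    exact ⟨a, c, b⟩

end NTSF
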