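import Pool.Agent.NTS.CWDefs

/-!
NTW (natural time for all self-avoiding walks): the facts in the direction false only.
-/

set_option autoImplicit false

namespace HexObs

namespace NTW

open Finset SDN

open scoped ENNReal

/-- the walks with at most l L letters at the scales of G (critical weights), direction false -/
structure FactsF (l : ℕ → ℕ) (G : Set ℕ) : Prop where
  modu : ∀ r ε : ℝ, 0 < r → 0 < ε → ∃ (ρ : ℝ) (L0 : ℕ), 0 < ρ ∧ ∀ L ∈ G, L0 ≤ L →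
    gf {t | t ∈ SAL (l L) ∧ ∃ i j : ℕ, i ≤ j ∧ j ≤ t.length ∧ (j : ℝ) - i ≤ ρ * l L ∧
      r * 2 ^ L ≤ |((lev t j - lev t i : ℤ) : ℝ)|} ≤ ENNReal.ofReal ε * gf (SAL (l L))
  few : ∀ ε : ℝ, 0 < ε → ∃ (ρ : ℝ) (L0 : ℕ), 0 < ρ ∧ ∀ L ∈ G, L0 ≤ L →
    gf {t | t ∈ SAL (l L) ∧ (t.length : ℝ) ≤ ρ * l L} ≤ ENNReal.ofReal ε * gf (SAL (l L))
  low : ∀ ε : ℝ, 0 < ε → ∃ (κ : ℝ) (L0 : ℕ), 0 < κ ∧ ∀ L ∈ G, L0 ≤ L →
    gf {t | t ∈ SAL (l L) ∧ |((lev t t.length : ℤ) : ℝ)| ≤ κ * 2 ^ L} ≤ ENNReal.ofReal ε * gf (SAL (l L))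
  tail : ∃ (K : ℝ) (L0 : ℕ), 0 < K ∧ ∀ L ∈ G, L0 ≤ L → ∀ i : ℕ,
    gf {t | t ∈ SAL (l L) ∧ (2 : ℝ) ^ i * 2 ^ L ≤ |((lev t t.length : ℤ) : ℝ)|} ≤
      ENNReal.ofReal (K / 2 ^ (12 * i)) * gf (SAL (l L))

/-- the Hoelder modulus of the walks with at most l L letters at the scales of G (critical weights), direction false -/
def FactFH (a : ℝ) (l : ℕ → ℕ) (G : Set ℕ) : Prop := ∀ e : ℝ, 0 < e → ∃ (M : ℝ) (L0 : ℕ), 0 < M ∧ ∀ L ∈ G, L0 ≤ L →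
  gf {t | t ∈ SAL (l L) ∧ ∃ i j : ℕ, i < j ∧ j ≤ t.length ∧
    M * 2 ^ L * (((j : ℝ) - i) / l L) ^ a ≤ |((lev t j - lev t i : ℤ) : ℝ)|} ≤ ENNReal.ofReal e * gf (SAL (l L))

/-- the reduction of the direction true to the direction false -/
def DirRed : Prop := ∃ K : ℝ, 1 ≤ K ∧ ∀ (N : ℕ) (E F : Set (List Bool)),
  (∀ (q : ℕ) (t : List Bool) (sg : ℤ), t ∈ SA → q ≤ t.length → (sg = 1 ∨ sg = -1) →
    (∀ i, i ≤ q → |lvl true (vx oo up t i) - lvl true (vx oo up t q)| ≤ 2) →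
    (∀ i, q + i ≤ t.length →
      lvl true (vx oo up t (q + i)) - lvl true (vx oo up t q) = sg * lvl false (vx oo up (t.drop q) i)) →
    t ∈ E → t.drop q ∈ F) → gf {t | t ∈ SAL N ∧ t ∈ E} ≤ ENNReal.ofReal K * gf {t | t ∈ SAL N ∧ t ∈ F}

end NTW

end HexObs
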