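import Pool.Agent.NTS.ExDefs

/-!
NTW for EVERY step number: the exact order of the modulus of continuity and the two sides of the tail of the end point
(literals of project TAIL; helper83, helper57).
-/

set_option autoImplicit false

namespace HexObs

namespace NTW

open Finset TS SDN

open scoped ENNReal

/-- the modulus of continuity in natural time -/
noncomputable def psi (h : ℝ) : ℝ := h ^ (3 / 4 : ℝ) * (1 - Real.log h) ^ (1 / 4 : ℝ)

/-- the modulus of continuity psi, every n -/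
def ModuX (m : ℕ → ℝ) : Prop := ∀ e : ℝ, 0 < e → ∃ (M : ℝ) (k0 : ℕ), 0 < M ∧ ∀ k n : ℕ, k0 ≤ k → m k ≤ n →
  n < m (k + 1) → gf {t | t ∈ SawN n ∧ ∃ (dir : Bool) (i j : ℕ), i < j ∧ j ≤ n ∧
    M * 2 ^ k * psi (((j : ℝ) - i) / n) ≤ |((lvl dir (vx oo up t j) - lvl dir (vx oo up t i) : ℤ) : ℝ)|} ≤
    ENNReal.ofReal e * nuX m k

/-- the upper side of the tail, the whole path, every n -/
def FishX (m : ℕ → ℝ) : Prop := ∃ (c K : ℝ) (k0 : ℕ), 0 < c ∧ 0 < K ∧ ∀ k n i : ℕ, k0 ≤ k → m k ≤ n →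
  n < m (k + 1) → gf {t | t ∈ SawN n ∧ ∃ (dir : Bool) (j : ℕ), j ≤ n ∧
    (2 : ℝ) ^ i * 2 ^ k ≤ |((lvl dir (vx oo up t j) : ℤ) : ℝ)|} ≤
    ENNReal.ofReal (K * Real.exp (-(c * 16 ^ i))) * nuX m k

/-- the lower side of the tail, the end point, every n -/
def FishLowX (m : ℕ → ℝ) : Prop := ∃ (c K : ℝ) (k0 : ℕ), 0 < c ∧ 0 < K ∧ ∀ k n i : ℕ, k0 ≤ k → m k ≤ n →
  n < m (k + 1) → 3 * i + k0 ≤ k → ENNReal.ofReal (c * Real.exp (-(K * 16 ^ i))) * nuX m k ≤
    gf {t | t ∈ SawN n ∧ ∃ dir : Bool, (2 : ℝ) ^ i * 2 ^ k ≤ |((lvl dir (vx oo up t n) : ℤ) : ℝ)|}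

lemma one_le_log {h : ℝ} (h0 : 0 < h) (h1 : h ≤ 1) : 1 ≤ 1 - Real.log h := by
  have := Real.log_nonpos h0.le h1
  linarith

lemma psi_zero : psi 0 = 0 := by
  unfold psi
  rw [Real.zero_rpow (by norm_num), zero_mul]

lemma psi_one : psi 1 = 1 := by
  unfold psi
  rw [Real.log_one, sub_zero, Real.one_rpow, Real.one_rpow, one_mul]

lemma psi_nonneg {h : ℝ} (h0 : 0 ≤ h) (h1 : h ≤ 1) : 0 ≤ psi h := by
  rcases h0.lt_or_eq with h2 | h2
  · have := one_le_log h2 h1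
    unfold psi
    positivity
  · rw [← h2, psi_zero]

/-- psi dominates the power 3 / 4 -/
lemma pow_le_psi {h : ℝ} (h0 : 0 ≤ h) (h1 : h ≤ 1) : h ^ (3 / 4 : ℝ) ≤ psi h := by
  rcases h0.lt_or_eq with h2 | h2
  · have h3 := one_le_log h2 h1
    unfold psi
    exact le_mul_of_one_le_right (by positivity) (Real.one_le_rpow h3 (by norm_num))
  · rw [← h2, psi_zero, Real.zero_rpow (by norm_num)]

lemma psi_pos {h : ℝ} (h0 : 0 < h) (h1 : h ≤ 1) : 0 < psi h :=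
  (Real.rpow_pos_of_pos h0 _).trans_le (pow_le_psi h0.le h1)

/-- star shape: x psi h <= psi (x h) -/
lemma psi_star {x h : ℝ} (x0 : 0 ≤ x) (x1 : x ≤ 1) (h0 : 0 ≤ h) (h1 : h ≤ 1) : x * psi h ≤ psi (x * h) := by
  rcases x0.lt_or_eq with hx | hx
  swap
  · rw [← hx, zero_mul, zero_mul, psi_zero]
  rcases h0.lt_or_eq with hh | hh
  swap
  · rw [← hh, mul_zero, psi_zero, mul_zero]
  have h2 := one_le_log hh h1
  have h3 : Real.log (x * h) ≤ Real.log h := Real.log_le_log (by positivity) (by nlinarith)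
  have h4 : (1 - Real.log h) ^ (1 / 4 : ℝ) ≤ (1 - Real.log (x * h)) ^ (1 / 4 : ℝ) :=
    Real.rpow_le_rpow (by linarith) (by linarith) (by norm_num)
  have h5 : x ≤ x ^ (3 / 4 : ℝ) := by
    calc x = x ^ (1 : ℝ) := (Real.rpow_one x).symm
      _ ≤ x ^ (3 / 4 : ℝ) := Real.rpow_le_rpow_of_exponent_ge hx x1 (by norm_num)
  unfold psi
  calc x * (h ^ (3 / 4 : ℝ) * (1 - Real.log h) ^ (1 / 4 : ℝ))
      ≤ x ^ (3 / 4 : ℝ) * (h ^ (3 / 4 : ℝ) * (1 - Real.log (x * h)) ^ (1 / 4 : ℝ)) :=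
        mul_le_mul h5 (mul_le_mul_of_nonneg_left h4 (by positivity)) (by positivity) (by positivity)
    _ = _ := by rw [Real.mul_rpow x0 h0, mul_assoc]

/-- psi is monotone on the unit interval: it is the fourth root of h ^ 3 (1 - log h) -/
lemma psi_mono {u v : ℝ} (hu : 0 ≤ u) (huv : u ≤ v) (hv : v ≤ 1) : psi u ≤ psi v := by
  rcases hu.lt_or_eq with h0 | h0
  swap
  · rw [← h0, psi_zero]
    exact psi_nonneg (hu.trans huv) hv
  have hv0 : 0 < v := h0.trans_le huv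
  have h1 := one_le_log h0 (huv.trans hv)
  have h2 := one_le_log hv0 hv
  -- the product form
  have key : ∀ w : ℝ, 0 < w → 1 ≤ 1 - Real.log w → psi w = (w ^ 3 * (1 - Real.log w)) ^ (1 / 4 : ℝ) := by
    intro w hw hw1
    unfold psi
    rw [Real.mul_rpow (by positivity) (by linarith), ← Real.rpow_natCast w 3, ← Real.rpow_mul hw.le]
    norm_num
  rw [key u h0 h1, key v hv0 h2]
  refine Real.rpow_le_rpow (by positivity) ?_ (by norm_num)
  -- u ^ 3 (1 - log u) <= v ^ 3 (1 - log v), as log (v / u) <= v / u - 1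
  have h3 : Real.log v - Real.log u ≤ v / u - 1 := by
    rw [← Real.log_div hv0.ne' h0.ne']
    exact Real.log_le_sub_one_of_pos (by positivity)
  have h4 : 1 ≤ v / u := by rwa [one_le_div h0]
  obtain ⟨q, hq⟩ : ∃ q : ℝ, q = v / u := ⟨_, rfl⟩
  have hvq : v = q * u := by
    rw [hq]
    field_simp
  rw [← hq] at h3 h4
  have h5 : u ^ 3 * (1 - Real.log u) ≤ u ^ 3 * (1 - Real.log v + (q - 1)) :=
    mul_le_mul_of_nonneg_left (by linarith) (by positivity)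
  refine h5.trans ?_
  have h6 : v ^ 3 * (1 - Real.log v) = u ^ 3 * (q ^ 3 * (1 - Real.log v)) := by
    rw [hvq]
    ring
  rw [h6]
  refine mul_le_mul_of_nonneg_left ?_ (by positivity)
  obtain ⟨L, hL⟩ : ∃ L : ℝ, L = 1 - Real.log v := ⟨_, rfl⟩
  rw [← hL] at h2 ⊢
  have h7 : q ^ 3 - q = q * ((q - 1) * (q + 1)) := by ring
  have h8 : 0 ≤ q ^ 3 - q := by
    rw [h7]
    exact mul_nonneg (by linarith) (mul_nonneg (by linarith) (by linarith))
  nlinarith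

end NTW

end HexObs
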