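import Pool.Agent.TOG.WtF
import Pool.Agent.TIP.Soft

/-!
# One step (helper83), words

`Rob F`: functions of the words that change little when a long word is changed in a bounded part (toggles, ends).
`SoftOut Q`: the event `Q` at the tip is asymptotically independent of such functions, with a law that does not depend on the
number of letters. For `Q = Ah` (the vertex ahead is free): **`ratio_one`**: `c (n + 1) / c n` tends to `1 / xc`, and
**`merge_words`**: the means of `F` over the words with `n + 1` and with `n` letters merge.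
-/

set_option autoImplicit false

namespace HexObs

namespace OneS

open Finset TS SDN TOG Filter Topology

/-- functions of the words that change little when a long word is changed in a bounded part -/
structure Rob (F : List Bool → ℝ) : Prop where
  nn : ∀ t, 0 ≤ F t ∧ F t ≤ 1
  tog : ∀ e : ℝ, 0 < e → ∃ n0 : ℕ, ∀ X Y : List Bool, n0 ≤ X.length + Y.length →
    |F (X ++ (pS ++ Y)) - F (X ++ (pL ++ Y))| ≤ e
  fin : ∀ (L : ℕ) (e : ℝ), 0 < e → ∃ n0 : ℕ, ∀ A E : List Bool, n0 ≤ A.length → E.length ≤ L → |F (A ++ E) - F A| ≤ e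

/-- the vertex ahead is free -/
def Ah : Set (List Bool) := {t | t ++ [true] ∈ SA}

/-- the event Q at the tip is asymptotically independent of the rough shape, and its law does not depend on n -/
def SoftOut (Q : Set (List Bool)) : Prop := ∀ e : ℝ, 0 < e → ∃ ν : ℝ, ∀ F : List Bool → ℝ, Rob F → ∃ n0 : ℕ, ∀ n, n0 ≤ n →
  |Ef n (fun t => TIP.ind (t ∈ Q) * F t) - ν * Ef n F| ≤ e

lemma rob_one : Rob fun _ => 1 := by
  refine ⟨fun _ => ⟨zero_le_one, le_rfl⟩, fun e he => ⟨0, fun X Y _ => ?_⟩, fun L e he => ⟨0, fun A E _ _ => ?_⟩⟩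
  · rw [sub_self, abs_zero]
    exact he.le
  · rw [sub_self, abs_zero]
    exact he.le

lemma snoc_SA {t : List Bool} {b : Bool} : t ++ [b] ∈ SA ↔ t ∈ SA ∧ t ∈ Ah := by
  have h : ∀ b : Bool, t ++ [b] ∈ SA ↔ Saw Set.univ oo up t ∧ tip oo up t ∈ (Set.univ : Set Pt) ∧
      ∀ i, i ≤ t.length → vx oo up t i ≠ tip oo up t := fun b => saw_append_one
  constructor
  · intro h1
    have h2 := (h b).1 h1
    exact ⟨h2.1, (h true).2 h2⟩
  · rintro ⟨-, h1⟩
    exact (h b).2 ((h true).1 h1)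

/-- the words with one letter more -/
theorem sum_succ (n : ℕ) (G : List Bool → ℝ) :
    ∑ t ∈ wdN (n + 1), G t = ∑ t ∈ wdN n, TIP.ind (t ∈ Ah) * (G (t ++ [true]) + G (t ++ [false])) := by
  classical
  have h1 : ∑ t ∈ wdN n, TIP.ind (t ∈ Ah) * (G (t ++ [true]) + G (t ++ [false])) =
      ∑ t ∈ (wdN n).filter (· ∈ Ah), (G (t ++ [true]) + G (t ++ [false])) := by
    rw [sum_filter]
    refine sum_congr rfl fun t _ => ?_
    by_cases h2 : t ∈ Ah
    · rw [TIP.ind_pos h2, if_pos h2, one_mul]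
    · rw [TIP.ind_neg h2, if_neg h2, zero_mul]
  have h3 : ∀ t : List Bool, G (t ++ [true]) + G (t ++ [false]) = ∑ b : Bool, G (t ++ [b]) := by
    intro t
    rw [Fintype.sum_bool]
  rw [h1, sum_congr rfl fun t _ => h3 t, ← sum_product']
  symm
  refine sum_bij (fun p _ => p.1 ++ [p.2]) ?_ ?_ ?_ ?_
  · rintro ⟨t, b⟩ hp
    rw [mem_product, mem_filter, mem_wdN] at hp
    rw [mem_wdN]
    refine ⟨?_, snoc_SA.2 ⟨hp.1.1.2, hp.1.2⟩⟩
    rw [List.length_append, hp.1.1.1]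
    rfl
  · rintro ⟨t, b⟩ - ⟨t', b'⟩ - h
    have h4 : t ++ [b] = t' ++ [b'] := h
    obtain ⟨h5, h6⟩ := List.append_inj' h4 rfl
    rw [h5, List.singleton_injective h6]
  · intro t ht
    rw [mem_wdN] at ht
    obtain ⟨hl, hs⟩ := ht
    have hne : t ≠ [] := by
      intro h
      rw [h] at hl
      simp at hl
    have e : t.dropLast ++ [t.getLast hne] = t := List.dropLast_append_getLast hne
    have hs' : t.dropLast ++ [t.getLast hne] ∈ SA := by
      rw [e]
      exact hs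
    refine ⟨(t.dropLast, t.getLast hne), ?_, e⟩
    rw [mem_product, mem_filter, mem_wdN]
    have h4 := snoc_SA.1 hs'
    refine ⟨⟨⟨?_, h4.1⟩, h4.2⟩, mem_univ _⟩
    rw [List.length_dropLast, hl]
    rfl
  · rintro ⟨t, b⟩ _
    rfl

/-- the ratio is twice the probability that the vertex ahead is free -/
theorem ratio_eq (hc : ∀ n, 0 < cS n) (n : ℕ) : (cS (n + 1) : ℝ) / cS n = 2 * Ef n (fun t => TIP.ind (t ∈ Ah) * 1) := by
  have h := sum_succ n fun _ => 1
  rw [sum_const, card_wdN, nsmul_eq_mul, mul_one] at h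
  rw [h]
  unfold Ef
  rw [← mul_div_assoc]
  congr 1
  rw [mul_sum]
  exact sum_congr rfl fun t _ => by ring

section

variable (hc : ∀ n, 0 < cS n)

include hc

lemma Ef_one (n : ℕ) : Ef n (fun _ => 1) = 1 := by
  have h0 : (cS n : ℝ) ≠ 0 := by exact_mod_cast (hc n).ne'
  unfold Ef
  rw [sum_const, card_wdN, nsmul_eq_mul, mul_one, div_self h0]

lemma Ef_nonneg {F : List Bool → ℝ} (hF : ∀ t, 0 ≤ F t ∧ F t ≤ 1) (n : ℕ) : 0 ≤ Ef n F :=
  div_nonneg (sum_nonneg fun t _ => (hF t).1) (Nat.cast_nonneg _)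

lemma Ef_le_one {F : List Bool → ℝ} (hF : ∀ t, 0 ≤ F t ∧ F t ≤ 1) (n : ℕ) : Ef n F ≤ 1 := by
  have h0 : (0 : ℝ) < cS n := by exact_mod_cast hc n
  unfold Ef
  rw [div_le_one h0, ← card_wdN n]
  calc ∑ t ∈ wdN n, F t ≤ ∑ _t ∈ wdN n, (1 : ℝ) := sum_le_sum fun t _ => (hF t).2
    _ = _ := by rw [sum_const, nsmul_eq_mul, mul_one]

/-- the probabilities of Q converge and Q is asymptotically independent -/
theorem soft_lim {Q : Set (List Bool)} (h : SoftOut Q) : ∃ π : ℝ,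
    Tendsto (fun n => Ef n (fun t => TIP.ind (t ∈ Q) * 1)) atTop (𝓝 π) ∧
    ∀ F : List Bool → ℝ, Rob F → Tendsto (fun n => Ef n (fun t => TIP.ind (t ∈ Q) * F t) - π * Ef n F) atTop (𝓝 0) := by
  obtain ⟨a, ha⟩ : ∃ a : ℕ → ℝ, a = fun n => Ef n (fun t => TIP.ind (t ∈ Q) * 1) := ⟨_, rfl⟩
  have h1 : ∀ e : ℝ, 0 < e → ∃ ν : ℝ, (∃ n0 : ℕ, ∀ n, n0 ≤ n → |a n - ν| ≤ e) ∧
      ∀ F : List Bool → ℝ, Rob F → ∃ n0 : ℕ, ∀ n, n0 ≤ n → |Ef n (fun t => TIP.ind (t ∈ Q) * F t) - ν * Ef n F| ≤ e := by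
    intro e he
    obtain ⟨ν, hν⟩ := h e he
    refine ⟨ν, ?_, hν⟩
    obtain ⟨n0, h2⟩ := hν _ rob_one
    refine ⟨n0, fun n hn => ?_⟩
    have h3 := h2 n hn
    rw [Ef_one hc, mul_one] at h3
    rw [ha]
    exact h3
  have hcau : CauchySeq a := by
    rw [Metric.cauchySeq_iff']
    intro e he
    obtain ⟨ν, ⟨n0, h2⟩, -⟩ := h1 (e / 3) (by positivity)
    refine ⟨n0, fun n hn => ?_⟩
    rw [Real.dist_eq]
    have h3 := abs_le.1 (h2 n hn)
    have h4 := abs_le.1 (h2 n0 le_rfl)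
    rw [abs_lt]
    constructor <;> linarith [h3.1, h3.2, h4.1, h4.2]
  obtain ⟨π, hπ⟩ := cauchySeq_tendsto_of_complete hcau
  refine ⟨π, ha ▸ hπ, fun F hF => ?_⟩
  rw [Metric.tendsto_atTop]
  intro e he
  obtain ⟨ν, ⟨n1, h2⟩, h3⟩ := h1 (e / 4) (by positivity)
  obtain ⟨n2, h4⟩ := h3 F hF
  have h5 : |π - ν| ≤ e / 4 := by
    refine le_of_tendsto ((hπ.sub tendsto_const_nhds).abs) ?_
    filter_upwards [eventually_ge_atTop n1] with n hn
    exact h2 n hn
  refine ⟨n2, fun n hn => ?_⟩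
  rw [Real.dist_eq, sub_zero]
  have h6 := abs_le.1 (h4 n hn)
  have h7 : |(π - ν) * Ef n F| ≤ e / 4 := by
    rw [abs_mul, abs_of_nonneg (Ef_nonneg hc hF.nn n)]
    calc |π - ν| * Ef n F ≤ (e / 4) * 1 := mul_le_mul h5 (Ef_le_one hc hF.nn n) (Ef_nonneg hc hF.nn n) (by positivity)
      _ = _ := mul_one _
  have h8 := abs_le.1 h7
  rw [abs_lt]
  constructor <;> nlinarith [h6.1, h6.2, h8.1, h8.2]

variable (h : SoftOut Ah) (hr : Ratio2)

include h hr

/-- **the ratio over one step** -/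
theorem ratio_one : Tendsto (fun n : ℕ => (cS (n + 1) : ℝ) / cS n) atTop (𝓝 (1 / xc)) := by
  obtain ⟨π, h1, -⟩ := soft_lim hc h
  have h2 : Tendsto (fun n : ℕ => (cS (n + 1) : ℝ) / cS n) atTop (𝓝 (2 * π)) := by
    simp_rw [ratio_eq hc]
    exact h1.const_mul 2
  have h3 : Tendsto (fun n : ℕ => (cS (n + 1 + 1) : ℝ) / cS (n + 1)) atTop (𝓝 (2 * π)) := h2.comp (tendsto_add_atTop_nat 1)
  have h4 : Tendsto (fun n : ℕ => (cS (n + 2) : ℝ) / cS n) atTop (𝓝 (2 * π * (2 * π))) := by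
    refine (h3.mul h2).congr fun n => ?_
    have h0 : (cS (n + 1) : ℝ) ≠ 0 := by exact_mod_cast (hc (n + 1)).ne'
    rw [div_mul_div_cancel₀ h0]
  have h5 := tendsto_nhds_unique h4 hr
  have h6 : 0 ≤ 2 * π := ge_of_tendsto h2 (Eventually.of_forall fun n => by positivity)
  have h7 : 2 * π = 1 / xc := by
    have hx := xc_pos
    have h8 : (2 * π) ^ 2 = (1 / xc) ^ 2 := by
      rw [sq, h5]
      ring
    exact (sq_eq_sq₀ h6 (by positivity)).1 h8
  rw [← h7]
  exact h2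

/-- **the means merge** -/
theorem merge_words {F : List Bool → ℝ} (hF : Rob F) : Tendsto (fun n => Ef (n + 1) F - Ef n F) atTop (𝓝 0) := by
  obtain ⟨π, h1, h2⟩ := soft_lim hc h
  have hx := xc_pos
  have h3 := ratio_one hc h hr
  have h4 := h2 F hF
  -- the step
  have h5 : Tendsto (fun n => (cS (n + 1) : ℝ) / cS n * Ef (n + 1) F - 2 * Ef n (fun t => TIP.ind (t ∈ Ah) * F t)) atTop (𝓝 0) := by
    rw [Metric.tendsto_atTop]
    intro e he
    obtain ⟨n0, h6⟩ := hF.fin 1 (e / 4) (by positivity)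
    refine ⟨n0, fun n hn => ?_⟩
    rw [Real.dist_eq, sub_zero]
    have hn1 : (0 : ℝ) < cS n := by exact_mod_cast hc n
    have hn2 : (cS (n + 1) : ℝ) ≠ 0 := by exact_mod_cast (hc (n + 1)).ne'
    have e1 : (cS (n + 1) : ℝ) / cS n * Ef (n + 1) F = (∑ t ∈ wdN (n + 1), F t) / cS n := by
      unfold Ef
      rw [div_mul_div_comm, mul_comm (cS (n + 1) : ℝ), mul_div_mul_right _ _ hn2]
    have e2 : (cS (n + 1) : ℝ) / cS n * Ef (n + 1) F - 2 * Ef n (fun t => TIP.ind (t ∈ Ah) * F t) =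
        (∑ t ∈ wdN n, TIP.ind (t ∈ Ah) * ((F (t ++ [true]) - F t) + (F (t ++ [false]) - F t))) / cS n := by
      rw [e1, sum_succ]
      unfold Ef
      rw [← mul_div_assoc, ← sub_div, mul_sum, ← sum_sub_distrib]
      congr 1
      exact sum_congr rfl fun t _ => by ring
    rw [e2, abs_div, abs_of_pos hn1, div_lt_iff₀ hn1]
    refine lt_of_le_of_lt (abs_sum_le_sum_abs _ _) ?_
    have h7 : ∀ t ∈ wdN n, |TIP.ind (t ∈ Ah) * ((F (t ++ [true]) - F t) + (F (t ++ [false]) - F t))| ≤ e / 2 := by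
      intro t ht
      have hl : n0 ≤ t.length := by
        rw [(mem_wdN.1 ht).1]
        exact hn
      have a1 := abs_le.1 (h6 t [true] hl le_rfl)
      have a2 := abs_le.1 (h6 t [false] hl le_rfl)
      rw [abs_mul, abs_of_nonneg (TIP.ind_nonneg _)]
      refine (mul_le_of_le_one_left (abs_nonneg _) (TIP.ind_le_one _)).trans ?_
      rw [abs_le]
      constructor <;> linarith [a1.1, a1.2, a2.1, a2.2]
    calc ∑ t ∈ wdN n, |TIP.ind (t ∈ Ah) * ((F (t ++ [true]) - F t) + (F (t ++ [false]) - F t))| ≤ ∑ _t ∈ wdN n, e / 2 :=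
          sum_le_sum h7
      _ = cS n * (e / 2) := by rw [sum_const, card_wdN, nsmul_eq_mul]
      _ < e * cS n := by nlinarith
  have h6 : Tendsto (fun n => 2 * Ef n (fun t => TIP.ind (t ∈ Ah) * F t) - (cS (n + 1) : ℝ) / cS n * Ef n F) atTop (𝓝 0) := by
    have a1 : Tendsto (fun n => (2 * π - (cS (n + 1) : ℝ) / cS n) * Ef n F) atTop (𝓝 0) := by
      have a2 : Tendsto (fun n : ℕ => 2 * π - (cS (n + 1) : ℝ) / cS n) atTop (𝓝 0) := by
        have a3 : Tendsto (fun n : ℕ => (cS (n + 1) : ℝ) / cS n) atTop (𝓝 (2 * π)) := by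
          simp_rw [ratio_eq hc]
          exact h1.const_mul 2
        have a4 := (tendsto_const_nhds (x := 2 * π)).sub a3
        rwa [sub_self] at a4
      refine squeeze_zero_norm (fun n => ?_) ((a2.norm).trans (le_of_eq (by rw [norm_zero])))
      rw [norm_mul]
      refine mul_le_of_le_one_right (norm_nonneg _) ?_
      rw [Real.norm_eq_abs, abs_of_nonneg (Ef_nonneg hc hF.nn n)]
      exact Ef_le_one hc hF.nn n
    have a5 := (h4.const_mul 2).add a1
    rw [mul_zero, add_zero] at a5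
    refine a5.congr fun n => ?_
    ring
  have h7 : Tendsto (fun n => (cS (n + 1) : ℝ) / cS n * (Ef (n + 1) F - Ef n F)) atTop (𝓝 0) := by
    have a1 := h5.add h6
    rw [add_zero] at a1
    refine a1.congr fun n => ?_
    ring
  have h8 := h7.div h3 (by positivity : (1 / xc : ℝ) ≠ 0)
  rw [zero_div] at h8
  refine h8.congr fun n => ?_
  have a1 : (cS (n + 1) : ℝ) / cS n ≠ 0 := by
    have b1 : (cS (n + 1) : ℝ) ≠ 0 := by exact_mod_cast (hc (n + 1)).ne'
    have b2 : (cS n : ℝ) ≠ 0 := by exact_mod_cast (hc n).ne'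
    exact div_ne_zero b1 b2
  exact mul_div_cancel_left₀ _ a1

end

end OneS

end HexObs
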