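import Pool.Agent.NTS.FishDefs

/-!
NTW for EVERY step number: the modulus of continuity with a fixed constant at the small scales (literal of project TAIL,
helper83).
-/

set_option autoImplicit false

namespace HexObs

namespace NTW

open Finset TS SDN

open scoped ENNReal

/-- the modulus of continuity psi with a fixed constant, for the pieces of a small proportion, every n -/
def ModuY (m : ℕ → ℝ) : Prop := ∃ M : ℝ, 0 < M ∧ ∀ e : ℝ, 0 < e → ∃ (h0 : ℝ) (k0 : ℕ), 0 < h0 ∧ ∀ k n : ℕ, k0 ≤ k →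
  m k ≤ n → n < m (k + 1) → gf {t | t ∈ SawN n ∧ ∃ (dir : Bool) (i j : ℕ), i < j ∧ j ≤ n ∧ ((j : ℝ) - i) / n ≤ h0 ∧
    M * 2 ^ k * psi (((j : ℝ) - i) / n) ≤ |((lvl dir (vx oo up t j) - lvl dir (vx oo up t i) : ℤ) : ℝ)|} ≤
    ENNReal.ofReal e * nuX m k

end NTW

end HexObs
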