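import Pool.Agent.NTS.Dict
import Pool.Agent.NT.MassD

/-!
NTW (natural time for all self-avoiding walks): the dictionary for the critical weights.
-/

set_option autoImplicit false

namespace NTSF

open Finset

open HexObs hiding pos

open HexObs.SDN

open Pool.Agent.NTS.Res

open NTF (sw gf_lengths gf_card xcn_pos)

open scoped ENNReal Classical

lemma mem_SawN {n : ℕ} {t : List Bool} : t ∈ SawN n ↔ t ∈ SA ∧ t.length = n :=
  ⟨fun h => ⟨h.2, h.1⟩, fun h => ⟨h.2, h.1⟩⟩

/-- **the dictionary for the critical weights**, rotation invariant properties -/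
theorem weight_eq (P : ∀ n : ℕ, (Fin n → Fin 3) → Prop) (hP : ∀ n s, P n (rot s) ↔ P n s) {B : Set ℕ} (hB : 0 ∉ B) :
    2 * ∑' n : ℕ, (if n ∈ B then (((saw n).filter (P n)).card : ℝ≥0∞) * ENNReal.ofReal (HexObs.xc ^ n) else 0) =
      3 * gf {t | t ∈ SA ∧ P t.length (sw t.length t) ∧ t.length ∈ B} := by
  rw [gf_lengths, ← ENNReal.tsum_mul_left, ← ENNReal.tsum_mul_left]
  refine tsum_congr fun n => ?_
  by_cases hn : n ∈ B
  · have hn0 : 0 < n := by
      rcases Nat.eq_zero_or_pos n with rfl | h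
      · exact absurd hn hB
      · exact h
    have e : {t | t ∈ {t | t ∈ SA ∧ P t.length (sw t.length t) ∧ t.length ∈ B} ∧ t.length = n} =
        {t | t ∈ SawN n ∧ P n (sw n t)} := by
      ext t
      constructor
      · rintro ⟨⟨h1, h2, h3⟩, rfl⟩
        exact ⟨mem_SawN.2 ⟨h1, rfl⟩, h2⟩
      · rintro ⟨h1, h2⟩
        obtain ⟨h3, rfl⟩ := mem_SawN.1 h1
        exact ⟨⟨h3, h2, hn⟩, rfl⟩
    rw [e, if_pos hn, gf_card (n := n) (fun t ht => (mem_SawN.1 ht.1).2), ← mul_assoc, ← mul_assoc]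
    congr 1
    have h := card_saw hn0 (P n) (hP n)
    exact_mod_cast h
  · rw [if_neg hn, mul_zero]
    have e : {t | t ∈ {t | t ∈ SA ∧ P t.length (sw t.length t) ∧ t.length ∈ B} ∧ t.length = n} = ∅ := by
      rw [Set.eq_empty_iff_forall_notMem]
      rintro t ⟨⟨-, -, h3⟩, h4⟩
      rw [h4] at h3
      exact hn h3
    rw [e, NTF.gf_emp, mul_zero]

end NTSF
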