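import Pool.Agent.NTS.DenseW
import Pool.Agent.NTS.PickW
import Pool.Agent.NTS.MassW

/-!
NTW (natural time for all self-avoiding walks): the final theorem, from the facts about the walks with at most l L steps
(critical weights).
-/

set_option autoImplicit false

namespace NTSF

open Finset MeasureTheory Filter Topology

open HexObs hiding pos

open HexObs.SDN HexObs.NTm HexObs.NTW

open Pool.Agent.NTS.Res

open NTF (sw gf_lengths gf_card xcn_pos AU)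

open scoped ENNReal Classical

lemma fug_eq : fug = HexObs.xc := NTF.fug_eq

lemma gf_SawN (n : ℕ) (hn : 0 < n) : gf (SawN n) = ENNReal.ofReal (2 / 3 * (((saw n).card : ℝ) * fug ^ n)) := by
  have hx := HexObs.xc_pos
  rw [gf_card (n := n) (fun t ht => ht.1), fug_eq]
  have h3 : 2 * (saw n).card = 3 * (SawN n).ncard := by
    have h := card_saw hn (fun _ => True) (fun _ => Iff.rfl)
    have e1 : ((saw n).filter fun _ => True) = saw n := Finset.filter_true_of_mem (fun _ _ => trivial)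
    have e2 : {t | t ∈ SawN n ∧ True} = SawN n := by
      ext t
      exact ⟨fun h => h.1, fun h => ⟨h, trivial⟩⟩
    rw [e2] at h
    rw [← h]
    congr 2
    rw [Finset.filter_true_of_mem (fun _ _ => trivial)]
  have h4 : (((SawN n).ncard : ℕ) : ℝ) = 2 / 3 * ((saw n).card : ℝ) := by
    have h5 : (2 : ℝ) * ((saw n).card : ℝ) = 3 * (((SawN n).ncard : ℕ) : ℝ) := by exact_mod_cast h3
    linarith
  rw [← ENNReal.ofReal_natCast, ← ENNReal.ofReal_mul (by positivity), h4]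
  congr 1
  ring

lemma gf_SawN_zero : gf (SawN 0) = ENNReal.ofReal 1 := by
  have e : SawN 0 = {([] : List Bool)} := by
    ext t
    constructor
    · rintro ⟨h, -⟩
      exact List.length_eq_zero_iff.1 h
    · intro h
      rw [Set.mem_singleton_iff.1 h]
      refine ⟨rfl, ⟨fun _ _ _ => Set.mem_univ _, ?_⟩⟩
      intro i k h1 h2
      simp at h2
      omega
  rw [e, B2b_gf_singleton]
  unfold wE
  simp

lemma card_saw_zero : ((saw 0).card : ℝ) = 1 := by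
  have e : saw 0 = Finset.univ := by
    ext s
    simp only [Finset.mem_univ, iff_true]
    rw [mem_saw]
    intro j k hj hk _
    omega
  rw [e]
  simp

/-- the weight of one length -/
noncomputable def ww (n : ℕ) : ℝ := ((saw n).card : ℝ) * fug ^ n

lemma ww_pos (n : ℕ) : 0 < ww n := by
  have h1 := saw_card_pos n
  have h2 : 0 < fug := by
    rw [fug_eq]
    exact HexObs.xc_pos
  unfold ww
  positivity

lemma ww_zero : ww 0 = 1 := by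
  unfold ww
  rw [card_saw_zero, pow_zero, mul_one]

/-- the weight of the words is between 2/3 and 1 times the weight of the walks -/
lemma gf_SawN_bounds (n : ℕ) : ENNReal.ofReal (2 / 3 * ww n) ≤ gf (SawN n) ∧ gf (SawN n) ≤ ENNReal.ofReal (ww n) := by
  have h0 := ww_pos n
  rcases Nat.eq_zero_or_pos n with rfl | hn
  · rw [gf_SawN_zero, ww_zero]
    exact ⟨ENNReal.ofReal_le_ofReal (by norm_num), le_rfl⟩
  · rw [gf_SawN n hn]
    refine ⟨le_rfl, ENNReal.ofReal_le_ofReal ?_⟩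
    have : ((saw n).card : ℝ) * fug ^ n = ww n := rfl
    rw [this]
    linarith

lemma weight_eq_ww (N : ℕ) (B : Set ℕ) : weight N B = ∑ n ∈ range (N + 1), if n ∈ B then ww n else 0 := rfl

lemma weight_nonneg (N : ℕ) (B : Set ℕ) : 0 ≤ weight N B := by
  rw [weight_eq_ww]
  refine sum_nonneg fun n _ => ?_
  have := ww_pos n
  split_ifs
  · exact this.le
  · exact le_rfl

lemma weight_mono {N : ℕ} {B B' : Set ℕ} (h : B ⊆ B') : weight N B ≤ weight N B' := by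
  rw [weight_eq_ww, weight_eq_ww]
  refine sum_le_sum fun n _ => ?_
  have := ww_pos n
  by_cases h1 : n ∈ B
  · rw [if_pos h1, if_pos (h h1)]
  · rw [if_neg h1]
    split_ifs
    · exact this.le
    · exact le_rfl

lemma weight_univ_pos (N : ℕ) : 0 < weight N Set.univ := by
  rw [weight_eq_ww]
  refine sum_pos (fun n _ => ?_) ⟨0, by simp⟩
  rw [if_pos (Set.mem_univ n)]
  exact ww_pos n

lemma gf_SAL_sum (N : ℕ) (B : Set ℕ) : gf {t | t ∈ SAL N ∧ t.length ∈ B} =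
    ∑ n ∈ range (N + 1), if n ∈ B then gf (SawN n) else 0 := by
  rw [gf_lengths, tsum_eq_sum (s := range (N + 1))]
  · refine sum_congr rfl fun n hn => ?_
    rw [Finset.mem_range] at hn
    by_cases h : n ∈ B
    · rw [if_pos h]
      congr 1
      ext t
      constructor
      · rintro ⟨⟨h1, h2⟩, h3⟩
        exact ⟨h3, h1.1⟩
      · rintro ⟨h1, h2⟩
        exact ⟨⟨⟨h2, by omega⟩, by rwa [h1]⟩, h1⟩
    · rw [if_neg h]
      have e : {t | t ∈ {t | t ∈ SAL N ∧ t.length ∈ B} ∧ t.length = n} = ∅ := by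
        rw [Set.eq_empty_iff_forall_notMem]
        rintro t ⟨⟨-, h2⟩, h3⟩
        rw [h3] at h2
        exact h h2
      rw [e, NTF.gf_emp]
  · intro n hn
    rw [Finset.mem_range] at hn
    have e : {t | t ∈ {t | t ∈ SAL N ∧ t.length ∈ B} ∧ t.length = n} = ∅ := by
      rw [Set.eq_empty_iff_forall_notMem]
      rintro t ⟨⟨h1, h2⟩, h3⟩
      have := h1.2
      omega
    rw [e, NTF.gf_emp]

lemma weight_le (N : ℕ) (B : Set ℕ) : ENNReal.ofReal (2 / 3 * weight N B) ≤ gf {t | t ∈ SAL N ∧ t.length ∈ B} := by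
  rw [gf_SAL_sum, weight_eq_ww, mul_sum, ENNReal.ofReal_sum_of_nonneg]
  · refine sum_le_sum fun n _ => ?_
    by_cases h : n ∈ B
    · rw [if_pos h, if_pos h]
      exact (gf_SawN_bounds n).1
    · rw [if_neg h, if_neg h, mul_zero, ENNReal.ofReal_zero]
  · intro n _
    have := ww_pos n
    split_ifs
    · positivity
    · rw [mul_zero]

lemma le_weight (N : ℕ) : gf (SAL N) ≤ ENNReal.ofReal (weight N Set.univ) := by
  have e : SAL N = {t | t ∈ SAL N ∧ t.length ∈ Set.univ} := by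
    ext t
    exact ⟨fun h => ⟨h, Set.mem_univ _⟩, fun h => h.1⟩
  rw [e, gf_SAL_sum, weight_eq_ww, ENNReal.ofReal_sum_of_nonneg]
  · refine sum_le_sum fun n _ => ?_
    rw [if_pos (Set.mem_univ n), if_pos (Set.mem_univ n)]
    exact (gf_SawN_bounds n).2
  · intro n _
    have := ww_pos n
    rw [if_pos (Set.mem_univ n)]
    exact this.le

/-- from the words to the public weight -/
lemma weight_typ {N : ℕ} {B : Set ℕ} {ε : ℝ} (hε : 0 < ε)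
    (h : gf {t | t ∈ SAL N ∧ t.length ∈ B} ≤ ENNReal.ofReal (2 / 3 * ε) * gf (SAL N)) :
    weight N B ≤ ε * weight N Set.univ := by
  have h1 := (weight_le N B).trans (h.trans (mul_le_mul_right (le_weight N) _))
  have h2 := weight_nonneg N Set.univ
  rw [← ENNReal.ofReal_mul (by positivity), ENNReal.ofReal_le_ofReal_iff (by positivity)] at h1
  linarith

lemma Meets.cut {d : ℝ} {G : Set ℕ} (h : Meets d G) (L1 : ℕ) : Meets d (Cut G L1) := by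
  intro δ hδ
  obtain ⟨x0, hx0⟩ := h δ hδ
  refine ⟨max x0 L1, fun x hx => ?_⟩
  obtain ⟨k, hk, h1, h2⟩ := hx0 x (le_of_max_le_left hx)
  exact ⟨k, ⟨hk, (le_of_max_le_right hx).trans h1⟩, h1, h2⟩

/-- the part of the conclusion that does not depend on the density -/
def Rest (a : NNReal) (A : Set ℕ) : Prop :=
    (∀ n : ℕ, IsProbabilityMeasure (law n)) ∧
    (∀ ε' : ℝ, 0 < ε' → ∃ n₀ : ℕ, ∀ n ∈ A, n₀ ≤ n →
      (n : ℝ) ^ (3 / 4 - ε') ≤ size n ∧ size n ≤ (n : ℝ) ^ (3 / 4 + ε')) ∧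
    (∀ ε' : ℝ, 0 < ε' → ∃ M : NNReal, ∀ n ∈ A,
      law n {γ : C(unitInterval, ℂ) | ¬ HolderWith M a γ} ≤ ENNReal.ofReal ε') ∧
    IsTightMeasureSet {μ | ∃ n ∈ A, μ = law n} ∧
    (∀ φ : ℕ → ℕ, StrictMono φ → (∀ k, φ k ∈ A) → ∃ ψ : ℕ → ℕ, StrictMono ψ ∧ ∃ ν : Measure C(unitInterval, ℂ),
      IsProbabilityMeasure ν ∧ LawTo (fun k => φ (ψ k)) ν) ∧
    ∀ (φ : ℕ → ℕ) (ν : Measure C(unitInterval, ℂ)), Tendsto φ atTop atTop → (∀ k, φ k ∈ A) →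
      IsProbabilityMeasure ν → LawTo φ ν →
      (∀ᵐ γ : C(unitInterval, ℂ) ∂ν, γ 0 = 0 ∧ γ 1 ≠ 0 ∧ ∃ M : NNReal, HolderWith M a γ) ∧
      ∫ γ : C(unitInterval, ℂ), ‖γ 1‖ ^ 2 ∂ν = 1

/-- the final theorem before the choice of the kind of density -/
theorem result_core {a : NNReal} {ε : ℝ} {l : ℕ → ℕ} {G : Set ℕ} (ha : 0 < a) (ha1 : (a : ℝ) ≤ 1) (hε : 0 < ε)
    (hε1 : ε < 1)
    (hup : ∀ e : ℝ, 0 < e → ∃ C : ℝ, 0 < C ∧ ∀ k : ℕ, (l k : ℝ) ≤ C * (2 : ℝ) ^ ((4 / 3 + e) * k))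
    (hlow : ∀ e : ℝ, 0 < e → ∃ k0 : ℕ, ∀ k : ℕ, k0 ≤ k → (2 : ℝ) ^ ((4 / 3 - e) * k) ≤ l k)
    (hF : FactsS l G) (hH : FactSH a l G) :
    ∃ (A : Set ℕ) (C : ℝ) (L1 : ℕ), 1 ≤ C ∧
    (∀ k ∈ Cut G L1, ∃ N : ℕ,
        weight N {n | ¬ (n ∈ A ∧ (N : ℝ) ≤ C * n ∧ 2 ^ k / C ≤ size n ∧ size n ≤ C * 2 ^ k)} ≤
          ε * weight N Set.univ) ∧
    (∀ d : ℝ, 0 ≤ d → Meets d G → ∀ δ : ℝ, d < δ → ∃ x₀ : ℝ, ∀ x : ℝ, x₀ ≤ x → ∃ n ∈ A, x ≤ n ∧ (n : ℝ) ≤ x ^ (1 + δ)) ∧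
    Rest a A := by
  have ha0 : (0 : ℝ) < a := ha
  obtain ⟨L1, A, hC, hHC, hle, htyp, ρ0, hρ0, hρA⟩ := pickS (ε := 2 / 3 * ε) (by positivity) ha0 hup hlow hF hH
  obtain ⟨k1, hk1⟩ := factsG_of hC
  obtain ⟨c, Cs, k0, hc, hCs, hsize⟩ := core_size hC
  obtain ⟨k2, hk2⟩ : ∃ k2 : ℕ, k2 = max k1 k0 := ⟨_, rfl⟩
  obtain ⟨hA, hexp, hhold⟩ := hk1 k2 (hk2 ▸ le_max_left _ _)
  have hHA := hhold a ha0 hHC
  -- the good scales
  have hgood : ∀ k ∈ Cut G L1, weight (l k) {n | ¬ n ∈ A k} ≤ ε * weight (l k) Set.univ := fun k hk =>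
    weight_typ hε (htyp k hk)
  have hne : ∀ k ∈ Cut G L1, ∃ n, n ∈ A k := by
    intro k hk
    by_contra hcon
    push Not at hcon
    have h1 := hgood k hk
    have e1 : {n | ¬ n ∈ A k} = Set.univ := by
      ext n
      exact ⟨fun _ => Set.mem_univ n, fun _ => hcon n⟩
    rw [e1] at h1
    have h2 := weight_univ_pos (l k)
    nlinarith
  obtain ⟨C, hCdef⟩ : ∃ C : ℝ, C = max (max 1 ρ0⁻¹) (max Cs (1 / c)) := ⟨_, rfl⟩
  have hC1 : 1 ≤ C := by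
    rw [hCdef]
    exact (le_max_left _ _).trans (le_max_left _ _)
  have hC2 : ρ0⁻¹ ≤ C := by
    rw [hCdef]
    exact (le_max_right _ _).trans (le_max_left _ _)
  have hC3 : Cs ≤ C := by
    rw [hCdef]
    exact (le_max_left _ _).trans (le_max_right _ _)
  have hC4 : 1 / c ≤ C := by
    rw [hCdef]
    exact (le_max_right _ _).trans (le_max_right _ _)
  refine ⟨AU (Cut G L1) A k2, C, max L1 k2, hC1, ?_, fun d hd hM => lengths_meet hd (hM.cut L1) hC hne k2, law_prob, hexp,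
    fun ε' hε' => law_holder hA hHA ha ha1 hε', tight hA,
    fun φ _ hφA => subseq hA hφA, fun φ ν hφ hφA hν hlim => ?_⟩
  · rintro k ⟨hkG, hkL⟩
    have hkG' : k ∈ Cut G L1 := ⟨hkG, (le_max_left _ _).trans hkL⟩
    have hk2' : k2 ≤ k := (le_max_right _ _).trans hkL
    refine ⟨l k, ?_⟩
    have h2k : (0 : ℝ) < 2 ^ k := by positivity
    refine le_trans (weight_mono ?_) (hgood k hkG')
    intro n hn hnA
    apply hn
    obtain ⟨h1, h2⟩ := hsize k hkG' n hnA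
    refine ⟨⟨k, hkG', hk2', hnA⟩, ?_, ?_, ?_⟩
    · have h3 := hρA k hkG' n hnA
      calc (l k : ℝ) = ρ0⁻¹ * (ρ0 * l k) := by field_simp
        _ ≤ C * n := mul_le_mul hC2 h3.le (by positivity) (by linarith)
    · refine le_trans ?_ (h2 ((hk2 ▸ le_max_right k1 k0 : k0 ≤ k2).trans hk2'))
      rw [div_le_iff₀ (lt_of_lt_of_le one_pos hC1)]
      rw [div_le_iff₀ hc] at hC4
      nlinarith
    · exact h1.trans (mul_le_mul_of_nonneg_right hC3 h2k.le)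
  · obtain ⟨h1, h2⟩ := limit_props hA hφ hφA hν hlim
    refine ⟨?_, h2⟩
    filter_upwards [h1, limit_holder hA hHA ha ha1 hφA hν hlim] with γ h3 h4
    exact ⟨h3.1, h3.2, h4⟩

/-- the conclusion, natural density -/
def ConclN (a : NNReal) (ε r : ℝ) : Prop :=
  ∃ (A : Set ℕ) (C : ℝ), 1 ≤ C ∧
    (∃ x₀ : ℕ, ∀ x : ℕ, x₀ ≤ x → (1 - r) * x ≤
      (((Finset.range x).filter fun k => ∃ N : ℕ,
        weight N {n | ¬ (n ∈ A ∧ (N : ℝ) ≤ C * n ∧ 2 ^ k / C ≤ size n ∧ size n ≤ C * 2 ^ k)} ≤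
          ε * weight N Set.univ).card : ℝ)) ∧
    (∃ x₀ : ℝ, ∀ x : ℝ, x₀ ≤ x → ∃ n ∈ A, x ≤ n ∧ (n : ℝ) ≤ x ^ (1 / (1 - r))) ∧
    (∀ n : ℕ, IsProbabilityMeasure (law n)) ∧
    (∀ ε' : ℝ, 0 < ε' → ∃ n₀ : ℕ, ∀ n ∈ A, n₀ ≤ n →
      (n : ℝ) ^ (3 / 4 - ε') ≤ size n ∧ size n ≤ (n : ℝ) ^ (3 / 4 + ε')) ∧
    (∀ ε' : ℝ, 0 < ε' → ∃ M : NNReal, ∀ n ∈ A,
      law n {γ : C(unitInterval, ℂ) | ¬ HolderWith M a γ} ≤ ENNReal.ofReal ε') ∧
    IsTightMeasureSet {μ | ∃ n ∈ A, μ = law n} ∧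
    (∀ φ : ℕ → ℕ, StrictMono φ → (∀ k, φ k ∈ A) → ∃ ψ : ℕ → ℕ, StrictMono ψ ∧ ∃ ν : Measure C(unitInterval, ℂ),
      IsProbabilityMeasure ν ∧ LawTo (fun k => φ (ψ k)) ν) ∧
    ∀ (φ : ℕ → ℕ) (ν : Measure C(unitInterval, ℂ)), Tendsto φ atTop atTop → (∀ k, φ k ∈ A) →
      IsProbabilityMeasure ν → LawTo φ ν →
      (∀ᵐ γ : C(unitInterval, ℂ) ∂ν, γ 0 = 0 ∧ γ 1 ≠ 0 ∧ ∃ M : NNReal, HolderWith M a γ) ∧
      ∫ γ : C(unitInterval, ℂ), ‖γ 1‖ ^ 2 ∂ν = 1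

/-- the conclusion, density in the windows -/
def ConclW (a : NNReal) (ε r : ℝ) : Prop :=
  ∃ (A : Set ℕ) (C : ℝ), 1 ≤ C ∧
    (∀ δ : ℝ, 0 < δ → ∃ x₀ : ℕ, ∀ x : ℕ, x₀ ≤ x → (1 - r) * (δ * x) ≤
      (((Finset.Icc x ⌊(1 + δ) * (x : ℝ)⌋₊).filter fun k => ∃ N : ℕ,
        weight N {n | ¬ (n ∈ A ∧ (N : ℝ) ≤ C * n ∧ 2 ^ k / C ≤ size n ∧ size n ≤ C * 2 ^ k)} ≤
          ε * weight N Set.univ).card : ℝ)) ∧
    (∀ δ : ℝ, 0 < δ → ∃ x₀ : ℝ, ∀ x : ℝ, x₀ ≤ x → ∃ n ∈ A, x ≤ n ∧ (n : ℝ) ≤ x ^ (1 + δ)) ∧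
    (∀ n : ℕ, IsProbabilityMeasure (law n)) ∧
    (∀ ε' : ℝ, 0 < ε' → ∃ n₀ : ℕ, ∀ n ∈ A, n₀ ≤ n →
      (n : ℝ) ^ (3 / 4 - ε') ≤ size n ∧ size n ≤ (n : ℝ) ^ (3 / 4 + ε')) ∧
    (∀ ε' : ℝ, 0 < ε' → ∃ M : NNReal, ∀ n ∈ A,
      law n {γ : C(unitInterval, ℂ) | ¬ HolderWith M a γ} ≤ ENNReal.ofReal ε') ∧
    IsTightMeasureSet {μ | ∃ n ∈ A, μ = law n} ∧
    (∀ φ : ℕ → ℕ, StrictMono φ → (∀ k, φ k ∈ A) → ∃ ψ : ℕ → ℕ, StrictMono ψ ∧ ∃ ν : Measure C(unitInterval, ℂ),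
      IsProbabilityMeasure ν ∧ LawTo (fun k => φ (ψ k)) ν) ∧
    ∀ (φ : ℕ → ℕ) (ν : Measure C(unitInterval, ℂ)), Tendsto φ atTop atTop → (∀ k, φ k ∈ A) →
      IsProbabilityMeasure ν → LawTo φ ν →
      (∀ᵐ γ : C(unitInterval, ℂ) ∂ν, γ 0 = 0 ∧ γ 1 ≠ 0 ∧ ∃ M : NNReal, HolderWith M a γ) ∧
      ∫ γ : C(unitInterval, ℂ), ‖γ 1‖ ^ 2 ∂ν = 1

/-- **the final theorem, natural density** -/
theorem result_of {a : NNReal} {ε r r' : ℝ} {l : ℕ → ℕ} {G : Set ℕ} (ha : 0 < a) (ha1 : (a : ℝ) ≤ 1) (hε : 0 < ε)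
    (hε1 : ε < 1) (hr' : 0 ≤ r') (hrr : r' < r) (hr : r < 1)
    (hup : ∀ e : ℝ, 0 < e → ∃ C : ℝ, 0 < C ∧ ∀ k : ℕ, (l k : ℝ) ≤ C * (2 : ℝ) ^ ((4 / 3 + e) * k))
    (hlow : ∀ e : ℝ, 0 < e → ∃ k0 : ℕ, ∀ k : ℕ, k0 ≤ k → (2 : ℝ) ^ ((4 / 3 - e) * k) ≤ l k)
    (hF : FactsS l G) (hH : FactSH a l G) (hD : LowD r' G) : ConclN a ε r := by
  obtain ⟨A, C, L1, hC, hgood, hmeet, hrest⟩ := result_core ha ha1 hε hε1 hup hlow hF hH
  have hr1 : 0 < 1 - r := by linarith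
  have hr2 : 0 < 1 - r' := by linarith
  have e1 : 1 / (1 - r) = 1 + r / (1 - r) := by
    field_simp
    ring
  refine ⟨A, C, hC, ?_, ?_, hrest⟩
  · obtain ⟨x0, hx0⟩ := (hD.cut L1) (r - r') (by linarith)
    refine ⟨x0, fun x hx => ?_⟩
    refine le_trans (le_of_eq ?_) ((hx0 x hx).trans ?_)
    · ring
    rw [Nat.cast_le]
    apply Finset.card_le_card
    intro k hk
    rw [Finset.mem_filter] at hk ⊢
    exact ⟨hk.1, hgood k hk.2⟩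
  · rw [e1]
    refine hmeet (r' / (1 - r')) (by positivity) (meets_of_lowD hD (by linarith) hr') (r / (1 - r)) ?_
    rw [div_lt_div_iff₀ hr2 hr1]
    nlinarith

/-- **the final theorem, density in the windows** -/
theorem result_win {a : NNReal} {ε r : ℝ} {l : ℕ → ℕ} {G : Set ℕ} (ha : 0 < a) (ha1 : (a : ℝ) ≤ 1) (hε : 0 < ε)
    (hε1 : ε < 1) (hr : r < 1)
    (hup : ∀ e : ℝ, 0 < e → ∃ C : ℝ, 0 < C ∧ ∀ k : ℕ, (l k : ℝ) ≤ C * (2 : ℝ) ^ ((4 / 3 + e) * k))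
    (hlow : ∀ e : ℝ, 0 < e → ∃ k0 : ℕ, ∀ k : ℕ, k0 ≤ k → (2 : ℝ) ^ ((4 / 3 - e) * k) ≤ l k)
    (hF : FactsS l G) (hH : FactSH a l G) (hD : Dense r G) : ConclW a ε r := by
  obtain ⟨A, C, L1, hC, hgood, hmeet, hrest⟩ := result_core ha ha1 hε hε1 hup hlow hF hH
  refine ⟨A, C, hC, ?_, hmeet 0 le_rfl (meets_of_dense hD hr), hrest⟩
  intro δ hδ
  obtain ⟨x0, hx0⟩ := hD δ hδ
  refine ⟨max x0 L1, fun x hx => (hx0 x (le_of_max_le_left hx)).trans ?_⟩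
  rw [Nat.cast_le]
  apply Finset.card_le_card
  intro k hk
  rw [Finset.mem_filter, Finset.mem_Icc] at hk
  rw [Finset.mem_filter, Finset.mem_Icc]
  exact ⟨hk.1, hgood k ⟨hk.2, (le_of_max_le_right hx).trans hk.1.1⟩⟩

end NTSF
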