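import Pool.Agent.NTS.LevyLaw

/-!
NTW for EVERY step number: the exact modulus of continuity of the weak limits, the lower side (project TAIL, helper83), and
**`NTSF.Mod.exact_of`**: almost surely c psi h <= w h <= C psi h for all small h, w the modulus of continuity, with universal
constants.
-/

set_option autoImplicit false

namespace NTSF.Mod

open NTSF

open Finset MeasureTheory Filter Topology

open HexObs hiding pos

open HexObs.SDN HexObs.NTW HexObs.TS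

open NTF (open_le sw JJ cont_eval)

open Pool.Agent.NTS.Res

open scoped ENNReal Classical

/-! ### Large increments of a curve -/

/-- an increment of size at least x at distance at most h -/
def Big (h x : ℝ) (γ : C(unitInterval, ℂ)) : Prop :=
  ∃ s t : unitInterval, |(s : ℝ) - t| ≤ h ∧ x ≤ ‖γ s - γ t‖

lemma Big.mono {h h' x x' : ℝ} {γ : C(unitInterval, ℂ)} (hb : Big h x γ) (hh : h ≤ h') (hx : x' ≤ x) : Big h' x' γ := by
  obtain ⟨s, t, h1, h2⟩ := hb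
  exact ⟨s, t, h1.trans hh, hx.trans h2⟩

lemma closed_big (h x : ℝ) : IsClosed {γ : C(unitInterval, ℂ) | Big h x γ} := by
  have h1 : {γ : C(unitInterval, ℂ) | Big h x γ} = Prod.fst '' {p : C(unitInterval, ℂ) × (unitInterval × unitInterval) |
      |(p.2.1 : ℝ) - p.2.2| ≤ h ∧ x ≤ ‖p.1 p.2.1 - p.1 p.2.2‖} := by
    ext γ
    constructor
    · rintro ⟨s, t, h1, h2⟩
      exact ⟨(γ, s, t), ⟨h1, h2⟩, rfl⟩
    · rintro ⟨⟨γ', s, t⟩, ⟨h1, h2⟩, rfl⟩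
      exact ⟨s, t, h1, h2⟩
  rw [h1]
  refine isClosedMap_fst_of_compactSpace _ ?_
  have c1 : Continuous fun p : C(unitInterval, ℂ) × (unitInterval × unitInterval) => p.1 p.2.1 :=
    continuous_eval.comp (continuous_fst.prodMk (continuous_fst.comp continuous_snd))
  have c2 : Continuous fun p : C(unitInterval, ℂ) × (unitInterval × unitInterval) => p.1 p.2.2 :=
    continuous_eval.comp (continuous_fst.prodMk (continuous_snd.comp continuous_snd))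
  have c3 : Continuous fun p : C(unitInterval, ℂ) × (unitInterval × unitInterval) => |(p.2.1 : ℝ) - p.2.2| :=
    ((continuous_subtype_val.comp (continuous_fst.comp continuous_snd)).sub
      (continuous_subtype_val.comp (continuous_snd.comp continuous_snd))).abs
  exact (isClosed_le c3 continuous_const).inter (isClosed_le continuous_const (c1.sub c2).norm)

/-- the curve at a vertex of the walk -/
lemma curve_node {n : ℕ} (hn : 1 ≤ n) (s : Fin n → Fin 3) {a : ℕ} {u : unitInterval} (hu : (u : ℝ) = a / n) :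
    curve s u = pos s a / size n := by
  have hn0 : (0 : ℝ) < n := by exact_mod_cast hn
  obtain ⟨i, hi, i1, i2⟩ := Tight.th2_idx hn u
  have hun : (u : ℝ) * n = a := by
    rw [hu]
    field_simp
  rw [curve_eq, Tight.poly_apply hi i1 i2, hun]
  rw [hun] at i1 i2
  have h1 : i ≤ a := by exact_mod_cast i1
  have h2 : a ≤ i + 1 := by exact_mod_cast i2
  rcases Nat.lt_or_ge i a with h3 | h3
  · have h4 : a = i + 1 := by omega
    rw [h4]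
    push_cast
    ring
  · have h4 : a = i := by omega
    rw [h4]
    push_cast
    ring

/-- a large increment of the walk is one of the curve -/
lemma big_of {n : ℕ} (hn : 1 ≤ n) {s : Fin n → Fin 3} {a b : ℕ} (hab : a ≤ b) (hb : b ≤ n) {h x : ℝ}
    (h1 : (b : ℝ) - a ≤ h * n) (h2 : x * size n ≤ ‖pos s b - pos s a‖) : Big h x (curve s) := by
  have hn0 : (0 : ℝ) < n := by exact_mod_cast hn
  have hs := size_pos hn
  have e : ∀ c : ℕ, c ≤ n → (0 : ℝ) ≤ (c : ℝ) / n ∧ (c : ℝ) / n ≤ 1 := by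
    intro c hc
    refine ⟨by positivity, ?_⟩
    rw [div_le_one hn0]
    exact_mod_cast hc
  refine ⟨⟨(b : ℝ) / n, e b hb⟩, ⟨(a : ℝ) / n, e a (hab.trans hb)⟩, ?_, ?_⟩
  · show |(b : ℝ) / n - (a : ℝ) / n| ≤ h
    rw [← sub_div, abs_of_nonneg, div_le_iff₀ hn0]
    · exact h1
    · have : (a : ℝ) ≤ b := by exact_mod_cast hab
      exact div_nonneg (by linarith) hn0.le
  · rw [curve_node hn s (a := b) rfl, curve_node hn s (a := a) rfl, ← sub_div, norm_div,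
      Complex.norm_of_nonneg hs.le, le_div_iff₀ hs]
    exact h2

/-! ### The walks -/

/-- **a large increment at the depth j, the walks** -/
theorem levy_walk {m : ℕ → ℝ} (hlo : ∃ c : ℝ, 0 < c ∧ ∀ k : ℕ, c * (2 : ℝ) ^ (4 / 3 * (k : ℝ)) ≤ m k)
    (hup : ∃ C : ℝ, ∀ k : ℕ, m k ≤ C * (2 : ℝ) ^ (4 / 3 * (k : ℝ)))
    {R : ℕ → ℝ} {κ : ℕ → ℕ} {c0 C1 cd Cu cs Cs : ℝ} {N : ℕ}
    (hB : Base m R κ c0 C1 cd Cu cs Cs N) (hL : LevyX m) : ∃ (c x B K : ℝ) (j0 : ℕ), 0 < c ∧ 0 < x ∧ 1 ≤ B ∧ 0 < K ∧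
      ∀ j : ℕ, j0 ≤ j → ∃ n0 : ℕ, ∀ n : ℕ, n0 ≤ n →
        (((saw n).filter fun s => ¬ ∃ a b : ℕ, a ≤ b ∧ b ≤ n ∧ (b : ℝ) - a ≤ B * j * (2 : ℝ) ^ (-(4 / 3 * (j : ℝ))) * n ∧
          x * j / 2 ^ j * size n ≤ ‖pos s b - pos s a‖).card : ℝ) ≤ K * (2 : ℝ) ^ (-(c * j)) * ((saw n).card : ℝ) := by
  have hc0 := hB.pc0
  have hCu := hB.pCu
  obtain ⟨c, c1, C, K, j0, hc, hc1, hC, hK, h1⟩ := hL
  obtain ⟨cl, hcl, hlo⟩ := hlo
  obtain ⟨Ch, hup⟩ := hup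
  have hCh : 0 < Ch := by
    have h2 := (hlo 0).trans (hup 0)
    have h3 : (0 : ℝ) < (2 : ℝ) ^ (4 / 3 * ((0 : ℕ) : ℝ)) := Real.rpow_pos_of_pos (by norm_num) _
    by_contra hcon
    push Not at hcon
    nlinarith
  obtain ⟨B, hBd⟩ : ∃ B : ℝ, B = max 1 (C * Ch / cl) := ⟨_, rfl⟩
  refine ⟨c, c1 / 2 / Cu, B, K * c0, j0, hc, by positivity, by rw [hBd]; exact le_max_left _ _, by positivity,
    fun j hj => ?_⟩
  obtain ⟨k0, h2⟩ := h1 j hj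
  obtain ⟨n1, hn1⟩ := hB.top (k0 + j)
  refine ⟨N + n1, fun n hn => ?_⟩
  have b0 : N ≤ n := by omega
  have hn0 : 0 < n := by
    have := hB.N1
    omega
  have hk := hn1 n (by omega)
  obtain ⟨k, hkd⟩ : ∃ k, k = κ n := ⟨_, rfl⟩
  rw [← hkd] at hk
  have hmk := (hB.sc n b0).1
  have h3 := h2 k n (by omega) (by rw [hkd]; exact hmk) (by rw [hkd]; exact (hB.sc n b0).2)
  rw [← hkd] at hmk
  have h4 : ENNReal.ofReal (K * (2 : ℝ) ^ (-(c * j))) * nuX m k ≤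
      ENNReal.ofReal (K * c0 * (2 : ℝ) ^ (-(c * j))) * gf (SawN n) := by
    have h5 := hB.lo n b0
    rw [← hkd] at h5
    calc ENNReal.ofReal (K * (2 : ℝ) ^ (-(c * j))) * nuX m k ≤
        ENNReal.ofReal (K * (2 : ℝ) ^ (-(c * j))) * (ENNReal.ofReal c0 * gf (SawN n)) := mul_le_mul_right h5 _
      _ = _ := by
          rw [← mul_assoc, ← ENNReal.ofReal_mul (by positivity)]
          congr 2
          ring
  refine prop_le hn0 _ (fun s => by simp only [norm_rot]) (by positivity) ?_ (h3.trans h4)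
  intro t ht h5
  refine ⟨ht, fun h6 => h5 ?_⟩
  obtain ⟨dir, a, b, hab, hb, h7, h8⟩ := h6
  refine ⟨a, b, hab, hb, h7.trans ?_, ?_⟩
  · have h9 := hup (k - j)
    have h10 := hlo k
    have hj0 : (0 : ℝ) ≤ j := Nat.cast_nonneg j
    have e1 : (2 : ℝ) ^ (4 / 3 * ((k - j : ℕ) : ℝ)) = (2 : ℝ) ^ (4 / 3 * (k : ℝ)) * (2 : ℝ) ^ (-(4 / 3 * (j : ℝ))) := by
      rw [← Real.rpow_add (by norm_num), Nat.cast_sub (by omega)]
      congr 1
      ring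
    have hp : (0 : ℝ) < (2 : ℝ) ^ (-(4 / 3 * (j : ℝ))) := Real.rpow_pos_of_pos (by norm_num) _
    rw [e1] at h9
    have h11 : (2 : ℝ) ^ (4 / 3 * (k : ℝ)) ≤ n / cl := by
      rw [le_div_iff₀ hcl]
      linarith
    calc C * j * m (k - j) ≤ C * j * (Ch * ((2 : ℝ) ^ (4 / 3 * (k : ℝ)) * (2 : ℝ) ^ (-(4 / 3 * (j : ℝ))))) :=
          mul_le_mul_of_nonneg_left h9 (by positivity)
      _ ≤ C * j * (Ch * (n / cl * (2 : ℝ) ^ (-(4 / 3 * (j : ℝ))))) := by gcongr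
      _ = C * Ch / cl * j * (2 : ℝ) ^ (-(4 / 3 * (j : ℝ))) * n := by
          field_simp
      _ ≤ B * j * (2 : ℝ) ^ (-(4 / 3 * (j : ℝ))) * n := by
          have h12 : C * Ch / cl ≤ B := by
            rw [hBd]
            exact le_max_right _ _
          gcongr
  · rw [pos_sw n t b hb, pos_sw n t a (hab.trans hb), ← NTF.JJ_sub]
    have h9 := lvl_le_norm dir (vx oo up t b - vx oo up t a)
    rw [NTF.lvl_sub] at h9
    have h10 := hB.sup n b0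
    rw [hB.R2 n, ← hkd] at h10
    have e1 : (2 : ℝ) ^ (k - j) * 2 ^ j = 2 ^ k := by
      rw [← pow_add]
      congr 1
      omega
    have hj0 : (0 : ℝ) ≤ j := Nat.cast_nonneg j
    calc c1 / 2 / Cu * j / 2 ^ j * size n ≤ c1 / 2 / Cu * j / 2 ^ j * (Cu * 2 ^ k) :=
          mul_le_mul_of_nonneg_left h10 (by positivity)
      _ = c1 / 2 * j * 2 ^ (k - j) := by
          rw [← e1]
          field_simp
      _ ≤ _ := by
          have h11 := h8.trans h9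
          linarith

/-! ### Numbers -/

/-- the modulus at the distance of the depth i -/
lemma psi_levy {B : ℝ} (hB : 1 ≤ B) {i : ℕ} (hi : 1 ≤ i) (hH : B * i * (2 : ℝ) ^ (-(4 / 3 * (i : ℝ))) ≤ 1) :
    psi (B * i * (2 : ℝ) ^ (-(4 / 3 * (i : ℝ)))) ≤ 2 * B * i / 2 ^ i := by
  have hi1 : (1 : ℝ) ≤ i := by exact_mod_cast hi
  have hp : (0 : ℝ) < (2 : ℝ) ^ (-(4 / 3 * (i : ℝ))) := Real.rpow_pos_of_pos (by norm_num) _
  have hB0 : 0 < B := by linarith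
  have hi0 : (0 : ℝ) < i := by linarith
  have hl := one_le_log (by positivity) hH
  have h1 : (B * i * (2 : ℝ) ^ (-(4 / 3 * (i : ℝ)))) ^ (3 / 4 : ℝ) ≤ B * (i : ℝ) ^ (3 / 4 : ℝ) * (2 ^ i)⁻¹ := by
    rw [Real.mul_rpow (by positivity) hp.le, Real.mul_rpow hB0.le (by linarith), ← Real.rpow_mul (by norm_num)]
    have e1 : (2 : ℝ) ^ (-(4 / 3 * (i : ℝ)) * (3 / 4)) = (2 ^ i)⁻¹ := by
      rw [show -(4 / 3 * (i : ℝ)) * (3 / 4) = -(i : ℝ) by ring, Real.rpow_neg (by norm_num), Real.rpow_natCast]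
    rw [e1]
    have e2 : B ^ (3 / 4 : ℝ) ≤ B := by
      calc B ^ (3 / 4 : ℝ) ≤ B ^ (1 : ℝ) := Real.rpow_le_rpow_of_exponent_le hB (by norm_num)
        _ = B := Real.rpow_one B
    gcongr
  have hlog : 1 - Real.log (B * i * (2 : ℝ) ^ (-(4 / 3 * (i : ℝ)))) ≤ 2 * i := by
    rw [Real.log_mul (by positivity) hp.ne', Real.log_mul hB0.ne' (by positivity), Real.log_rpow (by norm_num)]
    have e1 : 0 ≤ Real.log B := Real.log_nonneg hB
    have e2 : 0 ≤ Real.log (i : ℝ) := Real.log_nonneg hi1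
    have e3 := Real.log_two_lt_d9
    nlinarith
  have h2 : (1 - Real.log (B * i * (2 : ℝ) ^ (-(4 / 3 * (i : ℝ))))) ^ (1 / 4 : ℝ) ≤ 2 * (i : ℝ) ^ (1 / 4 : ℝ) := by
    calc (1 - Real.log (B * i * (2 : ℝ) ^ (-(4 / 3 * (i : ℝ))))) ^ (1 / 4 : ℝ) ≤ (2 * (i : ℝ)) ^ (1 / 4 : ℝ) :=
          Real.rpow_le_rpow (by linarith) hlog (by norm_num)
      _ = (2 : ℝ) ^ (1 / 4 : ℝ) * (i : ℝ) ^ (1 / 4 : ℝ) := Real.mul_rpow (by norm_num) (by linarith)
      _ ≤ 2 * (i : ℝ) ^ (1 / 4 : ℝ) := by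
          have e1 : (2 : ℝ) ^ (1 / 4 : ℝ) ≤ 2 := by
            calc (2 : ℝ) ^ (1 / 4 : ℝ) ≤ (2 : ℝ) ^ (1 : ℝ) := Real.rpow_le_rpow_of_exponent_le (by norm_num) (by norm_num)
              _ = 2 := Real.rpow_one 2
          gcongr
  have h3 : (i : ℝ) ^ (3 / 4 : ℝ) * (i : ℝ) ^ (1 / 4 : ℝ) = i := by
    rw [← Real.rpow_add hi0]
    norm_num
  unfold psi
  calc (B * i * (2 : ℝ) ^ (-(4 / 3 * (i : ℝ)))) ^ (3 / 4 : ℝ) *
        (1 - Real.log (B * i * (2 : ℝ) ^ (-(4 / 3 * (i : ℝ))))) ^ (1 / 4 : ℝ) ≤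
      B * (i : ℝ) ^ (3 / 4 : ℝ) * (2 ^ i)⁻¹ * (2 * (i : ℝ) ^ (1 / 4 : ℝ)) :=
        mul_le_mul h1 h2 (Real.rpow_nonneg (by linarith) _) (by positivity)
    _ = 2 * B * ((i : ℝ) ^ (3 / 4 : ℝ) * (i : ℝ) ^ (1 / 4 : ℝ)) / 2 ^ i := by
        rw [div_eq_mul_inv]
        ring
    _ = _ := by rw [h3]

/-- the distances tend to zero -/
lemma dist_tendsto (B : ℝ) : Tendsto (fun i : ℕ => B * i * (2 : ℝ) ^ (-(4 / 3 * (i : ℝ)))) atTop (𝓝 0) := by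
  have hr0 : (0 : ℝ) ≤ (2 : ℝ) ^ (-(4 / 3) : ℝ) := by positivity
  have hr1 : (2 : ℝ) ^ (-(4 / 3) : ℝ) < 1 := Real.rpow_lt_one_of_one_lt_of_neg (by norm_num) (by norm_num)
  have h := (tendsto_self_mul_const_pow_of_lt_one hr0 hr1).const_mul B
  rw [mul_zero] at h
  refine h.congr fun i => ?_
  have e : (2 : ℝ) ^ (-(4 / 3 * (i : ℝ))) = ((2 : ℝ) ^ (-(4 / 3) : ℝ)) ^ i := by
    rw [← Real.rpow_natCast, ← Real.rpow_mul (by norm_num)]
    congr 1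
    ring
  rw [e]
  ring

/-! ### The limits -/

/-- **the lower side of the exact modulus, every weak limit** -/
theorem lower_of {m : ℕ → ℝ} (hlo : ∃ c : ℝ, 0 < c ∧ ∀ k : ℕ, c * (2 : ℝ) ^ (4 / 3 * (k : ℝ)) ≤ m k)
    (hup : ∃ C : ℝ, ∀ k : ℕ, m k ≤ C * (2 : ℝ) ^ (4 / 3 * (k : ℝ)))
    {R : ℕ → ℝ} {κ : ℕ → ℕ} {c0 C1 cd Cu cs Cs : ℝ} {N : ℕ}
    (hB : Base m R κ c0 C1 cd Cu cs Cs N) (hL : LevyX m) : ∃ c : ℝ, 0 < c ∧
      ∀ (φ : ℕ → ℕ) (ν : Measure C(unitInterval, ℂ)), Tendsto φ atTop atTop → IsProbabilityMeasure ν → LawTo φ ν →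
        ∀ᵐ γ : C(unitInterval, ℂ) ∂ν, ∃ h0 : ℝ, 0 < h0 ∧ ∀ h : ℝ, 0 < h → h ≤ h0 → Big h (c * psi h) γ := by
  obtain ⟨c, x, B, K, j0, hc, hx, hB1, hK, h1⟩ := levy_walk hlo hup hB hL
  have hBp : 0 < B := by linarith
  refine ⟨x / (4 * B), by positivity, fun φ ν hφ hν hlim => ?_⟩
  have hlim2 := (lawTo_iff ⟨ν, hν⟩).1 hlim
  obtain ⟨H, hH⟩ : ∃ H : ℕ → ℝ, H = fun i : ℕ => B * i * (2 : ℝ) ^ (-(4 / 3 * (i : ℝ))) := ⟨_, rfl⟩
  obtain ⟨E, hE⟩ : ∃ E : ℕ → Set C(unitInterval, ℂ), E = fun i => {γ | Big (H i) (x * i / 2 ^ i) γ}ᶜ := ⟨_, rfl⟩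
  have h2 : ∀ j : ℕ, j0 ≤ j → ν (E j) ≤ ENNReal.ofReal (K * (2 : ℝ) ^ (-(c * j))) := by
    intro j hj
    obtain ⟨n0, h3⟩ := h1 j hj
    rw [hE]
    refine open_le hlim2 (closed_big (H j) (x * j / 2 ^ j)).isOpen_compl ?_
    filter_upwards [hφ.eventually_ge_atTop (n0 + 1)] with k hk
    have hk1 : 1 ≤ φ k := by omega
    refine law_le (by positivity) (le_trans ?_ (h3 (φ k) (by omega)))
    have hsub : ((saw (φ k)).filter fun s => curve s ∈ {γ : C(unitInterval, ℂ) | Big (H j) (x * j / 2 ^ j) γ}ᶜ) ⊆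
        (saw (φ k)).filter fun s => ¬ ∃ a b : ℕ, a ≤ b ∧ b ≤ φ k ∧
          (b : ℝ) - a ≤ B * j * (2 : ℝ) ^ (-(4 / 3 * (j : ℝ))) * (φ k : ℕ) ∧
          x * j / 2 ^ j * size (φ k) ≤ ‖pos s b - pos s a‖ := by
      intro s hs
      rw [Finset.mem_filter] at hs ⊢
      refine ⟨hs.1, ?_⟩
      rintro ⟨a, b, hab, hb, h4, h5⟩
      refine hs.2 (big_of hk1 hab hb ?_ h5)
      rw [hH]
      exact h4
    exact_mod_cast Finset.card_le_card hsub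
  -- Borel-Cantelli
  have hr0 : (0 : ℝ) ≤ (2 : ℝ) ^ (-c) := by positivity
  have hr1 : (2 : ℝ) ^ (-c) < 1 := Real.rpow_lt_one_of_one_lt_of_neg (by norm_num) (by linarith)
  have hsum : ∑' j : ℕ, ν (E (j + j0)) ≠ ⊤ := by
    have h3 : ∀ j : ℕ, ν (E (j + j0)) ≤ ENNReal.ofReal (K * ((2 : ℝ) ^ (-c)) ^ j) := by
      intro j
      refine (h2 (j + j0) (by omega)).trans (ENNReal.ofReal_le_ofReal ?_)
      have e : (2 : ℝ) ^ (-(c * ((j + j0 : ℕ) : ℝ))) = ((2 : ℝ) ^ (-c)) ^ (j + j0) := by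
        rw [← Real.rpow_natCast, ← Real.rpow_mul (by norm_num)]
        congr 1
        ring
      rw [e, pow_add]
      have h4 : ((2 : ℝ) ^ (-c)) ^ j0 ≤ 1 := pow_le_one₀ hr0 hr1.le
      have h5 : 0 ≤ ((2 : ℝ) ^ (-c)) ^ j := by positivity
      have h6 : ((2 : ℝ) ^ (-c)) ^ j * ((2 : ℝ) ^ (-c)) ^ j0 ≤ ((2 : ℝ) ^ (-c)) ^ j :=
        mul_le_of_le_one_right h5 h4
      exact mul_le_mul_of_nonneg_left h6 hK.le
    have hs : Summable fun j : ℕ => K * ((2 : ℝ) ^ (-c)) ^ j := (summable_geometric_of_lt_one hr0 hr1).mul_left K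
    refine ne_top_of_le_ne_top ?_ (ENNReal.tsum_le_tsum h3)
    rw [← ENNReal.ofReal_tsum_of_nonneg (fun j => by positivity) hs]
    exact ENNReal.ofReal_ne_top
  filter_upwards [ae_eventually_notMem hsum] with γ hγ
  obtain ⟨J1, hJ1⟩ := Filter.eventually_atTop.1 hγ
  have hbig : ∀ i : ℕ, J1 + j0 ≤ i → Big (H i) (x * i / 2 ^ i) γ := by
    intro i hi
    have h3 := hJ1 (i - j0) (by omega)
    rw [hE, show i - j0 + j0 = i by omega] at h3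
    simpa using h3
  have hHt : Tendsto H atTop (𝓝 0) := by
    rw [hH]
    exact dist_tendsto B
  obtain ⟨J2, hJ2⟩ := Filter.eventually_atTop.1 (hHt.eventually (gt_mem_nhds (show (0 : ℝ) < 1 by norm_num)))
  obtain ⟨i0, hi0⟩ : ∃ i0 : ℕ, i0 = J1 + j0 + J2 + 1 := ⟨_, rfl⟩
  have hHpos : ∀ i : ℕ, 1 ≤ i → 0 < H i := by
    intro i hi
    have : (0 : ℝ) < i := by exact_mod_cast hi
    rw [hH]
    have hp : (0 : ℝ) < (2 : ℝ) ^ (-(4 / 3 * (i : ℝ))) := Real.rpow_pos_of_pos (by norm_num) _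
    positivity
  refine ⟨H i0 / 2, half_pos (hHpos i0 (by omega)), fun h hh0 hh1 => ?_⟩
  have hex : ∃ i : ℕ, i0 ≤ i ∧ H i ≤ h := by
    obtain ⟨J3, hJ3⟩ := Filter.eventually_atTop.1 (hHt.eventually (gt_mem_nhds hh0))
    exact ⟨i0 + J3, by omega, (hJ3 (i0 + J3) (by omega)).le⟩
  obtain ⟨g1, g2⟩ := Nat.find_spec hex
  obtain ⟨i, hi⟩ : ∃ i, i = Nat.find hex := ⟨_, rfl⟩
  rw [← hi] at g1 g2
  have g3 : i ≠ i0 := by
    intro h3
    rw [h3] at g2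
    have := hHpos i0 (by omega)
    linarith
  have g4 : h < H (i - 1) := by
    have h3 := Nat.find_min hex (show i - 1 < Nat.find hex by omega)
    push Not at h3
    exact h3 (by omega)
  refine (hbig i (by omega)).mono g2 ?_
  have g5 : H (i - 1) ≤ 1 := (hJ2 (i - 1) (by omega)).le
  have g6 : psi h ≤ psi (H (i - 1)) := psi_mono hh0.le g4.le g5
  have g7 : psi (H (i - 1)) ≤ 2 * B * ((i - 1 : ℕ) : ℝ) / 2 ^ (i - 1) := by
    rw [hH] at g5 ⊢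
    exact psi_levy hB1 (by omega) g5
  have e1 : (2 : ℝ) ^ i = 2 * 2 ^ (i - 1) := by
    rw [← pow_succ']
    congr 1
    omega
  have e2 : ((i - 1 : ℕ) : ℝ) ≤ i := by exact_mod_cast Nat.sub_le i 1
  calc x / (4 * B) * psi h ≤ x / (4 * B) * (2 * B * ((i - 1 : ℕ) : ℝ) / 2 ^ (i - 1)) :=
        mul_le_mul_of_nonneg_left (g6.trans g7) (by positivity)
    _ ≤ x / (4 * B) * (2 * B * i / 2 ^ (i - 1)) := by gcongr
    _ = x * i / 2 ^ i := by
        rw [e1]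
        field_simp
        ring

/-- **the exact modulus of continuity of the weak limits** -/
theorem exact_of {m : ℕ → ℝ} (hlo : ∃ c : ℝ, 0 < c ∧ ∀ k : ℕ, c * (2 : ℝ) ^ (4 / 3 * (k : ℝ)) ≤ m k)
    (hup : ∃ C : ℝ, ∀ k : ℕ, m k ≤ C * (2 : ℝ) ^ (4 / 3 * (k : ℝ))) (hF : FactsX m) (hM : ModuY m) (hL : LevyX m) :
    ∃ c C : ℝ, 0 < c ∧
      ∀ (φ : ℕ → ℕ) (ν : Measure C(unitInterval, ℂ)), Tendsto φ atTop atTop → IsProbabilityMeasure ν → LawTo φ ν →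
        ∀ᵐ γ : C(unitInterval, ℂ) ∂ν, ∃ h0 : ℝ, 0 < h0 ∧ ∀ h : ℝ, 0 < h → h ≤ h0 →
          (∀ s t : unitInterval, |(s : ℝ) - t| ≤ h →
            ‖γ s - γ t‖ ≤ C * (h ^ (3 / 4 : ℝ) * (1 - Real.log h) ^ (1 / 4 : ℝ))) ∧
          ∃ s t : unitInterval, |(s : ℝ) - t| ≤ h ∧
            c * (h ^ (3 / 4 : ℝ) * (1 - Real.log h) ^ (1 / 4 : ℝ)) ≤ ‖γ s - γ t‖ := by
  obtain ⟨R, κ, c0, C1, cd, Cu, cs, Cs, N, hB⟩ := base_of hlo hup hF
  obtain ⟨C, hC, h1⟩ := upper_of hB hM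
  obtain ⟨c, hc, h2⟩ := lower_of hlo hup hB hL
  refine ⟨c, C, hc, fun φ ν hφ hν hlim => ?_⟩
  filter_upwards [h1 φ ν hφ hν hlim, h2 φ ν hφ hν hlim] with γ h3 h4
  obtain ⟨a, ha, h3⟩ := h3
  obtain ⟨b, hb, h4⟩ := h4
  refine ⟨min 1 (min a b), lt_min one_pos (lt_min ha hb), fun h hh0 hh1 => ⟨fun s t hst => ?_, ?_⟩⟩
  · have h5 : h ≤ 1 := hh1.trans (min_le_left _ _)
    have h6 : h ≤ a := hh1.trans ((min_le_right _ _).trans (min_le_left _ _))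
    exact (h3 s t (hst.trans h6)).trans (mul_le_mul_of_nonneg_left (psi_mono (abs_nonneg _) hst h5) hC.le)
  · have h6 : h ≤ b := hh1.trans ((min_le_right _ _).trans (min_le_right _ _))
    exact h4 h hh0 h6

end NTSF.Mod
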