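import Mathlib.MeasureTheory.Measure.Portmanteau
import Mathlib.MeasureTheory.Measure.Prokhorov
import Mathlib.MeasureTheory.Measure.FiniteMeasureProd
import Mathlib.MeasureTheory.Measure.DiracProba
import Mathlib.Topology.Separation.Lemmas
import Mathlib.Tactic

/-!
# Sequences that merge with their shift (helper83)

`NTSF.Lims x`: the set of the subsequential limits of `x`. If `x` stays in a compact subset of a metrizable space and
`x (n + 1)` merges with `x n`, the set is non-empty, compact and connected (**`lims_connected`**): either `x` converges or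
there are uncountably many subsequential limits (**`lims_cases`**).
**`merge_of_scaled`**: merging of the laws of scaled random points of a normed space gives merging of the laws.
-/

set_option autoImplicit false

set_option linter.unusedSectionVars false

namespace NTSF

open Filter Topology MeasureTheory

/-- the set of the subsequential limits -/
def Lims {X : Type*} [TopologicalSpace X] (x : ℕ → X) : Set X :=
  {y | ∃ φ : ℕ → ℕ, StrictMono φ ∧ Tendsto (fun k => x (φ k)) atTop (𝓝 y)}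

/-- x (n + 1) merges with x n: the same subsequential limits along the same subsequences -/
def Merges {X : Type*} [TopologicalSpace X] (x : ℕ → X) : Prop :=
  ∀ φ : ℕ → ℕ, StrictMono φ → ∀ y : X, Tendsto (fun k => x (φ k)) atTop (𝓝 y) →
    Tendsto (fun k => x (φ k + 1)) atTop (𝓝 y)

section

variable {X : Type*} [MetricSpace X] {x : ℕ → X} {K : Set X}

lemma merges_dist (hK : IsCompact K) (hx : ∀ n, x n ∈ K) (hm : Merges x) :
    Tendsto (fun n => dist (x (n + 1)) (x n)) atTop (𝓝 0) := by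
  refine tendsto_of_subseq_tendsto fun ns hns => ?_
  obtain ⟨ψ, hψ, hns'⟩ := strictMono_subseq_of_tendsto_atTop hns
  obtain ⟨y, -, θ, hθ, hlim⟩ := hK.tendsto_subseq (x := fun k => x (ns (ψ k))) (fun k => hx _)
  refine ⟨fun k => ψ (θ k), ?_⟩
  have h1 := hm (fun k => ns (ψ (θ k))) (hns'.comp hθ) y hlim
  have h2 := h1.dist hlim
  rw [dist_self] at h2
  exact h2

lemma lims_infinite {P : X → Prop} (hK : IsCompact K) (hx : ∀ n, x n ∈ K)
    (h : ∀ N : ℕ, ∃ n, N ≤ n ∧ P (x n)) (hP : IsClosed {z | P z}) : ∃ y ∈ Lims x, P y := by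
  have h1 : ∃ᶠ n in atTop, P (x n) := frequently_atTop.2 fun N => by
    obtain ⟨n, a, b⟩ := h N
    exact ⟨n, a, b⟩
  obtain ⟨φ, hφ, h2⟩ := extraction_of_frequently_atTop h1
  obtain ⟨y, -, θ, hθ, hlim⟩ := hK.tendsto_subseq (x := fun k => x (φ k)) (fun k => hx _)
  refine ⟨y, ⟨fun k => φ (θ k), hφ.comp hθ, hlim⟩, ?_⟩
  exact hP.mem_of_tendsto hlim (Eventually.of_forall fun k => h2 _)

lemma lims_nonempty (hK : IsCompact K) (hx : ∀ n, x n ∈ K) : (Lims x).Nonempty := by
  obtain ⟨y, -, θ, hθ, hlim⟩ := hK.tendsto_subseq (x := x) hx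
  exact ⟨y, θ, hθ, hlim⟩

lemma lims_eq : Lims x = {y | MapClusterPt y atTop x} := by
  ext y
  constructor
  · rintro ⟨φ, hφ, h⟩
    exact h.mapClusterPt.of_comp hφ.tendsto_atTop
  · intro h
    obtain ⟨φ, hφ, h2⟩ := h.tendsto_subseq
    exact ⟨φ, hφ, h2⟩

lemma lims_closed : IsClosed (Lims x) := by
  rw [lims_eq]
  exact isClosed_setOfPred_clusterPt

lemma lims_compact (hK : IsCompact K) (hx : ∀ n, x n ∈ K) : IsCompact (Lims x) := by
  refine hK.of_isClosed_subset lims_closed ?_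
  rintro y ⟨φ, -, h⟩
  exact hK.isClosed.mem_of_tendsto h (Eventually.of_forall fun k => hx _)

/-- **the set of the subsequential limits is connected** -/
theorem lims_connected (hK : IsCompact K) (hx : ∀ n, x n ∈ K) (hm : Merges x) : IsConnected (Lims x) := by
  refine ⟨lims_nonempty hK hx, isPreconnected_closed_iff.2 fun t t' ht ht' hsub hne hne' => ?_⟩
  by_contra hcon
  obtain ⟨A, hA⟩ : ∃ A : Set X, A = Lims x ∩ t := ⟨_, rfl⟩
  obtain ⟨B, hB⟩ : ∃ B : Set X, B = Lims x ∩ t' := ⟨_, rfl⟩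
  have hcA : IsCompact A := hA ▸ (lims_compact hK hx).inter_right ht
  have hcB : IsCompact B := hB ▸ (lims_compact hK hx).inter_right ht'
  have hnA : A.Nonempty := hA ▸ hne
  have hnB : B.Nonempty := hB ▸ hne'
  have hAB : ∀ y ∈ B, y ∉ A := by
    intro y hy hy'
    rw [hA] at hy'
    rw [hB] at hy
    exact hcon ⟨y, hy.1, hy'.2, hy.2⟩
  -- the distance
  obtain ⟨b, hb, hmin⟩ := hcB.exists_isMinOn hnB (f := fun z => Metric.infDist z A)
    (Metric.continuous_infDist_pt A).continuousOn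
  have hδ : 0 < Metric.infDist b A := by
    rcases (Metric.infDist_nonneg (x := b) (s := A)).lt_or_eq with h | h
    · exact h
    · exact absurd ((hcA.isClosed.mem_iff_infDist_zero hnA).2 h.symm) (hAB b hb)
  obtain ⟨δ, hδd⟩ : ∃ δ : ℝ, δ = Metric.infDist b A := ⟨_, rfl⟩
  rw [← hδd] at hδ
  have hBδ : ∀ y ∈ B, δ ≤ Metric.infDist y A := fun y hy => hδd ▸ hmin hy
  have hmd := merges_dist hK hx hm
  obtain ⟨N, hN⟩ : ∃ N : ℕ, ∀ n, N ≤ n → dist (x (n + 1)) (x n) < δ / 3 := by
    have := (tendsto_order.1 hmd).2 (δ / 3) (by positivity)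
    exact eventually_atTop.1 this
  have hg : ∀ n, N ≤ n → |Metric.infDist (x (n + 1)) A - Metric.infDist (x n) A| < δ / 3 := by
    intro n hn
    refine lt_of_le_of_lt ?_ (hN n hn)
    have h1 := Metric.infDist_le_infDist_add_dist (x := x (n + 1)) (y := x n) (s := A)
    have h2 := Metric.infDist_le_infDist_add_dist (x := x n) (y := x (n + 1)) (s := A)
    rw [dist_comm (x n)] at h2
    rw [abs_le]
    constructor <;> linarith
  have hlow : ∀ M : ℕ, ∃ n, M ≤ n ∧ Metric.infDist (x n) A < δ / 3 := by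
    intro M
    obtain ⟨a, ha⟩ := hnA
    have ha' := ha
    rw [hA] at ha'
    obtain ⟨φ, hφ, hlim⟩ := ha'.1
    have h1 : Tendsto (fun k => Metric.infDist (x (φ k)) A) atTop (𝓝 (Metric.infDist a A)) :=
      ((Metric.continuous_infDist_pt A).tendsto a).comp hlim
    rw [Metric.infDist_zero_of_mem ha] at h1
    have h2 := (tendsto_order.1 h1).2 (δ / 3) (by positivity)
    obtain ⟨k, h3, h4⟩ := (h2.and (hφ.tendsto_atTop.eventually_ge_atTop M)).exists
    exact ⟨φ k, h4, h3⟩
  have hhigh : ∀ M : ℕ, ∃ n, M ≤ n ∧ 2 * (δ / 3) < Metric.infDist (x n) A := by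
    intro M
    have hb' := hb
    rw [hB] at hb'
    obtain ⟨φ, hφ, hlim⟩ := hb'.1
    have h1 : Tendsto (fun k => Metric.infDist (x (φ k)) A) atTop (𝓝 (Metric.infDist b A)) :=
      ((Metric.continuous_infDist_pt A).tendsto b).comp hlim
    rw [← hδd] at h1
    have h2 := (tendsto_order.1 h1).1 (2 * (δ / 3)) (by linarith)
    obtain ⟨k, h3, h4⟩ := (h2.and (hφ.tendsto_atTop.eventually_ge_atTop M)).exists
    exact ⟨φ k, h4, h3⟩
  have hmid : ∀ M : ℕ, ∃ n, M ≤ n ∧ (δ / 3 ≤ Metric.infDist (x n) A ∧ Metric.infDist (x n) A ≤ 2 * (δ / 3)) := by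
    intro M
    obtain ⟨n1, h1, h2⟩ := hlow (max M N)
    have hex : ∃ k, δ / 3 ≤ Metric.infDist (x (n1 + k)) A := by
      obtain ⟨n2, h3, h4⟩ := hhigh n1
      refine ⟨n2 - n1, ?_⟩
      rw [Nat.add_sub_cancel' h3]
      linarith
    classical
    obtain ⟨k, hk⟩ : ∃ k, k = Nat.find hex := ⟨_, rfl⟩
    have hk1 : δ / 3 ≤ Metric.infDist (x (n1 + k)) A := hk ▸ Nat.find_spec hex
    rcases Nat.eq_zero_or_pos k with h0 | h0
    · rw [h0, add_zero] at hk1
      linarith
    · have hk2 : ¬ δ / 3 ≤ Metric.infDist (x (n1 + (k - 1))) A := Nat.find_min hex (by omega)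
      have h5 := hg (n1 + (k - 1)) (le_trans (le_of_max_le_right h1) (Nat.le_add_right _ _))
      rw [show n1 + (k - 1) + 1 = n1 + k by omega, abs_lt] at h5
      refine ⟨n1 + k, le_trans (le_of_max_le_left h1) (Nat.le_add_right _ _), hk1, ?_⟩
      push Not at hk2
      linarith [h5.2]
  have hcl : IsClosed {z : X | δ / 3 ≤ Metric.infDist z A ∧ Metric.infDist z A ≤ 2 * (δ / 3)} :=
    (isClosed_le continuous_const (Metric.continuous_infDist_pt A)).inter
      (isClosed_le (Metric.continuous_infDist_pt A) continuous_const)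
  obtain ⟨y, hy, h6, h7⟩ := lims_infinite hK hx hmid hcl
  rcases hsub hy with h8 | h8
  · have h9 : y ∈ A := hA ▸ ⟨hy, h8⟩
    rw [Metric.infDist_zero_of_mem h9] at h6
    linarith
  · have h9 : y ∈ B := hB ▸ ⟨hy, h8⟩
    linarith [hBδ y h9]

/-- **either the sequence converges or there are uncountably many subsequential limits** -/
theorem lims_cases (hK : IsCompact K) (hx : ∀ n, x n ∈ K) (hm : Merges x) :
    (∃ y, Tendsto x atTop (𝓝 y)) ∨ ¬ (Lims x).Countable := by
  by_cases h : (Lims x).Subsingleton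
  · left
    obtain ⟨y, hy⟩ := lims_nonempty hK hx
    refine ⟨y, tendsto_of_subseq_tendsto fun ns hns => ?_⟩
    obtain ⟨ψ, hψ, hns'⟩ := strictMono_subseq_of_tendsto_atTop hns
    obtain ⟨z, -, θ, hθ, hlim⟩ := hK.tendsto_subseq (x := fun k => x (ns (ψ k))) (fun k => hx _)
    have hz : z = y := h ⟨fun k => ns (ψ (θ k)), hns'.comp hθ, hlim⟩ hy
    exact ⟨fun k => ψ (θ k), hz ▸ hlim⟩
  · right
    intro hc
    apply h
    have h1 := hc.isTotallyDisconnected
    exact h1 (Lims x) subset_rfl (lims_connected hK hx hm).isPreconnected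

end

section

variable {E : Type*} [NormedAddCommGroup E] [NormedSpace ℝ E] [MeasurableSpace E] [BorelSpace E]
  [SecondCountableTopology E]

/-- joint convergence of the factor and of the law -/
lemma tendsto_integral_smul {P : ℕ → ProbabilityMeasure E} {ν : ProbabilityMeasure E} {s : ℕ → ℝ} {s0 : ℝ}
    (hP : Tendsto P atTop (𝓝 ν)) (hs : Tendsto s atTop (𝓝 s0)) (f : BoundedContinuousFunction E ℝ) :
    Tendsto (fun k => ∫ z, f (s k • z) ∂(P k : Measure E)) atTop (𝓝 (∫ z, f (s0 • z) ∂(ν : Measure E))) := by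
  have h1 : Tendsto (fun k => (diracProba (s k)).prod (P k)) atTop (𝓝 ((diracProba s0).prod ν)) := by
    have h2 : Tendsto (fun k => (diracProba (s k), P k)) atTop (𝓝 (diracProba s0, ν)) :=
      ((continuous_diracProba.tendsto s0).comp hs).prodMk_nhds hP
    exact (ProbabilityMeasure.continuous_prod.tendsto _).comp h2
  have hg : Continuous fun p : ℝ × E => f (p.1 • p.2) := f.continuous.comp (continuous_fst.smul continuous_snd)
  have h3 := (ProbabilityMeasure.tendsto_iff_forall_integral_tendsto.1 h1)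
    (BoundedContinuousFunction.mkOfBound ⟨fun p : ℝ × E => f (p.1 • p.2), hg⟩ (dist f 0 + dist f 0) fun x y => by
      refine (dist_triangle _ 0 _).trans (add_le_add ?_ ?_)
      · exact f.dist_coe_le_dist (g := 0) _
      · rw [dist_comm]
        exact f.dist_coe_le_dist (g := 0) _)
  have key : ∀ (a : ℝ) (μ : ProbabilityMeasure E), ∫ p : ℝ × E, f (p.1 • p.2) ∂(((diracProba a).prod μ : ProbabilityMeasure (ℝ × E)) :
      Measure (ℝ × E)) = ∫ z, f (a • z) ∂(μ : Measure E) := by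
    intro a μ
    have h4 : (((diracProba a).prod μ : ProbabilityMeasure (ℝ × E)) : Measure (ℝ × E)) =
        (Measure.dirac a).prod (μ : Measure E) := rfl
    rw [h4, Measure.dirac_prod, integral_map]
    · exact (measurable_prodMk_left).aemeasurable
    · exact hg.aestronglyMeasurable
  have h5 : ∀ k, ∫ p, (BoundedContinuousFunction.mkOfBound ⟨fun p : ℝ × E => f (p.1 • p.2), hg⟩ (dist f 0 + dist f 0) fun x y => by
      refine (dist_triangle _ 0 _).trans (add_le_add ?_ ?_)
      · exact f.dist_coe_le_dist (g := 0) _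
      · rw [dist_comm]
        exact f.dist_coe_le_dist (g := 0) _) p ∂(((diracProba (s k)).prod (P k) : ProbabilityMeasure (ℝ × E)) :
      Measure (ℝ × E)) = ∫ z, f (s k • z) ∂(P k : Measure E) := fun k => key _ _
  simp only [h5] at h3
  refine h3.trans (le_of_eq ?_)
  congr 1
  exact key _ _

end

/-! ### Laws of scaled random points -/

section

variable {E : Type*} [NormedAddCommGroup E] [NormedSpace ℝ E] [MeasurableSpace E] [BorelSpace E]
  [SecondCountableTopology E]

lemma bddc {F : Type*} {f : F → ℝ} (h : ∀ x, 0 ≤ f x ∧ f x ≤ 1) (x y : F) : dist (f x) (f y) ≤ 1 := by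
  rw [Real.dist_eq, abs_le]
  have := h x
  have := h y
  constructor <;> linarith

/-- the Lipschitz functions with values in the unit interval determine the law -/
lemma eq_of_lip {μ μ' : ProbabilityMeasure E} (h : ∀ f : E → ℝ, (∀ x, 0 ≤ f x ∧ f x ≤ 1) → (∃ L, LipschitzWith L f) →
    ∫ z, f z ∂(μ : Measure E) = ∫ z, f z ∂(μ' : Measure E)) : μ = μ' := by
  have h1 : Tendsto (fun _ : ℕ => μ) atTop (𝓝 μ') := by
    rw [tendsto_iff_forall_lipschitz_integral_tendsto]
    rintro f ⟨C, hC⟩ ⟨L, hL⟩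
    have h2 : ∫ z, f z ∂(μ : Measure E) = ∫ z, f z ∂(μ' : Measure E) := by
      obtain ⟨D, hD⟩ : ∃ D : ℝ, D = |C| + 1 := ⟨_, rfl⟩
      have hD0 : 0 < D := by
        rw [hD]
        positivity
      have hCD : C ≤ D := by
        rw [hD]
        linarith [le_abs_self C]
      obtain ⟨g, hg⟩ : ∃ g : E → ℝ, g = fun x => (f x - f 0 + D) / (2 * D) := ⟨_, rfl⟩
      have hg01 : ∀ x, 0 ≤ g x ∧ g x ≤ 1 := by
        intro x
        have h3 := (hC x 0).trans hCD
        rw [Real.dist_eq, abs_le] at h3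
        rw [hg]
        constructor
        · exact div_nonneg (by linarith) (by positivity)
        · rw [div_le_one (by positivity)]
          linarith
      have hgL : ∃ L', LipschitzWith L' g := by
        refine ⟨Real.toNNReal ((L : ℝ) / (2 * D)), LipschitzWith.of_dist_le_mul fun x y => ?_⟩
        rw [Real.coe_toNNReal _ (by positivity)]
        have h3 := hL.dist_le_mul x y
        rw [Real.dist_eq] at h3 ⊢
        rw [hg]
        have e : (f x - f 0 + D) / (2 * D) - (f y - f 0 + D) / (2 * D) = (f x - f y) / (2 * D) := by ring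
        show |(f x - f 0 + D) / (2 * D) - (f y - f 0 + D) / (2 * D)| ≤ _
        rw [e, abs_div, abs_of_pos (show (0 : ℝ) < 2 * D by positivity), div_mul_eq_mul_div]
        exact div_le_div_of_nonneg_right h3 (by positivity)
      have h4 := h g hg01 hgL
      have hfg : ∀ x, f x = 2 * D * g x + (f 0 - D) := by
        intro x
        rw [hg]
        field_simp
        ring
      have hgc : Continuous g := hgL.choose_spec.continuous
      have hgi : ∀ ρ : ProbabilityMeasure E, Integrable g (ρ : Measure E) := by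
        intro ρ
        refine Integrable.of_bound hgc.aestronglyMeasurable 1 (Eventually.of_forall fun x => ?_)
        rw [Real.norm_eq_abs, abs_le]
        have := hg01 x
        constructor <;> linarith
      have h5 : ∀ ρ : ProbabilityMeasure E, ∫ z, f z ∂(ρ : Measure E) = 2 * D * ∫ z, g z ∂(ρ : Measure E) + (f 0 - D) := by
        intro ρ
        have h6 : ∫ z, f z ∂(ρ : Measure E) = ∫ z, (2 * D * g z + (f 0 - D)) ∂(ρ : Measure E) :=
          integral_congr_ae (Eventually.of_forall hfg)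
        rw [h6, integral_add ((hgi ρ).const_mul _) (integrable_const _), integral_const_mul, integral_const]
        simp
      rw [h5, h5, h4]
    rw [h2]
    exact tendsto_const_nhds
  exact tendsto_nhds_unique tendsto_const_nhds h1

variable {P : ℕ → ProbabilityMeasure E} {σ : ℕ → ℝ} {c C : ℝ} {q : E → ℝ}

/-- the common limit of the laws number n and n + 1 and of the factors -/
lemma scaled_core (hK : ∀ φ : ℕ → ℕ, Tendsto φ atTop atTop → ∃ ψ : ℕ → ℕ, StrictMono ψ ∧ ∃ ν : ProbabilityMeasure E,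
      Tendsto (fun k => P (φ (ψ k))) atTop (𝓝 ν)) (hc : 0 < c) (hσ : ∀ n, c ≤ σ n ∧ σ n ≤ C)
    (hm : ∀ f : E → ℝ, (∀ x, 0 ≤ f x ∧ f x ≤ 1) → (∃ L, LipschitzWith L f) →
      Tendsto (fun n => ∫ z, f (σ (n + 1) • z) ∂(P (n + 1) : Measure E) - ∫ z, f (σ n • z) ∂(P n : Measure E)) atTop (𝓝 0))
    (hq : ∀ (s : ℝ) (z : E), q (s • z) = s ^ 2 * q z) (hqc : Continuous q)
    (h1 : ∀ φ : ℕ → ℕ, Tendsto φ atTop atTop → ∀ ν : ProbabilityMeasure E, Tendsto (fun k => P (φ k)) atTop (𝓝 ν) →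
      ∫ z, q z ∂(ν : Measure E) = 1) {φ : ℕ → ℕ} (hφ : Tendsto φ atTop atTop) :
    ∃ ψ : ℕ → ℕ, StrictMono ψ ∧ ∃ (ν : ProbabilityMeasure E) (s : ℝ), 0 < s ∧
      Tendsto (fun k => P (φ (ψ k))) atTop (𝓝 ν) ∧ Tendsto (fun k => P (φ (ψ k) + 1)) atTop (𝓝 ν) ∧
      Tendsto (fun k => σ (φ (ψ k))) atTop (𝓝 s) ∧ Tendsto (fun k => σ (φ (ψ k) + 1)) atTop (𝓝 s) := by
  obtain ⟨ψ1, m1, ν, l1⟩ := hK φ hφ
  have t1 : Tendsto (fun k => φ (ψ1 k) + 1) atTop atTop := (tendsto_add_atTop_nat 1).comp (hφ.comp m1.tendsto_atTop)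
  obtain ⟨ψ2, m2, ν', l2⟩ := hK _ t1
  obtain ⟨s, hs, ψ3, m3, l3⟩ := (isCompact_Icc (a := c) (b := C)).tendsto_subseq (x := fun k => σ (φ (ψ1 (ψ2 k))))
    (fun k => hσ _)
  obtain ⟨s', hs', ψ4, m4, l4⟩ := (isCompact_Icc (a := c) (b := C)).tendsto_subseq (x := fun k => σ (φ (ψ1 (ψ2 (ψ3 k))) + 1))
    (fun k => hσ _)
  obtain ⟨ψ, hψ⟩ : ∃ ψ : ℕ → ℕ, ψ = fun k => ψ1 (ψ2 (ψ3 (ψ4 k))) := ⟨_, rfl⟩
  have mψ : StrictMono ψ := hψ ▸ m1.comp (m2.comp (m3.comp m4))
  have L1 : Tendsto (fun k => P (φ (ψ k))) atTop (𝓝 ν) := by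
    rw [hψ]
    exact l1.comp ((m2.comp (m3.comp m4)).tendsto_atTop)
  have L2 : Tendsto (fun k => P (φ (ψ k) + 1)) atTop (𝓝 ν') := by
    rw [hψ]
    exact l2.comp ((m3.comp m4).tendsto_atTop)
  have L3 : Tendsto (fun k => σ (φ (ψ k))) atTop (𝓝 s) := by
    rw [hψ]
    exact l3.comp m4.tendsto_atTop
  have L4 : Tendsto (fun k => σ (φ (ψ k) + 1)) atTop (𝓝 s') := by
    rw [hψ]
    exact l4
  have hs0 : 0 < s := lt_of_lt_of_le hc hs.1
  have hs0' : 0 < s' := lt_of_lt_of_le hc hs'.1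
  have tφ : Tendsto (fun k => φ (ψ k)) atTop atTop := hφ.comp mψ.tendsto_atTop
  have tφ' : Tendsto (fun k => φ (ψ k) + 1) atTop atTop := (tendsto_add_atTop_nat 1).comp tφ
  -- the scaled limits are equal
  have hcont : ∀ a : ℝ, Continuous fun z : E => a • z := fun a => continuous_const_smul a
  have hmeas : ∀ a : ℝ, Measurable fun z : E => a • z := fun a => (hcont a).measurable
  have eqm : ν.map (hmeas s).aemeasurable = ν'.map (hmeas s').aemeasurable := by
    refine eq_of_lip fun f hf hL => ?_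
    have hfc : Continuous f := hL.choose_spec.continuous
    have i1 : ∀ (ρ : ProbabilityMeasure E) (a : ℝ), ∫ z, f z ∂((ρ.map (hmeas a).aemeasurable : ProbabilityMeasure E) : Measure E) =
        ∫ z, f (a • z) ∂(ρ : Measure E) := by
      intro ρ a
      rw [ProbabilityMeasure.toMeasure_map, integral_map (hmeas a).aemeasurable hfc.aestronglyMeasurable]
    rw [i1, i1]
    have a1 := tendsto_integral_smul L1 L3 (BoundedContinuousFunction.mkOfBound ⟨f, hfc⟩ 1 (bddc hf))
    have a2 := tendsto_integral_smul L2 L4 (BoundedContinuousFunction.mkOfBound ⟨f, hfc⟩ 1 (bddc hf))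
    have a3 := (hm f hf hL).comp tφ
    have a4 := a2.sub a1
    have a5 := tendsto_nhds_unique a3 a4
    have a6 : ∫ z, f (s' • z) ∂(ν' : Measure E) - ∫ z, f (s • z) ∂(ν : Measure E) = 0 := a5.symm
    linarith
  have q1 : ∀ (ρ : ProbabilityMeasure E) (a : ℝ), ∫ z, q z ∂((ρ.map (hmeas a).aemeasurable : ProbabilityMeasure E) : Measure E) =
      a ^ 2 * ∫ z, q z ∂(ρ : Measure E) := by
    intro ρ a
    rw [ProbabilityMeasure.toMeasure_map, integral_map (hmeas a).aemeasurable hqc.aestronglyMeasurable]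
    simp_rw [hq]
    rw [integral_const_mul]
  have hss : s = s' := by
    have b1 := q1 ν s
    have b2 := q1 ν' s'
    rw [eqm, b2, h1 _ tφ ν L1, h1 _ tφ' ν' L2] at b1
    have b3 : s' ^ 2 = s ^ 2 := by linarith
    exact ((sq_eq_sq₀ hs0'.le hs0.le).1 b3).symm
  have hνν : ν = ν' := by
    have b1 : ∀ ρ : ProbabilityMeasure E, (ρ.map (hmeas s).aemeasurable).map (hmeas s⁻¹).aemeasurable = ρ := by
      intro ρ
      apply Subtype.ext
      show ((ρ.map (hmeas s).aemeasurable).map (hmeas s⁻¹).aemeasurable : Measure E) = (ρ : Measure E)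
      rw [ProbabilityMeasure.toMeasure_map, ProbabilityMeasure.toMeasure_map, Measure.map_map (hmeas s⁻¹) (hmeas s)]
      have e : ((fun z : E => s⁻¹ • z) ∘ fun z : E => s • z) = id := by
        funext z
        show s⁻¹ • (s • z) = z
        rw [smul_smul, inv_mul_cancel₀ hs0.ne', one_smul]
      rw [e, Measure.map_id]
    rw [← b1 ν, ← b1 ν']
    congr 1
    rw [eqm, hss]
  refine ⟨ψ, mψ, ν, s, hs0, L1, ?_, L3, ?_⟩
  · rw [hνν]
    exact L2
  · rw [hss]
    exact L4

/-- **merging of the laws of the scaled points gives merging of the laws, and the ratio of the factors tends to one** -/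
theorem merge_of_scaled (hK : ∀ φ : ℕ → ℕ, Tendsto φ atTop atTop → ∃ ψ : ℕ → ℕ, StrictMono ψ ∧ ∃ ν : ProbabilityMeasure E,
      Tendsto (fun k => P (φ (ψ k))) atTop (𝓝 ν)) (hc : 0 < c) (hσ : ∀ n, c ≤ σ n ∧ σ n ≤ C)
    (hm : ∀ f : E → ℝ, (∀ x, 0 ≤ f x ∧ f x ≤ 1) → (∃ L, LipschitzWith L f) →
      Tendsto (fun n => ∫ z, f (σ (n + 1) • z) ∂(P (n + 1) : Measure E) - ∫ z, f (σ n • z) ∂(P n : Measure E)) atTop (𝓝 0))
    (hq : ∀ (s : ℝ) (z : E), q (s • z) = s ^ 2 * q z) (hqc : Continuous q)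
    (h1 : ∀ φ : ℕ → ℕ, Tendsto φ atTop atTop → ∀ ν : ProbabilityMeasure E, Tendsto (fun k => P (φ k)) atTop (𝓝 ν) →
      ∫ z, q z ∂(ν : Measure E) = 1) : Merges P ∧ Tendsto (fun n => σ (n + 1) / σ n) atTop (𝓝 1) := by
  constructor
  · intro φ hφ y hy
    refine tendsto_of_subseq_tendsto fun ns hns => ?_
    obtain ⟨ψ, mψ, ν, s, hs, L1, L2, -, -⟩ := scaled_core hK hc hσ hm hq hqc h1 (φ := fun k => φ (ns k))
      (hφ.tendsto_atTop.comp hns)
    have h2 : Tendsto (fun k => P (φ (ns (ψ k)))) atTop (𝓝 y) := hy.comp (hns.comp mψ.tendsto_atTop)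
    have h3 : ν = y := tendsto_nhds_unique L1 h2
    exact ⟨ψ, h3 ▸ L2⟩
  · refine tendsto_of_subseq_tendsto fun ns hns => ?_
    obtain ⟨ψ, mψ, ν, s, hs, -, -, L3, L4⟩ := scaled_core hK hc hσ hm hq hqc h1 (φ := ns) hns
    refine ⟨ψ, ?_⟩
    have h2 := L4.div L3 hs.ne'
    rw [div_self hs.ne'] at h2
    exact h2

end

end NTSF
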