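import Pool.Agent.NTS.Base
import Pool.Agent.PHW.DefsB

/-!
NTW (natural time for all self-avoiding walks): the dictionary between the self-avoiding walks with n steps and the
words with n letters (first step up, last letter free): rotation invariant properties have the same proportion.
-/

set_option autoImplicit false

namespace NTSF

open Finset

open HexObs hiding pos

open Pool.Agent.NTS.Res

open NTF (sw aa de Ed JJ de_aa gf_card xcn_pos)

open scoped ENNReal

/-! ### Rotation -/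

/-- the third root of unity -/
noncomputable def om : ℂ := Complex.exp (2 * (Real.pi : ℂ) * Complex.I / 3)

lemma om_cube : om * (om * om) = 1 := by
  unfold om
  rw [← Complex.exp_add, ← Complex.exp_add]
  rw [show 2 * (Real.pi : ℂ) * Complex.I / 3 + (2 * (Real.pi : ℂ) * Complex.I / 3 + 2 * (Real.pi : ℂ) * Complex.I / 3) =
    2 * (Real.pi : ℂ) * Complex.I by ring]
  exact Complex.exp_two_pi_mul_I

lemma om_ne : om ≠ 0 := Complex.exp_ne_zero _

lemma om_norm : ‖om‖ = 1 := by
  unfold om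
  rw [show 2 * (Real.pi : ℂ) * Complex.I / 3 = ((2 * Real.pi / 3 : ℝ) : ℂ) * Complex.I by
    push_cast
    ring]
  exact Complex.norm_exp_ofReal_mul_I _

lemma step_rot (i : ℕ) (a : Fin 3) : step i (a + 1) = om * step i a := by
  unfold step
  rw [mul_left_comm]
  congr 1
  have e1 : Complex.exp (2 * (Real.pi : ℂ) * Complex.I * ((1 : ℕ) : ℂ) / 3) = om := by
    unfold om
    congr 1
    push_cast
    ring
  have e2 : Complex.exp (2 * (Real.pi : ℂ) * Complex.I * ((2 : ℕ) : ℂ) / 3) = om * om := by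
    unfold om
    rw [← Complex.exp_add]
    congr 1
    push_cast
    ring
  have e0 : Complex.exp (2 * (Real.pi : ℂ) * Complex.I * ((0 : ℕ) : ℂ) / 3) = 1 := by
    rw [Nat.cast_zero, mul_zero, zero_div, Complex.exp_zero]
  fin_cases a
  · show Complex.exp (2 * (Real.pi : ℂ) * Complex.I * ((1 : ℕ) : ℂ) / 3) =
      om * Complex.exp (2 * (Real.pi : ℂ) * Complex.I * ((0 : ℕ) : ℂ) / 3)
    rw [e1, e0, mul_one]
  · show Complex.exp (2 * (Real.pi : ℂ) * Complex.I * ((2 : ℕ) : ℂ) / 3) =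
      om * Complex.exp (2 * (Real.pi : ℂ) * Complex.I * ((1 : ℕ) : ℂ) / 3)
    rw [e2, e1]
  · show Complex.exp (2 * (Real.pi : ℂ) * Complex.I * ((0 : ℕ) : ℂ) / 3) =
      om * Complex.exp (2 * (Real.pi : ℂ) * Complex.I * ((2 : ℕ) : ℂ) / 3)
    rw [e0, e2, om_cube]

/-- the rotated walk -/
def rot {n : ℕ} (s : Fin n → Fin 3) : Fin n → Fin 3 := fun i => s i + 1

lemma pos_rot {n : ℕ} (s : Fin n → Fin 3) (k : ℕ) : pos (rot s) k = om * pos s k := by
  unfold pos
  rw [mul_sum]
  exact sum_congr rfl fun i _ => step_rot i (s i)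

lemma norm_rot {n : ℕ} (s : Fin n → Fin 3) (j k : ℕ) : ‖pos (rot s) j - pos (rot s) k‖ = ‖pos s j - pos s k‖ := by
  rw [pos_rot, pos_rot, ← mul_sub, norm_mul, om_norm, one_mul]

lemma norm_rot' {n : ℕ} (s : Fin n → Fin 3) (j : ℕ) : ‖pos (rot s) j‖ = ‖pos s j‖ := by
  rw [pos_rot, norm_mul, om_norm, one_mul]

lemma rot_mem {n : ℕ} {s : Fin n → Fin 3} : rot s ∈ saw n ↔ s ∈ saw n := by
  rw [mem_saw, mem_saw]
  constructor
  · intro h j k hj hk he
    exact h j k hj hk (by rw [pos_rot, pos_rot, he])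
  · intro h j k hj hk he
    rw [pos_rot, pos_rot] at he
    exact h j k hj hk (mul_left_cancel₀ om_ne he)

/-- by symmetry it is enough to count the walks whose first step goes up -/
theorem card_rot {n : ℕ} (hn : 0 < n) (P : (Fin n → Fin 3) → Prop) [DecidablePred P] (hP : ∀ s, P (rot s) ↔ P s) :
    ((saw n).filter P).card = 3 * ((saw n).filter fun s => P s ∧ s ⟨0, hn⟩ = 0).card := by
  have h1 : ((saw n).filter P).card = ∑ a : Fin 3, ((saw n).filter fun s => P s ∧ s ⟨0, hn⟩ = a).card := by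
    rw [card_eq_sum_card_fiberwise (f := fun s : Fin n → Fin 3 => s ⟨0, hn⟩) (t := univ) (fun _ _ => mem_univ _)]
    apply sum_congr rfl
    intro a _
    rw [filter_filter]
  have h2 : ∀ a : Fin 3, ((saw n).filter fun s => P s ∧ s ⟨0, hn⟩ = a + 1).card =
      ((saw n).filter fun s => P s ∧ s ⟨0, hn⟩ = a).card := by
    intro a
    symm
    apply card_bij (fun s _ => rot s)
    · intro s hs
      rw [Finset.mem_filter] at hs ⊢
      refine ⟨rot_mem.2 hs.1, (hP s).2 hs.2.1, ?_⟩
      show s ⟨0, hn⟩ + 1 = a + 1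
      rw [hs.2.2]
    · intro s _ s' _ h
      funext i
      have h3 : s i + 1 = s' i + 1 := congrFun h i
      exact add_right_cancel h3
    · intro s hs
      rw [Finset.mem_filter] at hs
      have e : rot (fun i => s i - 1) = s := by
        funext i
        show s i - 1 + 1 = s i
        rw [sub_add_cancel]
      refine ⟨fun i => s i - 1, ?_, e⟩
      rw [Finset.mem_filter, ← rot_mem, ← hP, e]
      refine ⟨hs.1, hs.2.1, ?_⟩
      show s ⟨0, hn⟩ - 1 = a
      rw [hs.2.2, add_sub_cancel_right]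
  rw [h1, Fin.sum_univ_three]
  have h3 := h2 0
  have h4 := h2 1
  rw [show (0 : Fin 3) + 1 = 1 from rfl] at h3
  rw [show (1 : Fin 3) + 1 = 2 from rfl] at h4
  rw [h4, h3]
  ring

/-! ### Words -/

lemma dx0 (t : List Bool) : dx up t 0 = up := rfl

lemma step_sw' (n : ℕ) (t : List Bool) (j : ℕ) (hj : j < n) : de j (sw n t ⟨j, hj⟩) = dx up t j := by
  show de j (aa (dx up t j)) = dx up t j
  have h1 := de_aa _ (dx_mem upd t j)
  have h2 := cl_dx up t j
  unfold de
  split_ifs at h2 ⊢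
  · exact h1.1 h2
  · exact h1.2 h2

lemma pos_sw (n : ℕ) (t : List Bool) (k : ℕ) (hk : k ≤ n) : pos (sw n t) k = JJ (vx oo up t k) :=
  NTF.pos_sw n t k hk

theorem sw_mem {n : ℕ} {t : List Bool} (ht : t ∈ SawN n) : sw n t ∈ saw n := by
  obtain ⟨hl, ht⟩ := ht
  have h2 := ht.inj
  rw [hl] at h2
  rw [mem_saw]
  intro j k hj hk he
  rw [pos_sw n t j hj, pos_sw n t k hk] at he
  have he := NTF.JJ_inj he
  rcases lt_trichotomy j k with h5 | h5 | h5
  · exact absurd he (h2 j k h5 hk)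
  · exact h5
  · exact absurd he.symm (h2 k j h5 hj)

lemma sw_first {n : ℕ} (hn : 0 < n) (t : List Bool) : sw n t ⟨0, hn⟩ = 0 := rfl

/-- the walk and the last letter determine the word -/
theorem sw_inj {n : ℕ} {t t' : List Bool} (hl : t.length = n) (hl' : t'.length = n)
    (he : sw n t = sw n t') (hb : tf t (n - 1) = tf t' (n - 1)) : t = t' := by
  have e1 : ∀ i, i < n → dx up t i = dx up t' i := by
    intro i hi
    rw [← step_sw' n t i hi, ← step_sw' n t' i hi, he]
  have hturn : ∀ d ∈ dirs, ∀ b b' : Bool, turn b d = turn b' d → b = b' := by decide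
  apply List.ext_getElem (by rw [hl, hl'])
  intro i h5 h6
  have b1 : tf t i = t[i] := by
    unfold tf
    rw [List.getD_eq_getElem _ _ h5]
  have b2 : tf t' i = t'[i] := by
    unfold tf
    rw [List.getD_eq_getElem _ _ h6]
  rw [← b1, ← b2]
  rcases Nat.lt_or_ge (i + 1) n with h7 | h7
  · have a1 := e1 (i + 1) h7
    rw [dx_succ, dx_succ, e1 i (by omega)] at a1
    exact hturn _ (dx_mem upd t' i) _ _ a1
  · have : i = n - 1 := by omega
    rw [this, hb]

/-- a word with given directions and given last letter -/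
lemma word_of {n : ℕ} (hn : 0 < n) {D : ℕ → Pt} (hD0 : D 0 = up) (hDd : ∀ i, i < n → D i ∈ dirs)
    (hDcl : ∀ i, i < n → cl (D i) = if Even i then cl up else -cl up)
    (hrev : ∀ i, i + 1 < n → D (i + 1) ≠ -D i) (b : Bool) :
    ∃ t : List Bool, t.length = n ∧ tf t (n - 1) = b ∧ ∀ i, i < n → dx up t i = D i := by
  obtain ⟨t, ht⟩ : ∃ t : List Bool, t = List.ofFn fun i : Fin n =>
    if (i : ℕ) + 1 < n then decide (rotL (D i) = D (i + 1)) else b := ⟨_, rfl⟩
  have hl : t.length = n := by rw [ht, List.length_ofFn]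
  have htf : ∀ i, i < n → tf t i = if i + 1 < n then decide (rotL (D i) = D (i + 1)) else b := fun i hi => by
    unfold tf
    rw [List.getD_eq_getElem _ _ (by omega)]
    simp only [ht, List.getElem_ofFn]
  refine ⟨t, hl, ?_, ?_⟩
  · rw [htf (n - 1) (by omega), if_neg (by omega)]
  · intro i
    induction i with
    | zero =>
      intro _
      rw [hD0]
      rfl
    | succ i ih =>
      intro hi
      rw [dx_succ, ih (by omega), htf i (by omega), if_pos hi]
      refine NTF.turn_of _ (hDd i (by omega)) _ (hDd (i + 1) hi) ?_ (hrev i hi)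
      rw [hDcl _ hi, hDcl i (by omega)]
      rcases Nat.even_or_odd i with h | h
      · rw [if_neg (by rw [Nat.even_add_one]; exact fun h' => h' h), if_pos h]
      · rw [if_pos (by rw [Nat.even_add_one]; exact Nat.not_even_iff_odd.2 h),
          if_neg (Nat.not_even_iff_odd.2 h), neg_neg]

theorem sw_surj {n : ℕ} (hn : 0 < n) {s : Fin n → Fin 3} (hs : s ∈ saw n) (h0 : s ⟨0, hn⟩ = 0) (b : Bool) :
    ∃ t ∈ SawN n, sw n t = s ∧ tf t (n - 1) = b := by
  have hinj := mem_saw.1 hs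
  -- the directions
  obtain ⟨D, hD⟩ : ∃ D : ℕ → Pt, D = fun i => if h : i < n then de i (s ⟨i, h⟩) else up := ⟨_, rfl⟩
  have hD1 : ∀ i (h : i < n), D i = de i (s ⟨i, h⟩) := fun i h => by
    rw [hD]
    simp only [dif_pos h]
  have hJ : ∀ i, i < n → pos s (i + 1) = pos s i + JJ (D i) := fun i hi => by
    rw [pos_succ s i hi, hD1 i hi, NTF.JJ_de]
    rfl
  obtain ⟨t, hl, hb, hdx⟩ := word_of hn (D := D) (by
    rw [hD1 0 hn, h0]
    rfl) (fun i hi => by
    rw [hD1 i hi]
    exact NTF.de_dirs _ _) (fun i hi => by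
    rw [hD1 i hi]
    exact NTF.cl_de _ _) (by
    intro i hi he
    have h2 := hJ (i + 1) hi
    rw [hJ i (by omega), he, NTF.JJ_neg] at h2
    have h3 : pos s (i + 1 + 1) = pos s i := by
      rw [h2]
      ring
    have := hinj _ _ (by omega) (by omega) h3
    omega) b
  have hsw : sw n t = s := by
    funext i
    show aa (dx up t i) = s i
    rw [hdx i i.2, hD1 i i.2, NTF.aa_de]
  refine ⟨t, ⟨hl, ⟨fun _ _ _ => Set.mem_univ _, ?_⟩⟩, hsw, hb⟩
  intro i k hik hk he
  rw [hl] at hk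
  have h2 : pos s i = pos s k := by
    rw [← hsw, pos_sw n t i (by omega), pos_sw n t k hk, he]
  have := hinj i k (by omega) hk h2
  omega

/-! ### Counting -/

/-- the number of the words with a property of the walk -/
theorem card_words {n : ℕ} (hn : 0 < n) (P : (Fin n → Fin 3) → Prop) [DecidablePred P] :
    {t | t ∈ SawN n ∧ P (sw n t)}.ncard = 2 * ((saw n).filter fun s => P s ∧ s ⟨0, hn⟩ = 0).card := by
  obtain ⟨F, hF⟩ : ∃ F, F = (saw n).filter fun s => P s ∧ s ⟨0, hn⟩ = 0 := ⟨_, rfl⟩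
  have h1 : (fun t => (sw n t, tf t (n - 1))) '' {t | t ∈ SawN n ∧ P (sw n t)} =
      ((F ×ˢ (univ : Finset Bool) : Finset ((Fin n → Fin 3) × Bool)) : Set ((Fin n → Fin 3) × Bool)) := by
    ext ⟨s, b⟩
    rw [Finset.mem_coe, Finset.mem_product, hF, Finset.mem_filter]
    constructor
    · rintro ⟨t, ⟨h1, h2⟩, h3⟩
      have h4 : sw n t = s := congrArg Prod.fst h3
      rw [← h4]
      exact ⟨⟨sw_mem h1, h2, sw_first hn t⟩, mem_univ _⟩
    · rintro ⟨⟨h1, h2, h3⟩, -⟩
      obtain ⟨t, ht, e1, e2⟩ := sw_surj hn h1 h3 b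
      refine ⟨t, ⟨ht, by rwa [e1]⟩, ?_⟩
      show (sw n t, tf t (n - 1)) = (s, b)
      rw [e1, e2]
  have h2 : Set.InjOn (fun t => (sw n t, tf t (n - 1))) {t | t ∈ SawN n ∧ P (sw n t)} := by
    rintro t ⟨⟨hl, -⟩, -⟩ t' ⟨⟨hl', -⟩, -⟩ he
    exact sw_inj hl hl' (congrArg Prod.fst he) (congrArg Prod.snd he)
  rw [← h2.ncard_image, h1, Set.ncard_coe_finset, card_product, ← hF]
  simp only [Finset.card_univ, Fintype.card_bool]
  ring

/-- **the dictionary for the numbers** -/
theorem card_saw {n : ℕ} (hn : 0 < n) (P : (Fin n → Fin 3) → Prop) [DecidablePred P] (hP : ∀ s, P (rot s) ↔ P s) :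
    2 * ((saw n).filter P).card = 3 * {t | t ∈ SawN n ∧ P (sw n t)}.ncard := by
  rw [card_rot hn P hP, card_words hn P]
  ring

/-- **the dictionary for proportions** -/
theorem prop_le {n : ℕ} (hn : 0 < n) (P : (Fin n → Fin 3) → Prop) [DecidablePred P] (hP : ∀ s, P (rot s) ↔ P s)
    {c : ℝ} (hc : 0 ≤ c) {B : Set (List Bool)} (hPB : ∀ t ∈ SawN n, P (sw n t) → t ∈ B)
    (h : gf B ≤ ENNReal.ofReal c * gf (SawN n)) :
    (((saw n).filter P).card : ℝ) ≤ c * ((saw n).card : ℝ) := by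
  have h1 : gf {t | t ∈ SawN n ∧ P (sw n t)} ≤ ENNReal.ofReal c * gf (SawN n) :=
    (gf_mono fun t ht => hPB t ht.1 ht.2).trans h
  rw [gf_card (n := n) (fun t ht => ht.1.1), gf_card (n := n) (B := SawN n) (fun t ht => ht.1)] at h1
  have h2 := card_saw hn P hP
  have h3 : 2 * (saw n).card = 3 * (SawN n).ncard := by
    have := card_saw hn (fun _ => True) (fun _ => Iff.rfl)
    rw [Finset.filter_true_of_mem (fun _ _ => trivial)] at this
    rw [this]
    congr 2
    ext t
    exact ⟨fun h => h.1, fun h => ⟨h, trivial⟩⟩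
  rw [← mul_assoc] at h1
  have h5 : ENNReal.ofReal (xc ^ n) ≠ ⊤ := ENNReal.ofReal_ne_top
  have h4 := (ENNReal.mul_le_mul_iff_left (xcn_pos n) h5).1 h1
  rw [← ENNReal.ofReal_natCast, ← ENNReal.ofReal_natCast, ← ENNReal.ofReal_mul hc] at h4
  have h6 := (ENNReal.ofReal_le_ofReal_iff (by positivity)).1 h4
  have h7 : (2 : ℝ) * (((saw n).filter P).card : ℝ) = 3 * ({t | t ∈ SawN n ∧ P (sw n t)}.ncard : ℝ) := by exact_mod_cast h2
  have h8 : (2 : ℝ) * ((saw n).card : ℝ) = 3 * ((SawN n).ncard : ℝ) := by exact_mod_cast h3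
  have h9 : c * (2 * ((saw n).card : ℝ)) = c * (3 * ((SawN n).ncard : ℝ)) := by rw [h8]
  linarith

end NTSF
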