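import Pool.Agent.NTS.Dict
import Pool.Agent.NTS.Law
import Pool.Agent.NTS.MergeW
import Pool.Agent.TOG.Place

/-!
# One step (helper83): from the words to the curves

Polygonal curves of words that differ in a bounded part are close; sums over the walks as sums over the words.
-/

set_option autoImplicit false

namespace NTSF

namespace Mg

open Finset MeasureTheory Filter Topology

open HexObs hiding pos

open HexObs.TOG HexObs.OneS HexObs.SDN HexObs.TS

open Pool.Agent.NTS.Res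

open NTF (sw aa de Ed JJ de_aa)

open scoped Classical

/-! ### 1. Polygons -/

lemma unit_dist {z : ℕ → ℂ} (hz : ∀ k, ‖z (k + 1) - z k‖ ≤ 1) (i j : ℕ) : ‖z (i + j) - z i‖ ≤ j := by
  induction j with
  | zero =>
    rw [add_zero, sub_self, norm_zero]
    exact Nat.cast_nonneg _
  | succ j ih =>
    have e : z (i + (j + 1)) - z i = (z (i + j + 1) - z (i + j)) + (z (i + j) - z i) := by
      rw [add_assoc]
      ring
    rw [e]
    refine (norm_add_le _ _).trans ?_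
    push_cast
    linarith [hz (i + j)]

lemma unit_abs {z : ℕ → ℂ} (hz : ∀ k, ‖z (k + 1) - z k‖ ≤ 1) (i j D : ℕ) (h1 : i ≤ j + D) (h2 : j ≤ i + D) :
    ‖z i - z j‖ ≤ D := by
  rcases le_total i j with h | h
  · obtain ⟨k, rfl⟩ := Nat.exists_eq_add_of_le h
    rw [norm_sub_rev]
    exact (unit_dist hz i k).trans (by exact_mod_cast (by omega : k ≤ D))
  · obtain ⟨k, rfl⟩ := Nat.exists_eq_add_of_le h
    exact (unit_dist hz j k).trans (by exact_mod_cast (by omega : k ≤ D))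

lemma poly_near {z : ℕ → ℂ} (hz : ∀ k, ‖z (k + 1) - z k‖ ≤ 1) {n : ℕ} (hn : 1 ≤ n) (u : unitInterval) :
    ∃ i < n, (i : ℝ) ≤ u * n ∧ (u : ℝ) * n ≤ i + 1 ∧ ‖Tight.poly z n u - z i‖ ≤ 1 := by
  obtain ⟨i, hi, h1, h2⟩ := Tight.th2_idx hn u
  refine ⟨i, hi, h1, h2, ?_⟩
  rw [Tight.poly_apply hi h1 h2, add_sub_cancel_left, norm_mul, Complex.norm_of_nonneg (by linarith)]
  have h3 := hz i
  have h4 : (u : ℝ) * n - i ≤ 1 := by linarith
  have h5 : 0 ≤ (u : ℝ) * n - i := by linarith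
  nlinarith [norm_nonneg (z (i + 1) - z i)]

/-- the polygons of two close sequences are close -/
lemma poly_close {z z' : ℕ → ℂ} (hz : ∀ k, ‖z (k + 1) - z k‖ ≤ 1) (hz' : ∀ k, ‖z' (k + 1) - z' k‖ ≤ 1) {n n' D : ℕ}
    (hn : 1 ≤ n) (hnn : n ≤ n') (hD : n' ≤ n + D) (hc : ∀ i, i ≤ n → ‖z i - z' i‖ ≤ D) (u : unitInterval) :
    ‖Tight.poly z n u - Tight.poly z' n' u‖ ≤ 2 * D + 3 := by
  obtain ⟨i, hi, h1, h2, h3⟩ := poly_near hz hn u
  obtain ⟨j, hj, h4, h5, h6⟩ := poly_near hz' (hn.trans hnn) u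
  have hu0 : (0 : ℝ) ≤ u := u.2.1
  have hu1 : (u : ℝ) ≤ 1 := u.2.2
  have a1 : (n : ℝ) ≤ n' := by exact_mod_cast hnn
  have a2 : (n' : ℝ) ≤ n + D := by exact_mod_cast hD
  have b1 : (i : ℝ) ≤ j + 1 := by nlinarith
  have b2 : (j : ℝ) ≤ i + 1 + D := by nlinarith [(Nat.cast_nonneg D : (0 : ℝ) ≤ D)]
  have c1 : i ≤ j + 1 := by exact_mod_cast b1
  have c2 : j ≤ i + 1 + D := by exact_mod_cast b2
  have d1 := unit_abs hz' i j (D + 1) (by omega) (by omega)
  have d2 := hc i hi.le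
  have e : Tight.poly z n u - Tight.poly z' n' u =
      (Tight.poly z n u - z i) + (z i - z' i) + (z' i - z' j) - (Tight.poly z' n' u - z' j) := by ring
  rw [e]
  push_cast at d1
  calc _ ≤ ‖(Tight.poly z n u - z i) + (z i - z' i) + (z' i - z' j)‖ + ‖Tight.poly z' n' u - z' j‖ := norm_sub_le _ _
    _ ≤ ‖Tight.poly z n u - z i‖ + ‖z i - z' i‖ + ‖z' i - z' j‖ + ‖Tight.poly z' n' u - z' j‖ := by
        gcongr
        exact norm_add₃_le
    _ ≤ _ := by linarith

lemma poly_le {z : ℕ → ℂ} (hz : ∀ k, ‖z (k + 1) - z k‖ ≤ 1) (hz0 : z 0 = 0) {n : ℕ} (hn : 1 ≤ n) (u : unitInterval) :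
    ‖Tight.poly z n u‖ ≤ n := by
  obtain ⟨i, hi, h1, h2, h3⟩ := poly_near hz hn u
  have h4 := unit_dist hz 0 i
  rw [zero_add, hz0, sub_zero] at h4
  have h5 : (i : ℝ) + 1 ≤ n := by exact_mod_cast hi
  calc ‖Tight.poly z n u‖ = ‖(Tight.poly z n u - z i) + z i‖ := by rw [sub_add_cancel]
    _ ≤ ‖Tight.poly z n u - z i‖ + ‖z i‖ := norm_add_le _ _
    _ ≤ _ := by linarith

/-- the normalisation -/
noncomputable def nr (n : ℕ) : ℝ := (n : ℝ) ^ (3 / 4 : ℝ)

lemma nr_pos {n : ℕ} (hn : 1 ≤ n) : 0 < nr n := by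
  have : (0 : ℝ) < n := by exact_mod_cast hn
  exact Real.rpow_pos_of_pos this _

lemma nr_atTop : Tendsto nr atTop atTop :=
  (tendsto_rpow_atTop (by norm_num : (0 : ℝ) < 3 / 4)).comp tendsto_natCast_atTop_atTop

/-- the polygon divided by n ^ (3 / 4) -/
noncomputable def pn (z : ℕ → ℂ) (n : ℕ) : C(unitInterval, ℂ) := ((nr n)⁻¹ : ℝ) • Tight.poly z n

lemma nr_diff {n n' D : ℕ} (hn : 1 ≤ n) (hnn : n ≤ n') (hD : n' ≤ n + D) (hDn : D ≤ n) :
    |(nr n)⁻¹ - (nr n')⁻¹| * n' ≤ 2 * D / nr n := by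
  have hn0 : (0 : ℝ) < n := by exact_mod_cast hn
  have hn0' : (0 : ℝ) < n' := by exact_mod_cast hn.trans hnn
  have a1 : (n : ℝ) ≤ n' := by exact_mod_cast hnn
  have a2 : (n' : ℝ) ≤ n + D := by exact_mod_cast hD
  have a3 : (D : ℝ) ≤ n := by exact_mod_cast hDn
  have p1 := nr_pos hn
  have p2 := nr_pos (hn.trans hnn)
  have m1 : nr n ≤ nr n' := Real.rpow_le_rpow hn0.le a1 (by norm_num)
  have m2 : (nr n')⁻¹ ≤ (nr n)⁻¹ := inv_anti₀ p1 m1
  rw [abs_of_nonneg (by linarith)]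
  -- n / n' <= nr n / nr n'
  have k1 : (n : ℝ) / n' ≤ nr n / nr n' := by
    unfold nr
    rw [← Real.div_rpow hn0.le hn0'.le]
    have h1 : (n : ℝ) / n' ≤ 1 := by
      rw [div_le_one hn0']
      exact a1
    calc (n : ℝ) / n' = ((n : ℝ) / n') ^ (1 : ℝ) := (Real.rpow_one _).symm
      _ ≤ ((n : ℝ) / n') ^ (3 / 4 : ℝ) := Real.rpow_le_rpow_of_exponent_ge (by positivity) h1 (by norm_num)
  have k2 : (nr n)⁻¹ - (nr n')⁻¹ = (nr n)⁻¹ * (1 - nr n / nr n') := by
    field_simp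
  have k5 : 2 * (D : ℝ) / nr n = (nr n)⁻¹ * (2 * D) := div_eq_inv_mul _ _
  rw [k2, mul_assoc, k5]
  refine mul_le_mul_of_nonneg_left ?_ (inv_pos.2 p1).le
  have k3 : (1 - nr n / nr n') * n' ≤ (1 - (n : ℝ) / n') * n' := by
    refine mul_le_mul_of_nonneg_right ?_ hn0'.le
    linarith
  have k4 : (1 - (n : ℝ) / n') * n' = n' - n := by
    field_simp
  have : (0 : ℝ) ≤ D := Nat.cast_nonneg D
  linarith

/-- close sequences, close normalised polygons -/
lemma pn_close {z z' : ℕ → ℂ} (hz : ∀ k, ‖z (k + 1) - z k‖ ≤ 1) (hz' : ∀ k, ‖z' (k + 1) - z' k‖ ≤ 1) (h0 : z' 0 = 0)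
    {n n' D : ℕ} (hn : 1 ≤ n) (hnn : n ≤ n') (hD : n' ≤ n + D) (hDn : D ≤ n) (hc : ∀ i, i ≤ n → ‖z i - z' i‖ ≤ D) :
    dist (pn z n) (pn z' n') ≤ (4 * D + 3) / nr n := by
  have p1 := nr_pos hn
  rw [ContinuousMap.dist_le (by positivity)]
  intro u
  rw [dist_eq_norm]
  show ‖((nr n)⁻¹ : ℝ) • Tight.poly z n u - ((nr n')⁻¹ : ℝ) • Tight.poly z' n' u‖ ≤ _
  have e : ((nr n)⁻¹ : ℝ) • Tight.poly z n u - ((nr n')⁻¹ : ℝ) • Tight.poly z' n' u =
      ((nr n)⁻¹ : ℝ) • (Tight.poly z n u - Tight.poly z' n' u) + ((nr n)⁻¹ - (nr n')⁻¹ : ℝ) • Tight.poly z' n' u := by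
    rw [smul_sub, sub_smul]
    abel
  rw [e]
  refine (norm_add_le _ _).trans ?_
  rw [norm_smul, norm_smul, Real.norm_eq_abs, Real.norm_eq_abs, abs_of_pos (inv_pos.2 p1)]
  have h1 := poly_close hz hz' hn hnn hD hc u
  have h2 := poly_le hz' h0 (hn.trans hnn) u
  have h3 := nr_diff hn hnn hD hDn
  have h4 : |(nr n)⁻¹ - (nr n')⁻¹| * ‖Tight.poly z' n' u‖ ≤ |(nr n)⁻¹ - (nr n')⁻¹| * n' :=
    mul_le_mul_of_nonneg_left h2 (abs_nonneg _)
  have h5 : (nr n)⁻¹ * ‖Tight.poly z n u - Tight.poly z' n' u‖ ≤ (nr n)⁻¹ * (2 * D + 3) :=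
    mul_le_mul_of_nonneg_left h1 (inv_pos.2 p1).le
  have h6 : (4 * D + 3) / nr n = (nr n)⁻¹ * (2 * D + 3) + 2 * D / nr n := by
    field_simp
    ring
  linarith

/-! ### 2. The curve of a word -/

/-- the rotated positions of a word -/
noncomputable def cz (c : ℂ) (t : List Bool) (k : ℕ) : ℂ := c * JJ (vx oo up t k)

lemma cz_unit {c : ℂ} (hc : ‖c‖ = 1) (t : List Bool) (k : ℕ) : ‖cz c t (k + 1) - cz c t k‖ ≤ 1 := by
  unfold cz
  rw [← mul_sub, norm_mul, hc, one_mul, ← NTF.JJ_sub, vx_succ, add_sub_cancel_left]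
  have h1 := NTF.JJ_norm (dx up t k)
  rw [mem_dirs.1 (dx_mem (by decide : up ∈ dirs) t k)] at h1
  have h2 : (((1 : ℤ) : ℤ) : ℝ) = 1 := by norm_num
  rw [h2] at h1
  have h3 := norm_nonneg (JJ (dx up t k))
  nlinarith

lemma cz_zero (c : ℂ) (t : List Bool) : cz c t 0 = 0 := by
  unfold cz
  have : vx oo up t 0 = oo := rfl
  rw [this]
  have h : JJ oo = 0 := by
    apply Complex.ext
    · rw [NTF.JJ_re]
      simp [oo]
    · rw [NTF.JJ_im]
      simp [oo]
  rw [h, mul_zero]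

/-- the function of the words that belongs to a function of the curves -/
noncomputable def Fw (f : C(unitInterval, ℂ) → ℝ) (t : List Bool) : ℝ :=
  (f (pn (cz 1 t) t.length) + f (pn (cz om t) t.length) + f (pn (cz (om * om) t) t.length)) / 3

lemma one_n : ‖(1 : ℂ)‖ = 1 := norm_one

lemma om2_n : ‖om * om‖ = 1 := by rw [norm_mul, om_norm, one_mul]

/-- ends -/
lemma cz_fin {c : ℂ} (hc : ‖c‖ = 1) {L : ℕ} {A E : List Bool} (hA : 1 ≤ A.length) (hL : L ≤ A.length) (hE : E.length ≤ L) :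
    dist (pn (cz c A) A.length) (pn (cz c (A ++ E)) (A ++ E).length) ≤ (4 * L + 3) / nr A.length := by
  have hl : (A ++ E).length = A.length + E.length := List.length_append
  refine pn_close (cz_unit hc A) (cz_unit hc _) (cz_zero c _) hA (by omega) (by omega) hL fun i hi => ?_
  unfold cz
  rw [vx_append (by omega), sub_self, norm_zero]
  exact Nat.cast_nonneg _

/-- toggles -/
lemma cz_tog {c : ℂ} (hc : ‖c‖ = 1) {X Y : List Bool} (hl : 8 ≤ X.length + Y.length) :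
    dist (pn (cz c (X ++ (pS ++ Y))) (X ++ (pS ++ Y)).length) (pn (cz c (X ++ (pL ++ Y))) (X ++ (pL ++ Y)).length) ≤
      (4 * (8 : ℕ) + 3) / nr (X ++ (pS ++ Y)).length := by
  have h1 := len_S X Y
  have h2 := len_L X Y
  have u1 := cz_unit hc (X ++ (pS ++ Y))
  have u2 := cz_unit hc (X ++ (pL ++ Y))
  obtain ⟨t1, t2⟩ := tog_vx X Y
  refine pn_close u1 u2 (cz_zero c _) (by omega) (by omega) (by omega) (by omega) fun i _ => ?_
  have e1 : ∀ j, j ≤ X.length + 1 → cz c (X ++ (pS ++ Y)) j = cz c (X ++ (pL ++ Y)) j := by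
    intro j hj
    unfold cz
    rw [t1 j hj]
  have e2 : ∀ j, cz c (X ++ (pS ++ Y)) (X.length + (3 + j)) = cz c (X ++ (pL ++ Y)) (X.length + (5 + j)) := by
    intro j
    unfold cz
    rw [t2 j]
  rcases le_or_gt i (X.length + 1) with h3 | h3
  · rw [e1 i h3, sub_self, norm_zero]
    exact Nat.cast_nonneg _
  · rcases lt_or_ge i (X.length + 3) with h4 | h4
    · have a1 := unit_abs u1 i (X.length + 1) 4 (by omega) (by omega)
      have a2 := unit_abs u2 (X.length + 1) i 4 (by omega) (by omega)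
      have e : cz c (X ++ (pS ++ Y)) i - cz c (X ++ (pL ++ Y)) i =
          (cz c (X ++ (pS ++ Y)) i - cz c (X ++ (pS ++ Y)) (X.length + 1)) +
          (cz c (X ++ (pL ++ Y)) (X.length + 1) - cz c (X ++ (pL ++ Y)) i) := by
        rw [e1 _ le_rfl]
        ring
      rw [e]
      refine (norm_add_le _ _).trans ?_
      push_cast at a1 a2 ⊢
      linarith
    · obtain ⟨j, rfl⟩ := Nat.exists_eq_add_of_le h4
      rw [add_assoc, e2]
      exact unit_abs u2 _ _ 8 (by omega) (by omega)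

/-- **Lipschitz functions of the curve are robust** -/
theorem rob_Fw {f : C(unitInterval, ℂ) → ℝ} (h01 : ∀ x, 0 ≤ f x ∧ f x ≤ 1) (hL : ∃ L, LipschitzWith L f) : Rob (Fw f) := by
  obtain ⟨K, hK⟩ := hL
  have key : ∀ D : ℝ, 0 ≤ D → ∀ e : ℝ, 0 < e → ∃ n0 : ℕ, 1 ≤ n0 ∧ ∀ n, n0 ≤ n → (K : ℝ) * (D / nr n) ≤ e := by
    intro D hD e he
    obtain ⟨n0, h1⟩ := eventually_atTop.1 (nr_atTop.eventually_ge_atTop ((K : ℝ) * D / e))
    refine ⟨max n0 1, le_max_right _ _, fun n hn => ?_⟩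
    have h2 := h1 n (le_of_max_le_left hn)
    have h3 := nr_pos (le_of_max_le_right hn)
    rw [div_le_iff₀ he] at h2
    rw [← mul_div_assoc, div_le_iff₀ h3]
    linarith
  have avg : ∀ (t t' : List Bool) (e : ℝ), (∀ c : ℂ, ‖c‖ = 1 → (K : ℝ) * dist (pn (cz c t) t.length) (pn (cz c t') t'.length) ≤ e) →
      |Fw f t - Fw f t'| ≤ e := by
    intro t t' e h
    have k : ∀ c : ℂ, ‖c‖ = 1 → |f (pn (cz c t) t.length) - f (pn (cz c t') t'.length)| ≤ e := by
      intro c hc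
      rw [← Real.dist_eq]
      exact (hK.dist_le_mul _ _).trans (h c hc)
    have k1 := abs_le.1 (k 1 one_n)
    have k2 := abs_le.1 (k om om_norm)
    have k3 := abs_le.1 (k (om * om) om2_n)
    unfold Fw
    rw [abs_le]
    constructor <;> linarith [k1.1, k1.2, k2.1, k2.2, k3.1, k3.2]
  refine ⟨fun t => ?_, fun e he => ?_, fun L e he => ?_⟩
  · have a1 := h01 (pn (cz 1 t) t.length)
    have a2 := h01 (pn (cz om t) t.length)
    have a3 := h01 (pn (cz (om * om) t) t.length)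
    unfold Fw
    constructor <;> linarith [a1.1, a1.2, a2.1, a2.2, a3.1, a3.2]
  · obtain ⟨n0, -, h1⟩ := key (4 * (8 : ℕ) + 3) (by positivity) e he
    refine ⟨max n0 8, fun X Y hXY => avg _ _ e fun c hc => ?_⟩
    refine (mul_le_mul_of_nonneg_left (cz_tog hc (le_of_max_le_right hXY)) K.2).trans (h1 _ ?_)
    rw [len_S]
    have := le_of_max_le_left hXY
    omega
  · obtain ⟨n0, h0, h1⟩ := key (4 * L + 3) (by positivity) e he
    refine ⟨max n0 L, fun A E hA hE => ?_⟩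
    rw [abs_sub_comm]
    refine avg _ _ e fun c hc => ?_
    exact (mul_le_mul_of_nonneg_left (cz_fin hc (h0.trans (le_of_max_le_left hA)) (le_of_max_le_right hA) hE) K.2).trans
      (h1 _ (le_of_max_le_left hA))

/-! ### 3. Sums over the walks as sums over the words -/

lemma poly_congr {z z' : ℕ → ℂ} {n : ℕ} (h : ∀ k, k ≤ n → z k = z' k) : Tight.poly z n = Tight.poly z' n := by
  rcases Nat.eq_zero_or_pos n with rfl | hn
  · ext u
    show z 0 + ∑ i ∈ range 0, _ = z' 0 + ∑ i ∈ range 0, _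
    rw [h 0 le_rfl, sum_range_zero, sum_range_zero]
  · ext u
    obtain ⟨i, hi, h1, h2⟩ := Tight.th2_idx hn u
    rw [Tight.poly_apply hi h1 h2, Tight.poly_apply hi h1 h2, h i hi.le, h (i + 1) hi]

lemma poly_smul (a : ℝ) (z : ℕ → ℂ) (n : ℕ) : (a : ℝ) • Tight.poly z n = Tight.poly (fun k => (a : ℂ) * z k) n := by
  ext u
  show (a : ℝ) • Tight.poly z n u = _
  rcases Nat.eq_zero_or_pos n with rfl | hn
  · show a • (z 0 + ∑ i ∈ range 0, _) = a * z 0 + ∑ i ∈ range 0, _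
    rw [sum_range_zero, sum_range_zero, add_zero, add_zero, Complex.real_smul]
  · obtain ⟨i, hi, h1, h2⟩ := Tight.th2_idx hn u
    rw [Tight.poly_apply hi h1 h2, Tight.poly_apply hi h1 h2, Complex.real_smul]
    ring

/-- the factor between the two normalisations -/
noncomputable def sg (n : ℕ) : ℝ := size n / nr n

lemma curve_word {n : ℕ} (hn : 1 ≤ n) {s : Fin n → Fin 3} {c : ℂ} {t : List Bool}
    (h : ∀ k, k ≤ n → pos s k = cz c t k) : sg n • curve s = pn (cz c t) n := by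
  have hs := size_pos hn
  have hp := nr_pos hn
  unfold pn
  rw [curve_eq, poly_smul, poly_smul]
  refine poly_congr fun k hk => ?_
  rw [h k hk]
  unfold sg
  have h1 : (size n : ℂ) ≠ 0 := by exact_mod_cast hs.ne'
  have h2 : (nr n : ℂ) ≠ 0 := by exact_mod_cast hp.ne'
  push_cast
  field_simp

lemma sum_first {n : ℕ} (hn : 0 < n) (g : (Fin n → Fin 3) → ℝ) :
    ∑ t ∈ wdN n, g (sw n t) = 2 * ∑ s ∈ (saw n).filter (fun s => s ⟨0, hn⟩ = 0), g s := by
  have h1 : ∀ t ∈ wdN n, sw n t ∈ (saw n).filter (fun s => s ⟨0, hn⟩ = 0) := by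
    intro t ht
    rw [Finset.mem_filter]
    exact ⟨sw_mem (mem_wdN.1 ht), sw_first hn t⟩
  rw [← sum_fiberwise_of_maps_to h1, mul_sum]
  refine sum_congr rfl fun s hs => ?_
  have h2 : ∑ t ∈ (wdN n).filter (fun t => sw n t = s), g (sw n t) = ((wdN n).filter (fun t => sw n t = s)).card * g s := by
    rw [← nsmul_eq_mul, ← sum_const]
    refine sum_congr rfl fun t ht => ?_
    rw [(Finset.mem_filter.1 ht).2]
  rw [h2]
  have h3 := card_words hn (fun s' => s' = s)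
  have h4 : {t | t ∈ SawN n ∧ sw n t = s}.ncard = ((wdN n).filter (fun t => sw n t = s)).card := by
    rw [← Set.ncard_coe_finset]
    congr 1
    ext t
    rw [Finset.mem_coe, Finset.mem_filter, mem_wdN]
    exact Iff.rfl
  have h5 : ((saw n).filter fun s' => s' = s ∧ s' ⟨0, hn⟩ = 0).card = 1 := by
    rw [card_eq_one]
    refine ⟨s, ?_⟩
    rw [Finset.mem_filter] at hs
    ext s'
    rw [Finset.mem_filter, mem_singleton]
    exact ⟨fun h => h.2.1, fun h => ⟨h ▸ hs.1, h, h ▸ hs.2⟩⟩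
  rw [h5, h4] at h3
  rw [h3]
  push_cast
  ring

lemma sum_rot {n : ℕ} (hn : 0 < n) (g : (Fin n → Fin 3) → ℝ) :
    ∑ s ∈ saw n, g s = ∑ s ∈ (saw n).filter (fun s => s ⟨0, hn⟩ = 0), (g s + g (rot s) + g (rot (rot s))) := by
  have h1 : ∑ s ∈ saw n, g s = ∑ a : Fin 3, ∑ s ∈ (saw n).filter (fun s => s ⟨0, hn⟩ = a), g s :=
    (sum_fiberwise_of_maps_to (fun _ _ => mem_univ _) _).symm
  have h2 : ∀ (a : Fin 3) (g : (Fin n → Fin 3) → ℝ), ∑ s ∈ (saw n).filter (fun s => s ⟨0, hn⟩ = a + 1), g s =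
      ∑ s ∈ (saw n).filter (fun s => s ⟨0, hn⟩ = a), g (rot s) := by
    intro a g
    symm
    refine sum_bij (fun s _ => rot s) ?_ ?_ ?_ (fun _ _ => rfl)
    · intro s hs
      rw [Finset.mem_filter] at hs ⊢
      refine ⟨rot_mem.2 hs.1, ?_⟩
      show s ⟨0, hn⟩ + 1 = a + 1
      rw [hs.2]
    · intro s _ s' _ h
      funext i
      have h3 : s i + 1 = s' i + 1 := congrFun h i
      exact add_right_cancel h3
    · intro s hs
      rw [Finset.mem_filter] at hs
      have e : rot (fun i => s i - 1) = s := by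
        funext i
        show s i - 1 + 1 = s i
        rw [sub_add_cancel]
      refine ⟨fun i => s i - 1, ?_, e⟩
      rw [Finset.mem_filter, ← rot_mem, e]
      refine ⟨hs.1, ?_⟩
      show s ⟨0, hn⟩ - 1 = a
      rw [hs.2, add_sub_cancel_right]
  have h3 := h2 0 g
  have h4 := h2 1 g
  have h5 := h2 0 (fun s => g (rot s))
  rw [show (0 : Fin 3) + 1 = 1 from rfl] at h3 h5
  rw [show (1 : Fin 3) + 1 = 2 from rfl] at h4
  rw [h1, Fin.sum_univ_three, h4, h3, h5, sum_add_distrib, sum_add_distrib]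

lemma card_three {n : ℕ} (hn : 0 < n) : 2 * (saw n).card = 3 * cS n := by
  have h1 := sum_first hn fun _ => 1
  have h2 := sum_rot hn fun _ => 1
  rw [sum_const, nsmul_eq_mul, mul_one, card_wdN, sum_const, nsmul_eq_mul, mul_one] at h1
  rw [sum_const, nsmul_eq_mul, mul_one, sum_const, nsmul_eq_mul] at h2
  have h3 : (2 : ℝ) * (saw n).card = 3 * cS n := by
    rw [h1, h2]
    ring
  exact_mod_cast h3

/-- **the mean over the walks is the mean over the words** -/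
theorem integral_words {n : ℕ} (hn : 1 ≤ n) (f : C(unitInterval, ℂ) → ℝ) :
    ∫ γ, f (sg n • γ) ∂(law n) = Ef n (Fw f) := by
  have hn' : 0 < n := hn
  rw [integral_law fun γ => f (sg n • γ)]
  have h1 := sum_rot hn' fun s => f (sg n • curve s)
  have h2 := sum_first hn' fun s => f (sg n • curve s) + f (sg n • curve (rot s)) + f (sg n • curve (rot (rot s)))
  have h3 := card_three hn'
  have h4 : ∀ t ∈ wdN n, f (sg n • curve (sw n t)) + f (sg n • curve (rot (sw n t))) + f (sg n • curve (rot (rot (sw n t)))) =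
      3 * Fw f t := by
    intro t ht
    have hl : t.length = n := (mem_wdN.1 ht).1
    have hp : ∀ k, k ≤ n → pos (sw n t) k = JJ (vx oo up t k) := fun k hk => pos_sw n t k hk
    have c1 : sg n • curve (sw n t) = pn (cz 1 t) n := curve_word hn fun k hk => by
      rw [hp k hk]
      unfold cz
      rw [one_mul]
    have c2 : sg n • curve (rot (sw n t)) = pn (cz om t) n := curve_word hn fun k hk => by
      rw [pos_rot, hp k hk]
      rfl
    have c3 : sg n • curve (rot (rot (sw n t))) = pn (cz (om * om) t) n := curve_word hn fun k hk => by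
      rw [pos_rot, pos_rot, hp k hk, ← mul_assoc]
      rfl
    rw [c1, c2, c3]
    unfold Fw
    rw [hl]
    ring
  have h5 : ∑ s ∈ saw n, f (sg n • curve s) = 3 / 2 * ∑ t ∈ wdN n, Fw f t := by
    rw [sum_congr rfl h4, ← mul_sum] at h2
    rw [h1]
    linarith
  have h6 : ((saw n).card : ℝ) = 3 / 2 * cS n := by
    have : (2 : ℝ) * (saw n).card = 3 * cS n := by exact_mod_cast h3
    linarith
  rw [h5, h6]
  unfold Ef
  rw [mul_div_mul_left _ _ (by norm_num : (3 / 2 : ℝ) ≠ 0)]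

end Mg

end NTSF
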