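import Pool.Agent.NTS.MergeTop
import Pool.Agent.NTS.MergeC

/-!
# One step (helper83): the laws of the normalised walks with n and n + 1 steps merge

**`one_step`**: `c (n + 1) / c n → μ`, `size (n + 1) / size n → 1`, the laws of `X (n + 1)` and of `X n` merge, and the set of
the weak limits of `X n` is compact and connected (so either the laws converge or there are uncountably many weak limits).
-/

set_option autoImplicit false

namespace NTSF

namespace Mg

open Finset MeasureTheory Filter Topology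

open HexObs hiding pos

open HexObs.TOG HexObs.OneS HexObs.SDN HexObs.TS

open Pool.Agent.NTS.Res

open scoped Classical

lemma xc_inv : (1 / xc : ℝ) = Real.sqrt (2 + Real.sqrt 2) := by
  have h0 : (0 : ℝ) < 2 + Real.sqrt 2 := by positivity
  have h1 : (1 / xc) ^ 2 = (Real.sqrt (2 + Real.sqrt 2)) ^ 2 := by
    rw [Real.sq_sqrt h0.le, div_pow, xc_sq, one_pow, one_div_one_div]
  have h2 : 0 < xc := xc_pos
  exact (sq_eq_sq₀ (by positivity) (Real.sqrt_nonneg _)).1 h1

/-- the set of the weak limits of the curves -/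
def WL : Set (ProbabilityMeasure C(unitInterval, ℂ)) :=
  {ν | ∃ φ : ℕ → ℕ, StrictMono φ ∧ LawTo φ (ν : Measure C(unitInterval, ℂ))}

/-- what is used of the theorem for every step number -/
structure OneFacts : Prop where
  sz : ∃ c C : ℝ, 0 < c ∧ ∀ n : ℕ, 1 ≤ n → c * (n : ℝ) ^ (3 / 4 : ℝ) ≤ size n ∧ size n ≤ C * (n : ℝ) ^ (3 / 4 : ℝ)
  tt : IsTightMeasureSet {μ | ∃ n : ℕ, 1 ≤ n ∧ μ = law n}
  sec : ∀ (φ : ℕ → ℕ) (ν : Measure C(unitInterval, ℂ)), Tendsto φ atTop atTop → IsProbabilityMeasure ν → LawTo φ ν →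
    ∫ γ : C(unitInterval, ℂ), ‖γ 1‖ ^ 2 ∂ν = 1

lemma lims_PM : Lims PM = WL := by
  ext ν
  constructor
  · rintro ⟨φ, hφ, h⟩
    exact ⟨φ, hφ, (lawTo_iff ν).2 h⟩
  · rintro ⟨φ, hφ, h⟩
    exact ⟨φ, hφ, (lawTo_iff ν).1 h⟩

section

variable (hO : OneFacts)

include hO

lemma exists_K : ∃ K : Set (ProbabilityMeasure C(unitInterval, ℂ)), IsCompact K ∧ ∀ n, PM n ∈ K := by
  have ht : IsTightMeasureSet {((ρ : ProbabilityMeasure C(unitInterval, ℂ)) : Measure C(unitInterval, ℂ)) |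
      ρ ∈ {ρ | ∃ n : ℕ, 1 ≤ n ∧ ρ = PM n}} := by
    refine hO.tt.subset ?_
    rintro _ ⟨ρ, ⟨k, hk, rfl⟩, rfl⟩
    exact ⟨k, hk, rfl⟩
  have hc := isCompact_closure_of_isTightMeasureSet ht
  refine ⟨insert (PM 0) (closure {ρ | ∃ n : ℕ, 1 ≤ n ∧ ρ = PM n}), hc.insert _, fun n => ?_⟩
  rcases Nat.eq_zero_or_pos n with rfl | hn
  · exact Set.mem_insert _ _
  · exact Set.mem_insert_of_mem _ (subset_closure ⟨n, hn, rfl⟩)

variable (hs : SoftOut Ah) (hr : Ratio2) (hc : ∀ n, 0 < cS n)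

include hs hr hc

lemma one_core : Merges PM ∧ Tendsto (fun n => size (n + 1) / size n) atTop (𝓝 1) := by
  obtain ⟨c, C, hc0, hsz⟩ := hO.sz
  obtain ⟨K, hK, hPK⟩ := exists_K hO
  -- the factors
  obtain ⟨σ, hσ⟩ : ∃ σ : ℕ → ℝ, σ = fun n => if n = 0 then c else sg n := ⟨_, rfl⟩
  have hcC : c ≤ C := by
    have := hsz 1 le_rfl
    rw [Nat.cast_one, Real.one_rpow, mul_one, mul_one] at this
    exact this.1.trans this.2
  have hσ1 : ∀ n, 1 ≤ n → σ n = sg n := by
    intro n hn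
    rw [hσ]
    exact if_neg (by omega)
  have hσb : ∀ n, c ≤ σ n ∧ σ n ≤ C := by
    intro n
    rcases Nat.eq_zero_or_pos n with rfl | hn
    · rw [hσ]
      exact ⟨le_of_eq (if_pos rfl).symm, (le_of_eq (if_pos rfl)).trans hcC⟩
    · rw [hσ1 n hn]
      have h1 := hsz n hn
      have h2 := nr_pos hn
      unfold sg
      rw [le_div_iff₀ h2, div_le_iff₀ h2]
      exact h1
  have key := merge_of_scaled (P := PM) (σ := σ) (c := c) (C := C) (q := fun γ : C(unitInterval, ℂ) => ‖γ 1‖ ^ 2)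
    (fun φ _ => by
      obtain ⟨y, -, θ, hθ, hlim⟩ := hK.tendsto_subseq (x := fun k => PM (φ k)) (fun k => hPK _)
      exact ⟨θ, hθ, y, hlim⟩) hc0 hσb
    (fun f h01 hL => by
      have h1 := merge_words hc hs hr (rob_Fw h01 hL)
      refine h1.congr' ?_
      filter_upwards [eventually_ge_atTop 1] with n hn
      rw [hσ1 n hn, hσ1 (n + 1) (by omega)]
      have e1 := integral_words (n := n + 1) (by omega) f
      have e2 := integral_words hn f
      show Ef (n + 1) (Fw f) - Ef n (Fw f) = ∫ γ, f (sg (n + 1) • γ) ∂(law (n + 1)) - ∫ γ, f (sg n • γ) ∂(law n)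
      rw [e1, e2])
    (fun s γ => by
      show ‖(s • γ) 1‖ ^ 2 = s ^ 2 * ‖γ 1‖ ^ 2
      rw [ContinuousMap.smul_apply, norm_smul, mul_pow, Real.norm_eq_abs, sq_abs])
    ((NTF.cont_eval 1).norm.pow 2)
    (fun φ hφ ν hν => hO.sec φ ν hφ inferInstance ((lawTo_iff ν).2 hν))
  refine ⟨key.1, ?_⟩
  have h2 := key.2
  -- the ratio of the normalisations
  have h3 : Tendsto (fun n : ℕ => nr (n + 1) / nr n) atTop (𝓝 1) := by
    have h4 : Tendsto (fun n : ℕ => ((n : ℝ) + 1) / n) atTop (𝓝 1) := by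
      have h5 : Tendsto (fun n : ℕ => 1 + 1 / (n : ℝ)) atTop (𝓝 (1 + 0)) := tendsto_const_nhds.add tendsto_one_div_atTop_nhds_zero_nat
      rw [add_zero] at h5
      refine h5.congr' ?_
      filter_upwards [eventually_ge_atTop 1] with n hn
      have : (n : ℝ) ≠ 0 := by
        have : (1 : ℝ) ≤ n := by exact_mod_cast hn
        linarith
      field_simp
    have h5 := h4.rpow_const (p := (3 / 4 : ℝ)) (Or.inl one_ne_zero)
    rw [Real.one_rpow] at h5
    refine h5.congr fun n => ?_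
    unfold nr
    push_cast
    rw [Real.div_rpow (by positivity) (by positivity)]
  have h4 := h2.mul h3
  rw [one_mul] at h4
  refine h4.congr' ?_
  filter_upwards [eventually_ge_atTop 1] with n hn
  rw [hσ1 n hn, hσ1 (n + 1) (by omega)]
  unfold sg
  have a1 := (nr_pos hn).ne'
  have a2 := (nr_pos (show 1 ≤ n + 1 by omega)).ne'
  have a3 := (size_pos hn).ne'
  field_simp

/-- **the walks with n and n + 1 steps** -/
theorem one_step :
    Tendsto (fun n : ℕ => ((saw (n + 1)).card : ℝ) / (saw n).card) atTop (𝓝 (Real.sqrt (2 + Real.sqrt 2))) ∧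
    Tendsto (fun n : ℕ => size (n + 1) / size n) atTop (𝓝 1) ∧
    (∀ f : BoundedContinuousFunction C(unitInterval, ℂ) ℝ,
      Tendsto (fun n : ℕ => ∫ γ, f γ ∂(law (n + 1)) - ∫ γ, f γ ∂(law n)) atTop (𝓝 0)) ∧
    IsCompact WL ∧ IsConnected WL ∧
    ((∃ ν : ProbabilityMeasure C(unitInterval, ℂ), LawTo (fun n => n) (ν : Measure C(unitInterval, ℂ))) ∨
      ¬ WL.Countable) := by
  obtain ⟨hm, hsize⟩ := one_core hO hs hr hc
  obtain ⟨K, hK, hPK⟩ := exists_K hO
  let _ : MetricSpace (ProbabilityMeasure C(unitInterval, ℂ)) := TopologicalSpace.metrizableSpaceMetric _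
  refine ⟨?_, hsize, ?_, ?_, ?_, ?_⟩
  · have h1 := ratio_one hc hs hr
    have h2 : (1 / xc : ℝ) = Real.sqrt (2 + Real.sqrt 2) := by
      rw [xc_inv]
    rw [← h2]
    refine h1.congr' ?_
    filter_upwards [eventually_ge_atTop 1] with n hn
    have a1 := card_three (n := n) hn
    have a2 := card_three (n := n + 1) (by omega)
    have a3 : (2 : ℝ) * (saw n).card = 3 * cS n := by exact_mod_cast a1
    have a4 : (2 : ℝ) * (saw (n + 1)).card = 3 * cS (n + 1) := by exact_mod_cast a2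
    have a5 : (0 : ℝ) < cS n := by exact_mod_cast hc n
    have a6 : (0 : ℝ) < (saw n).card := by linarith
    rw [div_eq_div_iff a5.ne' a6.ne']
    have a7 : (cS n : ℝ) = 2 / 3 * (saw n).card := by linarith
    have a8 : (cS (n + 1) : ℝ) = 2 / 3 * (saw (n + 1)).card := by linarith
    rw [a7, a8]
    ring
  · intro f
    refine tendsto_of_subseq_tendsto fun ns hns => ?_
    obtain ⟨ψ, hψ, hns'⟩ := strictMono_subseq_of_tendsto_atTop hns
    obtain ⟨y, -, θ, hθ, hlim⟩ := hK.tendsto_subseq (x := fun k => PM (ns (ψ k))) (fun k => hPK _)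
    refine ⟨fun k => ψ (θ k), ?_⟩
    have h1 := hm (fun k => ns (ψ (θ k))) (hns'.comp hθ) y hlim
    have h2 := (ProbabilityMeasure.tendsto_iff_forall_integral_tendsto.1 h1) f
    have h3 := (ProbabilityMeasure.tendsto_iff_forall_integral_tendsto.1 hlim) f
    have h4 := h2.sub h3
    rw [sub_self] at h4
    exact h4
  · rw [← lims_PM]
    exact lims_compact hK hPK
  · rw [← lims_PM]
    exact lims_connected hK hPK hm
  · rcases lims_cases hK hPK hm with ⟨y, hy⟩ | h
    · left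
      exact ⟨y, (lawTo_iff y).2 hy⟩
    · right
      rw [← lims_PM]
      exact h

end

end Mg

end NTSF
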