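import Pool.Agent.NT.Facts
import Pool.Agent.NTS.ResDefs

/-!
NTW (natural time for all self-avoiding walks): the walks with n steps, the size.
-/

set_option autoImplicit false

namespace NTSF

open Finset

open Pool.Agent.NTS.Res

open scoped ENNReal Classical

/-! ### Positions -/

lemma step_eq (i : ℕ) (a : Fin 3) : step i a = Pool.Agent.NT.ResNat.step i a := rfl

lemma pos_eq {n : ℕ} (s : Fin n → Fin 3) (k : ℕ) : pos s k = Pool.Agent.NT.ResNat.pos s k := rfl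

lemma pos_zero {n : ℕ} (s : Fin n → Fin 3) : pos s 0 = 0 := NTF.pos_zero s

lemma pos_succ {n : ℕ} (s : Fin n → Fin 3) (j : ℕ) (hj : j < n) : pos s (j + 1) = pos s j + step j (s ⟨j, hj⟩) :=
  NTF.pos_succ s j hj

lemma mem_saw {n : ℕ} {s : Fin n → Fin 3} : s ∈ saw n ↔
    ∀ j k : ℕ, j ≤ n → k ≤ n → pos s j = pos s k → j = k := by
  unfold saw
  simp only [Finset.mem_filter, Finset.mem_univ, true_and]

lemma step_re0 (i : ℕ) (h : Even i) : (step i 0).re = 1 := by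
  unfold step
  rw [h.neg_one_pow]
  simp

lemma step_re1 (i : ℕ) (h : ¬ Even i) : (step i 1).re = 1 / 2 := by
  rw [step_eq, ← NTF.JJ_de, NTF.JJ_re]
  unfold NTF.de
  rw [if_neg h]
  unfold NTF.Ed
  norm_num

/-- there are self-avoiding walks of every length -/
theorem saw_nonempty (n : ℕ) : (saw n).Nonempty := by
  obtain ⟨s, hs⟩ : ∃ s : Fin n → Fin 3, ∀ i : Fin n, s i = if Even (i : ℕ) then (0 : Fin 3) else 1 :=
    ⟨fun i => if Even (i : ℕ) then (0 : Fin 3) else 1, fun _ => rfl⟩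
  have h1 : ∀ j, j < n → (pos s j).re < (pos s (j + 1)).re := by
    intro j hj
    rw [pos_succ s j hj, Complex.add_re]
    have h2 : 0 < (step j (s ⟨j, hj⟩)).re := by
      rw [hs]
      split_ifs with h
      · rw [step_re0 j h]
        norm_num
      · rw [step_re1 j h]
        norm_num
    linarith
  have h2 : ∀ j k, j < k → k ≤ n → (pos s j).re < (pos s k).re := by
    intro j k hjk
    induction k with
    | zero => omega
    | succ k ih =>
      intro hk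
      rcases Nat.lt_succ_iff_lt_or_eq.1 hjk with h | h
      · exact (ih h (by omega)).trans (h1 k (by omega))
      · rw [h]
        exact h1 k (by omega)
  refine ⟨s, mem_saw.2 fun j k hj hk he => ?_⟩
  rcases lt_trichotomy j k with h | h | h
  · have := h2 j k h hk
    rw [he] at this
    exact absurd this (lt_irrefl _)
  · exact h
  · have := h2 k j h hj
    rw [he] at this
    exact absurd this (lt_irrefl _)

lemma pos_ne {n : ℕ} (hn : 1 ≤ n) {s : Fin n → Fin 3} (hs : s ∈ saw n) : pos s n ≠ 0 := by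
  intro h
  rw [← pos_zero s] at h
  have := mem_saw.1 hs n 0 le_rfl (Nat.zero_le n) h
  omega

/-! ### The size -/

/-- what is used of the lengths A in the limit -/
structure Facts (A : Set ℕ) : Prop where
  one : ∀ n ∈ A, 1 ≤ n
  mod : ∀ ε r : ℝ, 0 < ε → 0 < r → ∃ (ρ : ℝ) (n0 : ℕ), 0 < ρ ∧ ∀ n ∈ A, n0 ≤ n →
    (((saw n).filter fun s => ∃ i j : ℕ, i ≤ j ∧ j ≤ n ∧ (j : ℝ) - i ≤ ρ * n ∧
      r * size n < ‖pos s j - pos s i‖).card : ℝ) ≤ ε * ((saw n).card : ℝ)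
  low : ∀ ε : ℝ, 0 < ε → ∃ (κ : ℝ) (n0 : ℕ), 0 < κ ∧ ∀ n ∈ A, n0 ≤ n →
    (((saw n).filter fun s => ‖pos s n‖ ≤ κ * size n).card : ℝ) ≤ ε * ((saw n).card : ℝ)
  four : ∃ (C : ℝ) (n0 : ℕ), 0 < C ∧ ∀ n ∈ A, n0 ≤ n →
    ∑ s ∈ saw n, ‖pos s n‖ ^ 4 ≤ C * size n ^ 4 * ((saw n).card : ℝ)

lemma saw_card_pos (n : ℕ) : (0 : ℝ) < ((saw n).card : ℝ) := by exact_mod_cast (saw_nonempty n).card_pos

section

variable {n : ℕ} {R : ℝ}

/-- the fourth moment -/
theorem four_of (hR : 0 < R) {K : ℝ} (hK : 0 ≤ K)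
    (h : ∀ i : ℕ, (((saw n).filter fun s => 2 ^ i * R ≤ ‖pos s n‖).card : ℝ) ≤
      K / 32 ^ i * ((saw n).card : ℝ)) :
    ∑ s ∈ saw n, ‖pos s n‖ ^ 4 ≤ (1 + 32 * K) * R ^ 4 * ((saw n).card : ℝ) := by
  obtain ⟨I, hI⟩ : ∃ I : ℕ, ∀ s ∈ saw n, ‖pos s n‖ / R < 2 ^ I := by
    obtain ⟨M, hM⟩ : ∃ M : ℝ, ∀ s ∈ saw n, ‖pos s n‖ / R ≤ M :=
      ⟨∑ s ∈ saw n, ‖pos s n‖ / R, fun s hs =>
        single_le_sum (f := fun s => ‖pos s n‖ / R) (fun _ _ => by positivity) hs⟩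
    obtain ⟨I, hI⟩ := pow_unbounded_of_one_lt M (one_lt_two (α := ℝ))
    exact ⟨I, fun s hs => (hM s hs).trans_lt hI⟩
  have h1 : ∑ s ∈ saw n, (‖pos s n‖ / R) ^ 4 ≤
      ∑ s ∈ saw n, (1 + 16 * ∑ i ∈ range I, 16 ^ i * (if 2 ^ i ≤ ‖pos s n‖ / R then (1 : ℝ) else 0)) :=
    sum_le_sum fun s hs => NTF.layer (by positivity) I (hI s hs)
  have h2 : ∑ s ∈ saw n, (1 + 16 * ∑ i ∈ range I, 16 ^ i * (if 2 ^ i ≤ ‖pos s n‖ / R then (1 : ℝ) else 0)) =
      ((saw n).card : ℝ) + 16 * ∑ i ∈ range I, 16 ^ i *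
        (((saw n).filter fun s => 2 ^ i * R ≤ ‖pos s n‖).card : ℝ) := by
    rw [sum_add_distrib, sum_const, nsmul_eq_mul, mul_one, ← mul_sum, sum_comm]
    congr 2
    apply sum_congr rfl
    intro i _
    rw [← mul_sum]
    congr 1
    rw [card_filter]
    push_cast
    apply sum_congr rfl
    intro s _
    simp only [le_div_iff₀ hR]
  have h3 : ∑ i ∈ range I, (16 : ℝ) ^ i * (((saw n).filter fun s => 2 ^ i * R ≤ ‖pos s n‖).card : ℝ) ≤
      2 * K * ((saw n).card : ℝ) := by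
    calc _ ≤ ∑ i ∈ range I, (16 : ℝ) ^ i * (K / 32 ^ i * ((saw n).card : ℝ)) :=
          sum_le_sum fun i _ => mul_le_mul_of_nonneg_left (h i) (by positivity)
      _ = (∑ i ∈ range I, (16 : ℝ) ^ i * (K / 32 ^ i)) * ((saw n).card : ℝ) := by
          rw [sum_mul]
          exact sum_congr rfl fun i _ => by ring
      _ ≤ _ := mul_le_mul_of_nonneg_right (NTF.geo I K hK) (Nat.cast_nonneg _)
  rw [h2] at h1
  have h4 : ∑ s ∈ saw n, ‖pos s n‖ ^ 4 = R ^ 4 * ∑ s ∈ saw n, (‖pos s n‖ / R) ^ 4 := by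
    rw [mul_sum]
    apply sum_congr rfl
    intro s _
    rw [div_pow]
    field_simp
  rw [h4]
  have h5 : (0 : ℝ) < R ^ 4 := by positivity
  nlinarith

lemma size_sq (n : ℕ) : size n ^ 2 * ((saw n).card : ℝ) = ∑ s ∈ saw n, ‖pos s n‖ ^ 2 := by
  have hc := saw_card_pos n
  unfold size
  rw [Real.sq_sqrt (by positivity)]
  field_simp

lemma size_nonneg (n : ℕ) : 0 ≤ size n := Real.sqrt_nonneg _

/-- the size from above -/
theorem size_le (hR : 0 < R) {K : ℝ} (hK : 0 ≤ K)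
    (h : ∑ s ∈ saw n, ‖pos s n‖ ^ 4 ≤ K * R ^ 4 * ((saw n).card : ℝ)) :
    size n ≤ (1 + K) * R := by
  have hc := saw_card_pos n
  have h1 := size_sq n
  have h2 : R ^ 2 * ∑ s ∈ saw n, ‖pos s n‖ ^ 2 ≤ R ^ 4 * ((saw n).card : ℝ) + ∑ s ∈ saw n, ‖pos s n‖ ^ 4 := by
    rw [mul_sum]
    calc ∑ s ∈ saw n, R ^ 2 * ‖pos s n‖ ^ 2 ≤ ∑ s ∈ saw n, (R ^ 4 + ‖pos s n‖ ^ 4) :=
          sum_le_sum fun s _ => by nlinarith [sq_nonneg (R ^ 2 - ‖pos s n‖ ^ 2), sq_nonneg (R ^ 2), sq_nonneg (‖pos s n‖ ^ 2)]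
      _ = _ := by
        rw [sum_add_distrib, sum_const, nsmul_eq_mul]
        ring
  have h3 : R ^ 2 * (size n ^ 2 * ((saw n).card : ℝ)) ≤ ((1 + K) * R ^ 4) * ((saw n).card : ℝ) := by
    rw [h1]
    linarith
  have hR2 : (0 : ℝ) < R ^ 2 := by positivity
  have h4 : size n ^ 2 ≤ (1 + K) * R ^ 2 := by
    by_contra hcon
    push Not at hcon
    have h5 : R ^ 2 * ((1 + K) * R ^ 2) < R ^ 2 * size n ^ 2 := mul_lt_mul_of_pos_left hcon hR2
    have h6 : (R ^ 2 * ((1 + K) * R ^ 2)) * ((saw n).card : ℝ) < (R ^ 2 * size n ^ 2) * ((saw n).card : ℝ) :=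
      mul_lt_mul_of_pos_right h5 hc
    nlinarith
  apply le_of_sq_le_sq _ (by positivity)
  calc size n ^ 2 ≤ (1 + K) * R ^ 2 := h4
    _ ≤ ((1 + K) * R) ^ 2 := by
      rw [mul_pow]
      exact mul_le_mul_of_nonneg_right (by nlinarith) hR2.le

/-- the size from below -/
theorem size_ge (hR : 0 < R) {κ : ℝ} (hκ : 0 < κ)
    (h : (((saw n).filter fun s => ‖pos s n‖ ≤ κ * R).card : ℝ) ≤ 1 / 2 * ((saw n).card : ℝ)) :
    κ / 2 * R ≤ size n := by
  have hc := saw_card_pos n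
  have h1 := size_sq n
  have h2 : ((saw n).card : ℝ) = (((saw n).filter fun s => ‖pos s n‖ ≤ κ * R).card : ℝ) +
      (((saw n).filter fun s => ¬ ‖pos s n‖ ≤ κ * R).card : ℝ) := by
    have := Finset.card_filter_add_card_filter_not (s := saw n) (fun s => ‖pos s n‖ ≤ κ * R)
    exact_mod_cast this.symm
  have h3 : (κ * R) ^ 2 * (((saw n).filter fun s => ¬ ‖pos s n‖ ≤ κ * R).card : ℝ) ≤
      ∑ s ∈ saw n, ‖pos s n‖ ^ 2 := by
    calc _ = ∑ s ∈ (saw n).filter (fun s => ¬ ‖pos s n‖ ≤ κ * R), (κ * R) ^ 2 := by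
          rw [sum_const, nsmul_eq_mul]
          ring
      _ ≤ ∑ s ∈ (saw n).filter (fun s => ¬ ‖pos s n‖ ≤ κ * R), ‖pos s n‖ ^ 2 := by
          apply sum_le_sum
          intro s hs
          rw [Finset.mem_filter] at hs
          apply pow_le_pow_left₀ (by positivity)
          exact (not_le.1 hs.2).le
      _ ≤ _ := sum_le_sum_of_subset_of_nonneg (filter_subset _ _) fun _ _ _ => by positivity
  rw [← h1] at h3
  have h4 : (κ * R) ^ 2 * (1 / 2 * ((saw n).card : ℝ)) ≤ size n ^ 2 * ((saw n).card : ℝ) := by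
    refine le_trans ?_ h3
    apply mul_le_mul_of_nonneg_left _ (by positivity)
    linarith
  have h5 : (κ * R) ^ 2 * (1 / 2) ≤ size n ^ 2 := by
    rw [← mul_assoc] at h4
    exact le_of_mul_le_mul_right h4 hc
  apply le_of_sq_le_sq _ (size_nonneg n)
  nlinarith [sq_nonneg (κ * R)]

end

lemma size_pos {n : ℕ} (hn : 1 ≤ n) : 0 < size n := by
  have h1 := size_sq n
  obtain ⟨s, hs⟩ := saw_nonempty n
  have h2 : 0 < ‖pos s n‖ ^ 2 := by
    have h4 := pos_ne hn hs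
    positivity
  have h3 : 0 < ∑ s ∈ saw n, ‖pos s n‖ ^ 2 :=
    h2.trans_le (single_le_sum (f := fun s => ‖pos s n‖ ^ 2) (fun _ _ => by positivity) hs)
  rw [← h1] at h3
  rcases (size_nonneg n).lt_or_eq with h | h
  · exact h
  · rw [← h] at h3
    simp at h3

end NTSF
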