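import Pool.Agent.NTS.FinDens

/-!
NTW at every scale, counting density: the theorem.
-/

set_option autoImplicit false

namespace NTSF

open Finset MeasureTheory Filter Topology

open HexObs hiding pos

open HexObs.SDN HexObs.NTm HexObs.NTW

open Pool.Agent.NTS.Res

open NTF (AU)

open scoped ENNReal Classical

/-- all the scales -/
lemma GCK_all {l : ℕ → ℕ} (hl : ∀ k, (0 : ℝ) < l k) {K K' e c : ℝ} (hK : K ≤ K') (hec : e ≤ c) (hK0 : 0 ≤ K)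
    (h : ∀ k j : ℕ, (l (k + j) : ℝ) ≤ K * (2 : ℝ) ^ (e * (j : ℝ)) * l k) : GCK K' c l = Set.univ := by
  ext L
  refine ⟨fun _ => Set.mem_univ _, fun _ j hj => ?_⟩
  have h1 := h (L - j) j
  rw [Nat.sub_add_cancel hj] at h1
  refine h1.trans ?_
  have h2 : (2 : ℝ) ^ (e * (j : ℝ)) ≤ (2 : ℝ) ^ (c * (j : ℝ)) := by
    refine Real.rpow_le_rpow_of_exponent_le (by norm_num) ?_
    exact mul_le_mul_of_nonneg_right hec (Nat.cast_nonneg _)
  have h3 := hl (L - j)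
  have h4 : (0 : ℝ) < (2 : ℝ) ^ (e * (j : ℝ)) := Real.rpow_pos_of_pos (by norm_num) _
  have h5 : 0 ≤ K' := hK0.trans hK
  gcongr

/-- **the final theorem at every scale, counting density** -/
theorem result_dens {l : ℕ → ℕ} (hone : ∀ k, 1 ≤ l k) (hmono : Monotone l)
    (hup : ∀ e : ℝ, 0 < e → ∃ C : ℝ, 0 < C ∧ ∀ k : ℕ, (l k : ℝ) ≤ C * (2 : ℝ) ^ ((4 / 3 + e) * k))
    (hlow : ∀ e : ℝ, 0 < e → ∃ k0 : ℕ, ∀ k : ℕ, k0 ≤ k → (2 : ℝ) ^ ((4 / 3 - e) * k) ≤ l k)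
    (hF : FactsS l Set.univ)
    (hH : ∀ a c K : ℝ, 0 < a → 4 / 3 < c → a * c < 1 → 1 ≤ K → FactSH a l (GCK K c l))
    {e g : ℝ} (he : 4 / 3 ≤ e) (hg : 0 < g) (hge : g * e < 1)
    (hupc : ∃ K : ℝ, ∀ k j : ℕ, (l (k + j) : ℝ) ≤ K * (2 : ℝ) ^ (e * (j : ℝ)) * l k)
    (hlo : ∃ b : ℝ, 0 < b ∧ ∀ k j : ℕ, b * (2 : ℝ) ^ (5 / 4 * (j : ℝ)) * l k ≤ l (k + j))
    (hmass : ∃ (C : ℝ) (L0 : ℕ), 1 ≤ C ∧ ∀ k, L0 ≤ k → gf (SAL (l (k + 1))) ≤ ENNReal.ofReal C * gf (SAL (l k)))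
    (hPT : ∃ c : ℝ, 0 < c ∧ ∀ n : ℕ, 1 ≤ n → c * weight n Set.univ ≤ n * ww n) :
    ∀ ε : ℝ, 0 < ε → ConclDens g ε := by
  have hl0 : ∀ k, (0 : ℝ) < l k := fun k => by exact_mod_cast hone k
  obtain ⟨Kc0, hupc0⟩ := hupc
  obtain ⟨Kc, hKc⟩ : ∃ Kc : ℝ, Kc = max 1 Kc0 := ⟨_, rfl⟩
  have hKc1 : 1 ≤ Kc := by
    rw [hKc]
    exact le_max_left _ _
  have hupc : ∀ k j : ℕ, (l (k + j) : ℝ) ≤ Kc * (2 : ℝ) ^ (e * (j : ℝ)) * l k := fun k j => (hupc0 k j).trans (by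
    have h1 : (0 : ℝ) < (2 : ℝ) ^ (e * (j : ℝ)) := Real.rpow_pos_of_pos (by norm_num) _
    have h2 : Kc0 ≤ Kc := by rw [hKc]; exact le_max_right _ _
    have h3 := hl0 k
    gcongr)
  obtain ⟨Cl, hCl⟩ : ∃ Cl : ℝ, Cl = max 2 (Kc * (2 : ℝ) ^ (e * ((1 : ℕ) : ℝ))) := ⟨_, rfl⟩
  have hCl2 : 2 ≤ Cl := by
    rw [hCl]
    exact le_max_left _ _
  have hup1 : ∀ k, (l (k + 1) : ℝ) ≤ Cl * l k := fun k => (hupc k 1).trans
    (mul_le_mul_of_nonneg_right (by rw [hCl]; exact le_max_right _ _) (hl0 k).le)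
  obtain ⟨b1, hb1, hlo⟩ := hlo
  obtain ⟨Cg, Lm, hCg, hmass⟩ := hmass
  intro ε hε
  obtain ⟨f, hf⟩ := exists_surjective_nat Ix
  obtain ⟨Cm, hCm⟩ : ∃ Cm : ℝ, Cm = 3 / 2 * Cg := ⟨_, rfl⟩
  have hCm1 : 1 ≤ Cm := by
    rw [hCm]
    linarith
  have hCm0 : 0 < Cm := by linarith
  have hmassw : ∀ k, Lm ≤ k → weight (l (k + 1)) Set.univ ≤ Cm * weight (l k) Set.univ := fun k hk => by
    rw [hCm]
    exact weight_dbl hCg (hmass k hk)
  obtain ⟨ε1, hε1, hcount⟩ := count_of hone hlow ⟨b1, hb1, hlo⟩ hCm1 hmassw hPT hε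
  -- the choice of the lengths
  have hα : ∀ i, (0 : ℝ) < ((f i).1.1 : ℝ) := fun i => by exact_mod_cast (f i).2.1
  obtain ⟨L1, A, hC, hHC, hle, htyp, ρ0, hρ0, hρA⟩ := pickS_fam (ε := 2 / 3 * (ε1 / Cm)) (by positivity)
    (α := fun i => ((f i).1.1 : ℝ)) hα (H := fun i => GCK ((f i).1.2.2 : ℝ) ((f i).1.2.1 : ℝ) l) hup hlow hF (fun i => by
      refine hH _ _ _ (hα i) ?_ ?_ ?_
      · have h1 := (f i).2.2.1
        have h2 : ((4 / 3 : ℚ) : ℝ) < ((f i).1.2.1 : ℝ) := by exact_mod_cast h1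
        push_cast at h2
        exact h2
      · have h1 := (f i).2.2.2.1
        exact_mod_cast h1
      · exact_mod_cast (f i).2.2.2.2)
  have hinu : ∀ S : Set ℕ, (Set.univ : Set ℕ) ∩ S = S := fun S => Set.univ_inter S
  simp only [hinu] at hHC
  obtain ⟨k1, hk1⟩ := factsG_of hC
  obtain ⟨c, Cs, k0, hc, hCs, hsize⟩ := core_size hC
  obtain ⟨k2, hk2⟩ : ∃ k2 : ℕ, k2 = max k1 k0 := ⟨_, rfl⟩
  obtain ⟨hA, hexp, hhold⟩ := hk1 k2 (hk2 ▸ le_max_left _ _)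
  -- Hoelder at all scales
  have hHA : ∀ a : ℝ, 0 < a → a < g → ∃ a' : ℝ, a < a' ∧ a' ≤ 1 ∧ HoldA a' (AU (Cut Set.univ L1) A k2) := by
    intro a ha hag
    obtain ⟨a', ha1, ha2⟩ := exists_rat_btwn hag
    have ha'0 : (0 : ℝ) < a' := ha.trans ha1
    have h1 : e < 1 / (a' : ℝ) := by
      rw [lt_div_iff₀ ha'0]
      have : (a' : ℝ) * e < 1 := by nlinarith
      linarith
    obtain ⟨c', hc1, hc2⟩ := exists_rat_btwn h1
    have hac : (a' : ℝ) * c' < 1 := by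
      rw [lt_div_iff₀ ha'0] at hc2
      linarith
    have hc43 : (4 / 3 : ℝ) < c' := by linarith
    obtain ⟨K', hK'⟩ := exists_nat_ge Kc
    have hK'1 : 1 ≤ K' := by
      have : (1 : ℝ) ≤ K' := hKc1.trans hK'
      exact_mod_cast this
    obtain ⟨i, hi⟩ := hf ⟨(a', c', K'), by exact_mod_cast ha'0, by
      have : ((4 / 3 : ℚ) : ℝ) < (c' : ℝ) := by
        push_cast
        exact hc43
      exact_mod_cast this, by exact_mod_cast hac, hK'1⟩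
    have h2 := hHC i
    rw [hi] at h2
    simp only at h2
    rw [GCK_all hl0 hK' hc1.le (by linarith) hupc] at h2
    exact ⟨a', ha1, by nlinarith, hhold _ ha'0 h2⟩
  have hgood : ∀ k ∈ Cut Set.univ L1, weight (l k) {n | ¬ n ∈ A k} ≤ ε1 / Cm * weight (l k) Set.univ := fun k hk =>
    weight_typ (by positivity) (htyp k hk)
  -- the constants
  obtain ⟨Cz, hCz1, hCz⟩ := size_cmp2 hone hmono hc hCs hρ0 hb1 hKc1 hupc hlo hg hge.le
  obtain ⟨k3, hk3⟩ : ∃ k3 : ℕ, k3 = max (max k2 L1) Lm := ⟨_, rfl⟩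
  have hk32 : k2 ≤ k3 := by rw [hk3]; exact (le_max_left _ _).trans (le_max_left _ _)
  have hk3L : L1 ≤ k3 := by rw [hk3]; exact (le_max_right _ _).trans (le_max_left _ _)
  have hk3m : Lm ≤ k3 := by rw [hk3]; exact le_max_right _ _
  have hk02 : k0 ≤ k2 := by rw [hk2]; exact le_max_right _ _
  -- the counting density
  obtain ⟨N2, hN2⟩ := hcount (AU (Cut Set.univ L1) A k2) (l k3) (by
    intro N hN
    have h1 := every_N hlow hCm1 hε1 hρ0 (k3 := k3) (A := A) (B := AU (Cut Set.univ L1) A k2)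
      (fun k hk => hmassw k (hk3m.trans hk))
      (fun k hk => hgood k ⟨Set.mem_univ _, hk3L.trans hk⟩)
      (fun k hk n hn => ⟨⟨k, ⟨Set.mem_univ _, hk3L.trans hk⟩, hk32.trans hk, hn⟩,
        (hρA k ⟨Set.mem_univ _, hk3L.trans hk⟩ n hn).le⟩) N hN
    refine le_trans (weight_mono ?_) h1
    intro n hn hcon
    exact hn hcon.1)
  refine ⟨AU (Cut Set.univ L1) A k2, N2, hN2, ⟨Cz, hCz1, ?_⟩, law_prob, hexp, fun a ha hag ε' hε' => ?_, tight hA,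
    fun φ _ hφA => subseq hA hφA, fun φ ν hφ hφA hν hlim => ?_, ?_⟩
  · rintro m ⟨k, hk, hkk, hm⟩ n ⟨k', hk', hkk', hn⟩ hmn
    obtain ⟨s2, s1⟩ := hsize k hk m hm
    obtain ⟨s4, s3⟩ := hsize k' hk' n hn
    exact hCz k k' m n (size m) (size n) (hC.pos k hk m hm) hmn (hρA k hk m hm) (hle k hk m hm)
      (hρA k' hk' n hn) (hle k' hk' n hn) (s1 (hk02.trans hkk)) s2 (s3 (hk02.trans hkk')) s4
  · obtain ⟨a', ha1, ha2, ha3⟩ := hHA a ha hag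
    have ha'0 : 0 < a' := lt_trans (by exact_mod_cast ha) ha1
    obtain ⟨M, hM⟩ := law_holder (a := (⟨a', ha'0.le⟩ : NNReal)) hA ha3 ha'0 ha2 hε'
    refine ⟨M, fun n hn => le_trans (measure_mono ?_) (hM n hn)⟩
    intro γ hγ hcon
    exact hγ (holder_mono (by exact_mod_cast ha1.le) hcon)
  · obtain ⟨h1, h2⟩ := limit_props hA hφ hφA hν hlim
    refine ⟨h1, fun a ha hag => ?_, h2⟩
    obtain ⟨a', ha1, ha2, ha3⟩ := hHA a ha hag
    have ha'0 : 0 < a' := lt_trans (by exact_mod_cast ha) ha1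
    filter_upwards [limit_holder (a := (⟨a', ha'0.le⟩ : NNReal)) hA ha3 ha'0 ha2 hφA hν hlim] with γ h4
    obtain ⟨M, hM⟩ := h4
    exact ⟨M, holder_mono (by exact_mod_cast ha1.le) hM⟩
  · -- the exponents up to 3 / 4
    intro a r ha har ha1 hr
    have ha' : (0 : ℝ) < a := ha
    obtain ⟨c1, a', e', hc1, hc1', ha'0, hac, haa, he', hre⟩ := num_dens ha' har ha1 hr
    have hc1R : (4 / 3 : ℝ) < c1 := by
      have : ((4 / 3 : ℚ) : ℝ) < (c1 : ℝ) := by exact_mod_cast hc1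
      push_cast at this
      exact this
    have ha'R : (0 : ℝ) < (a' : ℝ) := by exact_mod_cast ha'0
    have ha'le : (a' : ℝ) ≤ 1 := by
      have h1 : (a' : ℝ) * c1 < 1 := by exact_mod_cast hac
      nlinarith
    obtain ⟨K, hK, hD⟩ := dense_GCKs hone hup hlow ⟨b1, hb1, hlo⟩ hc1' hc1R he'
    obtain ⟨q0, hq0⟩ : ∃ q0 : ℕ, max (2 / c) Cs ≤ (2 : ℝ) ^ q0 := by
      obtain ⟨m, hm⟩ := pow_unbounded_of_one_lt (max (2 / c) Cs) (show (1 : ℝ) < 2 by norm_num)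
      exact ⟨m, hm.le⟩
    obtain ⟨K', hK'⟩ := exists_nat_ge (K * (Cl ^ (2 * q0) * (2 : ℝ) ^ ((c1 : ℝ) * (2 * q0 : ℕ))))
    have hK'1 : 1 ≤ K' := by
      have h1 : (1 : ℝ) ≤ Cl ^ (2 * q0) := one_le_pow₀ (by linarith)
      have h2 : (1 : ℝ) ≤ (2 : ℝ) ^ ((c1 : ℝ) * (2 * q0 : ℕ)) := Real.one_le_rpow (by norm_num) (by positivity)
      have h3 : (1 : ℝ) ≤ K' := by
        calc (1 : ℝ) = 1 * (1 * 1) := by ring
          _ ≤ K * (Cl ^ (2 * q0) * (2 : ℝ) ^ ((c1 : ℝ) * (2 * q0 : ℕ))) := by gcongr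
          _ ≤ K' := hK'
      exact_mod_cast h3
    obtain ⟨i, hi⟩ := hf ⟨(a', c1, K'), ha'0, hc1, hac, hK'1⟩
    have hHCi := hHC i
    rw [hi] at hHCi
    simp only at hHCi
    have hCi : CoreW (Cut (GCK (K' : ℝ) (c1 : ℝ) l) L1) A :=
      coreW_mono (show Cut (GCK (K' : ℝ) (c1 : ℝ) l) L1 ⊆ Cut Set.univ L1 from fun k hk => ⟨Set.mem_univ k, hk.2⟩) hC
    obtain ⟨ki, hki⟩ := factsG_of hCi
    obtain ⟨hFi, -, hHi⟩ := hki (max k2 ki) (le_max_right _ _)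
    have hHi' := hHi _ ha'R hHCi
    have hnear : ∀ n ∈ AU (Cut Set.univ L1) A k2,
        n ∈ NearS {k | k ∈ GCK K c1 l ∧ max k2 ki + L1 + q0 ≤ k} →
        n ∈ AU (Cut (GCK (K' : ℝ) (c1 : ℝ) l) L1) A (max k2 ki) := by
      rintro n ⟨k', hk', hkk', hn⟩ ⟨k, ⟨hk1, hk2'⟩, s1, s2⟩
      obtain ⟨t1, t2⟩ := hsize k' hk' n hn
      have t2 := t2 (hk02.trans hkk')
      have h2c : 2 / c ≤ (2 : ℝ) ^ q0 := (le_max_left _ _).trans hq0
      have hCsq : Cs ≤ (2 : ℝ) ^ q0 := (le_max_right _ _).trans hq0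
      have u1 : k ≤ k' + q0 := by
        have : (2 : ℝ) ^ k ≤ 2 ^ (k' + q0) := by
          calc (2 : ℝ) ^ k ≤ Cs * 2 ^ k' := s1.trans t1
            _ ≤ 2 ^ q0 * 2 ^ k' := mul_le_mul_of_nonneg_right hCsq (by positivity)
            _ = _ := by rw [pow_add]; ring
        exact (pow_le_pow_iff_right₀ (by norm_num)).1 this
      have u2 : k' ≤ k + q0 := by
        have : (2 : ℝ) ^ k' ≤ 2 ^ (k + q0) := by
          rw [div_le_iff₀ hc] at h2c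
          have h3 : c * (2 : ℝ) ^ k' ≤ c * 2 ^ (k + q0) := by
            calc c * (2 : ℝ) ^ k' ≤ 2 ^ (k + 1) := t2.trans s2
              _ = 2 * 2 ^ k := by rw [pow_succ]; ring
              _ ≤ 2 ^ q0 * c * 2 ^ k := mul_le_mul_of_nonneg_right h2c (by positivity)
              _ = _ := by rw [pow_add]; ring
          exact le_of_mul_le_mul_left h3 hc
        exact (pow_le_pow_iff_right₀ (by norm_num)).1 this
      have hk'G : k' ∈ GCK (K' : ℝ) (c1 : ℝ) l :=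
        GCK_mono hK' (GCK_near hmono hone (by linarith) hup1 hK (by linarith) hk1 u1 u2)
      exact ⟨k', ⟨hk'G, hk'.2⟩, by omega, hn⟩
    obtain ⟨H, hHd⟩ : ∃ H : Set ℕ, H = {k | k ∈ GCK K c1 l ∧ max k2 ki + L1 + q0 ≤ k} := ⟨_, rfl⟩
    rw [← hHd] at hnear
    refine ⟨H, ?_, ?_, ?_⟩
    · intro δ hδ
      obtain ⟨x0, hx0⟩ := hD δ hδ
      refine ⟨max x0 (max k2 ki + L1 + q0), fun x hx => ?_⟩
      have h1 := hx0 x ((le_max_left _ _).trans hx)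
      have h2 : (1 - r) * (δ * x) ≤ (1 - (1 - ((c1 : ℝ) - 4 / 3) / (c1 - 5 / 4) + e')) * (δ * x) := by
        refine mul_le_mul_of_nonneg_right (by linarith) (by positivity)
      refine h2.trans (h1.trans (Nat.cast_le.2 (Finset.card_le_card fun k hk => ?_)))
      rw [Finset.mem_filter, Finset.mem_Icc] at hk
      rw [Finset.mem_filter, Finset.mem_Icc, hHd]
      exact ⟨hk.1, hk.2, (le_max_right _ _).trans (hx.trans hk.1.1)⟩
    · intro ε' hε'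
      obtain ⟨M, hM⟩ := law_holder (a := (⟨a', ha'R.le⟩ : NNReal)) hFi hHi' ha'R ha'le hε'
      refine ⟨M, fun n hn hnn => le_trans (measure_mono ?_) (hM n (hnear n hn hnn))⟩
      intro γ hγ hcon
      exact hγ (holder_mono (by exact_mod_cast haa.le) hcon)
    · intro φ ν _ hφA hν hlim
      filter_upwards [limit_holder (a := (⟨a', ha'R.le⟩ : NNReal)) hFi hHi' ha'R ha'le
        (fun k => hnear _ (hφA k).1 (hφA k).2) hν hlim] with γ h4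
      obtain ⟨M, hM⟩ := h4
      exact ⟨M, holder_mono (by exact_mod_cast haa.le) hM⟩

end NTSF
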