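import Pool.Agent.NTS.CoreDefs

/-!
NTW (natural time for all self-avoiding walks): the facts about the walks with at most l L steps (critical weights).
-/

set_option autoImplicit false

namespace HexObs

namespace NTW

open Finset SDN

open scoped ENNReal

/-- the walks with at most l L letters at the scales of G (critical weights) -/
structure FactsS (l : ℕ → ℕ) (G : Set ℕ) : Prop where
  modu : ∀ r ε : ℝ, 0 < r → 0 < ε → ∃ (ρ : ℝ) (L0 : ℕ), 0 < ρ ∧ ∀ L ∈ G, L0 ≤ L →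
    gf {t | t ∈ SAL (l L) ∧ ∃ (dir : Bool) (i j : ℕ), i ≤ j ∧ j ≤ t.length ∧ (j : ℝ) - i ≤ ρ * l L ∧
      r * 2 ^ L ≤ |((lvl dir (vx oo up t j) - lvl dir (vx oo up t i) : ℤ) : ℝ)|} ≤
      ENNReal.ofReal ε * gf (SAL (l L))
  few : ∀ ε : ℝ, 0 < ε → ∃ (ρ : ℝ) (L0 : ℕ), 0 < ρ ∧ ∀ L ∈ G, L0 ≤ L →
    gf {t | t ∈ SAL (l L) ∧ (t.length : ℝ) ≤ ρ * l L} ≤ ENNReal.ofReal ε * gf (SAL (l L))
  low : ∀ ε : ℝ, 0 < ε → ∃ (κ : ℝ) (L0 : ℕ), 0 < κ ∧ ∀ L ∈ G, L0 ≤ L →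
    gf {t | t ∈ SAL (l L) ∧ ∀ dir : Bool, |((lvl dir (vx oo up t t.length) : ℤ) : ℝ)| ≤ κ * 2 ^ L} ≤
      ENNReal.ofReal ε * gf (SAL (l L))
  tail : ∃ (K : ℝ) (L0 : ℕ), 0 < K ∧ ∀ L ∈ G, L0 ≤ L → ∀ i : ℕ,
    gf {t | t ∈ SAL (l L) ∧ ∃ dir : Bool, (2 : ℝ) ^ i * 2 ^ L ≤ |((lvl dir (vx oo up t t.length) : ℤ) : ℝ)|} ≤
      ENNReal.ofReal (K / 2 ^ (12 * i)) * gf (SAL (l L))

/-- the Hoelder modulus of the walks with at most l L letters at the scales of G (critical weights) -/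
def FactSH (a : ℝ) (l : ℕ → ℕ) (G : Set ℕ) : Prop := ∀ e : ℝ, 0 < e → ∃ (M : ℝ) (L0 : ℕ), 0 < M ∧ ∀ L ∈ G, L0 ≤ L →
  gf {t | t ∈ SAL (l L) ∧ ∃ (dir : Bool) (i j : ℕ), i < j ∧ j ≤ t.length ∧
    M * 2 ^ L * (((j : ℝ) - i) / l L) ^ a ≤ |((lvl dir (vx oo up t j) - lvl dir (vx oo up t i) : ℤ) : ℝ)|} ≤
    ENNReal.ofReal e * gf (SAL (l L))

end NTW

end HexObs
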