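import Pool.Agent.NT.SeqDefsH
import Pool.Agent.PHW.DefsB

/-!
NTW (natural time for all self-avoiding walks): the interface between the critical weights and the uniform n-step walks.
-/

set_option autoImplicit false

namespace HexObs

namespace NTW

open Finset SDN

open scoped ENNReal

/-- the properties of the uniform n-step walks, n in A k, k in G -/
structure CoreW (G : Set ℕ) (A : ℕ → Set ℕ) : Prop where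
  pos : ∀ k ∈ G, ∀ n ∈ A k, 1 ≤ n
  exps : ∀ η : ℝ, 0 < η → ∃ k0 : ℕ, ∀ k ∈ G, k0 ≤ k → ∀ n ∈ A k,
    (2 : ℝ) ^ ((4 / 3 - η) * k) ≤ n ∧ (n : ℝ) ≤ (2 : ℝ) ^ ((4 / 3 + η) * k)
  modu : ∀ r e : ℝ, 0 < r → 0 < e → ∃ (ρ : ℝ) (k0 : ℕ), 0 < ρ ∧ ∀ k ∈ G, k0 ≤ k → ∀ n ∈ A k,
    gf {t | t ∈ SawN n ∧ ∃ (dir : Bool) (i j : ℕ), i ≤ j ∧ j ≤ n ∧ (j : ℝ) - i ≤ ρ * n ∧
      r * 2 ^ k ≤ |((lvl dir (vx oo up t j) - lvl dir (vx oo up t i) : ℤ) : ℝ)|} ≤ ENNReal.ofReal e * gf (SawN n)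
  low : ∀ e : ℝ, 0 < e → ∃ (κ : ℝ) (k0 : ℕ), 0 < κ ∧ ∀ k ∈ G, k0 ≤ k → ∀ n ∈ A k,
    gf {t | t ∈ SawN n ∧ ∀ dir : Bool, |((lvl dir (vx oo up t n) : ℤ) : ℝ)| ≤ κ * 2 ^ k} ≤
      ENNReal.ofReal e * gf (SawN n)
  tail : ∃ K : ℝ, 0 < K ∧ ∀ k ∈ G, ∀ n ∈ A k, ∀ i : ℕ,
    gf {t | t ∈ SawN n ∧ ∃ dir : Bool, (2 : ℝ) ^ i * 2 ^ k ≤ |((lvl dir (vx oo up t n) : ℤ) : ℝ)|} ≤
      ENNReal.ofReal (K / 32 ^ i) * gf (SawN n)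

/-- the Hoelder modulus of the uniform n-step walks, n in A k, k in G -/
def HCoreW (a : ℝ) (G : Set ℕ) (A : ℕ → Set ℕ) : Prop := ∀ e : ℝ, 0 < e → ∃ (M : ℝ) (k0 : ℕ), 0 < M ∧ ∀ k ∈ G, k0 ≤ k →
  ∀ n ∈ A k, gf {t | t ∈ SawN n ∧ ∃ (dir : Bool) (i j : ℕ), i < j ∧ j ≤ n ∧
    M * 2 ^ k * (((j : ℝ) - i) / n) ^ a ≤ |((lvl dir (vx oo up t j) - lvl dir (vx oo up t i) : ℤ) : ℝ)|} ≤
    ENNReal.ofReal e * gf (SawN n)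

end NTW

end HexObs
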