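import Pool.Agent.NTS.FactsW
import Pool.Agent.NTS.CoreDefs
import Pool.Agent.NT.FactsG

/-!
NTW (natural time for all self-avoiding walks): from the output of the part with the critical weights (scales G,
lengths A k) to the walks with n steps.
-/

set_option autoImplicit false

namespace NTSF

open Finset

open HexObs hiding pos

open HexObs.SDN HexObs.NTW

open Pool.Agent.NTS.Res

open NTF (sw JJ AU)

open scoped ENNReal Classical

/-- the size of the walks with n steps, n in A k, is of the order 2 ^ k -/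
theorem core_size {G : Set ℕ} {A : ℕ → Set ℕ} (hC : CoreW G A) : ∃ (c C : ℝ) (k0 : ℕ), 0 < c ∧ 0 < C ∧
    ∀ k ∈ G, ∀ n ∈ A k, size n ≤ C * 2 ^ k ∧ (k0 ≤ k → c * 2 ^ k ≤ size n) := by
  obtain ⟨K, hK, htail⟩ := hC.tail
  obtain ⟨κ, k0, hκ, hlow⟩ := hC.low (1 / 2) (by norm_num)
  refine ⟨κ / 4, 2 + 32 * K, k0, by positivity, by positivity, fun k hk n hn => ?_⟩
  have hn1 := hC.pos k hk n hn
  have h2k : (0 : ℝ) < 2 ^ k := by positivity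
  constructor
  · have h1 : ∀ i : ℕ, (((saw n).filter fun s => 2 ^ i * 2 ^ k ≤ ‖pos s n‖).card : ℝ) ≤
        K / 32 ^ i * ((saw n).card : ℝ) := by
      intro i
      refine prop_le hn1 _ (fun s => by rw [norm_rot']) (by positivity) ?_ (htail k hk n hn i)
      intro t ht h1
      rw [pos_sw n t n le_rfl] at h1
      exact ⟨ht, NTF.exists_dir (by positivity) h1⟩
    have h2 := four_of h2k hK.le h1
    have h3 := size_le h2k (K := 1 + 32 * K) (by positivity) h2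
    linarith
  · intro hk0
    have h1 : (((saw n).filter fun s => ‖pos s n‖ ≤ κ / 2 * 2 ^ k).card : ℝ) ≤ 1 / 2 * ((saw n).card : ℝ) := by
      refine prop_le hn1 _ (fun s => by rw [norm_rot']) (by norm_num) ?_ (hlow k hk hk0 n hn)
      intro t ht h2
      rw [pos_sw n t n le_rfl] at h2
      refine ⟨ht, fun dir => (lvl_le_norm dir _).trans ?_⟩
      linarith
    have h2 := size_ge h2k (κ := κ / 2) (by positivity) h1
    linarith

/-- **from the critical weights to the walks with n steps** -/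
theorem factsG_of {G : Set ℕ} {A : ℕ → Set ℕ} (hC : CoreW G A) : ∃ k1 : ℕ, ∀ k2 : ℕ, k1 ≤ k2 →
    Facts (AU G A k2) ∧
    (∀ ε : ℝ, 0 < ε → ∃ n₀ : ℕ, ∀ n ∈ AU G A k2, n₀ ≤ n →
      (n : ℝ) ^ (3 / 4 - ε) ≤ size n ∧ size n ≤ (n : ℝ) ^ (3 / 4 + ε)) ∧
    ∀ a : ℝ, 0 < a → HCoreW a G A → HoldA a (AU G A k2) := by
  obtain ⟨k1, hk1⟩ := hC.exps 1 one_pos
  refine ⟨k1, fun k2 hk2 => ?_⟩
  obtain ⟨κ, hκ⟩ : ∃ κ : ℕ → ℕ, ∀ n ∈ AU G A k2, κ n ∈ G ∧ k2 ≤ κ n ∧ n ∈ A (κ n) := by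
    have : ∀ n : ℕ, ∃ k : ℕ, n ∈ AU G A k2 → k ∈ G ∧ k2 ≤ k ∧ n ∈ A k := by
      intro n
      by_cases hn : n ∈ AU G A k2
      · obtain ⟨k, h1, h2, h3⟩ := hn
        exact ⟨k, fun _ => ⟨h1, h2, h3⟩⟩
      · exact ⟨0, fun h => absurd h hn⟩
    choose κ hκ using this
    exact ⟨κ, hκ⟩
  -- the scale tends to infinity with n
  have hlarge : ∀ k0 : ℕ, ∃ n0 : ℕ, ∀ n ∈ AU G A k2, n0 ≤ n → k0 ≤ κ n := by
    intro k0
    refine ⟨⌈(2 : ℝ) ^ ((4 / 3 + 1) * (k0 : ℝ))⌉₊ + 1, fun n hn hn0 => ?_⟩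
    by_contra hcon
    push Not at hcon
    obtain ⟨h1, h2, h3⟩ := hκ n hn
    have h4 := (hk1 _ h1 (hk2.trans h2) n h3).2
    have h5 : (n : ℝ) ≤ (2 : ℝ) ^ ((4 / 3 + 1) * (k0 : ℝ)) := by
      refine h4.trans (Real.rpow_le_rpow_of_exponent_le (by norm_num) ?_)
      have : (κ n : ℝ) ≤ k0 := by exact_mod_cast hcon.le
      nlinarith
    have h6 : (n : ℝ) ≤ ⌈(2 : ℝ) ^ ((4 / 3 + 1) * (k0 : ℝ))⌉₊ := h5.trans (Nat.le_ceil _)
    have h7 : n ≤ ⌈(2 : ℝ) ^ ((4 / 3 + 1) * (k0 : ℝ))⌉₊ := by exact_mod_cast h6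
    omega
  obtain ⟨K, hK, htail⟩ := hC.tail
  have hone : ∀ n ∈ AU G A k2, 1 ≤ n := fun n hn => hC.pos _ (hκ n hn).1 n (hκ n hn).2.2
  obtain ⟨h1, h2, ⟨c, n1, hc, h3⟩, -⟩ := facts_core (A := AU G A k2) (R := fun n => 2 ^ κ n) hone
    (fun n _ => one_le_pow₀ (by norm_num)) (by
      intro ε hε
      obtain ⟨η, hη, -, hnum⟩ := NTF.exp_num hε
      obtain ⟨k0, hk0⟩ := hC.exps η hη
      obtain ⟨n0, hn0⟩ := hlarge k0
      refine ⟨n0, fun n hn hnn => ?_⟩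
      obtain ⟨a1, a2, a3⟩ := hκ n hn
      obtain ⟨b1, b2⟩ := hk0 _ a1 (hn0 n hn hnn) n a3
      exact hnum (κ n) n (hone n hn) b1 b2) (by
      intro ε r hε hr
      obtain ⟨ρ, k0, hρ, h4⟩ := hC.modu r ε hr hε
      obtain ⟨n0, hn0⟩ := hlarge k0
      exact ⟨ρ, n0, hρ, fun n hn hnn => h4 _ (hκ n hn).1 (hn0 n hn hnn) n (hκ n hn).2.2⟩) (by
      intro ε hε
      obtain ⟨κ', k0, hκ', h4⟩ := hC.low ε hε
      obtain ⟨n0, hn0⟩ := hlarge k0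
      exact ⟨κ', n0, hκ', fun n hn hnn => h4 _ (hκ n hn).1 (hn0 n hn hnn) n (hκ n hn).2.2⟩) hK
    (fun n hn i => htail _ (hκ n hn).1 n (hκ n hn).2.2 i)
  refine ⟨h1, h2, fun a ha hH => ?_⟩
  refine hold_core (R := fun n => 2 ^ κ n) hone (fun n _ => one_le_pow₀ (by norm_num)) hc h3 fun ε hε => ?_
  obtain ⟨M, k0, hM, h4⟩ := hH ε hε
  obtain ⟨n0, hn0⟩ := hlarge k0
  exact ⟨M, n0, hM, fun n hn hnn => h4 _ (hκ n hn).1 (hn0 n hn hnn) n (hκ n hn).2.2⟩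

end NTSF
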