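import Pool.Agent.NTS.DenseW

/-!
NTW (natural time for all self-avoiding walks): natural density of sets of scales.
-/

set_option autoImplicit false

namespace NTSF

open Finset

open HexObs.NTm HexObs.NTW

open scoped Classical

/-- a lower bound of the number of the elements in all large windows gives the natural density -/
theorem lowD_of_dense {e : ℝ} {G : Set ℕ} (he : 0 ≤ e) (hD : Dense e G) : LowD e G := by
  rcases le_or_gt 1 e with h1 | h1
  · intro η hη
    refine ⟨0, fun x _ => ?_⟩
    have h2 : (0 : ℝ) ≤ x := Nat.cast_nonneg x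
    have h3 : (1 - e - η) * x ≤ 0 := mul_nonpos_of_nonpos_of_nonneg (by linarith) h2
    exact h3.trans (Nat.cast_nonneg _)
  intro η hη
  obtain ⟨η', hη'⟩ : ∃ η' : ℝ, η' = min η 1 / 2 := ⟨_, rfl⟩
  have hη0 : 0 < η' := by
    rw [hη']
    have : 0 < min η 1 := lt_min hη one_pos
    positivity
  have hη1 : η' ≤ η / 2 := by
    rw [hη']
    have := min_le_left η 1
    linarith
  have hη2 : η' ≤ 1 / 2 := by
    rw [hη']
    have := min_le_right η 1
    linarith
  obtain ⟨x0, hx0⟩ := hD 1 one_pos
  obtain ⟨Y0, hY0⟩ : ∃ Y0 : ℕ, Y0 = max (2 * x0 + 3) ⌈6 / η'⌉₊ := ⟨_, rfl⟩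
  -- the induction
  have key : ∀ y : ℕ, (1 - e) * (1 - η') * y - (1 - e) * (1 - η') * Y0 ≤
      (((Finset.range y).filter fun k => k ∈ G).card : ℝ) := by
    intro y
    induction y using Nat.strong_induction_on with
    | _ y ih =>
      have ha : 0 ≤ (1 - e) * (1 - η') := mul_nonneg (by linarith) (by linarith)
      rcases Nat.lt_or_ge y Y0 with h2 | h2
      · have h3 : (y : ℝ) ≤ Y0 := by exact_mod_cast h2.le
        have h4 : (1 - e) * (1 - η') * y ≤ (1 - e) * (1 - η') * Y0 := mul_le_mul_of_nonneg_left h3 ha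
        have h5 : (0 : ℝ) ≤ (((Finset.range y).filter fun k => k ∈ G).card : ℝ) := Nat.cast_nonneg _
        linarith
      · have h3 : 2 * x0 + 3 ≤ y := by
          rw [hY0] at h2
          exact le_of_max_le_left h2
        have h4 : 6 / η' ≤ y := by
          refine (Nat.le_ceil _).trans ?_
          rw [hY0] at h2
          exact_mod_cast le_of_max_le_right h2
        obtain ⟨x, hx⟩ : ∃ x : ℕ, x = (y - 1) / 2 := ⟨_, rfl⟩
        have h5 := ih x (by omega)
        have h6 := hx0 x (by omega)
        have e1 : ⌊(1 + 1 : ℝ) * (x : ℝ)⌋₊ = 2 * x := by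
          rw [show (1 + 1 : ℝ) * (x : ℝ) = ((2 * x : ℕ) : ℝ) by push_cast; ring, Nat.floor_natCast]
        rw [e1] at h6
        have h7 : ((Finset.range x).filter fun k => k ∈ G).card + ((Finset.Icc x (2 * x)).filter fun k => k ∈ G).card ≤
            ((Finset.range y).filter fun k => k ∈ G).card := by
          rw [← Finset.card_union_of_disjoint]
          · apply Finset.card_le_card
            intro k hk
            rw [Finset.mem_union, Finset.mem_filter, Finset.mem_filter, Finset.mem_range, Finset.mem_Icc] at hk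
            rw [Finset.mem_filter, Finset.mem_range]
            rcases hk with ⟨a1, a2⟩ | ⟨⟨a1, a2⟩, a3⟩
            · exact ⟨by omega, a2⟩
            · exact ⟨by omega, a3⟩
          · rw [Finset.disjoint_left]
            intro k hk hk'
            rw [Finset.mem_filter, Finset.mem_range] at hk
            rw [Finset.mem_filter, Finset.mem_Icc] at hk'
            omega
        have h8 : (((Finset.range x).filter fun k => k ∈ G).card : ℝ) +
            (((Finset.Icc x (2 * x)).filter fun k => k ∈ G).card : ℝ) ≤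
            (((Finset.range y).filter fun k => k ∈ G).card : ℝ) := by exact_mod_cast h7
        refine le_trans ?_ h8
        have h9 : (y : ℝ) ≤ 2 * x + 2 := by
          have : y ≤ 2 * x + 2 := by omega
          exact_mod_cast this
        rw [div_le_iff₀ hη0] at h4
        -- (1 - e) (1 - η') y ≤ (1 - e) (1 - η') x + (1 - e) x
        have h10 : (1 - η') * y ≤ (1 - η') * x + x := by nlinarith
        have h11 : (1 - e) * ((1 - η') * y) ≤ (1 - e) * ((1 - η') * x + x) :=
          mul_le_mul_of_nonneg_left h10 (by linarith)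
        nlinarith
  obtain ⟨B, hB⟩ : ∃ B : ℝ, B = (1 - e) * (1 - η') * Y0 := ⟨_, rfl⟩
  have hB0 : 0 ≤ B := by
    rw [hB]
    have : 0 ≤ (1 - e) * (1 - η') := mul_nonneg (by linarith) (by linarith)
    positivity
  refine ⟨⌈2 * B / η⌉₊, fun x hx => le_trans ?_ (key x)⟩
  rw [← hB]
  have h2 : 2 * B / η ≤ x := (Nat.le_ceil _).trans (by exact_mod_cast hx)
  rw [div_le_iff₀ hη] at h2
  have h3 : (0 : ℝ) ≤ x := Nat.cast_nonneg x
  have h4 : (1 - e) * η' ≤ η / 2 := by nlinarith
  have h5 : (1 - e) * η' * x ≤ η / 2 * x := mul_le_mul_of_nonneg_right h4 h3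
  nlinarith

/-- the intersection of two sets of scales -/
theorem LowD.inter {e1 e2 : ℝ} {G1 G2 : Set ℕ} (h1 : LowD e1 G1) (h2 : LowD e2 G2) : LowD (e1 + e2) (G1 ∩ G2) := by
  intro η hη
  obtain ⟨x1, hx1⟩ := h1 (η / 2) (by positivity)
  obtain ⟨x2, hx2⟩ := h2 (η / 2) (by positivity)
  refine ⟨max x1 x2, fun x hx => ?_⟩
  have a1 := hx1 x (le_of_max_le_left hx)
  have a2 := hx2 x (le_of_max_le_right hx)
  have a3 : ((Finset.range x).filter fun k => k ∈ G1).card + ((Finset.range x).filter fun k => k ∈ G2).card ≤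
      ((Finset.range x).filter fun k => k ∈ G1 ∩ G2).card + x := by
    have b1 : ((Finset.range x).filter fun k => k ∈ G1) ∩ ((Finset.range x).filter fun k => k ∈ G2) =
        (Finset.range x).filter fun k => k ∈ G1 ∩ G2 := by
      ext k
      simp only [Finset.mem_inter, Finset.mem_filter, Set.mem_inter_iff]
      tauto
    have b2 := Finset.card_union_add_card_inter ((Finset.range x).filter fun k => k ∈ G1)
      ((Finset.range x).filter fun k => k ∈ G2)
    rw [b1] at b2
    have b3 : (((Finset.range x).filter fun k => k ∈ G1) ∪ ((Finset.range x).filter fun k => k ∈ G2)).card ≤ x := by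
      refine (Finset.card_le_card (Finset.union_subset (Finset.filter_subset _ _) (Finset.filter_subset _ _))).trans ?_
      rw [Finset.card_range]
    omega
  have a4 : (((Finset.range x).filter fun k => k ∈ G1).card : ℝ) + (((Finset.range x).filter fun k => k ∈ G2).card : ℝ) ≤
      (((Finset.range x).filter fun k => k ∈ G1 ∩ G2).card : ℝ) + x := by exact_mod_cast a3
  have a5 : (1 - (e1 + e2) - η) * x = (1 - e1 - η / 2) * x + (1 - e2 - η / 2) * x - x := by ring
  have a6 : (1 - (e1 + e2) - η) * x ≤ (((Finset.range x).filter fun k => k ∈ G1 ∩ G2).card : ℝ) := by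
    rw [a5]
    linarith
  convert a6

/-- from the sharp form -/
lemma lowD_of_le {e : ℝ} {G : Set ℕ} (h : ∃ x0 : ℕ, ∀ x : ℕ, x0 ≤ x →
    (1 - e) * x ≤ (((Finset.range x).filter fun k => k ∈ G).card : ℝ)) : LowD e G := by
  obtain ⟨x0, hx0⟩ := h
  intro η hη
  refine ⟨x0, fun x hx => le_trans ?_ (hx0 x hx)⟩
  have : (0 : ℝ) ≤ x := Nat.cast_nonneg x
  nlinarith

end NTSF
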