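import Pool.Agent.NTS.FinAll

/-!
NTW at every scale, counting density: the final theorem for a set of step numbers of density at least 1 - ε, with the
explicit Hoelder exponents g < 1 / c where l (k + j) is at most a constant times 2 ^ (c j) l k.
-/

set_option autoImplicit false

namespace NTSF

open Finset MeasureTheory Filter Topology

open HexObs hiding pos

open HexObs.SDN HexObs.NTm HexObs.NTW

open Pool.Agent.NTS.Res

open NTF (AU)

open scoped ENNReal Classical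

/-- the conclusion along a set A of step numbers -/
def Body (g : ℝ) (A : Set ℕ) : Prop :=
  (∃ C : ℝ, 1 ≤ C ∧ ∀ m ∈ A, ∀ n ∈ A, m ≤ n → ((n : ℝ) / m) ^ g * size m ≤ C * size n ∧
    size n ≤ C * ((n : ℝ) / m) ^ (4 / 5 : ℝ) * size m) ∧
  (∀ n : ℕ, IsProbabilityMeasure (law n)) ∧
  (∀ ε' : ℝ, 0 < ε' → ∃ n₀ : ℕ, ∀ n ∈ A, n₀ ≤ n →
    (n : ℝ) ^ (3 / 4 - ε') ≤ size n ∧ size n ≤ (n : ℝ) ^ (3 / 4 + ε')) ∧
  (∀ a : NNReal, 0 < a → (a : ℝ) < g → ∀ ε' : ℝ, 0 < ε' → ∃ M : NNReal, ∀ n ∈ A,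
    law n {γ : C(unitInterval, ℂ) | ¬ HolderWith M a γ} ≤ ENNReal.ofReal ε') ∧
  IsTightMeasureSet {μ | ∃ n ∈ A, μ = law n} ∧
  (∀ φ : ℕ → ℕ, StrictMono φ → (∀ k, φ k ∈ A) → ∃ ψ : ℕ → ℕ, StrictMono ψ ∧ ∃ ν : Measure C(unitInterval, ℂ),
    IsProbabilityMeasure ν ∧ LawTo (fun k => φ (ψ k)) ν) ∧
  (∀ (φ : ℕ → ℕ) (ν : Measure C(unitInterval, ℂ)), Tendsto φ atTop atTop → (∀ k, φ k ∈ A) →
    IsProbabilityMeasure ν → LawTo φ ν →
    (∀ᵐ γ : C(unitInterval, ℂ) ∂ν, γ 0 = 0 ∧ γ 1 ≠ 0) ∧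
    (∀ a : NNReal, 0 < a → (a : ℝ) < g → ∀ᵐ γ : C(unitInterval, ℂ) ∂ν, ∃ M : NNReal, HolderWith M a γ) ∧
    ∫ γ : C(unitInterval, ℂ), ‖γ 1‖ ^ 2 ∂ν = 1) ∧
  ∀ (a : NNReal) (r : ℝ), 0 < a → (a : ℝ) / (12 - 15 * a) < r → (a : ℝ) < 3 / 4 → r < 1 → ∃ H : Set ℕ,
    (∀ δ : ℝ, 0 < δ → ∃ x₀ : ℕ, ∀ x : ℕ, x₀ ≤ x → (1 - r) * (δ * x) ≤
      (((Finset.Icc x ⌊(1 + δ) * (x : ℝ)⌋₊).filter fun k => k ∈ H).card : ℝ)) ∧
    (∀ ε' : ℝ, 0 < ε' → ∃ M : NNReal, ∀ n ∈ A, n ∈ NearS H →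
      law n {γ : C(unitInterval, ℂ) | ¬ HolderWith M a γ} ≤ ENNReal.ofReal ε') ∧
    ∀ (φ : ℕ → ℕ) (ν : Measure C(unitInterval, ℂ)), Tendsto φ atTop atTop → (∀ k, φ k ∈ A ∧ φ k ∈ NearS H) →
      IsProbabilityMeasure ν → LawTo φ ν → ∀ᵐ γ : C(unitInterval, ℂ) ∂ν, ∃ M : NNReal, HolderWith M a γ

/-- the conclusion along a set of step numbers of density at least 1 - ε -/
def ConclDens (g ε : ℝ) : Prop :=
  ∃ (A : Set ℕ) (N₀ : ℕ), (∀ N : ℕ, N₀ ≤ N → (((Finset.range N).filter fun n => n ∉ A).card : ℝ) ≤ ε * N) ∧ Body g A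

/-! ### 1. The sizes -/

/-- comparison of the sizes of two lengths, explicit exponents -/
lemma size_cmp2 {l : ℕ → ℕ} (hone : ∀ k, 1 ≤ l k) (hmono : Monotone l) {c Cs ρ0 b1 Kc e g : ℝ} (hc : 0 < c) (hCs : 0 < Cs)
    (hρ : 0 < ρ0) (hb1 : 0 < b1) (hKc : 1 ≤ Kc) (hupc : ∀ k j : ℕ, (l (k + j) : ℝ) ≤ Kc * (2 : ℝ) ^ (e * (j : ℝ)) * l k)
    (hlo : ∀ k j : ℕ, b1 * (2 : ℝ) ^ (5 / 4 * (j : ℝ)) * l k ≤ l (k + j)) (hg : 0 < g) (hge : g * e ≤ 1) :
    ∃ C : ℝ, 1 ≤ C ∧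
    ∀ (k k' m n : ℕ) (sm sn : ℝ), 1 ≤ m → m ≤ n → ρ0 * l k < m → m ≤ l k → ρ0 * l k' < n → n ≤ l k' →
      c * 2 ^ k ≤ sm → sm ≤ Cs * 2 ^ k → c * 2 ^ k' ≤ sn → sn ≤ Cs * 2 ^ k' →
      ((n : ℝ) / m) ^ g * sm ≤ C * sn ∧ sn ≤ C * ((n : ℝ) / m) ^ (4 / 5 : ℝ) * sm := by
  have hl0 : ∀ k, (0 : ℝ) < l k := fun k => by exact_mod_cast hone k
  obtain ⟨R, hR⟩ : ∃ R : ℝ, R = (1 / (ρ0 * b1)) ^ (4 / 5 : ℝ) := ⟨_, rfl⟩
  obtain ⟨S, hS⟩ : ∃ S : ℝ, S = (Kc / ρ0) ^ g := ⟨_, rfl⟩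
  have hKc0 : 0 < Kc := by linarith
  have hR0 : 0 < R := by
    rw [hR]
    positivity
  have hS0 : 0 < S := by
    rw [hS]
    positivity
  obtain ⟨T, hT⟩ : ∃ T : ℝ, T = max 1 R * max 1 S := ⟨_, rfl⟩
  have m1 : (1 : ℝ) ≤ max 1 R := le_max_left _ _
  have m2 : (1 : ℝ) ≤ max 1 S := le_max_left _ _
  have m3 : R ≤ max 1 R := le_max_right _ _
  have m4 : S ≤ max 1 S := le_max_right _ _
  have hT1 : 1 ≤ T := by
    rw [hT]
    nlinarith
  -- the power 4 / 5 of 2 ^ (5 j / 4)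
  have h54 : ∀ j : ℕ, ((2 : ℝ) ^ (5 / 4 * (j : ℝ))) ^ (4 / 5 : ℝ) = 2 ^ j := by
    intro j
    rw [← Real.rpow_mul (by norm_num), ← Real.rpow_natCast]
    congr 1
    ring
  have hgj : ∀ j : ℕ, ((2 : ℝ) ^ (e * (j : ℝ))) ^ g ≤ 2 ^ j := by
    intro j
    rw [← Real.rpow_mul (by norm_num), ← Real.rpow_natCast]
    refine Real.rpow_le_rpow_of_exponent_le (by norm_num) ?_
    have : (0 : ℝ) ≤ j := Nat.cast_nonneg _
    nlinarith
  refine ⟨max 1 (Cs / c * T), le_max_left _ _, fun k k' m n sm sn hm hmn a1 a2 a3 a4 s1 s2 s3 s4 => ?_⟩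
  have hm0 : (0 : ℝ) < m := by exact_mod_cast hm
  have hmnR : (m : ℝ) ≤ n := by exact_mod_cast hmn
  have a2' : (m : ℝ) ≤ l k := by exact_mod_cast a2
  have a4' : (n : ℝ) ≤ l k' := by exact_mod_cast a4
  obtain ⟨x, hx⟩ : ∃ x : ℝ, x = (n : ℝ) / m := ⟨_, rfl⟩
  rw [← hx]
  have hx1 : 1 ≤ x := by
    rw [hx, le_div_iff₀ hm0]
    linarith
  have hxn : (n : ℝ) = x * m := by
    rw [hx]
    field_simp
  have hx45 : 1 ≤ x ^ (4 / 5 : ℝ) := Real.one_le_rpow hx1 (by norm_num)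
  have hxb0 : 0 < x ^ g := by positivity
  have h2k : (0 : ℝ) < 2 ^ k := by positivity
  have h2k' : (0 : ℝ) < 2 ^ k' := by positivity
  have hU : (2 : ℝ) ^ k' ≤ T * (x ^ (4 / 5 : ℝ) * 2 ^ k) := by
    have hTR : max 1 R ≤ T := by
      rw [hT]
      nlinarith
    rcases le_total k k' with h | h
    · obtain ⟨j, rfl⟩ := Nat.exists_eq_add_of_le h
      have e1 : (2 : ℝ) ^ (5 / 4 * (j : ℝ)) ≤ x * (1 / (ρ0 * b1)) := by
        have e2 := hlo k j
        have e3 : b1 * (2 : ℝ) ^ (5 / 4 * (j : ℝ)) * m ≤ x * m / ρ0 := by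
          have e4 : (l (k + j) : ℝ) ≤ x * m / ρ0 := by
            rw [le_div_iff₀ hρ, ← hxn]
            linarith
          refine le_trans ?_ (e2.trans e4)
          have : (0 : ℝ) ≤ b1 * (2 : ℝ) ^ (5 / 4 * (j : ℝ)) := by positivity
          exact mul_le_mul_of_nonneg_left a2' this
        rw [le_div_iff₀ hρ] at e3
        rw [mul_one_div, le_div_iff₀ (by positivity)]
        have e5 : (2 : ℝ) ^ (5 / 4 * (j : ℝ)) * (ρ0 * b1) * m ≤ x * m := by linarith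
        exact le_of_mul_le_mul_right e5 hm0
      have e6 : (2 : ℝ) ^ j ≤ x ^ (4 / 5 : ℝ) * R := by
        rw [← h54 j, hR, ← Real.mul_rpow (by linarith) (by positivity)]
        exact Real.rpow_le_rpow (by positivity) e1 (by norm_num)
      calc (2 : ℝ) ^ (k + j) = 2 ^ k * 2 ^ j := pow_add _ _ _
        _ ≤ 2 ^ k * (x ^ (4 / 5 : ℝ) * R) := mul_le_mul_of_nonneg_left e6 h2k.le
        _ = R * (x ^ (4 / 5 : ℝ) * 2 ^ k) := by ring
        _ ≤ T * (x ^ (4 / 5 : ℝ) * 2 ^ k) := mul_le_mul_of_nonneg_right (m3.trans hTR) (by positivity)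
    · calc (2 : ℝ) ^ k' ≤ 2 ^ k := pow_le_pow_right₀ (by norm_num) h
        _ = 1 * (1 * 2 ^ k) := by ring
        _ ≤ T * (x ^ (4 / 5 : ℝ) * 2 ^ k) := by gcongr
  have hL : x ^ g * 2 ^ k ≤ T * 2 ^ k' := by
    rcases le_total k k' with h | h
    · obtain ⟨j, rfl⟩ := Nat.exists_eq_add_of_le h
      have e1 : x ≤ (2 : ℝ) ^ (e * (j : ℝ)) * (Kc / ρ0) := by
        have e2 := a4'.trans (hupc k j)
        rw [hxn] at e2
        have e3 : (l k : ℝ) ≤ m / ρ0 := by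
          rw [le_div_iff₀ hρ]
          linarith
        have e4 : x * m ≤ (2 : ℝ) ^ (e * (j : ℝ)) * (Kc / ρ0) * m := by
          calc x * m ≤ Kc * (2 : ℝ) ^ (e * (j : ℝ)) * l k := e2
            _ ≤ Kc * (2 : ℝ) ^ (e * (j : ℝ)) * (m / ρ0) := mul_le_mul_of_nonneg_left e3 (by positivity)
            _ = _ := by ring
        exact le_of_mul_le_mul_right e4 hm0
      have e5 : x ^ g ≤ 2 ^ j * S := by
        calc x ^ g ≤ ((2 : ℝ) ^ (e * (j : ℝ)) * (Kc / ρ0)) ^ g := Real.rpow_le_rpow (by linarith) e1 hg.le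
          _ = ((2 : ℝ) ^ (e * (j : ℝ))) ^ g * (Kc / ρ0) ^ g := Real.mul_rpow (by positivity) (by positivity)
          _ ≤ 2 ^ j * S := by
              rw [hS]
              exact mul_le_mul_of_nonneg_right (hgj j) (by positivity)
      calc x ^ g * 2 ^ k ≤ 2 ^ j * S * 2 ^ k := mul_le_mul_of_nonneg_right e5 h2k.le
        _ = S * 2 ^ (k + j) := by
            rw [pow_add]
            ring
        _ ≤ T * 2 ^ (k + j) := by
            refine mul_le_mul_of_nonneg_right ?_ (by positivity)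
            rw [hT]
            nlinarith
    · obtain ⟨j, rfl⟩ := Nat.exists_eq_add_of_le h
      have hle : (l k' : ℝ) ≤ l (k' + j) := by exact_mod_cast hmono (Nat.le_add_right _ _)
      have e1 : x ≤ 1 / ρ0 := by
        have e4 : x * m ≤ 1 / ρ0 * m := by
          rw [← hxn]
          calc (n : ℝ) ≤ l (k' + j) := a4'.trans hle
            _ ≤ m / ρ0 := by
                rw [le_div_iff₀ hρ]
                linarith
            _ = _ := by ring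
        exact le_of_mul_le_mul_right e4 hm0
      have e2 : x ^ g ≤ S := by
        rw [hS]
        refine Real.rpow_le_rpow (by linarith) (e1.trans ?_) hg.le
        exact div_le_div_of_nonneg_right hKc hρ.le
      have e3 : (2 : ℝ) ^ (5 / 4 * (j : ℝ)) ≤ 1 / (ρ0 * b1) := by
        have e4 := hlo k' j
        have e5 : (l (k' + j) : ℝ) * ρ0 ≤ l k' := by
          have : (m : ℝ) ≤ l k' := hmnR.trans a4'
          linarith
        rw [le_div_iff₀ (by positivity)]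
        have e6 : (2 : ℝ) ^ (5 / 4 * (j : ℝ)) * (ρ0 * b1) * l k' ≤ 1 * l k' := by
          calc (2 : ℝ) ^ (5 / 4 * (j : ℝ)) * (ρ0 * b1) * l k' = (b1 * (2 : ℝ) ^ (5 / 4 * (j : ℝ)) * l k') * ρ0 := by ring
            _ ≤ l (k' + j) * ρ0 := mul_le_mul_of_nonneg_right e4 hρ.le
            _ ≤ 1 * l k' := by linarith
        exact le_of_mul_le_mul_right e6 (hl0 k')
      have e7 : (2 : ℝ) ^ j ≤ R := by
        rw [← h54 j, hR]
        exact Real.rpow_le_rpow (by positivity) e3 (by norm_num)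
      calc x ^ g * 2 ^ (k' + j) = x ^ g * 2 ^ j * 2 ^ k' := by
            rw [pow_add]
            ring
        _ ≤ (max 1 S * max 1 R) * 2 ^ k' := by
            refine mul_le_mul_of_nonneg_right ?_ h2k'.le
            exact mul_le_mul (e2.trans m4) (e7.trans m3) (by positivity) (by linarith)
        _ = T * 2 ^ k' := by
            rw [hT]
            ring
  have hCsc : Cs / c * T ≤ max 1 (Cs / c * T) := le_max_right _ _
  have hsn0 : 0 < sn := lt_of_lt_of_le (by positivity) s3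
  have hsm0 : 0 < sm := lt_of_lt_of_le (by positivity) s1
  constructor
  · calc x ^ g * sm ≤ x ^ g * (Cs * 2 ^ k) := mul_le_mul_of_nonneg_left s2 hxb0.le
      _ = Cs * (x ^ g * 2 ^ k) := by ring
      _ ≤ Cs * (T * 2 ^ k') := mul_le_mul_of_nonneg_left hL hCs.le
      _ = Cs / c * T * (c * 2 ^ k') := by field_simp
      _ ≤ Cs / c * T * sn := mul_le_mul_of_nonneg_left s3 (by positivity)
      _ ≤ max 1 (Cs / c * T) * sn := mul_le_mul_of_nonneg_right hCsc hsn0.le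
  · calc sn ≤ Cs * 2 ^ k' := s4
      _ ≤ Cs * (T * (x ^ (4 / 5 : ℝ) * 2 ^ k)) := mul_le_mul_of_nonneg_left hU hCs.le
      _ = Cs / c * T * (x ^ (4 / 5 : ℝ) * (c * 2 ^ k)) := by field_simp
      _ ≤ Cs / c * T * (x ^ (4 / 5 : ℝ) * sm) := by gcongr
      _ ≤ max 1 (Cs / c * T) * (x ^ (4 / 5 : ℝ) * sm) := mul_le_mul_of_nonneg_right hCsc (by positivity)
      _ = _ := by ring

/-! ### 2. From the weight to the counting density -/

/-- doubling of the weight at every N -/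
lemma weight_shift {l : ℕ → ℕ} (hone : ∀ k, 1 ≤ l k)
    (hlow : ∀ e : ℝ, 0 < e → ∃ k0 : ℕ, ∀ k : ℕ, k0 ≤ k → (2 : ℝ) ^ ((4 / 3 - e) * k) ≤ l k)
    (hlo : ∃ b : ℝ, 0 < b ∧ ∀ k j : ℕ, b * (2 : ℝ) ^ (5 / 4 * (j : ℝ)) * l k ≤ l (k + j))
    {Cm : ℝ} {k3 : ℕ} (hCm : 1 ≤ Cm)
    (hmass : ∀ k, k3 ≤ k → weight (l (k + 1)) Set.univ ≤ Cm * weight (l k) Set.univ) {η : ℝ} (hη : 0 < η) :
    ∃ (C : ℝ) (N1 : ℕ), 1 ≤ C ∧ ∀ N M : ℕ, N1 ≤ N → η * N ≤ M → weight N Set.univ ≤ C * weight M Set.univ := by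
  obtain ⟨b, hb, hlo⟩ := hlo
  obtain ⟨J, hJ⟩ := pow_unbounded_of_one_lt (1 / (b * η)) (show (1 : ℝ) < 2 by norm_num)
  refine ⟨Cm ^ (J + 1), l (k3 + J), one_le_pow₀ hCm, fun N M hN hM => ?_⟩
  obtain ⟨k, hk, h1, h2⟩ := scale_of hlow hN
  obtain ⟨κ, rfl⟩ : ∃ κ, k = κ + J := ⟨k - J, by omega⟩
  have hκ : k3 ≤ κ := by omega
  have h3 : ∀ j : ℕ, weight (l (κ + j)) Set.univ ≤ Cm ^ j * weight (l κ) Set.univ := by
    intro j
    induction j with
    | zero => simp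
    | succ j ih =>
      calc weight (l (κ + (j + 1))) Set.univ ≤ Cm * weight (l (κ + j)) Set.univ := hmass (κ + j) (by omega)
        _ ≤ Cm * (Cm ^ j * weight (l κ) Set.univ) := mul_le_mul_of_nonneg_left ih (by linarith)
        _ = _ := by ring
  have h4 : l κ ≤ M := by
    have e1 := hlo κ J
    have e2 : (2 : ℝ) ^ J ≤ (2 : ℝ) ^ (5 / 4 * (J : ℝ)) := by
      rw [← Real.rpow_natCast]
      refine Real.rpow_le_rpow_of_exponent_le (by norm_num) ?_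
      have : (0 : ℝ) ≤ J := Nat.cast_nonneg _
      linarith
    have e3 : (l (κ + J) : ℝ) ≤ N := by exact_mod_cast h1
    have e4 : (0 : ℝ) < l κ := by exact_mod_cast hone κ
    have e5 : (l κ : ℝ) ≤ η * N := by
      rw [div_lt_iff₀ (by positivity)] at hJ
      have e6 : b * (2 : ℝ) ^ J * l κ ≤ N := by
        refine le_trans ?_ (e1.trans e3)
        gcongr
      have e7 : 1 * (l κ : ℝ) ≤ 2 ^ J * (b * η) * l κ := mul_le_mul_of_nonneg_right hJ.le e4.le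
      calc (l κ : ℝ) = 1 * l κ := (one_mul _).symm
        _ ≤ 2 ^ J * (b * η) * l κ := e7
        _ = η * (b * (2 : ℝ) ^ J * l κ) := by ring
        _ ≤ η * N := mul_le_mul_of_nonneg_left e6 hη.le
    exact_mod_cast e5.trans hM
  calc weight N Set.univ ≤ weight (l (κ + J + 1)) Set.univ := weight_mono_N h2.le _
    _ ≤ Cm ^ (J + 1) * weight (l κ) Set.univ := h3 (J + 1)
    _ ≤ _ := mul_le_mul_of_nonneg_left (weight_mono_N h4 _) (by positivity)

/-- **from the critical weight to the counting density** -/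
lemma count_of {l : ℕ → ℕ} (hone : ∀ k, 1 ≤ l k)
    (hlow : ∀ e : ℝ, 0 < e → ∃ k0 : ℕ, ∀ k : ℕ, k0 ≤ k → (2 : ℝ) ^ ((4 / 3 - e) * k) ≤ l k)
    (hlo : ∃ b : ℝ, 0 < b ∧ ∀ k j : ℕ, b * (2 : ℝ) ^ (5 / 4 * (j : ℝ)) * l k ≤ l (k + j))
    {Cm : ℝ} {k3 : ℕ} (hCm : 1 ≤ Cm)
    (hmass : ∀ k, k3 ≤ k → weight (l (k + 1)) Set.univ ≤ Cm * weight (l k) Set.univ)
    (hPT : ∃ c : ℝ, 0 < c ∧ ∀ n : ℕ, 1 ≤ n → c * weight n Set.univ ≤ n * ww n) {ε : ℝ} (hε : 0 < ε) :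
    ∃ ε1 : ℝ, 0 < ε1 ∧ ∀ (B : Set ℕ) (N1 : ℕ),
      (∀ N : ℕ, N1 ≤ N → weight N {n | n ∉ B} ≤ ε1 * weight N Set.univ) →
      ∃ N2 : ℕ, ∀ N : ℕ, N2 ≤ N → (((Finset.range N).filter fun n => n ∉ B).card : ℝ) ≤ ε * N := by
  obtain ⟨c, hc, hPT⟩ := hPT
  obtain ⟨C, N0, hC, hsh⟩ := weight_shift hone hlow hlo hCm hmass (η := ε / 4) (by positivity)
  refine ⟨c / C * (ε / 2), by positivity, fun B N1 hB => ?_⟩
  obtain ⟨N3, hN3⟩ := exists_nat_ge (4 / ε)
  refine ⟨max (max N0 N1) N3 + 1, fun N hN => ?_⟩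
  have hN0 : N0 ≤ N := by
    have := le_max_left (max N0 N1) N3
    have := le_max_left N0 N1
    omega
  have hN1 : N1 ≤ N := by
    have := le_max_left (max N0 N1) N3
    have := le_max_right N0 N1
    omega
  have hN3' : (N3 : ℝ) ≤ N := by
    have := le_max_right (max N0 N1) N3
    exact_mod_cast (by omega : N3 ≤ N)
  have hNpos : (0 : ℝ) < N := by
    have : 1 ≤ N := by omega
    exact_mod_cast this
  have hεN : 4 ≤ ε * N := by
    have h1 := hN3.trans hN3'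
    rw [div_le_iff₀ hε] at h1
    linarith
  obtain ⟨M, hM⟩ : ∃ M : ℕ, M = ⌈ε / 4 * (N : ℝ)⌉₊ := ⟨_, rfl⟩
  have hM1 : ε / 4 * (N : ℝ) ≤ M := by
    rw [hM]
    exact Nat.le_ceil _
  have hM2 : (M : ℝ) ≤ ε / 4 * N + 1 := by
    rw [hM]
    exact (Nat.ceil_lt_add_one (by positivity)).le
  have hMpos : 1 ≤ M := by
    have : (0 : ℝ) < M := lt_of_lt_of_le (by positivity) hM1
    exact_mod_cast this
  have hW : 0 < weight N Set.univ := by
    rw [weight_eq_ww]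
    refine Finset.sum_pos (fun n _ => ?_) ⟨0, by simp⟩
    rw [if_pos (Set.mem_univ n)]
    exact ww_pos n
  -- the bad numbers in [M, N)
  have hbad : ((((Finset.range N).filter fun n => n ∉ B ∧ M ≤ n).card : ℝ)) * (c / C * weight N Set.univ / N) ≤
      c / C * (ε / 2) * weight N Set.univ := by
    refine le_trans ?_ (hB N hN1)
    rw [weight_eq_ww N {n | n ∉ B}]
    have h1 : ∑ n ∈ (Finset.range N).filter (fun n => n ∉ B ∧ M ≤ n), (c / C * weight N Set.univ / N) ≤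
        ∑ n ∈ (Finset.range N).filter (fun n => n ∉ B ∧ M ≤ n), ww n := by
      refine Finset.sum_le_sum fun n hn => ?_
      rw [Finset.mem_filter, Finset.mem_range] at hn
      obtain ⟨hn1, -, hn2⟩ := hn
      have h2 := hPT n (by omega)
      have h3 := hsh N n hN0 (hM1.trans (by exact_mod_cast hn2))
      have h4 : (n : ℝ) ≤ N := by exact_mod_cast hn1.le
      have h5 := ww_pos n
      rw [div_le_iff₀ hNpos]
      calc c / C * weight N Set.univ ≤ c / C * (C * weight n Set.univ) := by gcongr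
        _ = c * weight n Set.univ := by field_simp
        _ ≤ n * ww n := h2
        _ ≤ N * ww n := by gcongr
        _ = ww n * N := mul_comm _ _
    rw [Finset.sum_const, nsmul_eq_mul] at h1
    refine h1.trans ?_
    have hss : (Finset.range N).filter (fun n => n ∉ B ∧ M ≤ n) ⊆ Finset.range (N + 1) := by
      intro n hn
      rw [Finset.mem_filter, Finset.mem_range] at hn
      exact Finset.mem_range.2 (by omega)
    obtain ⟨f, hf⟩ : ∃ f : ℕ → ℝ, ∀ n, f n = if n ∈ {n | n ∉ B} then ww n else 0 := ⟨_, fun _ => rfl⟩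
    have h6 : ∀ n ∈ (Finset.range N).filter (fun n => n ∉ B ∧ M ≤ n), ww n = f n := by
      intro n hn
      rw [Finset.mem_filter] at hn
      rw [hf, if_pos (show n ∈ {n | n ∉ B} from hn.2.1)]
    have h7 : ∑ n ∈ (Finset.range N).filter (fun n => n ∉ B ∧ M ≤ n), f n ≤ ∑ n ∈ Finset.range (N + 1), f n := by
      refine Finset.sum_le_sum_of_subset_of_nonneg hss fun n _ _ => ?_
      have := ww_pos n
      rw [hf]
      split_ifs
      · exact this.le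
      · exact le_rfl
    rw [Finset.sum_congr rfl h6]
    refine h7.trans (le_of_eq (Finset.sum_congr rfl fun n _ => ?_))
    rw [hf]
    by_cases h8 : n ∈ {n | n ∉ B}
    · rw [if_pos h8, if_pos h8]
    · rw [if_neg h8, if_neg h8]
  have hbad2 : (((Finset.range N).filter fun n => n ∉ B ∧ M ≤ n).card : ℝ) ≤ ε / 2 * N := by
    have h7 : 0 < c / C * weight N Set.univ / N := by positivity
    have h8 : c / C * (ε / 2) * weight N Set.univ = ε / 2 * N * (c / C * weight N Set.univ / N) := by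
      field_simp
    rw [h8] at hbad
    exact le_of_mul_le_mul_right hbad h7
  have hcard : ((Finset.range N).filter fun n => n ∉ B).card ≤
      M + ((Finset.range N).filter fun n => n ∉ B ∧ M ≤ n).card := by
    have h9 : (Finset.range N).filter (fun n => n ∉ B) ⊆
        Finset.range M ∪ (Finset.range N).filter (fun n => n ∉ B ∧ M ≤ n) := by
      intro n hn
      rw [Finset.mem_filter] at hn
      rw [Finset.mem_union, Finset.mem_range, Finset.mem_filter]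
      rcases lt_or_ge n M with h | h
      · exact Or.inl h
      · exact Or.inr ⟨hn.1, hn.2, h⟩
    refine (Finset.card_le_card h9).trans ((Finset.card_union_le _ _).trans ?_)
    rw [Finset.card_range]
  have hcard' : (((Finset.range N).filter fun n => n ∉ B).card : ℝ) ≤
      M + (((Finset.range N).filter fun n => n ∉ B ∧ M ≤ n).card : ℝ) := by exact_mod_cast hcard
  linarith

end NTSF
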