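import Pool.Agent.NTS.ModRes

/-!
NTW for EVERY step number: what is common to the transfers from the words to the laws (project TAIL, helper83): the scale of
n (`base_of`), proportions of events that are not invariant under the rotations (`prop_le3`), proportions from below
(`prop_ge`).
-/

set_option autoImplicit false

namespace NTSF.Mod

open NTSF

open Finset MeasureTheory Filter Topology

open HexObs hiding pos

open HexObs.SDN HexObs.NTW HexObs.TS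

open NTF (sw JJ gf_card xcn_pos)

open Pool.Agent.NTS.Res

open scoped ENNReal Classical

/-- the scale of n, the normalisation and the order of the number of the walks -/
structure Base (m : ℕ → ℝ) (R : ℕ → ℝ) (κ : ℕ → ℕ) (c0 C1 cd Cu cs Cs : ℝ) (N : ℕ) : Prop where
  pc0 : 0 < c0
  pC1 : 0 < C1
  pcd : 0 < cd
  pCu : 0 < Cu
  pcs : 0 < cs
  pCs : 0 < Cs
  N1 : 1 ≤ N
  R2 : ∀ n, R n = 2 ^ κ n
  top : ∀ k : ℕ, ∃ n1 : ℕ, ∀ n : ℕ, n1 ≤ n → k ≤ κ n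
  sc : ∀ n : ℕ, N ≤ n → m (κ n) ≤ n ∧ (n : ℝ) < m (κ n + 1)
  lo : ∀ n : ℕ, N ≤ n → nuX m (κ n) ≤ ENNReal.ofReal c0 * gf (SawN n)
  hi : ∀ n : ℕ, N ≤ n → gf (SawN n) ≤ ENNReal.ofReal C1 * nuX m (κ n)
  slo : ∀ n : ℕ, N ≤ n → cd * R n ≤ size n
  sup : ∀ n : ℕ, N ≤ n → size n ≤ Cu * R n
  rlo : ∀ n : ℕ, N ≤ n → cs * (n : ℝ) ^ (3 / 4 : ℝ) ≤ R n
  rup : ∀ n : ℕ, N ≤ n → R n ≤ Cs * (n : ℝ) ^ (3 / 4 : ℝ)

theorem base_of {m : ℕ → ℝ} (hlo : ∃ c : ℝ, 0 < c ∧ ∀ k : ℕ, c * (2 : ℝ) ^ (4 / 3 * (k : ℝ)) ≤ m k)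
    (hup : ∃ C : ℝ, ∀ k : ℕ, m k ≤ C * (2 : ℝ) ^ (4 / 3 * (k : ℝ))) (hF : FactsX m) :
    ∃ (R : ℕ → ℝ) (κ : ℕ → ℕ) (c0 C1 cd Cu cs Cs : ℝ) (N : ℕ), Base m R κ c0 C1 cd Cu cs Cs N := by
  obtain ⟨R, κ, hS⟩ := scaleX_exists hlo hup
  have hpos : ∀ k : ℕ, (0 : ℝ) < (2 : ℝ) ^ (4 / 3 * (k : ℝ)) := fun k => Real.rpow_pos_of_pos (by norm_num) _
  have hm : ∀ k, 0 < m k := fun k => by
    obtain ⟨c, hc, h⟩ := hlo
    exact lt_of_lt_of_le (mul_pos hc (hpos k)) (h k)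
  have hd : ∃ C : ℝ, 1 ≤ C ∧ ∀ k, m (k + 1) ≤ C * m k := by
    obtain ⟨c, hc, h⟩ := hlo
    obtain ⟨C, h'⟩ := hup
    have hC : 0 < C := by
      have h1 := (h 0).trans (h' 0)
      have h2 := hpos 0
      by_contra hcon
      push Not at hcon
      nlinarith
    refine ⟨max 1 (C * (2 : ℝ) ^ (4 / 3 : ℝ) / c), le_max_left _ _, fun k => ?_⟩
    have h1 : (2 : ℝ) ^ (4 / 3 * ((k + 1 : ℕ) : ℝ)) = (2 : ℝ) ^ (4 / 3 : ℝ) * (2 : ℝ) ^ (4 / 3 * (k : ℝ)) := by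
      rw [← Real.rpow_add (by norm_num)]
      congr 1
      push_cast
      ring
    calc m (k + 1) ≤ C * (2 : ℝ) ^ (4 / 3 * ((k + 1 : ℕ) : ℝ)) := h' (k + 1)
      _ = C * (2 : ℝ) ^ (4 / 3 : ℝ) / c * (c * (2 : ℝ) ^ (4 / 3 * (k : ℝ))) := by
          rw [h1]
          field_simp
      _ ≤ C * (2 : ℝ) ^ (4 / 3 : ℝ) / c * m k := mul_le_mul_of_nonneg_left (h k) (by positivity)
      _ ≤ _ := mul_le_mul_of_nonneg_right (le_max_right _ _) (hm k).le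
  have hR1 : ∀ n, 1 ≤ R n := fun n => by
    rw [hS.R2]
    exact one_le_pow₀ (by norm_num)
  obtain ⟨-, ⟨cd, nd, hcd, hdown⟩, Cu, nu, hCu, hupR⟩ := factsQ_of hR1 (normX_of hS hF hd)
  obtain ⟨c0, n0, hc0, hnu⟩ := nuX_le hS hF
  obtain ⟨cs, Cs, ns, hcs, hCs, hord⟩ := hS.ord
  obtain ⟨C1, k1, hC1, hall⟩ := hF.all
  obtain ⟨n1, hn1⟩ := hS.sc
  obtain ⟨n2, hn2⟩ := hS.top k1
  obtain ⟨N, hN⟩ : ∃ N : ℕ, N = 1 + nd + nu + n0 + ns + n1 + n2 := ⟨_, rfl⟩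
  exact ⟨R, κ, c0, C1, cd, Cu, cs, Cs, N, hc0, hC1, hcd, hCu, hcs, hCs, by omega, hS.R2, hS.top,
    fun n hn => hn1 n (by omega), fun n hn => hnu n (by omega),
    fun n hn => hall (κ n) n (hn2 n (by omega)) (hn1 n (by omega)).1 (hn1 n (by omega)).2,
    fun n hn => hdown n (by omega), fun n hn => hupR n (by omega), fun n hn => (hord n (by omega)).1,
    fun n hn => (hord n (by omega)).2⟩

/-- **proportions of events that are not invariant under the rotations** -/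
theorem prop_le3 {n : ℕ} (hn : 0 < n) (P : (Fin n → Fin 3) → Prop) [DecidablePred P]
    {c : ℝ} (hc : 0 ≤ c) {B B1 B2 : Set (List Bool)} (hB : ∀ t ∈ SawN n, P (sw n t) → t ∈ B)
    (hB1 : ∀ t ∈ SawN n, P (rot (sw n t)) → t ∈ B1) (hB2 : ∀ t ∈ SawN n, P (rot (rot (sw n t))) → t ∈ B2)
    (h : gf B ≤ ENNReal.ofReal c * gf (SawN n)) (h1 : gf B1 ≤ ENNReal.ofReal c * gf (SawN n))
    (h2 : gf B2 ≤ ENNReal.ofReal c * gf (SawN n)) :
    (((saw n).filter P).card : ℝ) ≤ 3 * c * ((saw n).card : ℝ) := by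
  have r3 : ∀ s : Fin n → Fin 3, rot (rot (rot s)) = s := by
    intro s
    funext i
    show s i + 1 + 1 + 1 = s i
    rw [add_assoc, add_assoc, show (1 : Fin 3) + (1 + 1) = 0 from rfl, add_zero]
  refine le_trans (b := (((saw n).filter fun s => P s ∨ P (rot s) ∨ P (rot (rot s))).card : ℝ)) ?_ ?_
  · exact_mod_cast Finset.card_le_card fun s hs => by
      rw [Finset.mem_filter] at hs ⊢
      exact ⟨hs.1, Or.inl hs.2⟩
  · refine prop_le hn _ (fun s => ?_) (by positivity) (B := B ∪ B1 ∪ B2) ?_ ?_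
    · rw [r3]
      tauto
    · rintro t ht (h3 | h3 | h3)
      · exact Or.inl (Or.inl (hB t ht h3))
      · exact Or.inl (Or.inr (hB1 t ht h3))
      · exact Or.inr (hB2 t ht h3)
    · refine (gf_union_le _ _).trans ((add_le_add ((gf_union_le _ _).trans (add_le_add h h1)) h2).trans (le_of_eq ?_))
      rw [ENNReal.ofReal_mul (by norm_num), ENNReal.ofReal_ofNat, ← add_mul, ← add_mul]
      congr 1
      ring

/-- **proportions from below** -/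
theorem prop_ge {n : ℕ} (hn : 0 < n) (P : (Fin n → Fin 3) → Prop) [DecidablePred P] (hP : ∀ s, P (rot s) ↔ P s)
    {c : ℝ} (hc : 0 ≤ c) {B : Set (List Bool)} (hB : B ⊆ SawN n) (hPB : ∀ t ∈ B, P (sw n t))
    (h : ENNReal.ofReal c * gf (SawN n) ≤ gf B) :
    c * ((saw n).card : ℝ) ≤ (((saw n).filter P).card : ℝ) := by
  have h1 : ENNReal.ofReal c * gf (SawN n) ≤ gf {t | t ∈ SawN n ∧ P (sw n t)} :=
    h.trans (gf_mono fun t ht => ⟨hB ht, hPB t ht⟩)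
  rw [gf_card (n := n) (B := {t | t ∈ SawN n ∧ P (sw n t)}) (fun t ht => ht.1.1),
    gf_card (n := n) (B := SawN n) (fun t ht => ht.1)] at h1
  have h2 := card_saw hn P hP
  have h3 : 2 * (saw n).card = 3 * (SawN n).ncard := by
    have := card_saw hn (fun _ => True) (fun _ => Iff.rfl)
    rw [Finset.filter_true_of_mem (fun _ _ => trivial)] at this
    rw [this]
    congr 2
    ext t
    exact ⟨fun h => h.1, fun h => ⟨h, trivial⟩⟩
  rw [← mul_assoc] at h1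
  have h5 : ENNReal.ofReal (xc ^ n) ≠ ⊤ := ENNReal.ofReal_ne_top
  have h4 := (ENNReal.mul_le_mul_iff_left (xcn_pos n) h5).1 h1
  rw [← ENNReal.ofReal_natCast, ← ENNReal.ofReal_natCast, ← ENNReal.ofReal_mul hc] at h4
  have h6 := (ENNReal.ofReal_le_ofReal_iff (by positivity)).1 h4
  have h7 : (2 : ℝ) * (((saw n).filter P).card : ℝ) = 3 * ({t | t ∈ SawN n ∧ P (sw n t)}.ncard : ℝ) := by exact_mod_cast h2
  have h8 : (2 : ℝ) * ((saw n).card : ℝ) = 3 * ((SawN n).ncard : ℝ) := by exact_mod_cast h3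
  have h9 : c * (2 * ((saw n).card : ℝ)) = c * (3 * ((SawN n).ncard : ℝ)) := by rw [h8]
  linarith

/-- the triangular lattice is 1-dense -/
lemma near_pt (w : ℂ) : ∃ x : Pt, ‖JJ x - w‖ ≤ 2 := by
  obtain ⟨a, ha⟩ : ∃ a : ℤ, a = round (-(2 / Real.sqrt 3) * w.im) := ⟨_, rfl⟩
  obtain ⟨b, hb⟩ : ∃ b : ℤ, b = round (w.re - (a : ℝ) / 2) := ⟨_, rfl⟩
  refine ⟨(a, b), ?_⟩
  have h3 : 0 < Real.sqrt 3 := Real.sqrt_pos.2 (by norm_num)
  have h3' : Real.sqrt 3 ≤ 2 := by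
    rw [Real.sqrt_le_left (by norm_num)]
    norm_num
  have e1 : |w.re - (a : ℝ) / 2 - b| ≤ 1 / 2 := by
    rw [hb]
    exact abs_sub_round _
  have e2 : |-(2 / Real.sqrt 3) * w.im - a| ≤ 1 / 2 := by
    rw [ha]
    exact abs_sub_round _
  have r1 : |(JJ (a, b) - w).re| ≤ 1 / 2 := by
    rw [Complex.sub_re, NTF.JJ_re]
    rw [abs_sub_comm] at e1
    refine le_trans (le_of_eq ?_) e1
    congr 1
    push_cast
    ring
  have r2 : |(JJ (a, b) - w).im| ≤ 1 / 2 := by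
    rw [Complex.sub_im, NTF.JJ_im]
    have h4 : -(Real.sqrt 3 / 2 * (((a, b) : Pt).1 : ℝ)) - w.im = Real.sqrt 3 / 2 * (-(2 / Real.sqrt 3) * w.im - a) := by
      show -(Real.sqrt 3 / 2 * (a : ℝ)) - w.im = _
      field_simp
      ring
    rw [h4, abs_mul, abs_of_pos (by positivity)]
    nlinarith [abs_nonneg (-(2 / Real.sqrt 3) * w.im - a)]
  have h5 := Complex.norm_le_abs_re_add_abs_im (JJ (a, b) - w)
  linarith

end NTSF.Mod
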