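import Pool.Agent.NTS.FishBase
import Pool.Agent.NTS.YDefs
import Pool.Agent.FIS.LevyDefs

/-!
NTW for EVERY step number: the exact modulus of continuity of the weak limits (project TAIL, helper83), from the literals
`ModuY` and `LevyX`: almost surely c psi h <= w h <= C psi h for all small h, w the modulus of continuity, with universal
constants (`NTSF.Mod.exact_of`).
-/

set_option autoImplicit false

namespace NTSF.Mod

open NTSF

open Finset MeasureTheory Filter Topology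

open HexObs hiding pos

open HexObs.SDN HexObs.NTW HexObs.TS

open NTF (open_le sw JJ cont_eval)

open Pool.Agent.NTS.Res

open scoped ENNReal Classical

/-! ### The upper side -/

/-- the modulus of a curve at the small distances -/
def MdlS (ψ : ℝ → ℝ) (M h0 : ℝ) (γ : C(unitInterval, ℂ)) : Prop :=
  ∀ s t : unitInterval, |(s : ℝ) - t| ≤ h0 → ‖γ s - γ t‖ ≤ M * ψ |(s : ℝ) - t|

lemma closed_mdlS (ψ : ℝ → ℝ) (M h0 : ℝ) : IsClosed {γ : C(unitInterval, ℂ) | MdlS ψ M h0 γ} := by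
  have h1 : {γ : C(unitInterval, ℂ) | MdlS ψ M h0 γ} = ⋂ s : unitInterval, ⋂ t : unitInterval,
      ⋂ _ : |(s : ℝ) - t| ≤ h0, {γ : C(unitInterval, ℂ) | ‖γ s - γ t‖ ≤ M * ψ |(s : ℝ) - t|} := by
    ext γ
    simp only [Set.mem_iInter, Set.mem_ofPred_eq]
    rfl
  rw [h1]
  refine isClosed_iInter fun s => isClosed_iInter fun t => isClosed_iInter fun _ => ?_
  exact isClosed_le ((cont_eval s).sub (cont_eval t)).norm continuous_const

/-- the polygonal curve through points with a modulus at the small distances -/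
lemma curve_modS {ψ : ℝ → ℝ} (hψ : IsMod ψ) {n : ℕ} (hn : 1 ≤ n) {s : Fin n → Fin 3} {M h0 : ℝ} (hM : 0 ≤ M)
    (hh : 1 / (n : ℝ) ≤ h0)
    (h : ∀ i j : ℕ, i < j → j ≤ n → ((j : ℝ) - i) / n ≤ h0 → ‖pos s j - pos s i‖ ≤ M * size n * ψ (((j : ℝ) - i) / n)) :
    MdlS ψ (3 * M) h0 (curve s) := by
  have hn0 : (0 : ℝ) < n := by exact_mod_cast hn
  have hn1 : (1 : ℝ) ≤ n := by exact_mod_cast hn
  have hn2 : (1 : ℝ) / n ≤ 1 := by
    rw [div_le_one hn0]
    exact hn1
  -- the points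
  obtain ⟨z, hz⟩ : ∃ z : ℕ → ℂ, z = fun k => pos s k / size n := ⟨_, rfl⟩
  have hzd : ∀ i j : ℕ, i < j → j ≤ n → ((j : ℝ) - i) / n ≤ h0 → ‖z j - z i‖ ≤ M * ψ (((j : ℝ) - i) / n) := by
    intro i j hij hj hij0
    rw [hz]
    simp only
    rw [← sub_div, norm_div, Complex.norm_of_nonneg (size_nonneg n)]
    have h1 : (0 : ℝ) ≤ (j : ℝ) - i := by
      have : (i : ℝ) ≤ j := by exact_mod_cast hij.le
      linarith
    have h2 : ((j : ℝ) - i) / n ≤ 1 := by
      rw [div_le_one hn0]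
      have h3 : (j : ℝ) ≤ n := by exact_mod_cast hj
      have h4 : (0 : ℝ) ≤ i := Nat.cast_nonneg i
      linarith
    have h3 := hψ.nonneg (x := ((j : ℝ) - i) / n) (by positivity) h2
    refine div_le_of_le_mul₀ (size_nonneg n) (by positivity) ((h i j hij hj hij0).trans (le_of_eq ?_))
    ring
  -- one edge
  have hedge : ∀ i, i < n → ∀ x : ℝ, 0 ≤ x → x ≤ 1 → ‖((x : ℝ) : ℂ) * (z (i + 1) - z i)‖ ≤ M * ψ (x / n) := by
    intro i hi x hx0 hx1
    rw [norm_mul, Complex.norm_of_nonneg hx0]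
    have e : (((i + 1 : ℕ) : ℝ) - i) = 1 := by
      push_cast
      ring
    have h1 := hzd i (i + 1) (Nat.lt_succ_self i) hi (by rw [e]; exact hh)
    rw [e] at h1
    have h2 := hψ.star x (1 / n) hx0 hx1 (by positivity) hn2
    rw [show x / n = x * (1 / n) by ring]
    calc x * ‖z (i + 1) - z i‖ ≤ x * (M * ψ (1 / n)) := mul_le_mul_of_nonneg_left h1 hx0
      _ = M * (x * ψ (1 / n)) := by ring
      _ ≤ _ := mul_le_mul_of_nonneg_left h2 hM
  have key : ∀ u v : unitInterval, (u : ℝ) ≤ v → (v : ℝ) - u ≤ h0 →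
      ‖curve s v - curve s u‖ ≤ 3 * M * ψ ((v : ℝ) - u) := by
    intro u v huv huv0
    obtain ⟨i, hi, i1, i2⟩ := Tight.th2_idx hn u
    obtain ⟨j, hj, j1, j2⟩ := Tight.th2_idx hn v
    have f1 := Tight.poly_apply (z := z) hi i1 i2
    have f2 := Tight.poly_apply (z := z) hj j1 j2
    rw [hz, ← curve_eq, ← hz] at f1 f2
    have huvn : (u : ℝ) * n ≤ v * n := mul_le_mul_of_nonneg_right huv hn0.le
    have hd0 : 0 ≤ (v : ℝ) - u := by linarith
    have hd1 : (v : ℝ) - u ≤ 1 := by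
      have := v.2.2
      have := u.2.1
      linarith
    have hp0 := hψ.nonneg hd0 hd1
    -- comparison
    have hc : ∀ x : ℝ, 0 ≤ x → x ≤ v - u → M * ψ x ≤ M * ψ (v - u) := fun x hx0 hx1 =>
      mul_le_mul_of_nonneg_left (hψ.mono _ _ hx0 hx1 hd1) hM
    rcases lt_trichotomy i j with hij | hij | hij
    · have hij' : ((i + 1 : ℕ) : ℝ) ≤ j := by exact_mod_cast hij
      push_cast at hij'
      -- three pieces
      have g1 : ‖curve s v - z j‖ ≤ M * ψ ((v : ℝ) - u) := by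
        rw [f2, add_sub_cancel_left]
        refine (hedge j hj _ (by linarith) (by linarith)).trans (hc _ (div_nonneg (by linarith) hn0.le) ?_)
        rw [div_le_iff₀ hn0]
        linarith
      have g2 : ‖z (i + 1) - curve s u‖ ≤ M * ψ ((v : ℝ) - u) := by
        have e3 : z (i + 1) - curve s u = ((1 - ((u : ℝ) * n - i) : ℝ) : ℂ) * (z (i + 1) - z i) := by
          rw [f1]
          push_cast
          ring
        rw [e3]
        refine (hedge i hi _ (by linarith) (by linarith)).trans (hc _ (div_nonneg (by linarith) hn0.le) ?_)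
        rw [div_le_iff₀ hn0]
        linarith
      have g3 : ‖z j - z (i + 1)‖ ≤ M * ψ ((v : ℝ) - u) := by
        rcases Nat.lt_or_ge (i + 1) j with h5 | h5
        · have h7 : ((j : ℝ) - ((i + 1 : ℕ) : ℝ)) / n ≤ v - u := by
            rw [div_le_iff₀ hn0]
            push_cast
            linarith
          refine (hzd (i + 1) j h5 hj.le (h7.trans huv0)).trans (hc _ ?_ h7)
          refine div_nonneg ?_ hn0.le
          have : ((i + 1 : ℕ) : ℝ) ≤ j := by exact_mod_cast h5.le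
          linarith
        · have : j = i + 1 := by omega
          rw [this, sub_self, norm_zero]
          positivity
      have e4 : curve s v - curve s u = (curve s v - z j) + (z j - z (i + 1)) + (z (i + 1) - curve s u) := by ring
      rw [e4]
      refine (norm_add₃_le).trans ?_
      linarith
    · have e3 : curve s v - curve s u = (((v : ℝ) * n - u * n : ℝ) : ℂ) * (z (i + 1) - z i) := by
        rw [f1, f2, hij]
        push_cast
        ring
      rw [e3]
      refine (hedge i hi _ (by linarith) (by rw [hij] at i1; linarith)).trans ?_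
      have e4 : ((v : ℝ) * n - u * n) / n = v - u := by field_simp
      rw [e4]
      have : 0 ≤ M * ψ ((v : ℝ) - u) := by positivity
      nlinarith
    · -- then u n = v n
      have hij' : ((j + 1 : ℕ) : ℝ) ≤ i := by exact_mod_cast hij
      push_cast at hij'
      have h5 : (u : ℝ) * n = v * n := by linarith
      have h6 : (u : ℝ) = v := mul_right_cancel₀ hn0.ne' h5
      have h7 : u = v := Subtype.ext h6
      rw [h7, sub_self, sub_self, norm_zero]
      have := hψ.zero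
      positivity
  intro u v huv
  rcases le_total (u : ℝ) v with h1 | h1
  · rw [norm_sub_rev, abs_sub_comm, abs_of_nonneg (by linarith)]
    rw [abs_sub_comm, abs_of_nonneg (by linarith)] at huv
    exact key u v h1 huv
  · rw [abs_of_nonneg (by linarith)]
    rw [abs_of_nonneg (by linarith)] at huv
    exact key v u h1 huv

/-- the modulus at the small distances, the walks -/
theorem modS_walk {m : ℕ → ℝ} {R : ℕ → ℝ} {κ : ℕ → ℕ} {c0 C1 cd Cu cs Cs : ℝ} {N : ℕ}
    (hB : Base m R κ c0 C1 cd Cu cs Cs N) (hM : ModuY m) : ∃ M : ℝ, 0 < M ∧ ∀ ε : ℝ, 0 < ε → ∃ (h0 : ℝ) (n0 : ℕ),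
      0 < h0 ∧ ∀ n : ℕ, n0 ≤ n → (((saw n).filter fun s => ∃ i j : ℕ, i < j ∧ j ≤ n ∧ ((j : ℝ) - i) / n ≤ h0 ∧
        M * size n * psi (((j : ℝ) - i) / n) < ‖pos s j - pos s i‖).card : ℝ) ≤ ε * ((saw n).card : ℝ) := by
  have hc0 := hB.pc0
  have hcd := hB.pcd
  obtain ⟨M, hM0, h1⟩ := hM
  refine ⟨M / cd, by positivity, fun ε hε => ?_⟩
  obtain ⟨h0, k0, hh0, h2⟩ := h1 (ε / c0) (by positivity)
  obtain ⟨n1, hn1⟩ := hB.top k0
  refine ⟨h0, N + n1, hh0, fun n hn => ?_⟩
  have b0 : N ≤ n := by omega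
  have hn0 : 0 < n := by
    have := hB.N1
    omega
  have h3 : gf {t | t ∈ SawN n ∧ ∃ (dir : Bool) (i j : ℕ), i < j ∧ j ≤ n ∧ ((j : ℝ) - i) / n ≤ h0 ∧
      M * 2 ^ κ n * psi (((j : ℝ) - i) / n) ≤ |((lvl dir (vx oo up t j) - lvl dir (vx oo up t i) : ℤ) : ℝ)|} ≤
      ENNReal.ofReal ε * gf (SawN n) := by
    refine (h2 (κ n) n (hn1 n (by omega)) (hB.sc n b0).1 (hB.sc n b0).2).trans ?_
    calc ENNReal.ofReal (ε / c0) * nuX m (κ n) ≤
        ENNReal.ofReal (ε / c0) * (ENNReal.ofReal c0 * gf (SawN n)) := mul_le_mul_right (hB.lo n b0) _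
      _ = _ := by
          rw [← mul_assoc, ← ENNReal.ofReal_mul (by positivity), div_mul_cancel₀ _ hc0.ne']
  refine prop_le hn0 _ (fun s => by simp only [norm_rot]) hε.le ?_ h3
  rintro t ht ⟨i, j, hij, hj, hij0, h5⟩
  rw [pos_sw n t j hj, pos_sw n t i (hij.le.trans hj), ← NTF.JJ_sub] at h5
  have h6 := hB.slo n b0
  rw [hB.R2 n] at h6
  have hn0' : (0 : ℝ) < n := by exact_mod_cast hn0
  have hij' : (0 : ℝ) ≤ (j : ℝ) - i := by
    have : (i : ℝ) ≤ j := by exact_mod_cast hij.le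
    linarith
  have hij2 : ((j : ℝ) - i) / n ≤ 1 := by
    rw [div_le_one hn0']
    have h3 : (j : ℝ) ≤ n := by exact_mod_cast hj
    have h4 : (0 : ℝ) ≤ i := Nat.cast_nonneg i
    linarith
  have h7 : (0 : ℝ) ≤ psi (((j : ℝ) - i) / n) := psi_nonneg (by positivity) hij2
  have h8 : M * 2 ^ κ n * psi (((j : ℝ) - i) / n) ≤ ‖JJ (vx oo up t j - vx oo up t i)‖ := by
    refine le_trans ?_ h5.le
    apply mul_le_mul_of_nonneg_right _ h7
    calc M * 2 ^ κ n = M / cd * (cd * 2 ^ κ n) := by field_simp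
      _ ≤ M / cd * size n := mul_le_mul_of_nonneg_left h6 (by positivity)
  obtain ⟨dir, h9⟩ := NTF.exists_dir (by positivity) h8
  rw [NTF.lvl_sub] at h9
  exact ⟨ht, dir, i, j, hij, hj, hij0, h9⟩

/-- **the upper side of the exact modulus, every weak limit** -/
theorem upper_of {m : ℕ → ℝ} {R : ℕ → ℝ} {κ : ℕ → ℕ} {c0 C1 cd Cu cs Cs : ℝ} {N : ℕ}
    (hB : Base m R κ c0 C1 cd Cu cs Cs N) (hM : ModuY m) : ∃ C : ℝ, 0 < C ∧
      ∀ (φ : ℕ → ℕ) (ν : Measure C(unitInterval, ℂ)), Tendsto φ atTop atTop → IsProbabilityMeasure ν → LawTo φ ν →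
        ∀ᵐ γ : C(unitInterval, ℂ) ∂ν, ∃ h0 : ℝ, 0 < h0 ∧ MdlS psi C h0 γ := by
  obtain ⟨M, hM0, h1⟩ := modS_walk hB hM
  refine ⟨3 * M, by positivity, fun φ ν hφ hν hlim => ?_⟩
  have hlim2 := (lawTo_iff ⟨ν, hν⟩).1 hlim
  rw [ae_iff]
  refine le_antisymm (ENNReal.le_of_forall_pos_le_add ?_) zero_le
  intro ε hε _
  rw [zero_add]
  obtain ⟨h0, n0, hh0, h2⟩ := h1 ε (by exact_mod_cast hε)
  obtain ⟨q, hq⟩ : ∃ q : ℕ, 1 / h0 ≤ q := exists_nat_ge _
  have h4 : ν {γ : C(unitInterval, ℂ) | MdlS psi (3 * M) h0 γ}ᶜ ≤ ENNReal.ofReal ε := by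
    refine open_le hlim2 (closed_mdlS psi (3 * M) h0).isOpen_compl ?_
    filter_upwards [hφ.eventually_ge_atTop (n0 + q + 1)] with k hk
    have hk1 : 1 ≤ φ k := by omega
    refine law_le (by positivity) (le_trans ?_ (h2 (φ k) (by omega)))
    have hq2 : 1 / ((φ k : ℕ) : ℝ) ≤ h0 := by
      have h3 : (q : ℝ) ≤ φ k := by exact_mod_cast (by omega : q ≤ φ k)
      have h5 : (0 : ℝ) < φ k := by exact_mod_cast hk1
      rw [div_le_iff₀ h5]
      rw [div_le_iff₀ hh0] at hq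
      nlinarith
    have hsub : ((saw (φ k)).filter fun s => curve s ∈ {γ : C(unitInterval, ℂ) | MdlS psi (3 * M) h0 γ}ᶜ) ⊆
        (saw (φ k)).filter fun s => ∃ i j : ℕ, i < j ∧ j ≤ φ k ∧ ((j : ℝ) - i) / (φ k : ℕ) ≤ h0 ∧
          M * size (φ k) * psi (((j : ℝ) - i) / (φ k : ℕ)) < ‖pos s j - pos s i‖ := by
      intro s hs
      rw [Finset.mem_filter] at hs ⊢
      refine ⟨hs.1, ?_⟩
      by_contra hcon
      push Not at hcon
      exact hs.2 (curve_modS isMod_psi hk1 hM0.le hq2 hcon)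
    exact_mod_cast Finset.card_le_card hsub
  rw [ENNReal.ofReal_coe_nnreal] at h4
  refine (measure_mono ?_).trans h4
  intro γ hγ hcon
  exact hγ ⟨h0, hh0, hcon⟩

end NTSF.Mod
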