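import Pool.Agent.NTS.Merge
import Pool.Agent.NTS.ExDefs

/-!
One step (helper83): the facts about the curves from the theorem for every step number.
-/

set_option autoImplicit false

namespace NTSF

namespace Mg

open HexObs.OneS HexObs.TOG HexObs.SDN

theorem oneFacts {b : Prop} (hE : ConclE b) : OneFacts := by
  obtain ⟨c, C, hc, h1, -, -, h4, -, h6⟩ := hE
  exact ⟨⟨c, C, hc, h1⟩, h4, fun φ ν hφ hν hl => (h6 φ ν hφ hν hl).2⟩

end Mg

end NTSF
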