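import Pool.Agent.TIW.EnsF
import Pool.Agent.TIW.Lim
import Pool.Agent.TIW.Tog
import Pool.Agent.NTS.MergeF
import Pool.Agent.NTA.FinXAll

/-!
One step (helper83): `softOut_ah`: the event that the vertex ahead is free is asymptotically independent of the rough shape,
from `TIW.NiceSt`; `one_step_of`: the walks with n and n + 1 steps.
-/

set_option autoImplicit false

namespace NTSF

namespace Mg

open Finset MeasureTheory Filter Topology

open HexObs hiding pos

open HexObs.OneS HexObs.TOG HexObs.SDN HexObs.TIW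

open Pool.Agent.NTS.Res

/-- the local limit at the tip gives the asymptotic independence -/
theorem softOut_of (hNi : NiceSt) {Q : Set (List Bool)} (hQ : ∃ r0, ∀ r, r0 ≤ r → Inside r Q) : SoftOut Q := by
  have hm : ∀ n, ∑ _t ∈ sawF n, (1 / cS n : ℝ) = 1 := fun n => by
    rw [sum_const, card_sawF, nsmul_eq_mul]
    have : (0 : ℝ) < cS n := by exact_mod_cast cS_pos n
    field_simp
  obtain ⟨ν, -, -, h⟩ := lim_of feTog nwTog hNi ens_one (fun n t => le_rfl) hm hQ
  refine fun e he => ⟨ν, fun F hF => ?_⟩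
  obtain ⟨n0, h0⟩ := h _ _ (ensF hF) (fun n t => div_le_div_of_nonneg_right (hF.nn t).2 (Nat.cast_nonneg _)) e he
  refine ⟨n0, fun n hn => ?_⟩
  have h1 := h0 n hn
  have e1 : ∑ t ∈ sawF n, F t / cS n * TIP.ind (t ∈ Q) = Ef n (fun t => TIP.ind (t ∈ Q) * F t) := by
    unfold Ef
    rw [EF.sawF_eq, sum_div]
    exact sum_congr rfl fun t _ => by ring
  have e2 : ∑ t ∈ sawF n, F t / cS n = Ef n F := by
    unfold Ef
    rw [EF.sawF_eq, sum_div]
  rw [e1, e2] at h1
  exact h1

theorem softOut_ah (hNi : NiceSt) : SoftOut Ah := softOut_of hNi ⟨64, fun _ hr => inside_ah hr⟩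

/-- **the walks with n and n + 1 steps** -/
theorem one_step_of (hNi : NiceSt) :
    Tendsto (fun n : ℕ => ((saw (n + 1)).card : ℝ) / (saw n).card) atTop (𝓝 (Real.sqrt (2 + Real.sqrt 2))) ∧
    Tendsto (fun n : ℕ => size (n + 1) / size n) atTop (𝓝 1) ∧
    (∀ f : BoundedContinuousFunction C(unitInterval, ℂ) ℝ,
      Tendsto (fun n : ℕ => ∫ γ, f γ ∂(law (n + 1)) - ∫ γ, f γ ∂(law n)) atTop (𝓝 0)) ∧
    IsCompact WL ∧ IsConnected WL ∧
    ((∃ ν : ProbabilityMeasure C(unitInterval, ℂ), LawTo (fun n => n) (ν : Measure C(unitInterval, ℂ))) ∨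
      ¬ WL.Countable) :=
  one_step (oneFacts finE) (softOut_ah hNi) ratio2_M cS_pos

end Mg

end NTSF
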