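import Pool.Agent.NTS.MergeA
import Pool.Agent.TIW.Nice
import Pool.Agent.TIP.NEnd

/-!
One step (helper83): the walks with n and n + 1 steps, no hypothesis.
-/

set_option autoImplicit false

namespace NTSF

namespace Mg

open Finset MeasureTheory Filter Topology

open HexObs hiding pos

open HexObs.OneS HexObs.TOG HexObs.SDN HexObs.TIW

open Pool.Agent.NTS.Res

/-- row N -/
theorem niceSt : NiceSt := niceSt_of HexObs.TIP.nEndA

/-- every event of the end is asymptotically independent of the rough shape -/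
theorem softOut {Q : Set (List Bool)} (hQ : ∃ r0, ∀ r, r0 ≤ r → Inside r Q) : SoftOut Q := softOut_of niceSt hQ

/-- **the walks with n and n + 1 steps**, no hypothesis -/
theorem one_step_M :
    Tendsto (fun n : ℕ => ((saw (n + 1)).card : ℝ) / (saw n).card) atTop (𝓝 (Real.sqrt (2 + Real.sqrt 2))) ∧
    Tendsto (fun n : ℕ => size (n + 1) / size n) atTop (𝓝 1) ∧
    (∀ f : BoundedContinuousFunction C(unitInterval, ℂ) ℝ,
      Tendsto (fun n : ℕ => ∫ γ, f γ ∂(law (n + 1)) - ∫ γ, f γ ∂(law n)) atTop (𝓝 0)) ∧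
    IsCompact WL ∧ IsConnected WL ∧
    ((∃ ν : ProbabilityMeasure C(unitInterval, ℂ), LawTo (fun n => n) (ν : Measure C(unitInterval, ℂ))) ∨
      ¬ WL.Countable) := one_step_of niceSt

end Mg

end NTSF
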