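import Pool.Agent.NTS.FishDefs
import Pool.Agent.NTS.LawX
import Pool.Agent.NTS.FactsW

/-!
NTW for EVERY step number: a general modulus of continuity, for the walks, the laws and the limits (project TAIL, helper83).
-/

set_option autoImplicit false

namespace NTSF.Mod

open NTSF

open Finset MeasureTheory Filter Topology

open HexObs hiding pos

open HexObs.SDN HexObs.NTW HexObs.TS

open NTF (open_le sw JJ)

open Pool.Agent.NTS.Res

open scoped ENNReal Classical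

/-- what is used of a modulus -/
structure IsMod (ψ : ℝ → ℝ) : Prop where
  zero : 0 ≤ ψ 0
  pos : ∀ h : ℝ, 0 < h → h ≤ 1 → 0 < ψ h
  mono : ∀ u v : ℝ, 0 ≤ u → u ≤ v → v ≤ 1 → ψ u ≤ ψ v
  star : ∀ x h : ℝ, 0 ≤ x → x ≤ 1 → 0 ≤ h → h ≤ 1 → x * ψ h ≤ ψ (x * h)

lemma isMod_psi : IsMod psi where
  zero := psi_zero.ge
  pos _ h0 h1 := psi_pos h0 h1
  mono _ _ h0 h1 h2 := psi_mono h0 h1 h2
  star _ _ h0 h1 h2 h3 := psi_star h0 h1 h2 h3

lemma IsMod.nonneg {ψ : ℝ → ℝ} (h : IsMod ψ) {x : ℝ} (h0 : 0 ≤ x) (h1 : x ≤ 1) : 0 ≤ ψ x := by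
  rcases h0.lt_or_eq with h2 | h2
  · exact (h.pos x h2 h1).le
  · rw [← h2]
    exact h.zero

/-- the modulus of a curve -/
def Mdl (ψ : ℝ → ℝ) (M : ℝ) (γ : C(unitInterval, ℂ)) : Prop :=
  ∀ s t : unitInterval, ‖γ s - γ t‖ ≤ M * ψ |(s : ℝ) - t|

lemma abs_le_one (s t : unitInterval) : |(s : ℝ) - t| ≤ 1 := by
  rw [abs_le]
  have h1 := s.2.1
  have h2 := s.2.2
  have h3 := t.2.1
  have h4 := t.2.2
  constructor <;> linarith

lemma Mdl.mono {ψ : ℝ → ℝ} (hψ : IsMod ψ) {M M' : ℝ} {γ : C(unitInterval, ℂ)} (h : Mdl ψ M γ) (hM : M ≤ M') :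
    Mdl ψ M' γ := fun s t =>
  (h s t).trans (mul_le_mul_of_nonneg_right hM (hψ.nonneg (abs_nonneg _) (abs_le_one s t)))

/-- the modulus of the walks -/
def ModA (ψ : ℝ → ℝ) (A : Set ℕ) : Prop := ∀ ε : ℝ, 0 < ε → ∃ (M : ℝ) (n0 : ℕ), 0 < M ∧ ∀ n ∈ A, n0 ≤ n →
  (((saw n).filter fun s => ∃ i j : ℕ, i < j ∧ j ≤ n ∧
    M * size n * ψ (((j : ℝ) - i) / n) < ‖pos s j - pos s i‖).card : ℝ) ≤ ε * ((saw n).card : ℝ)

/-- the polygonal curve through points with a modulus -/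
lemma curve_mod {ψ : ℝ → ℝ} (hψ : IsMod ψ) {n : ℕ} (hn : 1 ≤ n) {s : Fin n → Fin 3} {M : ℝ} (hM : 0 ≤ M)
    (h : ∀ i j : ℕ, i < j → j ≤ n → ‖pos s j - pos s i‖ ≤ M * size n * ψ (((j : ℝ) - i) / n)) :
    Mdl ψ (3 * M) (curve s) := by
  have hn0 : (0 : ℝ) < n := by exact_mod_cast hn
  have hn1 : (1 : ℝ) ≤ n := by exact_mod_cast hn
  have hn2 : (1 : ℝ) / n ≤ 1 := by
    rw [div_le_one hn0]
    exact hn1
  -- the points
  obtain ⟨z, hz⟩ : ∃ z : ℕ → ℂ, z = fun k => pos s k / size n := ⟨_, rfl⟩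
  have hzd : ∀ i j : ℕ, i < j → j ≤ n → ‖z j - z i‖ ≤ M * ψ (((j : ℝ) - i) / n) := by
    intro i j hij hj
    rw [hz]
    simp only
    rw [← sub_div, norm_div, Complex.norm_of_nonneg (size_nonneg n)]
    have h1 : (0 : ℝ) ≤ (j : ℝ) - i := by
      have : (i : ℝ) ≤ j := by exact_mod_cast hij.le
      linarith
    have h2 : ((j : ℝ) - i) / n ≤ 1 := by
      rw [div_le_one hn0]
      have h3 : (j : ℝ) ≤ n := by exact_mod_cast hj
      have h4 : (0 : ℝ) ≤ i := Nat.cast_nonneg i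
      linarith
    have h3 := hψ.nonneg (x := ((j : ℝ) - i) / n) (by positivity) h2
    refine div_le_of_le_mul₀ (size_nonneg n) (by positivity) ((h i j hij hj).trans (le_of_eq ?_))
    ring
  -- one edge
  have hedge : ∀ i, i < n → ∀ x : ℝ, 0 ≤ x → x ≤ 1 → ‖((x : ℝ) : ℂ) * (z (i + 1) - z i)‖ ≤ M * ψ (x / n) := by
    intro i hi x hx0 hx1
    rw [norm_mul, Complex.norm_of_nonneg hx0]
    have h1 := hzd i (i + 1) (Nat.lt_succ_self i) hi
    have e : (((i + 1 : ℕ) : ℝ) - i) = 1 := by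
      push_cast
      ring
    rw [e] at h1
    have h2 := hψ.star x (1 / n) hx0 hx1 (by positivity) hn2
    rw [show x / n = x * (1 / n) by ring]
    calc x * ‖z (i + 1) - z i‖ ≤ x * (M * ψ (1 / n)) := mul_le_mul_of_nonneg_left h1 hx0
      _ = M * (x * ψ (1 / n)) := by ring
      _ ≤ _ := mul_le_mul_of_nonneg_left h2 hM
  have key : ∀ u v : unitInterval, (u : ℝ) ≤ v → ‖curve s v - curve s u‖ ≤ 3 * M * ψ ((v : ℝ) - u) := by
    intro u v huv
    obtain ⟨i, hi, i1, i2⟩ := Tight.th2_idx hn u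
    obtain ⟨j, hj, j1, j2⟩ := Tight.th2_idx hn v
    have f1 := Tight.poly_apply (z := z) hi i1 i2
    have f2 := Tight.poly_apply (z := z) hj j1 j2
    rw [hz, ← curve_eq, ← hz] at f1 f2
    have huvn : (u : ℝ) * n ≤ v * n := mul_le_mul_of_nonneg_right huv hn0.le
    have hd0 : 0 ≤ (v : ℝ) - u := by linarith
    have hd1 : (v : ℝ) - u ≤ 1 := by
      have := v.2.2
      have := u.2.1
      linarith
    have hp0 := hψ.nonneg hd0 hd1
    -- comparison
    have hc : ∀ x : ℝ, 0 ≤ x → x ≤ v - u → M * ψ x ≤ M * ψ (v - u) := fun x hx0 hx1 =>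
      mul_le_mul_of_nonneg_left (hψ.mono _ _ hx0 hx1 hd1) hM
    rcases lt_trichotomy i j with hij | hij | hij
    · have hij' : ((i + 1 : ℕ) : ℝ) ≤ j := by exact_mod_cast hij
      push_cast at hij'
      -- three pieces
      have g1 : ‖curve s v - z j‖ ≤ M * ψ ((v : ℝ) - u) := by
        rw [f2, add_sub_cancel_left]
        refine (hedge j hj _ (by linarith) (by linarith)).trans (hc _ (div_nonneg (by linarith) hn0.le) ?_)
        rw [div_le_iff₀ hn0]
        linarith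
      have g2 : ‖z (i + 1) - curve s u‖ ≤ M * ψ ((v : ℝ) - u) := by
        have e3 : z (i + 1) - curve s u = ((1 - ((u : ℝ) * n - i) : ℝ) : ℂ) * (z (i + 1) - z i) := by
          rw [f1]
          push_cast
          ring
        rw [e3]
        refine (hedge i hi _ (by linarith) (by linarith)).trans (hc _ (div_nonneg (by linarith) hn0.le) ?_)
        rw [div_le_iff₀ hn0]
        linarith
      have g3 : ‖z j - z (i + 1)‖ ≤ M * ψ ((v : ℝ) - u) := by
        rcases Nat.lt_or_ge (i + 1) j with h5 | h5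
        · refine (hzd (i + 1) j h5 hj.le).trans ?_
          push_cast
          have h6 : (i : ℝ) + 1 ≤ j := by
            have : ((i + 1 : ℕ) : ℝ) ≤ j := by exact_mod_cast h5.le
            push_cast at this
            exact this
          refine hc _ (div_nonneg (by linarith) hn0.le) ?_
          rw [div_le_iff₀ hn0]
          linarith
        · have : j = i + 1 := by omega
          rw [this, sub_self, norm_zero]
          positivity
      have e4 : curve s v - curve s u = (curve s v - z j) + (z j - z (i + 1)) + (z (i + 1) - curve s u) := by ring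
      rw [e4]
      refine (norm_add₃_le).trans ?_
      linarith
    · have e3 : curve s v - curve s u = (((v : ℝ) * n - u * n : ℝ) : ℂ) * (z (i + 1) - z i) := by
        rw [f1, f2, hij]
        push_cast
        ring
      rw [e3]
      refine (hedge i hi _ (by linarith) (by rw [hij] at i1; linarith)).trans ?_
      have e4 : ((v : ℝ) * n - u * n) / n = v - u := by field_simp
      rw [e4]
      have : 0 ≤ M * ψ ((v : ℝ) - u) := by positivity
      nlinarith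
    · -- then u n = v n
      have hij' : ((j + 1 : ℕ) : ℝ) ≤ i := by exact_mod_cast hij
      push_cast at hij'
      have h5 : (u : ℝ) * n = v * n := by linarith
      have h6 : (u : ℝ) = v := mul_right_cancel₀ hn0.ne' h5
      have h7 : u = v := Subtype.ext h6
      rw [h7, sub_self, sub_self, norm_zero]
      have := hψ.zero
      positivity
  intro u v
  rcases le_total (u : ℝ) v with h1 | h1
  · rw [norm_sub_rev, abs_sub_comm, abs_of_nonneg (by linarith)]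
    exact key u v h1
  · rw [abs_of_nonneg (by linarith)]
    exact key v u h1

/-- every polygonal curve has the modulus -/
lemma exists_mod {ψ : ℝ → ℝ} (hψ : IsMod ψ) {n : ℕ} (hn : 1 ≤ n) (s : Fin n → Fin 3) :
    ∃ M : ℝ, 0 ≤ M ∧ Mdl ψ M (curve s) := by
  have hn0 : (0 : ℝ) < n := by exact_mod_cast hn
  have hn1 : (1 : ℝ) ≤ n := by exact_mod_cast hn
  have hn2 : (1 : ℝ) / n ≤ 1 := by
    rw [div_le_one hn0]
    exact hn1
  have hs := size_pos hn
  have hp : 0 < ψ (1 / n) := hψ.pos _ (by positivity) hn2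
  obtain ⟨B, hB⟩ : ∃ B : ℝ, B = ∑ p ∈ range (n + 1) ×ˢ range (n + 1), ‖pos s p.2 - pos s p.1‖ := ⟨_, rfl⟩
  have hB0 : 0 ≤ B := by
    rw [hB]
    exact sum_nonneg fun _ _ => norm_nonneg _
  refine ⟨3 * (B / ψ (1 / n) / size n), by positivity, curve_mod hψ hn (by positivity) ?_⟩
  intro i j hij hj
  have h1 : ‖pos s j - pos s i‖ ≤ B := by
    rw [hB]
    exact single_le_sum (f := fun p : ℕ × ℕ => ‖pos s p.2 - pos s p.1‖) (fun _ _ => norm_nonneg _)
      (show (i, j) ∈ range (n + 1) ×ˢ range (n + 1) by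
        rw [Finset.mem_product, Finset.mem_range, Finset.mem_range]
        exact ⟨by omega, by omega⟩)
  have h2 : (1 : ℝ) ≤ (j : ℝ) - i := by
    have : ((i + 1 : ℕ) : ℝ) ≤ j := by exact_mod_cast hij
    push_cast at this
    linarith
  have h6 : ((j : ℝ) - i) / n ≤ 1 := by
    rw [div_le_one hn0]
    have h3 : (j : ℝ) ≤ n := by exact_mod_cast hj
    have h4 : (0 : ℝ) ≤ i := Nat.cast_nonneg i
    linarith
  have h3 : ψ (1 / n) ≤ ψ (((j : ℝ) - i) / n) :=
    hψ.mono _ _ (by positivity) (div_le_div_of_nonneg_right h2 hn0.le) h6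
  calc ‖pos s j - pos s i‖ ≤ B := h1
    _ = B / ψ (1 / n) / size n * size n * ψ (1 / n) := by field_simp
    _ ≤ _ := mul_le_mul_of_nonneg_left h3 (by positivity)

/-- **uniform modulus for the laws** -/
theorem law_modQ {ψ : ℝ → ℝ} (hψ : IsMod ψ) (hH : ModA ψ {n | 1 ≤ n}) {ε : ℝ} (hε : 0 < ε) :
    ∃ M : ℝ, 0 ≤ M ∧ ∀ n : ℕ, 1 ≤ n → law n {γ : C(unitInterval, ℂ) | ¬ Mdl ψ M γ} ≤ ENNReal.ofReal ε := by
  obtain ⟨M, n0, hM, h1⟩ := hH ε hε
  -- the small n
  have h2 : ∀ n : ℕ, ∃ Mn : ℝ, 0 ≤ Mn ∧ (1 ≤ n → ∀ s ∈ saw n, Mdl ψ Mn (curve s)) := by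
    intro n
    by_cases hn1 : 1 ≤ n
    · choose f hf0 hf using fun s : Fin n → Fin 3 => exists_mod hψ hn1 s
      refine ⟨∑ s ∈ saw n, f s, sum_nonneg fun s _ => hf0 s, fun _ s hs => (hf s).mono hψ ?_⟩
      exact single_le_sum (f := f) (fun s _ => hf0 s) hs
    · exact ⟨0, le_rfl, fun h => absurd h hn1⟩
  choose g hg0 hg using h2
  obtain ⟨B, hB⟩ : ∃ B : ℝ, B = ∑ n ∈ range n0, g n := ⟨_, rfl⟩
  have hB0 : 0 ≤ B := by
    rw [hB]
    exact sum_nonneg fun _ _ => hg0 _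
  refine ⟨3 * M + B, by positivity, fun n hn1 => ?_⟩
  rcases lt_or_ge n n0 with h3 | h3
  · rw [law_zero]
    · exact zero_le
    · intro s hs h4
      apply h4
      refine (hg n hn1 s hs).mono hψ ?_
      have : g n ≤ B := by
        rw [hB]
        exact single_le_sum (f := g) (fun n _ => hg0 n) (Finset.mem_range.2 h3)
      linarith
  · refine law_le hε.le (le_trans ?_ (h1 n hn1 h3))
    have hsub : ((saw n).filter fun s => curve s ∈ {γ : C(unitInterval, ℂ) | ¬ Mdl ψ (3 * M + B) γ}) ⊆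
        (saw n).filter fun s => ∃ i j : ℕ, i < j ∧ j ≤ n ∧
          M * size n * ψ (((j : ℝ) - i) / n) < ‖pos s j - pos s i‖ := by
      intro s hs
      rw [Finset.mem_filter] at hs ⊢
      refine ⟨hs.1, ?_⟩
      by_contra hcon
      push Not at hcon
      apply hs.2
      exact (curve_mod hψ hn1 hM.le hcon).mono hψ (by linarith)
    exact_mod_cast Finset.card_le_card hsub

lemma closed_mdl (ψ : ℝ → ℝ) (M : ℝ) : IsClosed {γ : C(unitInterval, ℂ) | Mdl ψ M γ} := by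
  have h1 : {γ : C(unitInterval, ℂ) | Mdl ψ M γ} =
      ⋂ s : unitInterval, ⋂ t : unitInterval, {γ : C(unitInterval, ℂ) | ‖γ s - γ t‖ ≤ M * ψ |(s : ℝ) - t|} := by
    ext γ
    simp only [Set.mem_iInter, Set.mem_ofPred_eq]
    rfl
  rw [h1]
  refine isClosed_iInter fun s => isClosed_iInter fun t => ?_
  exact isClosed_le ((NTF.cont_eval s).sub (NTF.cont_eval t)).norm continuous_const

/-- **the modulus of the limits** -/
theorem limit_modQ {ψ : ℝ → ℝ} (hψ : IsMod ψ) (hH : ModA ψ {n | 1 ≤ n})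
    {φ : ℕ → ℕ} (hφ : Tendsto φ atTop atTop) {ν : Measure C(unitInterval, ℂ)} (hν : IsProbabilityMeasure ν)
    (hlim : LawTo φ ν) : ∀ᵐ γ : C(unitInterval, ℂ) ∂ν, ∃ M : ℝ, Mdl ψ M γ := by
  have hlim2 := (lawTo_iff ⟨ν, hν⟩).1 hlim
  rw [ae_iff]
  refine le_antisymm (ENNReal.le_of_forall_pos_le_add ?_) zero_le
  intro ε hε _
  obtain ⟨M, _, hM⟩ := law_modQ hψ hH (ε := ε) (by exact_mod_cast hε)
  have h1 : ν {f : C(unitInterval, ℂ) | Mdl ψ M f}ᶜ ≤ ENNReal.ofReal ε := by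
    refine open_le hlim2 (closed_mdl ψ M).isOpen_compl ?_
    filter_upwards [hφ.eventually_ge_atTop 1] with k hk
    exact hM (φ k) hk
  rw [zero_add]
  rw [ENNReal.ofReal_coe_nnreal] at h1
  refine (measure_mono ?_).trans h1
  intro f hf hfM
  exact hf ⟨M, hfM⟩

/-- the modulus, from the words to the walks -/
theorem mod_core {ψ : ℝ → ℝ} (hψ : IsMod ψ) {A : Set ℕ} {R : ℕ → ℝ} (hone : ∀ n ∈ A, 1 ≤ n)
    (hR1 : ∀ n ∈ A, 1 ≤ R n) {c : ℝ} {n1 : ℕ} (hc : 0 < c) (hdown : ∀ n ∈ A, n1 ≤ n → c * R n ≤ size n)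
    (hH : ∀ ε : ℝ, 0 < ε → ∃ (M : ℝ) (n0 : ℕ), 0 < M ∧ ∀ n ∈ A, n0 ≤ n →
      gf {t | t ∈ SawN n ∧ ∃ (dir : Bool) (i j : ℕ), i < j ∧ j ≤ n ∧
        M * R n * ψ (((j : ℝ) - i) / n) ≤ |((lvl dir (vx oo up t j) - lvl dir (vx oo up t i) : ℤ) : ℝ)|} ≤
        ENNReal.ofReal ε * gf (SawN n)) : ModA ψ A := by
  intro ε hε
  obtain ⟨M, n0, hM, h4⟩ := hH ε hε
  refine ⟨M / c, max n0 n1, by positivity, fun n hn hnn => ?_⟩
  refine prop_le (hone n hn) _ (fun s => by simp only [norm_rot]) hε.le ?_ (h4 n hn (le_of_max_le_left hnn))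
  rintro t ht ⟨i, j, hij, hj, h5⟩
  rw [pos_sw n t j hj, pos_sw n t i (hij.le.trans hj), ← NTF.JJ_sub] at h5
  have h6 := hdown n hn (le_of_max_le_right hnn)
  have hRn : 0 < R n := zero_lt_one.trans_le (hR1 n hn)
  have hn0 : (0 : ℝ) < n := by exact_mod_cast hone n hn
  have hij' : (0 : ℝ) ≤ (j : ℝ) - i := by
    have : (i : ℝ) ≤ j := by exact_mod_cast hij.le
    linarith
  have hij2 : ((j : ℝ) - i) / n ≤ 1 := by
    rw [div_le_one hn0]
    have h3 : (j : ℝ) ≤ n := by exact_mod_cast hj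
    have h4 : (0 : ℝ) ≤ i := Nat.cast_nonneg i
    linarith
  have h7 : (0 : ℝ) ≤ ψ (((j : ℝ) - i) / n) := hψ.nonneg (by positivity) hij2
  have h8 : M * R n * ψ (((j : ℝ) - i) / n) ≤ ‖JJ (vx oo up t j - vx oo up t i)‖ := by
    refine le_trans ?_ h5.le
    apply mul_le_mul_of_nonneg_right _ h7
    calc M * R n = M / c * (c * R n) := by field_simp
      _ ≤ M / c * size n := mul_le_mul_of_nonneg_left h6 (by positivity)
  obtain ⟨dir, h9⟩ := NTF.exists_dir (by positivity) h8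
  rw [NTF.lvl_sub] at h9
  exact ⟨ht, dir, i, j, hij, hj, h9⟩

end NTSF.Mod
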