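import Pool.Agent.NTS.ModLaw
import Pool.Agent.NTS.ResultX

/-!
NTW for EVERY step number: the exact order of the modulus of continuity, for the laws and the limits (project TAIL,
helper83): **`NTSF.Mod.concl_mod`** from the literal `ModuX`.
-/

set_option autoImplicit false

namespace NTSF.Mod

open NTSF

open Finset MeasureTheory Filter Topology

open HexObs hiding pos

open HexObs.SDN HexObs.NTW HexObs.TS

open Pool.Agent.NTS.Res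

open scoped ENNReal Classical

/-- **the modulus psi of the walks, every n** -/
theorem modA_of {m : ℕ → ℝ} (hlo : ∃ c : ℝ, 0 < c ∧ ∀ k : ℕ, c * (2 : ℝ) ^ (4 / 3 * (k : ℝ)) ≤ m k)
    (hup : ∃ C : ℝ, ∀ k : ℕ, m k ≤ C * (2 : ℝ) ^ (4 / 3 * (k : ℝ))) (hF : FactsX m) (hM : ModuX m) :
    ModA psi {n | 1 ≤ n} := by
  obtain ⟨R, κ, hS⟩ := scaleX_exists hlo hup
  have hpos : ∀ k : ℕ, (0 : ℝ) < (2 : ℝ) ^ (4 / 3 * (k : ℝ)) := fun k => Real.rpow_pos_of_pos (by norm_num) _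
  have hm : ∀ k, 0 < m k := fun k => by
    obtain ⟨c, hc, h⟩ := hlo
    exact lt_of_lt_of_le (mul_pos hc (hpos k)) (h k)
  have hd : ∃ C : ℝ, 1 ≤ C ∧ ∀ k, m (k + 1) ≤ C * m k := by
    obtain ⟨c, hc, h⟩ := hlo
    obtain ⟨C, h'⟩ := hup
    have hC : 0 < C := by
      have h1 := (h 0).trans (h' 0)
      have h2 := hpos 0
      by_contra hcon
      push Not at hcon
      nlinarith
    refine ⟨max 1 (C * (2 : ℝ) ^ (4 / 3 : ℝ) / c), le_max_left _ _, fun k => ?_⟩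
    have h1 : (2 : ℝ) ^ (4 / 3 * ((k + 1 : ℕ) : ℝ)) = (2 : ℝ) ^ (4 / 3 : ℝ) * (2 : ℝ) ^ (4 / 3 * (k : ℝ)) := by
      rw [← Real.rpow_add (by norm_num)]
      congr 1
      push_cast
      ring
    calc m (k + 1) ≤ C * (2 : ℝ) ^ (4 / 3 * ((k + 1 : ℕ) : ℝ)) := h' (k + 1)
      _ = C * (2 : ℝ) ^ (4 / 3 : ℝ) / c * (c * (2 : ℝ) ^ (4 / 3 * (k : ℝ))) := by
          rw [h1]
          field_simp
      _ ≤ C * (2 : ℝ) ^ (4 / 3 : ℝ) / c * m k := mul_le_mul_of_nonneg_left (h k) (by positivity)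
      _ ≤ _ := mul_le_mul_of_nonneg_right (le_max_right _ _) (hm k).le
  have hR1 : ∀ n, 1 ≤ R n := fun n => by
    rw [hS.R2]
    exact one_le_pow₀ (by norm_num)
  obtain ⟨-, ⟨cd, nd, hcd, hdown⟩, -⟩ := factsQ_of hR1 (normX_of hS hF hd)
  obtain ⟨c0, n0, hc0, hnu⟩ := nuX_le hS hF
  refine mod_core isMod_psi (A := {n | 1 ≤ n}) (R := R) (fun n hn => hn) (fun n _ => hR1 n) hcd
    (fun n _ hn => hdown n hn) (n1 := nd) (fun e he => ?_)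
  obtain ⟨M, k0, hM, h1⟩ := hM (e / c0) (by positivity)
  obtain ⟨n2, h2⟩ := event_le hS hnu (k0 := k0) (e := e / c0) (by positivity)
    (E := fun n => {t | t ∈ SawN n ∧ ∃ (dir : Bool) (i j : ℕ), i < j ∧ j ≤ n ∧
      M * R n * psi (((j : ℝ) - i) / n) ≤ |((lvl dir (vx oo up t j) - lvl dir (vx oo up t i) : ℤ) : ℝ)|}) (by
      intro k n hk a1 a2 hkn
      have h3 := h1 k n hk a1 a2
      rw [hS.R2 n, hkn]
      exact h3)
  refine ⟨M, n2, hM, fun n _ hn => ?_⟩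
  have h3 := h2 n hn
  rwa [div_mul_cancel₀ _ hc0.ne'] at h3

/-- **the modulus of continuity of the walks in natural time and of every weak limit** -/
theorem concl_mod {m : ℕ → ℝ} (hlo : ∃ c : ℝ, 0 < c ∧ ∀ k : ℕ, c * (2 : ℝ) ^ (4 / 3 * (k : ℝ)) ≤ m k)
    (hup : ∃ C : ℝ, ∀ k : ℕ, m k ≤ C * (2 : ℝ) ^ (4 / 3 * (k : ℝ))) (hF : FactsX m) (hM : ModuX m) :
    (∀ ε : ℝ, 0 < ε → ∃ M : ℝ, ∀ n : ℕ, 1 ≤ n → law n {γ : C(unitInterval, ℂ) | ¬ ∀ s t : unitInterval,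
      ‖γ s - γ t‖ ≤ M * (|(s : ℝ) - t| ^ (3 / 4 : ℝ) * (1 - Real.log |(s : ℝ) - t|) ^ (1 / 4 : ℝ))} ≤
        ENNReal.ofReal ε) ∧
    ∀ (φ : ℕ → ℕ) (ν : Measure C(unitInterval, ℂ)), Tendsto φ atTop atTop → IsProbabilityMeasure ν → LawTo φ ν →
      ∀ᵐ γ : C(unitInterval, ℂ) ∂ν, ∃ M : ℝ, ∀ s t : unitInterval,
        ‖γ s - γ t‖ ≤ M * (|(s : ℝ) - t| ^ (3 / 4 : ℝ) * (1 - Real.log |(s : ℝ) - t|) ^ (1 / 4 : ℝ)) := by
  have h := modA_of hlo hup hF hM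
  refine ⟨fun ε hε => ?_, fun φ ν hφ hν hlim => limit_modQ isMod_psi h hφ hν hlim⟩
  obtain ⟨M, -, h1⟩ := law_modQ isMod_psi h hε
  exact ⟨M, h1⟩

end NTSF.Mod
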