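import Pool.Agent.NTS.EndLaw

/-!
NTW for EVERY step number, second form (project TAIL, helper83): **`NTSF.Mod.result_v2`** = the theorem with the modulus of
continuity `|s - t| ^ (3 / 4) * (1 - log |s - t|) ^ (1 / 4)` and without atoms of the end point, from the facts about the
words with n letters.
-/

set_option autoImplicit false

namespace NTSF.Mod

open NTSF

open Finset MeasureTheory Filter Topology

open HexObs hiding pos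

open HexObs.SDN HexObs.NTW HexObs.TS

open Pool.Agent.NTS.Res

open scoped ENNReal Classical

/-- **the final theorem for EVERY step number, second form** -/
theorem result_v2 {m : ℕ → ℝ} (hlo : ∃ c : ℝ, 0 < c ∧ ∀ k : ℕ, c * (2 : ℝ) ^ (4 / 3 * (k : ℝ)) ≤ m k)
    (hup : ∃ C : ℝ, ∀ k : ℕ, m k ≤ C * (2 : ℝ) ^ (4 / 3 * (k : ℝ))) (hF : FactsX m) {b : Prop} (hE : ConclE b)
    (hM : ModuX m) (hL : LowCQ m) :
    (∃ c C : ℝ, 0 < c ∧ ∀ n : ℕ, 1 ≤ n →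
      c * (n : ℝ) ^ (3 / 4 : ℝ) ≤ size n ∧ size n ≤ C * (n : ℝ) ^ (3 / 4 : ℝ)) ∧
    (∀ n : ℕ, IsProbabilityMeasure (law n)) ∧
    (∀ ε : ℝ, 0 < ε → ∃ M : ℝ, ∀ n : ℕ, 1 ≤ n → law n {γ : C(unitInterval, ℂ) | ¬ ∀ s t : unitInterval,
      ‖γ s - γ t‖ ≤ M * (|(s : ℝ) - t| ^ (3 / 4 : ℝ) * (1 - Real.log |(s : ℝ) - t|) ^ (1 / 4 : ℝ))} ≤
        ENNReal.ofReal ε) ∧
    IsTightMeasureSet {μ | ∃ n : ℕ, 1 ≤ n ∧ μ = law n} ∧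
    (∀ φ : ℕ → ℕ, StrictMono φ → ∃ ψ : ℕ → ℕ, StrictMono ψ ∧ ∃ ν : Measure C(unitInterval, ℂ),
      IsProbabilityMeasure ν ∧ LawTo (fun k => φ (ψ k)) ν) ∧
    ∀ (φ : ℕ → ℕ) (ν : Measure C(unitInterval, ℂ)), Tendsto φ atTop atTop → IsProbabilityMeasure ν → LawTo φ ν →
      (∀ᵐ γ : C(unitInterval, ℂ) ∂ν, γ 0 = 0 ∧ ∃ M : ℝ, ∀ s t : unitInterval,
        ‖γ s - γ t‖ ≤ M * (|(s : ℝ) - t| ^ (3 / 4 : ℝ) * (1 - Real.log |(s : ℝ) - t|) ^ (1 / 4 : ℝ))) ∧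
      (∀ z : ℂ, ν {γ : C(unitInterval, ℂ) | γ 1 = z} = 0) ∧
      ∫ γ : C(unitInterval, ℂ), ‖γ 1‖ ^ 2 ∂ν = 1 := by
  obtain ⟨c, C, hc, h1, h2, -, h4, h5, h6⟩ := hE
  obtain ⟨h7, h8⟩ := concl_mod hlo hup hF hM
  refine ⟨⟨c, C, hc, h1⟩, h2, h7, h4, h5, fun φ ν hφ hν hlim => ⟨?_, ?_, (h6 φ ν hφ hν hlim).2⟩⟩
  · filter_upwards [(h6 φ ν hφ hν hlim).1, h8 φ ν hφ hν hlim] with γ a b
    exact ⟨a.1, b⟩
  · exact noatom_of hlo hup hF hL hφ hν hlim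

end NTSF.Mod
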